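import Pool.Agent.Lib.MP_aafd8a_gt.Spec3

/-!
# MP_aafd8a_gt, disproof for `n = 3`: interface of the blocks

`K_c = Geo (capK 3 c _)`, `c = - cos r`. Blocks:

* `SA1` (normal form just above `c = 1 / 4`): a map from a sphere to `K_c` is homotopic to a map of the form `J (g z, D z)`.
* `SA2` (perfectness of the binary icosahedral group): such maps are null homotopic in dimension at most `15`.
* `SB` (local parity at `c = 1 - 1 / √2`): `K_(c-)` is not `14`-connected or `K_(c+)` is not `15`-connected.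
* `SNeg`: the connectivity is not monotone for `n = 3`.

`RS`: the ordered regular simplices inscribed in the sphere `S^3`; `RSq`: the unordered ones.
-/

set_option autoImplicit false

open Topology RealInnerProductSpace

namespace Pool.Agent.MPaafd8a

/-- The ordered regular simplices in `S^3`. -/
def RS : Type := {v : Fin 5 → Sph 3 // ∀ i j, i ≠ j → ⟪(v i : Eu 3), (v j : Eu 3)⟫ = -(1 / 4 : ℝ)}

instance : TopologicalSpace RS := instTopologicalSpaceSubtype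

/-- Permutations of the vertices. -/
instance : MulAction (Equiv.Perm (Fin 5)) RS where
  smul s v := ⟨fun i => v.1 (s⁻¹ i), fun i j h => v.2 _ _ fun e => h (s⁻¹.injective e)⟩
  one_smul v := rfl
  mul_smul s t v := by
    apply Subtype.ext
    funext i
    change v.1 ((s * t)⁻¹ i) = v.1 (t⁻¹ (s⁻¹ i))
    rw [mul_inv_rev, Equiv.Perm.mul_apply]

theorem smul_RS (s : Equiv.Perm (Fin 5)) (v : RS) (i : Fin 5) : (s • v).1 i = v.1 (s⁻¹ i) := rfl

/-- The space of regular simplices in `S^3`. -/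
def RSq : Type := MulAction.orbitRel.Quotient (Equiv.Perm (Fin 5)) RS

instance : TopologicalSpace RSq := instTopologicalSpaceQuotient

/-- The class of an ordered regular simplex. -/
def mkR (v : RS) : RSq := Quotient.mk _ v

/-- **(A-ii)** Maps of the form `J (g z, D z)` are null homotopic in dimension at most `15`. -/
def SA2 : Prop :=
  ∀ (K : Type) [TopologicalSpace K] (k₀ : K) (J : C(RSq × (Fin 13 → ℝ), K)),
    (∀ x d, 1 ≤ ‖d‖ → J (x, d) = k₀) → ∀ i : ℕ, i ≤ 15 →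
    ∀ (D : C(CSph (i + 1), Fin 13 → ℝ)) (g : C({z : CSph (i + 1) // ‖D z‖ ≤ 1}, RSq))
      (f : C(CSph (i + 1), K)), (∀ (z : CSph (i + 1)) (h : ‖D z‖ ≤ 1), f z = J (g ⟨z, h⟩, D z)) →
      (∀ z, 1 ≤ ‖D z‖ → f z = k₀) → ∃ y : K, f.Homotopic (ContinuousMap.const _ y)

/-- **(A-i)** The normal form just above `1 / 4`. -/
def SA1 : Prop :=
  ∃ ε₀ : ℝ, 0 < ε₀ ∧ ∀ (c : ℝ) (hc : -1 < c), 1 / 4 < c → c < 1 / 4 + ε₀ →
    ∀ (i : ℕ) (F : C(CSph (i + 1), Geo (capK 3 c hc))),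
      ∃ (k₀ : Geo (capK 3 c hc)) (J : C(RSq × (Fin 13 → ℝ), Geo (capK 3 c hc)))
        (D : C(CSph (i + 1), Fin 13 → ℝ)) (g : C({z : CSph (i + 1) // ‖D z‖ ≤ 1}, RSq))
        (f : C(CSph (i + 1), Geo (capK 3 c hc))),
        (∀ x d, 1 ≤ ‖d‖ → J (x, d) = k₀) ∧
        (∀ (z : CSph (i + 1)) (h : ‖D z‖ ≤ 1), f z = J (g ⟨z, h⟩, D z)) ∧
        (∀ z, 1 ≤ ‖D z‖ → f z = k₀) ∧ F.Homotopic f

/-- **(A)** (from `SA1`, `SA2`, `SCube`; 40 lines). -/
def SA : Prop :=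
  ∃ ε₀ : ℝ, 0 < ε₀ ∧ ∀ (c : ℝ) (hc : -1 < c), 1 / 4 < c → c < 1 / 4 + ε₀ →
    ConnAtLeast 15 (Geo (capK 3 c hc))

/-- The critical value `1 - 1 / √2`. -/
noncomputable def cst : ℝ := 1 - 1 / Real.sqrt 2

/-- **(B)** Local parity at `cst`. -/
def SB : Prop :=
  ∀ c₁ : ℝ, c₁ < cst → ∃ (cm cp : ℝ) (hm : -1 < cm) (hp : -1 < cp), c₁ < cm ∧ cm < cst ∧ cst < cp ∧
    cp < 1 ∧ ¬ (ConnAtLeast 14 (Geo (capK 3 cm hm)) ∧ ConnAtLeast 15 (Geo (capK 3 cp hp)))

/-- **DISPROOF** (from `SA`, `SB`, `SFace`; 120 lines). PROOF. Otherwise the connectivity is monotone for `n = 3`. Take `c_A` with `1 / 4 < c_A < 1 / 4 + ε₀`, `c_A < cst` (`1 / 4 < cst`: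
`√2 > 4 / 3`), `ConnAtLeast 15 (K c_A)`; `cm, cp` from `SB` for `c₁ = c_A`. With `r = arccos (-c)` (`cech 3 r = capK 3 c`, `SFace`): `15 ≤ conn (K c_A) ≤ conn (K cm)`, `≤ conn (K cp)`. `ConnAtLeast` is downward closed in `k`, so `conn Y ≥ 15` gives `ConnAtLeast 15 Y`: the supremum of the `k` is at least `15`, so
some `k ≥ 15` or (if all `k ≤ 14` then the supremum is at most `14`). A contradiction to `SB`. -/
def SNeg : Prop :=
  ¬ ∀ n : ℕ, 1 ≤ n → ∀ (r r' : ℝ) (h : 0 < r) (h' : 0 < r'), r < r' → r' < Real.pi →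
    conn (Geo (cech n r h)) ≤ conn (Geo (cech n r' h'))

end Pool.Agent.MPaafd8a
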