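import Pool.Agent.Lib.MP_aafd8a_gt_D.Frame

/-!
# MP_aafd8a_gt, disproof for `n = 3`: block (A) from (A-i) and (A-ii)
-/

set_option autoImplicit false

open Topology RealInnerProductSpace

namespace Pool.Agent.MPaafd8a

theorem pA : SA1 → SA2 → SCube → SA := by
  intro h1 h2 hC
  obtain ⟨ε₀, h0, h1⟩ := h1
  refine ⟨ε₀, h0, fun c hc hc1 hc2 => ⟨⟨vtx _ ⟨EuclideanSpace.single 0 1, by simp⟩⟩, ?_⟩⟩
  intro i hi y
  refine hC _ i ?_ y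
  intro F
  obtain ⟨k₀, J, D, g, f, hJ, hf, hk, hF⟩ := h1 c hc hc1 hc2 i F
  obtain ⟨y', hy'⟩ := h2 _ k₀ J hJ i (by omega) D g f hf hk
  exact ⟨y', hF.trans hy'⟩

end Pool.Agent.MPaafd8a
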