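import Pool.Agent.Lib.MP_aafd8a_gt_D.SpecA

/-!
# MP_aafd8a_gt, disproof for `n = 3`, block (A-i), module Alg: regular simplices, frame identities
-/

set_option autoImplicit false

open Topology RealInnerProductSpace

namespace Pool.Agent.MPaafd8a

namespace AlgAux

/-- The standard basis. -/
noncomputable def sb (k : Fin (3 + 1)) : Eu 3 := EuclideanSpace.single k 1

theorem sb_inner (k : Fin (3 + 1)) (x : Eu 3) : ⟪sb k, x⟫ = x k := by
  unfold sb
  rw [EuclideanSpace.inner_single_left]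
  simp

theorem inner_sb (k : Fin (3 + 1)) (x : Eu 3) : ⟪x, sb k⟫ = x k := by
  rw [real_inner_comm, sb_inner]

theorem sb_norm (k : Fin (3 + 1)) : ‖sb k‖ = 1 := by
  unfold sb
  simp

theorem inner_coord (x y : Eu 3) : ⟪x, y⟫ = ∑ k, x k * y k := by
  rw [PiLp.inner_apply]
  refine Finset.sum_congr rfl fun k _ => ?_
  show y k * x k = x k * y k
  ring

theorem rep (x : Eu 3) : x = ∑ k, x k • sb k := by
  ext j
  unfold sb
  simp [Finset.sum_apply, EuclideanSpace.single, Pi.single_apply]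

theorem inn {u : Fin 5 → Eu 3} (h : IsS u) (i j : Fin 5) :
    ⟪u i, u j⟫ = if i = j then (1 : ℝ) else -(1 / 4) := by
  split_ifs with hij
  · subst hij
    rw [real_inner_self_eq_norm_sq, h.1 i]
    norm_num
  · exact h.2 i j hij

theorem row {u : Fin 5 → Eu 3} (h : IsS u) (j : Fin 5) : ∑ i, ⟪u i, u j⟫ = 0 := by
  simp only [inn h]
  fin_cases j <;> simp [Fin.sum_univ_succ] <;> norm_num

theorem sum0 {u : Fin 5 → Eu 3} (h : IsS u) : ∑ i, u i = 0 := by
  have h1 : ⟪∑ i, u i, ∑ i, u i⟫ = 0 := by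
    rw [inner_sum]
    refine Finset.sum_eq_zero fun j _ => ?_
    rw [sum_inner]
    exact row h j
  exact inner_self_eq_zero.1 h1

/-- The frame operator. -/
noncomputable def TT (u : Fin 5 → Eu 3) : Eu 3 →L[ℝ] Eu 3 := ∑ i, tp (u i)

theorem TT_apply (u : Fin 5 → Eu 3) (x : Eu 3) : TT u x = ∑ i, ⟪x, u i⟫ • u i := by
  unfold TT
  rw [_root_.sum_apply]
  refine Finset.sum_congr rfl fun i _ => ?_
  rw [tp_apply, real_inner_comm]

theorem TT_u {u : Fin 5 → Eu 3} (h : IsS u) (j : Fin 5) : TT u (u j) = (5 / 4 : ℝ) • u j := by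
  rw [TT_apply]
  have h1 : ∀ i, ⟪u j, u i⟫ • u i = (-(1 / 4) : ℝ) • u i + if j = i then (5 / 4 : ℝ) • u i else 0 := by
    intro i
    rw [inn h]
    split_ifs with hij
    · rw [← add_smul]
      norm_num
    · rw [add_zero]
  rw [Finset.sum_congr rfl fun i _ => h1 i, Finset.sum_add_distrib, ← Finset.smul_sum, sum0 h,
    smul_zero, zero_add, Finset.sum_ite_eq, if_pos (Finset.mem_univ j)]

theorem TT_TT {u : Fin 5 → Eu 3} (h : IsS u) (x : Eu 3) : TT u (TT u x) = (5 / 4 : ℝ) • TT u x := by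
  conv_lhs => rw [TT_apply u x]
  rw [map_sum, TT_apply, Finset.smul_sum]
  refine Finset.sum_congr rfl fun i _ => ?_
  rw [map_smul, TT_u h, smul_comm]

theorem TT_inner (u : Fin 5 → Eu 3) (x y : Eu 3) : ⟪TT u x, y⟫ = ∑ i, ⟪x, u i⟫ * ⟪y, u i⟫ := by
  rw [TT_apply, sum_inner]
  refine Finset.sum_congr rfl fun i _ => ?_
  rw [real_inner_smul_left, real_inner_comm y (u i)]

theorem TT_symm (u : Fin 5 → Eu 3) (x y : Eu 3) : ⟪TT u x, y⟫ = ⟪x, TT u y⟫ := by
  rw [real_inner_comm (TT u y) x, TT_inner, TT_inner]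
  exact Finset.sum_congr rfl fun i _ => mul_comm _ _

theorem nrm {u : Fin 5 → Eu 3} (h : IsS u) {b : Eu 3} (hb : ‖b‖ = 1) :
    ‖b - (4 / 5 : ℝ) • TT u b‖ ^ 2 = 1 - 4 / 5 * ∑ i, ⟪b, u i⟫ ^ 2 := by
  rw [@norm_sub_sq_real, hb, real_inner_smul_right, norm_smul, mul_pow,
    ← real_inner_self_eq_norm_sq (TT u b), ← TT_symm u (TT u b) b, TT_TT h, real_inner_smul_left,
    real_inner_comm (TT u b) b, TT_inner]
  have h1 : ∑ i, ⟪b, u i⟫ * ⟪b, u i⟫ = ∑ i, ⟪b, u i⟫ ^ 2 :=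
    Finset.sum_congr rfl fun i _ => (sq _).symm
  rw [h1]
  norm_num
  ring

theorem TT_sb {u : Fin 5 → Eu 3} (h : IsS u) (k : Fin (3 + 1)) :
    TT u (sb k) = (5 / 4 : ℝ) • sb k := by
  have h1 : ∑ k, ‖sb k - (4 / 5 : ℝ) • TT u (sb k)‖ ^ 2 = 0 := by
    have h2 : ∀ k, ‖sb k - (4 / 5 : ℝ) • TT u (sb k)‖ ^ 2 = 1 - 4 / 5 * ∑ i, (u i k) ^ 2 := by
      intro k
      rw [nrm h (sb_norm k)]
      simp only [sb_inner]
    rw [Finset.sum_congr rfl fun k _ => h2 k, Finset.sum_sub_distrib, ← Finset.mul_sum,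
      Finset.sum_comm]
    have h3 : ∀ i, ∑ k, (u i k) ^ 2 = 1 := by
      intro i
      have h4 := inner_coord (u i) (u i)
      rw [real_inner_self_eq_norm_sq, h.1 i, one_pow] at h4
      rw [h4]
      exact Finset.sum_congr rfl fun k _ => sq _
    rw [Finset.sum_congr rfl fun i _ => h3 i]
    simp
  have h5 := (Finset.sum_eq_zero_iff_of_nonneg fun k _ => sq_nonneg _).1 h1 k (Finset.mem_univ k)
  have h6 : sb k - (4 / 5 : ℝ) • TT u (sb k) = 0 := norm_eq_zero.1 (pow_eq_zero_iff (by norm_num)|>.1 h5)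
  have h7 : sb k = (4 / 5 : ℝ) • TT u (sb k) := sub_eq_zero.1 h6
  conv_rhs => rw [h7]
  rw [smul_smul]
  norm_num

theorem TT_eq {u : Fin 5 → Eu 3} (h : IsS u) (x : Eu 3) : TT u x = (5 / 4 : ℝ) • x := by
  conv_lhs => rw [rep x]
  conv_rhs => rw [rep x]
  rw [map_sum, Finset.smul_sum]
  refine Finset.sum_congr rfl fun k _ => ?_
  rw [map_smul, TT_sb h, smul_comm]

theorem frame {u : Fin 5 → Eu 3} (h : IsS u) (x y : Eu 3) :
    ∑ i, ⟪x, u i⟫ * ⟪y, u i⟫ = 5 / 4 * ⟪x, y⟫ := by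
  rw [← TT_inner, TT_eq h, real_inner_smul_left]

end AlgAux

open AlgAux in
theorem pAlg : SAlg := by
  intro u h
  refine ⟨sum0 h, fun x => ?_, frame h, fun x C hC hx => ?_, fun N => ?_⟩
  · rw [← TT_apply, TT_eq h]
  · have h1 := frame h x x
    rw [real_inner_self_eq_norm_sq] at h1
    have h2 : ∑ i, ⟪x, u i⟫ * ⟪x, u i⟫ ≤ ∑ _i : Fin 5, C ^ 2 := by
      refine Finset.sum_le_sum fun i _ => ?_
      rw [← sq]
      exact sq_le_sq' (by linarith [neg_abs_le (⟪x, u i⟫ : ℝ), hx i]) ((le_abs_self _).trans (hx i))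
    simp at h2
    have h3 : ‖x‖ ^ 2 ≤ (2 * C) ^ 2 := by nlinarith
    exact abs_le_of_sq_le_sq' h3 (by linarith) |>.2
  · rw [LinearMap.trace_eq_sum_inner (N : Eu 3 →ₗ[ℝ] Eu 3) (EuclideanSpace.basisFun (Fin (3 + 1)) ℝ)]
    have h1 : ∀ i, ⟪N (u i), u i⟫ = ∑ k, ⟪sb k, u i⟫ * ⟪N (sb k), u i⟫ := by
      intro i
      conv_lhs => rw [show N (u i) = ∑ k, (u i k) • N (sb k) by
        conv_lhs => rw [rep (u i)]
        rw [map_sum]
        exact Finset.sum_congr rfl fun k _ => map_smul _ _ _]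
      rw [sum_inner]
      refine Finset.sum_congr rfl fun k _ => ?_
      rw [real_inner_smul_left, sb_inner]
    rw [Finset.sum_congr rfl fun i _ => h1 i, Finset.sum_comm, Finset.mul_sum]
    refine Finset.sum_congr rfl fun k _ => ?_
    rw [frame h]
    simp [sb]

end Pool.Agent.MPaafd8a
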