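import Pool.Agent.Lib.MP_aafd8a_gt_D.SpecB

/-!
# MP_aafd8a_gt, disproof for `n = 3`: stage 1, smoothing
-/

set_option autoImplicit false

open Topology RealInnerProductSpace

namespace Pool.Agent.MPaafd8a

namespace B1Aux

theorem norm_sph (x : Sph 3) : ‖(x : Eu 3)‖ = 1 := mem_sphere_zero_iff_norm.1 x.2

theorem nmz_sph (x : Sph 3) : nmz (x : Eu 3) = x := by
  unfold nmz
  rw [norm_sph, inv_one, one_smul]

/-- a convex combination of two probability weights -/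
theorem pw_comb {p q : Sph 3 →₀ ℝ} (hp : Pw p) (hq : Pw q) {t : ℝ} (h0 : 0 ≤ t) (h1 : t ≤ 1) :
    Pw ((1 - t) • p + t • q) := by
  refine ⟨fun v => ?_, ?_⟩
  · rw [Finsupp.add_apply, Finsupp.smul_apply, Finsupp.smul_apply, smul_eq_mul, smul_eq_mul]
    exact add_nonneg (mul_nonneg (sub_nonneg.2 h1) (hp.1 v)) (mul_nonneg h0 (hq.1 v))
  · rw [Finsupp.sum_add_index' (fun _ => rfl) (fun _ _ _ => rfl), Finsupp.sum_smul_index' (fun _ => rfl),
      Finsupp.sum_smul_index' (fun _ => rfl)]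
    have h2 : (p.sum fun _ a => (1 - t) • a) = (1 - t) * p.sum fun _ a => a := by
      rw [Finsupp.mul_sum]
      rfl
    have h3 : (q.sum fun _ a => t • a) = t * q.sum fun _ a => a := by
      rw [Finsupp.mul_sum]
      rfl
    rw [h2, h3, hp.2, hq.2]
    ring

/-- a value of the smoothed weight -/
theorem sm_apply {A B : Type} [Fintype A] [Fintype B] (u : B → Sph 3) (φ : B → Eu 3 → ℝ) (α : A → ℝ)
    (P : A → Eu 3) (v : Sph 3) :
    sm u φ α P v = ∑ a, ∑ b, α a * (Finsupp.single (u b) (φ b (P a)) : Sph 3 →₀ ℝ) v := by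
  unfold sm
  rw [Finsupp.finsetSum_apply]
  refine Finset.sum_congr rfl fun a _ => ?_
  rw [Finsupp.finsetSum_apply]
  refine Finset.sum_congr rfl fun b _ => ?_
  have h : (Finsupp.single (u b) (α a * φ b (P a)) : Sph 3 →₀ ℝ) = α a • Finsupp.single (u b) (φ b (P a)) := by
    rw [Finsupp.smul_single, smul_eq_mul]
  rw [h, Finsupp.smul_apply, smul_eq_mul]

/-- a point of the support of the mixed weight is near a point of the support of the weight -/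
theorem near {T : Finset (Sph 3)} {B : Type} [Fintype B] {u : B → Sph 3} {φ : B → Eu 3 → ℝ} {ρ : ℝ} (hρ : 0 < ρ)
    (z : T → ℝ) (hs : ∀ x, 0 < sm u φ z (fun x : T => ((x : Sph 3) : Eu 3)) x →
      ∃ a b, 0 < z a ∧ 0 < φ b ((a : Sph 3) : Eu 3) ∧ x = u b ∧ ‖(x : Eu 3) - nmz ((a : Sph 3) : Eu 3)‖ < ρ)
    {t : ℝ} (h0 : 0 ≤ t) (hz : ∀ a, 0 ≤ ext0 z a) (v : Sph 3)
    (hv : 0 < ((1 - t) • ext0 z + t • sm u φ z (fun x : T => ((x : Sph 3) : Eu 3))) v) :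
    ∃ v₀ : Sph 3, 0 < ext0 z v₀ ∧ v₀ ∈ T ∧ ‖(v : Eu 3) - v₀‖ < ρ := by
  rw [Finsupp.add_apply, Finsupp.smul_apply, Finsupp.smul_apply, smul_eq_mul, smul_eq_mul] at hv
  by_cases h2 : 0 < ext0 z v
  · have h3 : v ∈ T := by
      by_contra h4
      rw [ext0_notMem z h4] at h2
      exact lt_irrefl _ h2
    exact ⟨v, h2, h3, by rw [sub_self, norm_zero]; exact hρ⟩
  · have h3 : ext0 z v = 0 := le_antisymm (not_lt.1 h2) (hz v)
    rw [h3, mul_zero, zero_add] at hv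
    have h4 : 0 < sm u φ z (fun x : T => ((x : Sph 3) : Eu 3)) v := by
      by_contra h5
      exact absurd hv (not_lt.2 (mul_nonpos_of_nonneg_of_nonpos h0 (not_lt.1 h5)))
    obtain ⟨a, b, ha, -, -, hb⟩ := hs v h4
    rw [nmz_sph] at hb
    refine ⟨a, ?_, a.2, hb⟩
    rw [ext0_mem z a.2]
    exact ha

/-- the support of the mixed weight -/
theorem supp {T T' : Finset (Sph 3)} {B : Type} [Fintype B] {u : B → Sph 3} {φ : B → Eu 3 → ℝ} (hT : T ⊆ T')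
    (hu : ∀ b, u b ∈ T') (z : T → ℝ) (t : ℝ) :
    ((1 - t) • ext0 z + t • sm u φ z (fun x : T => ((x : Sph 3) : Eu 3))).support ⊆ T' := by
  intro v hv
  by_contra hvT
  rw [Finsupp.mem_support_iff] at hv
  apply hv
  rw [Finsupp.add_apply, Finsupp.smul_apply, Finsupp.smul_apply, ext0_notMem z fun h => hvT (hT h), smul_zero,
    zero_add, sm_apply]
  have h1 : ∀ (a : T) (b : B), z a * (Finsupp.single (u b) (φ b ((a : Sph 3) : Eu 3)) : Sph 3 →₀ ℝ) v = 0 := by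
    intro a b
    rw [Finsupp.single_eq_of_ne, mul_zero]
    rintro rfl
    exact hvT (hu b)
  rw [Finset.sum_eq_zero fun a _ => Finset.sum_eq_zero fun b _ => h1 a b, smul_zero]

/-- the pairing of two near points -/
theorem inner_lt {c ρ m : ℝ} (hm : 2 * ρ ≤ m) {v w v₀ w₀ : Sph 3} (h : ⟪(v₀ : Eu 3), (w₀ : Eu 3)⟫ ≤ c - m)
    (hv : ‖(v : Eu 3) - v₀‖ < ρ) (hw : ‖(w : Eu 3) - w₀‖ < ρ) : ⟪(v : Eu 3), (w : Eu 3)⟫ < c := by
  have h1 : ⟪(v : Eu 3), (w : Eu 3)⟫ = ⟪(v₀ : Eu 3), (w₀ : Eu 3)⟫ + ⟪(v : Eu 3) - v₀, (w : Eu 3)⟫ +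
      ⟪(v₀ : Eu 3), (w : Eu 3) - w₀⟫ := by
    rw [inner_sub_left, inner_sub_right]
    ring
  have h2 : ⟪(v : Eu 3) - v₀, (w : Eu 3)⟫ ≤ ‖(v : Eu 3) - v₀‖ := by
    have h3 := real_inner_le_norm ((v : Eu 3) - v₀) (w : Eu 3)
    rwa [norm_sph, mul_one] at h3
  have h4 : ⟪(v₀ : Eu 3), (w : Eu 3) - w₀⟫ ≤ ‖(w : Eu 3) - w₀‖ := by
    have h3 := real_inner_le_norm (v₀ : Eu 3) ((w : Eu 3) - w₀)
    rwa [norm_sph, one_mul] at h3
  rw [h1]
  linarith

/-- continuity of the values of the mixed weight -/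
theorem cont {X : Type} [TopologicalSpace X] {T : Finset (Sph 3)} {B : Type} [Fintype B] (u : B → Sph 3)
    (φ : B → Eu 3 → ℝ) (τ : X → ℝ) (ζ : X → T → ℝ) (hτ : Continuous τ) (hζ : ∀ a, Continuous fun x => ζ x a)
    (v : Sph 3) : Continuous fun x =>
      ((1 - τ x) • ext0 (ζ x) + τ x • sm u φ (ζ x) (fun x : T => ((x : Sph 3) : Eu 3))) v := by
  have h1 : (fun x => ((1 - τ x) • ext0 (ζ x) + τ x • sm u φ (ζ x) (fun x : T => ((x : Sph 3) : Eu 3))) v) =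
      fun x => (1 - τ x) * ext0 (ζ x) v + τ x * ∑ a, ∑ b, ζ x a *
        (Finsupp.single (u b) (φ b ((a : Sph 3) : Eu 3)) : Sph 3 →₀ ℝ) v := by
    funext x
    rw [Finsupp.add_apply, Finsupp.smul_apply, Finsupp.smul_apply, smul_eq_mul, smul_eq_mul, sm_apply]
  have h2 : Continuous fun x => ext0 (ζ x) v := by
    by_cases hv : v ∈ T
    · have h3 : (fun x => ext0 (ζ x) v) = fun x => ζ x ⟨v, hv⟩ := funext fun x => ext0_mem _ hv
      rw [h3]
      exact hζ _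
    · have h3 : (fun x => ext0 (ζ x) v) = fun _ => 0 := funext fun x => ext0_notMem _ hv
      rw [h3]
      exact continuous_const
  rw [h1]
  refine ((continuous_const.sub hτ).mul h2).add (hτ.mul ?_)
  exact continuous_finsetSum _ fun a _ => continuous_finsetSum _ fun b _ => (hζ a).mul continuous_const

end B1Aux

open B1Aux in
theorem pB1 : SYT → SSmP → SB1 := by
  intro hYT hSm c ρ m T T' B _ u φ hρ hnet hm hgap hTT' huT'
  have h1 := (hYT c T).1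
  have hP : ∀ a : T, (1 : ℝ) / 2 ≤ ‖((a : Sph 3) : Eu 3)‖ := by
    intro a
    rw [norm_sph]
    norm_num
  have hsm : ∀ ζ : T → ℝ, ζ ∈ stdSimplex ℝ T →
      Pw (sm u φ ζ (fun x : T => ((x : Sph 3) : Eu 3))) ∧
      ∀ x, 0 < sm u φ ζ (fun x : T => ((x : Sph 3) : Eu 3)) x →
        ∃ a b, 0 < ζ a ∧ 0 < φ b ((a : Sph 3) : Eu 3) ∧ x = u b ∧
          ‖(x : Eu 3) - nmz ((a : Sph 3) : Eu 3)‖ < ρ := by
    intro ζ hζ
    have h2 := hSm ρ T B u φ ζ (fun x : T => ((x : Sph 3) : Eu 3)) hρ hnet hζ.1 hζ.2 fun a _ => hP a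
    exact ⟨h2.1, h2.2.1⟩
  have hz1 : ∀ z : YT c T, z.1.1 ∈ stdSimplex ℝ T := fun z => z.2.1
  have hz2 : ∀ z : YT c T, z.1.2 ∈ stdSimplex ℝ T := fun z => z.2.2.1
  have hc1 : ∀ a : T, Continuous fun z : YT c T => z.1.1 a := by
    intro a
    have h2 := ((hYT c T).2.1 a).1
    have h3 : (fun z : YT c T => yp z a) = fun z => z.1.1 a := funext fun z => ext0_mem _ a.2
    rwa [h3] at h2
  have hc2 : ∀ a : T, Continuous fun z : YT c T => z.1.2 a := by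
    intro a
    have h2 := ((hYT c T).2.1 a).2
    have h3 : (fun z : YT c T => yq z a) = fun z => z.1.2 a := funext fun z => ext0_mem _ a.2
    rwa [h3] at h2
  have hτ : Continuous fun x : unitInterval × YT c T => ((x.1 : unitInterval) : ℝ) :=
    continuous_subtype_val.comp continuous_fst
  obtain ⟨k, hk⟩ := (hYT c T').2.2.2.2.1 (unitInterval × YT c T)
    (fun x => (1 - ((x.1 : unitInterval) : ℝ)) • ext0 x.2.1.1 + ((x.1 : unitInterval) : ℝ) •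
      sm u φ x.2.1.1 (fun x : T => ((x : Sph 3) : Eu 3)))
    (fun x => (1 - ((x.1 : unitInterval) : ℝ)) • ext0 x.2.1.2 + ((x.1 : unitInterval) : ℝ) •
      sm u φ x.2.1.2 (fun x : T => ((x : Sph 3) : Eu 3))) (by
      rintro ⟨t, z⟩
      obtain ⟨g1, g2, g3, -, -⟩ := h1 z
      obtain ⟨s1, s2⟩ := hsm z.1.1 (hz1 z)
      obtain ⟨r1, r2⟩ := hsm z.1.2 (hz2 z)
      refine ⟨pw_comb g1 s1 t.2.1 t.2.2, pw_comb g2 r1 t.2.1 t.2.2, ?_, supp hTT' huT' _ _, supp hTT' huT' _ _⟩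
      intro v w hv hw
      obtain ⟨v₀, hv1, hv2, hv3⟩ := near hρ z.1.1 s2 t.2.1 g1.1 v hv
      obtain ⟨w₀, hw1, hw2, hw3⟩ := near hρ z.1.2 r2 t.2.1 g2.1 w hw
      exact inner_lt hm (hgap v₀ hv2 w₀ hw2 (g3 v₀ w₀ hv1 hw1)) hv3 hw3)
    (fun v => cont u φ _ _ hτ (fun a => (hc1 a).comp continuous_snd) v)
    (fun v => cont u φ _ _ hτ (fun a => (hc2 a).comp continuous_snd) v)
  exact ⟨k, fun t z => hk (t, z)⟩

end Pool.Agent.MPaafd8a
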