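import Pool.Agent.Lib.MP_aafd8a_gt_D.SpecB

/-!
# MP_aafd8a_gt, disproof for n = 3, block (A-i): stage 2 (moving the points)
-/

set_option autoImplicit false

open Topology RealInnerProductSpace

namespace Pool.Agent.MPaafd8a

namespace B2Aux

theorem yp_apply {c : ℝ} {T : Finset (Sph 3)} (z : YT c T) (x : T) : yp z (x : Sph 3) = z.1.1 x :=
  ext0_mem _ x.2

theorem yq_apply {c : ℝ} {T : Finset (Sph 3)} (z : YT c T) (x : T) : yq z (x : Sph 3) = z.1.2 x :=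
  ext0_mem _ x.2

theorem compact_YS (h : SYT) (c : ℝ) (T : Finset (Sph 3)) (r : ℝ) : CompactSpace (YS c T r) := by
  have hc : Continuous (fun z : YT c T => Dz z) := (h c T).2.2.1
  have h1 : IsClosed {z : YT c T | ‖Dz z‖ ≤ r} := isClosed_le hc.norm continuous_const
  exact isCompact_iff_compactSpace.1 h1.isCompact

/-- The moved point of the first support. -/
noncomputable def mvP (v : RS) (w : WV) (t : ℝ) (x : Sph 3) : Eu 3 :=
  (1 - t) • (x : Eu 3) + t • ∑ i, cl (fv v) x i • av (fv v) w i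

/-- The moved point of the second support. -/
noncomputable def mvQ (v : RS) (w : WV) (t : ℝ) (x : Sph 3) : Eu 3 :=
  (1 - t) • (x : Eu 3) + t • ∑ i, cl (fun j => -fv v j) x i • bv (fv v) w i

theorem mvP_smul (hE : SEqv) (s : Equiv.Perm (Fin 5)) (v : RS) (w : WV) (t : ℝ) (x : Sph 3) :
    mvP (s • v) w t x = mvP v w t x := by
  unfold mvP
  have h : ∑ i, cl (fv (s • v)) x i • av (fv (s • v)) w i = ∑ i, cl (fv v) x i • av (fv v) w i := by
    rw [← Equiv.sum_comp s⁻¹ (fun i => cl (fv v) x i • av (fv v) w i)]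
    refine Finset.sum_congr rfl fun i _ => ?_
    rw [(hE.2.1 s v x i).1, (hE.1 s v w i).2.2.1]
  rw [h]

theorem mvQ_smul (hE : SEqv) (s : Equiv.Perm (Fin 5)) (v : RS) (w : WV) (t : ℝ) (x : Sph 3) :
    mvQ (s • v) w t x = mvQ v w t x := by
  unfold mvQ
  have h : ∑ i, cl (fun j => -fv (s • v) j) x i • bv (fv (s • v)) w i =
      ∑ i, cl (fun j => -fv v j) x i • bv (fv v) w i := by
    rw [← Equiv.sum_comp s⁻¹ (fun i => cl (fun j => -fv v j) x i • bv (fv v) w i)]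
    refine Finset.sum_congr rfl fun i _ => ?_
    rw [(hE.2.1 s v x i).2, (hE.1 s v w i).2.2.2]
  rw [h]

theorem continuous_mvP (hE : SEqv) {X : Type} [TopologicalSpace X] {v : X → RS} {w : X → WV} {t : X → ℝ}
    (hv : Continuous v) (hw : Continuous w) (ht : Continuous t) (x : Sph 3) :
    Continuous fun s => mvP (v s) (w s) (t s) x := by
  unfold mvP
  refine ((continuous_const.sub ht).smul continuous_const).add (ht.smul (continuous_finsetSum _ fun i _ => ?_))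
  exact ((hE.2.2.2 x i).1.comp hv).smul ((hE.2.2.1 i).2.2.1.comp (hv.prodMk hw))

theorem continuous_mvQ (hE : SEqv) {X : Type} [TopologicalSpace X] {v : X → RS} {w : X → WV} {t : X → ℝ}
    (hv : Continuous v) (hw : Continuous w) (ht : Continuous t) (x : Sph 3) :
    Continuous fun s => mvQ (v s) (w s) (t s) x := by
  unfold mvQ
  refine ((continuous_const.sub ht).smul continuous_const).add (ht.smul (continuous_finsetSum _ fun i _ => ?_))
  exact ((hE.2.2.2 x i).2.comp hv).smul ((hE.2.2.1 i).2.2.2.comp (hv.prodMk hw))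

theorem et_le : et ≤ 1 / 4 := by
  unfold et
  norm_num

/-- The moved point of the first support is on the way to a point of the model. -/
theorem mvP_eq (hC : SClu) {κ κ' ε : ℝ} (hL : Loc κ κ' ε) {p q : Sph 3 →₀ ℝ} (hp : Pw p) (hq : Pw q)
    (hpq : Cpt2 (1 / 4 + ε) p q) (hD : ‖Dm 1 p q‖ ≤ κ * √ε) {v : RS} (hG : Gd (fv v) p q)
    (hB : Bal (fv v) (vb (fv v) p)) {x : Sph 3} (hx : 0 < p x) (t : ℝ) :
    ∃ i, mvP v (Dm 1 p q) t x = (1 - t) • (x : Eu 3) + t • av (fv v) (Dm 1 p q) i ∧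
      ‖(x : Eu 3) - av (fv v) (Dm 1 p q) i‖ ≤ κ' * ε := by
  obtain ⟨i, hi⟩ := hG.1 x hx
  have h1 := (hC (fv v) et p (isS_fv v) et_le hp hG.1).1 x i (hi.trans et_le)
  refine ⟨i, ?_, ?_⟩
  · unfold mvP
    rw [Finset.sum_eq_single i, h1.1, one_smul]
    · intro j _ hj
      rw [(h1.2 j hj).1, zero_smul]
    · intro h
      exact absurd (Finset.mem_univ i) h
  · exact (hL.2.2.2.2.2.1 p q v hp hq hpq hD hG hB).1 x i hx hi

/-- The moved point of the second support is on the way to a point of the model. -/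
theorem mvQ_eq (hC : SClu) {κ κ' ε : ℝ} (hL : Loc κ κ' ε) {p q : Sph 3 →₀ ℝ} (hp : Pw p) (hq : Pw q)
    (hpq : Cpt2 (1 / 4 + ε) p q) (hD : ‖Dm 1 p q‖ ≤ κ * √ε) {v : RS} (hG : Gd (fv v) p q)
    (hB : Bal (fv v) (vb (fv v) p)) {x : Sph 3} (hx : 0 < q x) (t : ℝ) :
    ∃ i, mvQ v (Dm 1 p q) t x = (1 - t) • (x : Eu 3) + t • bv (fv v) (Dm 1 p q) i ∧
      ‖(x : Eu 3) - bv (fv v) (Dm 1 p q) i‖ ≤ κ' * ε := by
  obtain ⟨i, hi⟩ := hG.2.1 x hx
  have h1 := (hC (fun j => -fv v j) et q (isS_neg (isS_fv v)) et_le hq hG.2.1).1 x i (hi.trans et_le)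
  refine ⟨i, ?_, ?_⟩
  · unfold mvQ
    rw [Finset.sum_eq_single i, h1.1, one_smul]
    · intro j _ hj
      rw [(h1.2 j hj).1, zero_smul]
    · intro h
      exact absurd (Finset.mem_univ i) h
  · refine (hL.2.2.2.2.2.1 p q v hp hq hpq hD hG hB).2.1 x i hx ?_
    rw [← sub_neg_eq_add]
    exact hi

/-- The inequality on the way. -/
theorem key (hMo : SMo) (hC : SClu) (hPa : SPath) {κ κ' ε m : ℝ} (hL : Loc κ κ' ε) (hm0 : 0 ≤ m) (hm : m ≤ ε / 4)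
    {p q : Sph 3 →₀ ℝ} (hp : Pw p) (hq : Pw q)
    (hpq : Cpt2 (1 / 4 + ε) p q) (hD : ‖Dm 1 p q‖ ≤ κ * √ε) {v : RS} (hG : Gd (fv v) p q)
    (hB : Bal (fv v) (vb (fv v) p)) {x y : Sph 3} (hx : 0 < p x) (hy : 0 < q y)
    (hxy : ⟪(x : Eu 3), (y : Eu 3)⟫ ≤ 1 / 4 + ε - m) {t : ℝ} (h0 : 0 ≤ t) (h1 : t ≤ 1) :
    1 / 2 ≤ ‖mvP v (Dm 1 p q) t x‖ ∧ 1 / 2 ≤ ‖mvQ v (Dm 1 p q) t y‖ ∧
    ⟪mvP v (Dm 1 p q) t x, mvQ v (Dm 1 p q) t y⟫ ≤
      (1 / 4 + ε - m) * (‖mvP v (Dm 1 p q) t x‖ * ‖mvQ v (Dm 1 p q) t y‖) := by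
  obtain ⟨i, hi, hi'⟩ := mvP_eq hC hL hp hq hpq hD hG hB hx t
  obtain ⟨j, hj, hj'⟩ := mvQ_eq hC hL hp hq hpq hD hG hB hy t
  have hw : Dm 1 p q ∈ W0 3 := (hMo 3 p q hp hq).1 1
  have h3 := hL.2.2.2.2.2.2 v (Dm 1 p q) hw hD
  have hε0 := hL.1
  have hε1 := hL.2.1
  rw [hi, hj]
  refine hPa (x : Eu 3) (y : Eu 3) (av (fv v) (Dm 1 p q) i) (bv (fv v) (Dm 1 p q) j) (1 / 4 + ε) ε m m (κ' * ε) t
    (mem_sphere_zero_iff_norm.1 x.2) (mem_sphere_zero_iff_norm.1 y.2) (h3.1 i).1 (h3.1 j).2.1 hi' hj' hL.2.2.2.1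
    (by linarith) (by linarith) hm0 (by linarith) le_rfl hm h0 h1 hxy ?_
  have h4 := h3.2.2.2.1 i j
  linarith

end B2Aux

open B2Aux in
/-- **Stage 2.** -/
theorem pB2 : SYT → SMo → SSmC → SQuo → SRelC → SGauU → SClu → SEqv → SPath → SB2 := by
  intro hYT hMo hSm hQ hR hGa hC hE hPa κ κ' ε ρ m T T' B _ u φ hL hρ hN hρm hm hT hu
  have hcomp : CompactSpace (YS (1 / 4 + ε) T (κ * √ε)) := compact_YS hYT _ _ _
  have hm0 : 0 ≤ m := by linarith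
  have hD : ∀ z : YS (1 / 4 + ε) T (κ * √ε), ‖Dm 1 (yp z.1) (yq z.1)‖ ≤ κ * √ε := fun z => z.2
  have hY := fun z : YT (1 / 4 + ε) T => (hYT (1 / 4 + ε) T).1 z
  have hDc : Continuous (fun z : YT (1 / 4 + ε) T => Dz z) := (hYT (1 / 4 + ε) T).2.2.1
  -- the relation
  obtain ⟨R, hRdef⟩ : ∃ R : Set ((unitInterval × YS (1 / 4 + ε) T (κ * √ε)) × RS),
      R = {s | Rel s.1.2.1 s.2} := ⟨_, rfl⟩
  have hRc : IsClosed R := by
    rw [hRdef]
    have h1 := (hR (1 / 4 + ε) T).1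
    have h2 : Continuous fun s : (unitInterval × YS (1 / 4 + ε) T (κ * √ε)) × RS => (s.1.2.1, s.2) :=
      (continuous_subtype_val.comp (continuous_snd.comp continuous_fst)).prodMk continuous_snd
    exact h1.preimage h2
  have hRi : ∀ s : (unitInterval × YS (1 / 4 + ε) T (κ * √ε)) × RS, s ∈ R ↔ Rel s.1.2.1 s.2 := by
    intro s
    rw [hRdef]
    rfl
  have hRm : ∀ s : R, Rel s.1.1.2.1 s.1.2 := fun s => (hRi s.1).1 s.2
  have hRe : ∀ x, ∃ y, (x, y) ∈ R := by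
    intro x
    obtain ⟨h1, h2, h3, -, -⟩ := hY x.2.1
    obtain ⟨v, hv⟩ := hL.2.2.2.2.1 (yp x.2.1) (yq x.2.1) h1 h2 h3 (hD x.2)
    refine ⟨v, ?_⟩
    rw [hRdef]
    exact hv
  -- the map on the relation
  have ht : Continuous fun s : R => (s.1.1.1 : ℝ) :=
    continuous_subtype_val.comp (continuous_fst.comp (continuous_fst.comp continuous_subtype_val))
  have hz : Continuous fun s : R => s.1.1.2.1 :=
    continuous_subtype_val.comp (continuous_snd.comp (continuous_fst.comp continuous_subtype_val))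
  have hv : Continuous fun s : R => s.1.2 := continuous_snd.comp continuous_subtype_val
  have hkey : ∀ (s : R) (x y : T), 0 < s.1.1.2.1.1.1 x → 0 < s.1.1.2.1.1.2 y →
      1 / 2 ≤ ‖mvP s.1.2 (Dz s.1.1.2.1) s.1.1.1 x‖ ∧ 1 / 2 ≤ ‖mvQ s.1.2 (Dz s.1.1.2.1) s.1.1.1 y‖ ∧
      ⟪mvP s.1.2 (Dz s.1.1.2.1) s.1.1.1 x, mvQ s.1.2 (Dz s.1.1.2.1) s.1.1.1 y⟫ ≤
        (1 / 4 + ε - m) * (‖mvP s.1.2 (Dz s.1.1.2.1) s.1.1.1 x‖ * ‖mvQ s.1.2 (Dz s.1.1.2.1) s.1.1.1 y‖) := by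
    intro s x y hx hy
    obtain ⟨h1, h2, h3, -, -⟩ := hY s.1.1.2.1
    have hx' : 0 < yp s.1.1.2.1 (x : Sph 3) := by rw [yp_apply]; exact hx
    have hy' : 0 < yq s.1.1.2.1 (y : Sph 3) := by rw [yq_apply]; exact hy
    exact key hMo hC hPa hL hm0 hm h1 h2 h3 (hD s.1.1.2) (hRm s).1 (hRm s).2 hx' hy'
      (hT x x.2 y y.2 (h3 x y hx' hy')) s.1.1.1.2.1 s.1.1.1.2.2
  have hex1 : ∀ s : R, ∃ x : T, 0 < s.1.1.2.1.1.1 x := by
    intro s
    by_contra hc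
    simp only [not_exists, not_lt] at hc
    have h1 : ∑ x, s.1.1.2.1.1.1 x = 1 := s.1.1.2.1.2.1.2
    have h2 : ∑ x, s.1.1.2.1.1.1 x ≤ 0 := Finset.sum_nonpos fun x _ => hc x
    linarith
  have hex2 : ∀ s : R, ∃ x : T, 0 < s.1.1.2.1.1.2 x := by
    intro s
    by_contra hc
    simp only [not_exists, not_lt] at hc
    have h1 : ∑ x, s.1.1.2.1.1.2 x = 1 := s.1.1.2.1.2.2.1.2
    have h2 : ∑ x, s.1.1.2.1.1.2 x ≤ 0 := Finset.sum_nonpos fun x _ => hc x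
    linarith
  obtain ⟨k, hk⟩ := hSm (1 / 4 + ε) ρ m R T T B u φ (fun x s => s.1.1.2.1.1.1 x)
    (fun x s => mvP s.1.2 (Dz s.1.1.2.1) s.1.1.1 x) (fun x s => s.1.1.2.1.1.2 x)
    (fun x s => mvQ s.1.2 (Dz s.1.1.2.1) s.1.1.1 x) T' hρ hN hρm hu
    (fun x => by
      have h1 := ((hYT (1 / 4 + ε) T).2.1 (x : Sph 3)).1.comp hz
      refine h1.congr fun s => ?_
      exact yp_apply _ x)
    (fun x => continuous_mvP hE hv (hDc.comp hz) ht x)
    (fun x => by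
      have h1 := ((hYT (1 / 4 + ε) T).2.1 (x : Sph 3)).2.comp hz
      refine h1.congr fun s => ?_
      exact yq_apply _ x)
    (fun x => continuous_mvQ hE hv (hDc.comp hz) ht x)
    (fun x s => s.1.1.2.1.2.1.1 x) (fun s => s.1.1.2.1.2.1.2) (fun x s => s.1.1.2.1.2.2.1.1 x)
    (fun s => s.1.1.2.1.2.2.1.2)
    (fun x s hx => by
      obtain ⟨y, hy⟩ := hex2 s
      exact (hkey s x y hx hy).1)
    (fun y s hy => by
      obtain ⟨x, hx⟩ := hex1 s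
      exact (hkey s x y hx hy).2.1)
    (fun x y s hx hy => (hkey s x y hx hy).2.2)
  -- descent
  obtain ⟨ψ, hψ⟩ := hQ (unitInterval × YS (1 / 4 + ε) T (κ * √ε)) RS (YT (1 / 4 + ε) T') R hRc hRe k (by
    intro x v v' h h'
    have hr : Rel x.2.1 v := hRm ⟨(x, v), h⟩
    have hr' : Rel x.2.1 v' := hRm ⟨(x, v'), h'⟩
    obtain ⟨s, hs⟩ := hGa (yp x.2.1) (yq x.2.1) v v' (hY x.2.1).1 hr.1 hr'.1 hr.2 hr'.2
    subst hs
    refine (hYT (1 / 4 + ε) T').2.2.2.2.2 _ _ ?_ ?_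
    · rw [(hk _).1, (hk _).1]
      congr 1
      funext a
      exact (mvP_smul hE s v _ _ _).symm
    · rw [(hk _).2, (hk _).2]
      congr 1
      funext a
      exact (mvQ_smul hE s v _ _ _).symm)
  refine ⟨ψ, fun t z v hv => ?_⟩
  have hmem : ((t, z), v) ∈ R := by
    rw [hRdef]
    exact hv
  have e := hψ (t, z) v hmem
  rw [e]
  exact hk ⟨((t, z), v), hmem⟩

end Pool.Agent.MPaafd8a
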