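import Pool.Agent.Lib.MP_aafd8a_gt_D.SpecB

/-!
# MP_aafd8a_gt, disproof for `n = 3`, block (A-i): the model map
-/

set_option autoImplicit false

open Topology RealInnerProductSpace

namespace Pool.Agent.MPaafd8a

namespace B4Aux

theorem sm_perm {A B : Type} [Fintype A] [Fintype B] (u : B → Sph 3) (φ : B → Eu 3 → ℝ)
    (s : Equiv.Perm A) (α α' : A → ℝ) (P P' : A → Eu 3) (hα : ∀ i, α' i = α (s i))
    (hP : ∀ i, P' i = P (s i)) : sm u φ α' P' = sm u φ α P := by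
  have h1 : α' = fun i => α (s i) := funext hα
  have h2 : P' = fun i => P (s i) := funext hP
  rw [h1, h2]
  unfold sm
  exact Equiv.sum_comp s fun a => ∑ b, Finsupp.single (u b) (α a * φ b (P a))

theorem est {E : Type} [NormedAddCommGroup E] (a b a' b' w : E) (r r' k : ℝ) (h1 : ‖a - a'‖ ≤ r)
    (h2 : ‖b - b'‖ ≤ r) (h3 : ‖a' - b' - w‖ ≤ k) (h4 : 2 * r + k ≤ r') : ‖a - b - w‖ ≤ r' := by
  have e : a - b - w = (a - a') - (b - b') + (a' - b' - w) := by abel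
  rw [e]
  have t1 := norm_add_le ((a - a') - (b - b')) (a' - b' - w)
  have t2 := norm_sub_le (a - a') (b - b')
  linarith

end B4Aux

open B4Aux in
theorem pB4 : SYT → SSmC → SQuo2 → SEqv → SSmP → SB4 := by
  intro hYT hSmC hQuo2 hEqv hSmP κ κ' ε ρ m T' B _ u φ hL hρ hN hρm hmε hu
  obtain ⟨hε, hε1, hκ', -, -, -, hL3⟩ := hL
  obtain ⟨eq1, -, eq3, -⟩ := hEqv
  obtain ⟨-, -, hQ⟩ := hQuo2
  -- the map on ordered simplices
  obtain ⟨k, hk⟩ := hSmC (1 / 4 + ε) ρ m (RS × BW (κ * √ε)) (Fin 5) (Fin 5) B u φ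
    (fun i x => Pm (fv x.1) x.2.1 i) (fun i x => av (fv x.1) x.2.1 i)
    (fun i x => Qm (fv x.1) x.2.1 i) (fun i x => bv (fv x.1) x.2.1 i) T' hρ hN hρm hu
    (fun i => (eq3 i).1.comp (continuous_fst.prodMk (continuous_subtype_val.comp continuous_snd)))
    (fun i => (eq3 i).2.2.1.comp
      (continuous_fst.prodMk (continuous_subtype_val.comp continuous_snd)))
    (fun i => (eq3 i).2.1.comp (continuous_fst.prodMk (continuous_subtype_val.comp continuous_snd)))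
    (fun i => (eq3 i).2.2.2.comp
      (continuous_fst.prodMk (continuous_subtype_val.comp continuous_snd)))
    (fun i x => by
      have := ((hL3 x.1 x.2.1 x.2.2.1 x.2.2.2).1 i).2.2.1
      linarith)
    (fun x => (hL3 x.1 x.2.1 x.2.2.1 x.2.2.2).2.1)
    (fun i x => by
      have := ((hL3 x.1 x.2.1 x.2.2.1 x.2.2.2).1 i).2.2.2
      linarith)
    (fun x => (hL3 x.1 x.2.1 x.2.2.1 x.2.2.2).2.2.1)
    (fun i x _ => by
      have := ((hL3 x.1 x.2.1 x.2.2.1 x.2.2.2).1 i).1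
      linarith)
    (fun i x _ => by
      have := ((hL3 x.1 x.2.1 x.2.2.1 x.2.2.2).1 i).2.1
      linarith)
    (fun i j x _ _ => by
      have h1 := ((hL3 x.1 x.2.1 x.2.2.1 x.2.2.2).1 i).1
      have h2 := ((hL3 x.1 x.2.1 x.2.2.1 x.2.2.2).1 j).2.1
      have h3 := (hL3 x.1 x.2.1 x.2.2.1 x.2.2.2).2.2.2.1 i j
      have h4 : 1 ≤ ‖av (fv x.1) x.2.1 i‖ * ‖bv (fv x.1) x.2.1 j‖ := by nlinarith
      have h5 : (0 : ℝ) ≤ 1 / 4 + ε - m := by linarith
      have h6 := mul_le_mul_of_nonneg_left h4 h5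
      show ⟪av (fv x.1) x.2.1 i, bv (fv x.1) x.2.1 j⟫ ≤ _
      linarith)
  obtain ⟨-, -, -, -, -, hinj⟩ := hYT (1 / 4 + ε) T'
  obtain ⟨md, hmd⟩ := hQ (BW (κ * √ε)) (YT (1 / 4 + ε) T') k (by
    intro s v y
    apply hinj
    · rw [(hk (s • v, y)).1, (hk (v, y)).1]
      apply sm_perm u φ s⁻¹
      · intro i
        exact (eq1 s v y.1 i).1
      · intro i
        exact (eq1 s v y.1 i).2.2.1
    · rw [(hk (s • v, y)).2, (hk (v, y)).2]
      apply sm_perm u φ s⁻¹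
      · intro i
        exact (eq1 s v y.1 i).2.1
      · intro i
        exact (eq1 s v y.1 i).2.2.2)
  refine ⟨md, ?_, ?_⟩
  · intro v w
    rw [hmd]
    exact hk (v, w)
  · intro A w
    obtain ⟨v, rfl⟩ : ∃ v, mkR v = A := Quotient.exists_rep A
    have hz := hk (v, w)
    rw [hmd]
    obtain ⟨l1, l2, l3, -, l5, l6⟩ := hL3 v w.1 w.2.1 w.2.2
    have s1 := hSmP ρ (Fin 5) B u φ (fun i => Pm (fv v) w.1 i) (fun i => av (fv v) w.1 i) hρ hN
      (fun i => by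
        have := (l1 i).2.2.1
        linarith) l2 (fun i _ => by
        have := (l1 i).1
        linarith)
    have s2 := hSmP ρ (Fin 5) B u φ (fun i => Qm (fv v) w.1 i) (fun i => bv (fv v) w.1 i) hρ hN
      (fun i => by
        have := (l1 i).2.2.2
        linarith) l3 (fun i _ => by
        have := (l1 i).2.1
        linarith)
    have hκε : ε ≤ κ' * ε := by nlinarith
    have e1 : Dz (k (v, w)) = (bar (yp (k (v, w))) - bar (yq (k (v, w))),
        (1 : ℝ) • (mo (yp (k (v, w))) - mo (yq (k (v, w))))) := rfl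
    rw [e1, hz.1, hz.2, one_smul]
    have hm1 : ‖bar (sm u φ (fun i => Pm (fv v) w.1 i) (fun i => av (fv v) w.1 i)) -
        bar (sm u φ (fun i => Qm (fv v) w.1 i) (fun i => bv (fv v) w.1 i)) - w.1.1‖ ≤
        2 * κ' * ε :=
      est _ _ _ _ _ ρ _ (κ' * ε) s1.2.2.1 s2.2.2.1 l5 (by linarith)
    have hm2 : ‖mo (sm u φ (fun i => Pm (fv v) w.1 i) (fun i => av (fv v) w.1 i)) -
        mo (sm u φ (fun i => Qm (fv v) w.1 i) (fun i => bv (fv v) w.1 i)) - w.1.2‖ ≤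
        2 * κ' * ε :=
      est _ _ _ _ _ (2 * ρ) _ (κ' * ε) s1.2.2.2 s2.2.2.2 l6 (by linarith)
    rw [Prod.norm_def]
    exact max_le hm1 hm2

end Pool.Agent.MPaafd8a
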