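import Pool.Agent.Lib.MP_aafd8a_gt_D.SpecA

/-!
# MP_aafd8a_gt, block (A-i), Clu: clusters of a weight
-/

set_option autoImplicit false

open Topology RealInnerProductSpace

namespace Pool.Agent.MPaafd8a

namespace CluAux

variable {u : Fin 5 → Eu 3}

theorem dist_ge (hu : IsS u) {i j : Fin 5} (hij : i ≠ j) : 5 / 4 ≤ ‖u i - u j‖ := by
  have h1 : ‖u i - u j‖ ^ 2 = 5 / 2 := by
    rw [norm_sub_sq_real, hu.1 i, hu.1 j, hu.2 i j hij]
    norm_num
  nlinarith [norm_nonneg (u i - u j)]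

theorem near (hu : IsS u) (x : Sph 3) (i : Fin 5) (h : ‖(x : Eu 3) - u i‖ ≤ 1 / 4) :
    cl u x i = 1 ∧ ∀ j, j ≠ i → cl u x j = 0 ∧ 1 ≤ ‖(x : Eu 3) - u j‖ := by
  refine ⟨?_, fun j hj => ?_⟩
  · unfold cl
    rw [min_eq_left (by linarith), max_eq_right zero_le_one]
  · have h1 := dist_ge hu hj.symm
    have h2 : ‖u i - u j‖ ≤ ‖(x : Eu 3) - u i‖ + ‖(x : Eu 3) - u j‖ := by
      rw [norm_sub_rev (x : Eu 3) (u i)]
      have := norm_add_le (u i - (x : Eu 3)) ((x : Eu 3) - u j)
      rwa [sub_add_sub_cancel] at this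
    have h3 : 1 ≤ ‖(x : Eu 3) - u j‖ := by linarith
    refine ⟨?_, h3⟩
    unfold cl
    rw [min_eq_right (by linarith), max_eq_left (by linarith)]

theorem cl_nonneg (u : Fin 5 → Eu 3) (x : Sph 3) (i : Fin 5) : 0 ≤ cl u x i := le_max_left _ _

theorem pos {p : Sph 3 →₀ ℝ} (hp : Pw p) {x : Sph 3} (hx : x ∈ p.support) : 0 < p x :=
  lt_of_le_of_ne (hp.1 x) (Ne.symm (Finsupp.mem_support_iff.1 hx))

theorem sum_cl (hu : IsS u) (x : Sph 3) (i : Fin 5) (h : ‖(x : Eu 3) - u i‖ ≤ 1 / 4) :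
    ∑ j, cl u x j = 1 := by
  have h1 := near hu x i h
  rw [Finset.sum_eq_single i (fun j _ hj => (h1.2 j hj).1) (fun h => absurd (Finset.mem_univ i) h)]
  exact h1.1

end CluAux

open CluAux

theorem pClu : SClu := by
  intro u η p hu hη hp hn
  have hx : ∀ x ∈ p.support, ∃ i, ‖(x : Eu 3) - u i‖ ≤ η := fun x hx => hn x (pos hp hx)
  refine ⟨near hu, ?_, fun i => ?_, fun i => ?_, fun u' hu' hd i => ?_⟩
  · unfold cm ex Finsupp.sum
    rw [Finset.sum_comm]
    have h1 : ∀ x ∈ p.support, ∑ i, p x * cl u x i = p x := by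
      intro x hxs
      obtain ⟨i, hi⟩ := hx x hxs
      rw [← Finset.mul_sum, sum_cl hu x i (hi.trans hη), mul_one]
    rw [Finset.sum_congr rfl h1]
    exact hp.2
  · exact Finset.sum_nonneg fun x _ => mul_nonneg (hp.1 x) (cl_nonneg u x i)
  · have e1 : cv u p i - cm u p i • u i = ∑ x ∈ p.support, (p x * cl u x i) • ((x : Eu 3) - u i) := by
      unfold cv cm ex Finsupp.sum
      rw [Finset.sum_smul, ← Finset.sum_sub_distrib]
      exact Finset.sum_congr rfl fun x _ => (smul_sub _ _ _).symm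
    rw [e1]
    refine (norm_sum_le _ _).trans ?_
    unfold cm ex Finsupp.sum
    rw [Finset.mul_sum]
    refine Finset.sum_le_sum fun x hxs => ?_
    rw [norm_smul, Real.norm_eq_abs, abs_of_nonneg (mul_nonneg (hp.1 x) (cl_nonneg u x i))]
    obtain ⟨j, hj⟩ := hx x hxs
    rcases eq_or_ne i j with rfl | hij
    · rw [mul_comm η]
      exact mul_le_mul_of_nonneg_left hj (mul_nonneg (hp.1 x) (cl_nonneg u x i))
    · have h0 := ((near hu x j (hj.trans hη)).2 i hij).1
      simp [h0]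
  · have h1 : ∀ x ∈ p.support, cl u' x i = cl u x i := by
      intro x hxs
      obtain ⟨j, hj⟩ := hx x hxs
      have h2 : ‖(x : Eu 3) - u' j‖ ≤ 1 / 4 := by
        have := norm_add_le ((x : Eu 3) - u j) (u j - u' j)
        rw [sub_add_sub_cancel] at this
        have := hd j
        linarith
      rcases eq_or_ne i j with rfl | hij
      · rw [(near hu x i (hj.trans hη)).1, (near hu' x i h2).1]
      · rw [((near hu x j (hj.trans hη)).2 i hij).1, ((near hu' x j h2).2 i hij).1]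
    constructor
    · unfold cm ex
      refine Finsupp.sum_congr fun x hxs => ?_
      change p x * cl u' x i = p x * cl u x i
      rw [h1 x hxs]
    · unfold cv
      exact Finsupp.sum_congr fun x hxs => by rw [h1 x hxs]

end Pool.Agent.MPaafd8a
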