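import Pool.Agent.Lib.MP_aafd8a_gt_D.SpecC

/-!
# MP_aafd8a_gt, disproof for `n = 3`, block (A-i): the class of the moments
-/

set_option autoImplicit false

open Topology RealInnerProductSpace

namespace Pool.Agent.MPaafd8a

namespace DClAux

theorem c2_three : c2 3 = 1 / 4 := by
  unfold c2
  norm_num

theorem dm_ne (hM : SMom) {p q : Sph 3 →₀ ℝ} (hp : Pw p) (hq : Pw q) (h : Cpt2 (1 / 4) p q) : Dm 1 p q ≠ 0 := by
  intro h0
  have h1 := (hM 3 (by norm_num) p q hp hq).2 (by rw [c2_three]; exact h)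
  have hb : bar p - bar q = 0 := congrArg Prod.fst h0
  have hm : mo p - mo q = 0 := by
    have := congrArg Prod.snd h0
    change (1 : ℝ) • (mo p - mo q) = 0 at this
    rwa [one_smul] at this
  have hg : gq p q = fun _ => 0 := by
    funext z
    unfold gq
    rw [hb, hm]
    simp
  rw [hg] at h1
  unfold ex at h1
  simp at h1

theorem bar_lin (p : Sph 3 →₀ ℝ) : bar p = Finsupp.linearCombination ℝ (fun v : Sph 3 => (v : Eu 3)) p := by
  rw [Finsupp.linearCombination_apply]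
  rfl

theorem mo_lin (p : Sph 3 →₀ ℝ) :
    mo p = Finsupp.linearCombination ℝ (fun v : Sph 3 => (innerSL ℝ (v : Eu 3)).smulRight (v : Eu 3)) p := by
  rw [Finsupp.linearCombination_apply]
  rfl

theorem sum_lin (p : Sph 3 →₀ ℝ) : (p.sum fun _ a => a) = Finsupp.linearCombination ℝ (fun _ : Sph 3 => (1 : ℝ)) p := by
  rw [Finsupp.linearCombination_apply]
  simp

theorem pw_cmb {p p' : Sph 3 →₀ ℝ} (hp : Pw p) (hp' : Pw p') {t : ℝ} (h0 : 0 ≤ t) (h1 : t ≤ 1) :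
    Pw ((1 - t) • p + t • p') := by
  refine ⟨fun v => ?_, ?_⟩
  · change 0 ≤ (1 - t) * p v + t * p' v
    have := mul_nonneg (sub_nonneg.2 h1) (hp.1 v)
    have := mul_nonneg h0 (hp'.1 v)
    linarith
  · have e1 := hp.2
    have e2 := hp'.2
    rw [sum_lin] at e1 e2 ⊢
    rw [map_add, map_smul, map_smul, e1, e2]
    simp

theorem pos_cmb {p p' : Sph 3 →₀ ℝ} {t : ℝ} (h0 : 0 ≤ t) (h1 : t ≤ 1) {v : Sph 3}
    (hv : 0 < ((1 - t) • p + t • p') v) : 0 < p v ∨ 0 < p' v := by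
  change 0 < (1 - t) * p v + t * p' v at hv
  by_contra hc
  rw [not_or, not_lt, not_lt] at hc
  have := mul_nonpos_of_nonneg_of_nonpos (sub_nonneg.2 h1) hc.1
  have := mul_nonpos_of_nonneg_of_nonpos h0 hc.2
  linarith

theorem dm_left {p p' q : Sph 3 →₀ ℝ} {t : ℝ} :
    Dm 1 ((1 - t) • p + t • p') q = (1 - t) • Dm 1 p q + t • Dm 1 p' q := by
  unfold Dm
  refine Prod.ext ?_ ?_
  · change bar ((1 - t) • p + t • p') - bar q = (1 - t) • (bar p - bar q) + t • (bar p' - bar q)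
    rw [bar_lin ((1 - t) • p + t • p'), map_add, map_smul, map_smul, ← bar_lin, ← bar_lin]
    module
  · change (1 : ℝ) • (mo ((1 - t) • p + t • p') - mo q) =
      (1 - t) • ((1 : ℝ) • (mo p - mo q)) + t • ((1 : ℝ) • (mo p' - mo q))
    rw [mo_lin ((1 - t) • p + t • p'), map_add, map_smul, map_smul, ← mo_lin, ← mo_lin]
    module

theorem dm_right {p q q' : Sph 3 →₀ ℝ} {t : ℝ} :
    Dm 1 p ((1 - t) • q + t • q') = (1 - t) • Dm 1 p q + t • Dm 1 p q' := by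
  unfold Dm
  refine Prod.ext ?_ ?_
  · change bar p - bar ((1 - t) • q + t • q') = (1 - t) • (bar p - bar q) + t • (bar p - bar q')
    rw [bar_lin ((1 - t) • q + t • q'), map_add, map_smul, map_smul, ← bar_lin, ← bar_lin]
    module
  · change (1 : ℝ) • (mo p - mo ((1 - t) • q + t • q')) =
      (1 - t) • ((1 : ℝ) • (mo p - mo q)) + t • ((1 : ℝ) • (mo p - mo q'))
    rw [mo_lin ((1 - t) • q + t • q'), map_add, map_smul, map_smul, ← mo_lin, ← mo_lin]
    module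

/-- Straight line homotopies in `W1`. -/
theorem line {X : Type} [TopologicalSpace X] (d d' : C(X, W1))
    (h : ∀ (x : X) (t : ℝ), 0 ≤ t → t ≤ 1 → (1 - t) • (d x).1 + t • (d' x).1 ≠ 0) : d.Homotopic d' := by
  refine ⟨⟨⟨fun y => ⟨(1 - (y.1 : ℝ)) • (d y.2).1 + (y.1 : ℝ) • (d' y.2).1,
    (W0 3).add_mem ((W0 3).smul_mem _ (d y.2).2.1) ((W0 3).smul_mem _ (d' y.2).2.1),
    h y.2 _ y.1.2.1 y.1.2.2⟩, ?_⟩, ?_, ?_⟩⟩
  · refine Continuous.subtype_mk ?_ _
    fun_prop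
  · intro x
    apply Subtype.ext
    change (1 - ((0 : unitInterval) : ℝ)) • (d x).1 + ((0 : unitInterval) : ℝ) • (d' x).1 = (d x).1
    have e : ((0 : unitInterval) : ℝ) = 0 := rfl
    rw [e, sub_zero]
    exact (congrArg₂ (· + ·) (one_smul ℝ (d x).1) (zero_smul ℝ (d' x).1)).trans (add_zero _)
  · intro x
    apply Subtype.ext
    change (1 - ((1 : unitInterval) : ℝ)) • (d x).1 + ((1 : unitInterval) : ℝ) • (d' x).1 = (d' x).1
    have e : ((1 : unitInterval) : ℝ) = 1 := rfl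
    rw [e, sub_self]
    exact (congrArg₂ (· + ·) (zero_smul ℝ (d x).1) (one_smul ℝ (d' x).1)).trans (zero_add _)

variable {c : ℝ} {hc : -1 < c}

theorem line_left (hM : SMom) (hc4 : c ≤ 1 / 4) {X : Type} [TopologicalSpace X] {a a' b : C(X, Geo (capK 3 c hc))}
    {d d' : C(X, W1)} (h1 : ∀ x, Comp c (a x) (b x)) (h2 : ∀ x, Comp c (a' x) (b x))
    (hd : ∀ x, (d x).1 = Dm 1 (a x).1 (b x).1) (hd' : ∀ x, (d' x).1 = Dm 1 (a' x).1 (b x).1) : d.Homotopic d' := by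
  refine line d d' fun x t h0 ht => ?_
  rw [hd, hd', ← dm_left]
  refine dm_ne hM (pw_cmb (pw_of_geo _) (pw_of_geo _) h0 ht) (pw_of_geo _) fun v w hv hw => ?_
  rcases pos_cmb h0 ht hv with h | h
  · exact (h1 x v w h hw).trans_le hc4
  · exact (h2 x v w h hw).trans_le hc4

theorem line_right (hM : SMom) (hc4 : c ≤ 1 / 4) {X : Type} [TopologicalSpace X] {a b b' : C(X, Geo (capK 3 c hc))}
    {d d' : C(X, W1)} (h1 : ∀ x, Comp c (a x) (b x)) (h2 : ∀ x, Comp c (a x) (b' x))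
    (hd : ∀ x, (d x).1 = Dm 1 (a x).1 (b x).1) (hd' : ∀ x, (d' x).1 = Dm 1 (a x).1 (b' x).1) : d.Homotopic d' := by
  refine line d d' fun x t h0 ht => ?_
  rw [hd, hd', ← dm_right]
  refine dm_ne hM (pw_of_geo _) (pw_cmb (pw_of_geo _) (pw_of_geo _) h0 ht) fun v w hv hw => ?_
  rcases pos_cmb h0 ht hw with h | h
  · exact (h1 x v w hv h).trans_le hc4
  · exact (h2 x v w hv h).trans_le hc4

/-- The moments of a compatible pair of maps. -/
theorem mk (hD : SDc) (hc4 : c ≤ 1 / 4) {X : Type} [TopologicalSpace X] [CompactSpace X]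
    (a b : C(X, Geo (capK 3 c hc))) (h1 : ∀ x, Comp c (a x) (b x)) :
    ∃ d : C(X, W1), ∀ x, (d x).1 = Dm 1 (a x).1 (b x).1 := by
  obtain ⟨k1, k2, k3⟩ := hD (capK 3 c hc) X a b
  exact ⟨⟨fun x => ⟨Dm 1 (a x).1 (b x).1, k2 x, k3 x fun v w hv hw => (h1 x v w hv hw).trans_le hc4⟩,
    k1.subtype_mk _⟩, fun x => rfl⟩

end DClAux

open DClAux

theorem pDCl : SCut → SDc → SMom → SMo → SDCl := by
  intro hCut hD hM _ c' h' hc X _ _ p q p₁ q₁ d d₁ hpq hpq₁ hp hd hd₁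
  obtain ⟨P⟩ := hp
  obtain ⟨f, g, hf, hfg⟩ := hCut 3 c' (capK 3 c' h') (fun σ => Iff.rfl) (unitInterval × X) P.toContinuousMap
  obtain ⟨e, he⟩ := mk hD hc f g hfg
  -- restrictions to the two ends
  let i₀ : C(X, unitInterval × X) := ⟨fun x => (0, x), by fun_prop⟩
  let i₁ : C(X, unitInterval × X) := ⟨fun x => (1, x), by fun_prop⟩
  have c0 : ∀ x, Comp c' ((f.comp i₀) x) (q x) := by
    intro x v w hv hw
    have h1 := hf (0, x) v hv
    have h2 : P.toContinuousMap (0, x) = p x := P.apply_zero x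
    rw [h2] at h1
    exact hpq x v w h1 hw
  have c1 : ∀ x, Comp c' ((f.comp i₁) x) (q₁ x) := by
    intro x v w hv hw
    have h1 := hf (1, x) v hv
    have h2 : P.toContinuousMap (1, x) = p₁ x := P.apply_one x
    rw [h2] at h1
    exact hpq₁ x v w h1 hw
  obtain ⟨e₀, he₀⟩ := mk hD hc (f.comp i₀) q c0
  obtain ⟨e₁, he₁⟩ := mk hD hc (f.comp i₁) q₁ c1
  have s1 : d.Homotopic e₀ := line_left hM hc (a := p) (a' := f.comp i₀) (b := q) hpq c0 hd he₀
  have s2 : e₀.Homotopic (e.comp i₀) :=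
    line_right hM hc (a := f.comp i₀) (b := q) (b' := g.comp i₀) c0 (fun x => hfg (0, x)) he₀ (fun x => he (0, x))
  have s3 : (e.comp i₀).Homotopic (e.comp i₁) := ⟨⟨e, fun x => rfl, fun x => rfl⟩⟩
  have s4 : (e.comp i₁).Homotopic e₁ :=
    line_right hM hc (a := f.comp i₁) (b := g.comp i₁) (b' := q₁) (fun x => hfg (1, x)) c1 (fun x => he (1, x)) he₁
  have s5 : e₁.Homotopic d₁ := line_left hM hc (a := f.comp i₁) (a' := p₁) (b := q₁) c1 hpq₁ he₁ hd₁
  exact s1.trans (s2.trans (s3.trans (s4.trans s5)))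

end Pool.Agent.MPaafd8a
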