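import Pool.Agent.Lib.MP_aafd8a_gt_D.SpecC

/-!
# MP_aafd8a_gt, disproof for `n = 3`, block (A-i): levels below `1 / 4`
-/

set_option autoImplicit false

open Topology RealInnerProductSpace

namespace Pool.Agent.MPaafd8a

namespace DMAux

/-- A map to a larger complex. -/
theorem upC (hSub : SSub) {c₁ c₂ : ℝ} (h₁ : -1 < c₁) (h₂ : -1 < c₂) (hc : c₁ ≤ c₂) (X : Type)
    [TopologicalSpace X] [CompactSpace X] (f : C(X, Geo (capK 3 c₁ h₁))) :
    ∃ f' : C(X, Geo (capK 3 c₂ h₂)), ∀ x, (f' x).1 = (f x).1 :=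
  hSub (Sph 3) (capK 3 c₁ h₁) (capK 3 c₂ h₂) X f fun x => capFace_mono (f x).2.2.2 hc

/-- A homotopy in a larger complex. -/
theorem hup (hSub : SSub) {c₁ c₂ : ℝ} (h₁ : -1 < c₁) (h₂ : -1 < c₂) (hc : c₁ ≤ c₂) (X : Type)
    [TopologicalSpace X] [CompactSpace X] (f g : C(X, Geo (capK 3 c₁ h₁)))
    (f' g' : C(X, Geo (capK 3 c₂ h₂))) (hf : ∀ x, (f' x).1 = (f x).1) (hg : ∀ x, (g' x).1 = (g x).1)
    (h : f.Homotopic g) : f'.Homotopic g' := by
  obtain ⟨H⟩ := h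
  obtain ⟨H', hH⟩ := upC hSub h₁ h₂ hc (unitInterval × X) H.toContinuousMap
  refine ⟨⟨H', fun x => ?_, fun x => ?_⟩⟩
  · apply Subtype.ext
    rw [hf]
    have h1 : (H' (0, x)).1 = (H (0, x)).1 := hH (0, x)
    rw [H.apply_zero] at h1
    exact h1
  · apply Subtype.ext
    rw [hg]
    have h1 : (H' (1, x)).1 = (H (1, x)).1 := hH (1, x)
    rw [H.apply_one] at h1
    exact h1

end DMAux

open DMAux in
theorem pDM : SSub → SHom → SCut → SDown → SDc → SM0 → SDCl → SDM := by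
  intro hSub hHom hCut hDown hDc hM0 hDCl c hc hc4
  obtain ⟨M, c₀, h₀, c₀pos, c₀c, c₀5, hM⟩ := hM0 c hc (by linarith)
  refine ⟨M, fun c' h' hc' X _ _ p q p' d hpq hp' hd => ?_⟩
  by_cases hcc : c' ≤ c₀
  · obtain ⟨P, hP⟩ := upC hSub h' h₀ hcc X p
    obtain ⟨Q, hQ⟩ := upC hSub h' h₀ hcc X q
    refine hM X P Q p' d (fun x v w hv hw => ?_) (fun x => by rw [hp', hP]) (fun x => by rw [hd, hP, hQ])
    rw [hP] at hv
    rw [hQ] at hw
    exact (hpq x v w hv hw).trans_le hcc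
  · push Not at hcc
    have e2 : c2 3 = 1 / 4 := by
      unfold c2
      norm_num
    obtain ⟨f₀, f₁, hf1, hp1⟩ := hDown 3 (by norm_num) c₀ c' h₀ h' c₀pos (by rw [e2]; exact hc')
      (by rw [e2]; linarith) X p hcc.le
    obtain ⟨f, g, hf, hfg⟩ := hCut 3 c₀ (capK 3 c₀ h₀) (fun σ => Iff.rfl) X f₀
    obtain ⟨F', hF'⟩ := upC hSub h₀ h' hcc.le X f
    obtain ⟨G', hG'⟩ := upC hSub h₀ h' hcc.le X g
    obtain ⟨F, hF⟩ := upC hSub h₀ hc c₀c X f
    have h1 : f₁.Homotopic F' := by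
      refine hHom (Sph 3) (capK 3 c' h') X f₁ F' fun x σ hσ hv => ?_
      have hs : σ ⊆ (f₁ x).1.support := by
        intro v hvσ
        rw [Finsupp.mem_support_iff]
        rcases hv v hvσ with h2 | h2
        · exact h2.ne'
        · rw [hF'] at h2
          have h3 := hf x v h2
          rw [← hf1] at h3
          exact h3.ne'
      exact capFace_of_subset (f₁ x).2.2.2 hs hσ
    have h2 : p.Homotopic F' := hp1.trans h1
    obtain ⟨dc, dm, dn⟩ := hDc (capK 3 c₀ h₀) X f g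
    have hne : ∀ x, Dm 1 (f x).1 (g x).1 ≠ 0 := fun x => dn x fun v w hv hw =>
      (hfg x v w hv hw).trans_le (by linarith)
    obtain ⟨d', hd'⟩ : ∃ d' : C(X, W1), ∀ x, (d' x).1 = Dm 1 (f x).1 (g x).1 :=
      ⟨⟨fun x => ⟨Dm 1 (f x).1 (g x).1, dm x, hne x⟩, dc.subtype_mk _⟩, fun x => rfl⟩
    have h3 : d.Homotopic d' := by
      refine hDCl c' h' hc'.le X p q F' G' d d' hpq (fun x v w hv hw => ?_) h2 hd
        (fun x => by rw [hd', hF', hG'])
      rw [hF'] at hv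
      rw [hG'] at hw
      exact (hfg x v w hv hw).trans_le hcc.le
    have h4 : F.Homotopic (M.comp d') := hM X f g F d' hfg hF hd'
    have h5 : p'.Homotopic F := hup hSub h' hc (by linarith) X p F' p' F hp'
      (fun x => by rw [hF, hF']) h2
    exact (h5.trans h4).trans ((ContinuousMap.Homotopic.refl M).comp h3.symm)

end Pool.Agent.MPaafd8a
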