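import Pool.Agent.Lib.MP_aafd8a_gt_D.SpecC

/-!
# Moments of families
-/

set_option autoImplicit false

open Topology RealInnerProductSpace

namespace Pool.Agent.MPaafd8a

namespace DcAux

theorem bar_eq {p : Sph 3 →₀ ℝ} {T : Finset (Sph 3)} (h : p.support ⊆ T) :
    bar p = ∑ v ∈ T, p v • (v : Eu 3) := by
  unfold bar
  exact Finsupp.sum_of_support_subset p h (fun v a => a • (v : Eu 3)) (fun v _ => zero_smul ℝ _)

theorem mo_eq {p : Sph 3 →₀ ℝ} {T : Finset (Sph 3)} (h : p.support ⊆ T) :
    mo p = ∑ v ∈ T, p v • (innerSL ℝ (v : Eu 3)).smulRight (v : Eu 3) := by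
  unfold mo
  exact Finsupp.sum_of_support_subset p h
    (fun v a => a • (innerSL ℝ (v : Eu 3)).smulRight (v : Eu 3)) (fun v _ => zero_smul ℝ _)

theorem cont {K : AbstractSimplicialComplex (Sph 3)} {X : Type} [TopologicalSpace X] [CompactSpace X]
    (hCrd : SCrd) (hCpt : SCpt) (p : C(X, Geo K)) :
    (Continuous fun x => bar (p x).1) ∧ Continuous fun x => mo (p x).1 := by
  obtain ⟨T, hT⟩ := hCpt (Sph 3) K (Set.range p) (isCompact_range p.continuous)
  have hc : ∀ v, Continuous fun x => (p x).1 v := fun v =>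
    (hCrd (Sph 3) K v).comp p.continuous
  constructor
  · have e : (fun x => bar (p x).1) = fun x => ∑ v ∈ T, (p x).1 v • (v : Eu 3) :=
      funext fun x => bar_eq (hT _ (Set.mem_range_self x))
    rw [e]
    exact continuous_finsetSum _ fun v _ => (hc v).smul continuous_const
  · have e : (fun x => mo (p x).1) =
        fun x => ∑ v ∈ T, (p x).1 v • (innerSL ℝ (v : Eu 3)).smulRight (v : Eu 3) :=
      funext fun x => mo_eq (hT _ (Set.mem_range_self x))
    rw [e]
    exact continuous_finsetSum _ fun v _ => (hc v).smul continuous_const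

end DcAux

open DcAux in
theorem pDc : SCrd → SCpt → SMo → SMom → SDc := by
  intro hCrd hCpt hMo hMom K X _ _ p q
  obtain ⟨b1, m1⟩ := cont hCrd hCpt p
  obtain ⟨b2, m2⟩ := cont hCrd hCpt q
  refine ⟨(b1.sub b2).prodMk ((m1.sub m2).const_smul (1 : ℝ)), fun x => ?_, fun x hx h0 => ?_⟩
  · exact (hMo 3 _ _ (pw_of_geo (p x)) (pw_of_geo (q x))).1 1
  · have hc2 : c2 3 = 1 / 4 := by
      unfold c2
      norm_num
    have h1 := (hMom 3 (by norm_num) _ _ (pw_of_geo (p x)) (pw_of_geo (q x))).2 (by rwa [hc2])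
    have h2 : bar (p x).1 - bar (q x).1 = 0 := congrArg Prod.fst h0
    have h3 : (1 : ℝ) • (mo (p x).1 - mo (q x).1) = 0 := congrArg Prod.snd h0
    rw [one_smul] at h3
    have h4 : gq (p x).1 (q x).1 = fun _ => 0 := by
      funext z
      unfold gq
      rw [h2, h3]
      simp
    rw [h4] at h1
    unfold ex Finsupp.sum at h1
    simp at h1

end Pool.Agent.MPaafd8a
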