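import Pool.Agent.Lib.MP_aafd8a_gt_D.SpecB

/-!
# MP_aafd8a_gt, disproof for `n = 3`, block (A-i): the moments along the stages
-/

set_option autoImplicit false

open Topology RealInnerProductSpace

namespace Pool.Agent.MPaafd8a

namespace DstAux

/-- The moments are close. -/
def Cl (d : ℝ) (p' p : Sph 3 →₀ ℝ) : Prop := ‖bar p' - bar p‖ ≤ d ∧ ‖mo p' - mo p‖ ≤ d

theorem Cl.mono {d d' : ℝ} {p' p : Sph 3 →₀ ℝ} (h : Cl d p' p) (hd : d ≤ d') : Cl d' p' p :=
  ⟨h.1.trans hd, h.2.trans hd⟩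

theorem comb {d E : ℝ} {p p' q q' : Sph 3 →₀ ℝ} (h : Cl d p' p) (h' : Cl d q' q)
    (hE : 2 * d ≤ E) : ‖Dm 1 p' q' - Dm 1 p q‖ ≤ E := by
  have e : Dm 1 p' q' - Dm 1 p q =
      ((bar p' - bar p) - (bar q' - bar q), (mo p' - mo p) - (mo q' - mo q)) := by
    unfold Dm
    rw [Prod.mk_sub_mk, one_smul, one_smul]
    refine Prod.ext ?_ ?_
    · change bar p' - bar q' - (bar p - bar q) = (bar p' - bar p) - (bar q' - bar q)
      abel
    · change mo p' - mo q' - (mo p - mo q) = (mo p' - mo p) - (mo q' - mo q)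
      abel
  rw [e, Prod.norm_mk]
  refine max_le ?_ ?_
  · exact ((norm_sub_le _ _).trans (add_le_add h.1 h'.1)).trans (by linarith)
  · exact ((norm_sub_le _ _).trans (add_le_add h.2 h'.2)).trans (by linarith)

theorem bar_lin (p : Sph 3 →₀ ℝ) :
    bar p = Finsupp.linearCombination ℝ (fun v : Sph 3 => (v : Eu 3)) p := rfl

theorem mo_lin (p : Sph 3 →₀ ℝ) :
    mo p = Finsupp.linearCombination ℝ (fun v : Sph 3 => tp (v : Eu 3)) p := rfl

theorem ext_sum {V : Type} [AddCommGroup V] [Module ℝ V] (T : Finset (Sph 3)) (α : T → ℝ)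
    (F : Sph 3 → V) :
    Finsupp.linearCombination ℝ F (ext0 α) = ∑ x : T, α x • F x := by
  have h := Finsupp.sum_of_support_subset (ext0 α) (ext0_support α) (fun i a => a • F i)
    (fun _ _ => zero_smul ℝ _)
  rw [Finsupp.linearCombination_apply, h, ← Finset.sum_coe_sort T]
  refine Finset.sum_congr rfl fun x _ => ?_
  rw [ext0_mem α x.2]

theorem nmz_unit {x : Eu 3} (h : ‖x‖ = 1) : nmz x = x := by
  unfold nmz
  rw [h, inv_one, one_smul]

theorem nmz_le (x : Eu 3) : ‖nmz x‖ ≤ 1 := by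
  unfold nmz
  rw [norm_smul, norm_inv, norm_norm]
  exact inv_mul_le_one

theorem sph_norm (x : Sph 3) : ‖(x : Eu 3)‖ = 1 := mem_sphere_zero_iff_norm.1 x.2

/-- The data of one side. -/
structure Side (T : Finset (Sph 3)) (α : T → ℝ) (U a : Fin 5 → Eu 3) (M : Fin 5 → ℝ)
    (D : ℝ) : Prop where
  nn : ∀ x, 0 ≤ α x
  su : ∑ x, α x = 1
  is : IsS U
  nr : Nr et U (ext0 α)
  na : ∀ i, 1 ≤ ‖a i‖
  D0 : 0 ≤ D
  D1 : D ≤ 1 / 2
  cl : ∀ (x : Sph 3) (i : Fin 5), 0 < ext0 α x → ‖(x : Eu 3) - U i‖ ≤ et → ‖(x : Eu 3) - a i‖ ≤ D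
  m0 : ∀ i, 0 ≤ M i
  m1 : ∑ i, M i = 1
  mc : ∀ i, |cm U (ext0 α) i - M i| ≤ D

section

variable {T : Finset (Sph 3)} {α : T → ℝ} {U a : Fin 5 → Eu 3} {M : Fin 5 → ℝ} {D ρ : ℝ}
  {B : Type} [Fintype B] {u : B → Sph 3} {φ : B → Eu 3 → ℝ}

theorem pos_ext {x : T} (hx : 0 < α x) : 0 < ext0 α (x : Sph 3) := by
  rw [ext0_mem α x.2]
  exact hx

theorem Side.pw (h : Side T α U a M D) : Pw (ext0 α) := by
  refine ⟨fun x => ?_, ?_⟩
  · by_cases hx : x ∈ T
    · rw [ext0_mem α hx]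
      exact h.nn _
    · rw [ext0_notMem α hx]
  · rw [ext0_sum]
    exact h.su

/-- the label of a point -/
theorem Side.lab (hC : SClu) (h : Side T α U a M D) {x : T} (hx : 0 < α x) :
    ∃ i, ‖((x : Sph 3) : Eu 3) - a i‖ ≤ D ∧ MPaafd8a.cl U x i = 1 ∧
      ∀ j, j ≠ i → MPaafd8a.cl U x j = 0 := by
  obtain ⟨i, hi⟩ := h.nr x (pos_ext hx)
  have he : et ≤ 1 / 4 := by unfold et; norm_num
  obtain ⟨c1, -⟩ := hC U et (ext0 α) h.is he h.pw h.nr
  obtain ⟨d1, d2⟩ := c1 x i (hi.trans he)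
  exact ⟨i, h.cl x i (pos_ext hx) hi, d1, fun j hj => (d2 j hj).1⟩

theorem stage1 (hP : SSmP) (h : Side T α U a M D) (hρ : 0 < ρ) (hN : NetV ρ u φ) {t : ℝ}
    (t0 : 0 ≤ t) (t1 : t ≤ 1) :
    Cl (2 * ρ) ((1 - t) • ext0 α + t • sm u φ α (fun x : T => ((x : Sph 3) : Eu 3))) (ext0 α) := by
  obtain ⟨-, -, e1, e2⟩ := hP ρ T B u φ α (fun x : T => ((x : Sph 3) : Eu 3)) hρ hN h.nn h.su
    fun x _ => by rw [sph_norm]; norm_num
  have f1 : ∑ x : T, α x • nmz ((x : Sph 3) : Eu 3) = bar (ext0 α) := by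
    rw [bar_lin, ext_sum]
    exact Finset.sum_congr rfl fun x _ => by rw [nmz_unit (sph_norm _)]
  have f2 : ∑ x : T, α x • tp (nmz ((x : Sph 3) : Eu 3)) = mo (ext0 α) := by
    rw [mo_lin, ext_sum]
    exact Finset.sum_congr rfl fun x _ => by rw [nmz_unit (sph_norm _)]
  rw [f1] at e1
  rw [f2] at e2
  set s := sm u φ α (fun x : T => ((x : Sph 3) : Eu 3))
  constructor
  · have e : bar ((1 - t) • ext0 α + t • s) - bar (ext0 α) = t • (bar s - bar (ext0 α)) := by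
      rw [bar_lin, bar_lin, bar_lin, map_add, map_smul, map_smul]
      module
    rw [e, norm_smul, Real.norm_eq_abs, abs_of_nonneg t0]
    nlinarith [norm_nonneg (bar s - bar (ext0 α))]
  · have e : mo ((1 - t) • ext0 α + t • s) - mo (ext0 α) = t • (mo s - mo (ext0 α)) := by
      rw [mo_lin, mo_lin, mo_lin, map_add, map_smul, map_smul]
      module
    rw [e, norm_smul, Real.norm_eq_abs, abs_of_nonneg t0]
    nlinarith [norm_nonneg (mo s - mo (ext0 α))]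

theorem stage2 (hM : SMl) (hP : SSmP) (hC : SClu) (h : Side T α U a M D) (hρ : 0 < ρ)
    (hN : NetV ρ u φ) {t : ℝ} (t0 : 0 ≤ t) (t1 : t ≤ 1) :
    Cl (2 * ρ + 4 * D) (sm u φ α (fun x : T => (1 - t) • ((x : Sph 3) : Eu 3) +
      t • ∑ i, MPaafd8a.cl U x i • a i)) (ext0 α) := by
  set P : T → Eu 3 := fun x : T => (1 - t) • ((x : Sph 3) : Eu 3) +
      t • ∑ i, MPaafd8a.cl U x i • a i with hPd
  have near : ∀ x : T, 0 < α x → ‖P x - ((x : Sph 3) : Eu 3)‖ ≤ D := by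
    intro x hx
    obtain ⟨i, g1, g2, g3⟩ := h.lab hC hx
    have e : P x - ((x : Sph 3) : Eu 3) = -(t • (((x : Sph 3) : Eu 3) - a i)) := by
      have e0 : ∑ j, MPaafd8a.cl U x j • a j = a i := by
        rw [Finset.sum_eq_single i (fun j _ hj => by rw [g3 j hj, zero_smul])
          (fun hi => absurd (Finset.mem_univ i) hi), g2, one_smul]
      rw [hPd]
      change (1 - t) • ((x : Sph 3) : Eu 3) + t • ∑ j, MPaafd8a.cl U x j • a j - _ = _
      rw [e0]
      module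
    rw [e, norm_neg, norm_smul, Real.norm_eq_abs, abs_of_nonneg t0]
    nlinarith [norm_nonneg (((x : Sph 3) : Eu 3) - a i)]
  have half : ∀ x : T, 0 < α x → 1 / 2 ≤ ‖P x‖ := by
    intro x hx
    have g := near x hx
    have g1 : ‖((x : Sph 3) : Eu 3)‖ ≤ ‖P x‖ + ‖P x - ((x : Sph 3) : Eu 3)‖ := by
      have g2 := norm_sub_le (P x) (P x - ((x : Sph 3) : Eu 3))
      rwa [sub_sub_cancel] at g2
    rw [sph_norm] at g1
    have := h.D1
    linarith
  obtain ⟨-, -, e1, e2⟩ := hP ρ T B u φ α P hρ hN h.nn h.su half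
  obtain ⟨m1, m2, -, -⟩ := hM.1 T α α (fun x : T => ((x : Sph 3) : Eu 3)) (fun x => nmz (P x))
    (2 * D) h.nn h.su (by linarith [h.D0]) (fun x => ⟨(sph_norm _).le, nmz_le _⟩)
    fun x hx => by
      rw [norm_sub_rev]
      exact ((hM.2 _ _ (sph_norm _) (half x hx)).2).trans (by linarith [near x hx])
  have f1 : ∑ x : T, α x • ((x : Sph 3) : Eu 3) = bar (ext0 α) := by rw [bar_lin, ext_sum]
  have f2 : ∑ x : T, α x • tp ((x : Sph 3) : Eu 3) = mo (ext0 α) := by rw [mo_lin, ext_sum]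
  rw [f1] at m1
  rw [f2] at m2
  constructor
  · have g := norm_sub_le_norm_sub_add_norm_sub (bar (sm u φ α P)) (∑ x, α x • nmz (P x))
      (bar (ext0 α))
    rw [norm_sub_rev (∑ x, α x • nmz (P x))] at g
    linarith [h.D0]
  · have g := norm_sub_le_norm_sub_add_norm_sub (mo (sm u φ α P)) (∑ x, α x • tp (nmz (P x)))
      (mo (ext0 α))
    rw [norm_sub_rev (∑ x, α x • tp (nmz (P x)))] at g
    linarith

theorem stage3 (hM : SMl) (hP : SSmP) (hC : SClu) (h : Side T α U a M D) (hρ : 0 < ρ)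
    (hN : NetV ρ u φ) {t : ℝ} (t0 : 0 ≤ t) (t1 : t ≤ 1) :
    Cl (2 * ρ + 9 * D) (sm u φ (fun i => (1 - t) * cm U (ext0 α) i + t * M i) a) (ext0 α) := by
  have he : et ≤ 1 / 4 := by unfold et; norm_num
  obtain ⟨-, cs, c0, -, -⟩ := hC U et (ext0 α) h.is he h.pw h.nr
  set β : Fin 5 → ℝ := fun i => (1 - t) * cm U (ext0 α) i + t * M i with hβ
  have b0 : ∀ i, 0 ≤ β i := fun i =>
    add_nonneg (mul_nonneg (by linarith) (c0 i)) (mul_nonneg t0 (h.m0 i))
  have b1 : ∑ i, β i = 1 := by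
    rw [hβ, Finset.sum_add_distrib, ← Finset.mul_sum, ← Finset.mul_sum, cs, h.m1]
    ring
  obtain ⟨-, -, e1, e2⟩ := hP ρ (Fin 5) B u φ β a hρ hN b0 b1 fun i _ => by linarith [h.na i]
  -- change of the masses
  obtain ⟨-, -, m3, m4⟩ := hM.1 (Fin 5) (fun i => cm U (ext0 α) i) β (fun i => nmz (a i))
    (fun i => nmz (a i)) 0 c0 cs le_rfl (fun i => ⟨nmz_le _, nmz_le _⟩)
    (fun i _ => by rw [sub_self, norm_zero])
  have m5 : ∑ i, |cm U (ext0 α) i - β i| ≤ 5 * D := by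
    have : ∀ i ∈ (Finset.univ : Finset (Fin 5)), |cm U (ext0 α) i - β i| ≤ D := by
      intro i _
      have e : cm U (ext0 α) i - β i = t * (cm U (ext0 α) i - M i) := by
        rw [hβ]
        ring
      rw [e, abs_mul, abs_of_nonneg t0]
      nlinarith [h.mc i, abs_nonneg (cm U (ext0 α) i - M i)]
    have g := Finset.sum_le_card_nsmul _ _ _ this
    rw [Finset.card_univ, Fintype.card_fin, nsmul_eq_mul] at g
    exact_mod_cast g
  -- labels
  have ch : ∀ x : T, ∃ i, 0 < α x → ‖((x : Sph 3) : Eu 3) - a i‖ ≤ D ∧ MPaafd8a.cl U x i = 1 ∧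
      ∀ j, j ≠ i → MPaafd8a.cl U x j = 0 := by
    intro x
    by_cases hx : 0 < α x
    · obtain ⟨i, hi⟩ := h.lab hC hx
      exact ⟨i, fun _ => hi⟩
    · exact ⟨0, fun h0 => absurd h0 hx⟩
  choose l hl using ch
  have sw : ∀ (V : Type) [AddCommGroup V] [Module ℝ V] (F : Fin 5 → V),
      ∑ i, cm U (ext0 α) i • F i = ∑ x : T, α x • F (l x) := by
    intro V _ _ F
    have g1 : ∀ i, cm U (ext0 α) i = ∑ x : T, α x * MPaafd8a.cl U x i := by
      intro i
      unfold cm ex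
      exact ext_sum T α fun x => MPaafd8a.cl U x i
    have g2 : ∀ x : T, α x • F (l x) = ∑ i, (α x * MPaafd8a.cl U x i) • F i := by
      intro x
      rcases (h.nn x).eq_or_lt with h0 | h0
      · simp [← h0]
      · obtain ⟨-, g3, g4⟩ := hl x h0
        rw [Finset.sum_eq_single (l x) (fun j _ hj => by rw [g4 j hj, mul_zero, zero_smul])
          (fun hi => absurd (Finset.mem_univ _) hi), g3, mul_one]
    simp only [g1, g2, Finset.sum_smul]
    exact Finset.sum_comm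
  have s1 := sw _ fun i => nmz (a i)
  have s2 := sw _ fun i => tp (nmz (a i))
  obtain ⟨m1, m2, -, -⟩ := hM.1 T α α (fun x : T => ((x : Sph 3) : Eu 3)) (fun x => nmz (a (l x)))
    (2 * D) h.nn h.su (by linarith [h.D0]) (fun x => ⟨(sph_norm _).le, nmz_le _⟩)
    fun x hx => by
      have g1 := (hl x hx).1
      rw [norm_sub_rev]
      refine ((hM.2 _ _ (sph_norm _) (by linarith [h.na (l x)])).2).trans ?_
      rw [norm_sub_rev]
      linarith
  have f1 : ∑ x : T, α x • ((x : Sph 3) : Eu 3) = bar (ext0 α) := by rw [bar_lin, ext_sum]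
  have f2 : ∑ x : T, α x • tp ((x : Sph 3) : Eu 3) = mo (ext0 α) := by rw [mo_lin, ext_sum]
  rw [f1, ← s1] at m1
  rw [f2, ← s2] at m2
  constructor
  · have g := norm_sub_le_norm_sub_add_norm_sub (bar (sm u φ β a)) (∑ i, β i • nmz (a i))
      (bar (ext0 α))
    have g' := norm_sub_le_norm_sub_add_norm_sub (bar (ext0 α))
      (∑ i, cm U (ext0 α) i • nmz (a i)) (∑ i, β i • nmz (a i))
    rw [norm_sub_rev (bar (ext0 α)) (∑ i, β i • nmz (a i))] at g'
    linarith [h.D0]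
  · have g := norm_sub_le_norm_sub_add_norm_sub (mo (sm u φ β a)) (∑ i, β i • tp (nmz (a i)))
      (mo (ext0 α))
    have g' := norm_sub_le_norm_sub_add_norm_sub (mo (ext0 α))
      (∑ i, cm U (ext0 α) i • tp (nmz (a i))) (∑ i, β i • tp (nmz (a i)))
    rw [norm_sub_rev (mo (ext0 α)) (∑ i, β i • tp (nmz (a i)))] at g'
    linarith

end

end DstAux

open DstAux in
theorem pDst : SYT → SMl → SSmP → SClu → SMo → SDst := by
  intro hY hM hP hC hMo κ κ' ε ρ T B _ u φ hL hρ hN hρε z v hR t t0 t1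
  obtain ⟨l1, l2, l3, l4, -, l6, l7⟩ := hL
  obtain ⟨y1, -⟩ := hY (1 / 4 + ε) T
  obtain ⟨pw, qw, hc, -, -⟩ := y1 z.1
  obtain ⟨hG, hB⟩ := hR
  obtain ⟨k1, k2, k3⟩ := l6 (yp z.1) (yq z.1) v pw qw hc z.2 hG hB
  obtain ⟨w1, w2, w3, -⟩ := l7 v (Dz z.1) ((hMo 3 _ _ pw qw).1 1) z.2
  have hD0 : 0 ≤ κ' * ε := mul_nonneg (by linarith) l1.le
  have hD1 : κ' * ε ≤ 1 / 2 := by nlinarith
  have hεκ : ε ≤ κ' * ε := by nlinarith
  have sp : Side T z.1.1.1 (fv v) (fun i => av (fv v) (Dz z.1) i)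
      (fun i => Pm (fv v) (Dz z.1) i) (κ' * ε) :=
    { nn := z.1.2.1.1
      su := z.1.2.1.2
      is := isS_fv v
      nr := hG.1
      na := fun i => (w1 i).1
      D0 := hD0
      D1 := hD1
      cl := k1
      m0 := fun i => by linarith [(w1 i).2.2.1]
      m1 := w2
      mc := fun i => (k3 i).1 }
  have sq : Side T z.1.1.2 (fun j => -fv v j) (fun i => bv (fv v) (Dz z.1) i)
      (fun i => Qm (fv v) (Dz z.1) i) (κ' * ε) :=
    { nn := z.1.2.2.1.1
      su := z.1.2.2.1.2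
      is := isS_neg (isS_fv v)
      nr := hG.2.1
      na := fun i => (w1 i).2.1
      D0 := hD0
      D1 := hD1
      cl := fun x i hx hi => k2 x i hx (by rwa [sub_neg_eq_add] at hi)
      m0 := fun i => by linarith [(w1 i).2.2.2]
      m1 := w3
      mc := fun i => (k3 i).2 }
  refine ⟨?_, ?_, ?_⟩
  · exact comb (stage1 hP sp hρ hN t0 t1) (stage1 hP sq hρ hN t0 t1) (by linarith)
  · exact comb (stage2 hM hP hC sp hρ hN t0 t1) (stage2 hM hP hC sq hρ hN t0 t1) (by linarith)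
  · exact comb (stage3 hM hP hC sp hρ hN t0 t1) (stage3 hM hP hC sq hρ hN t0 t1) (by linarith)

end Pool.Agent.MPaafd8a
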