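import Pool.Agent.Lib.MP_aafd8a_gt_D.SpecA

/-!
# Energy estimate
-/

set_option autoImplicit false

open Topology RealInnerProductSpace

namespace Pool.Agent.MPaafd8a

namespace EngAux

theorem ex_add (p : Sph 3 →₀ ℝ) (f g : Sph 3 → ℝ) :
    ex p (fun v => f v + g v) = ex p f + ex p g := by
  unfold ex Finsupp.sum
  rw [← Finset.sum_add_distrib]
  exact Finset.sum_congr rfl fun v _ => by ring

theorem ex_mul (p : Sph 3 →₀ ℝ) (c : ℝ) (f : Sph 3 → ℝ) :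
    ex p (fun v => c * f v) = c * ex p f := by
  unfold ex Finsupp.sum
  rw [Finset.mul_sum]
  exact Finset.sum_congr rfl fun v _ => by ring

theorem ex_const {p : Sph 3 →₀ ℝ} (hp : Pw p) (c : ℝ) : ex p (fun _ => c) = c := by
  have h1 := hp.2
  unfold Finsupp.sum at h1
  unfold ex Finsupp.sum
  rw [← Finset.sum_mul, h1, one_mul]

theorem ex_mono {p : Sph 3 →₀ ℝ} (hp : Pw p) {f g : Sph 3 → ℝ} (h : ∀ v, 0 < p v → f v ≤ g v) :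
    ex p f ≤ ex p g := by
  unfold ex Finsupp.sum
  apply Finset.sum_le_sum
  intro v hv
  have h1 : 0 < p v := lt_of_le_of_ne (hp.1 v) (Ne.symm (Finsupp.mem_support_iff.1 hv))
  exact mul_le_mul_of_nonneg_left (h v h1) h1.le

theorem inner_bar (q : Sph 3 →₀ ℝ) (z : Eu 3) : ⟪bar q, z⟫ = ex q (fun y => ⟪(y : Eu 3), z⟫) := by
  unfold bar ex Finsupp.sum
  rw [sum_inner]
  exact Finset.sum_congr rfl fun v _ => by rw [real_inner_smul_left]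

theorem inner_mo2 (q : Sph 3 →₀ ℝ) (z z' : Eu 3) :
    ⟪mo q z, z'⟫ = ex q (fun y => ⟪(y : Eu 3), z⟫ * ⟪(y : Eu 3), z'⟫) := by
  unfold mo ex Finsupp.sum
  rw [sum_apply, sum_inner]
  refine Finset.sum_congr rfl fun v _ => ?_
  rw [smul_apply, ContinuousLinearMap.smulRight_apply, innerSL_apply_apply,
    real_inner_smul_left, real_inner_smul_left]

theorem inner_mo (q : Sph 3 →₀ ℝ) (z : Eu 3) :
    ⟪mo q z, z⟫ = ex q (fun y => ⟪(y : Eu 3), z⟫ ^ 2) := by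
  rw [inner_mo2]
  simp only [pow_two]

theorem ex_comm (p q : Sph 3 →₀ ℝ) (F : Sph 3 → Sph 3 → ℝ) :
    ex p (fun v => ex q (fun y => F v y)) = ex q (fun y => ex p (fun v => F v y)) := by
  unfold ex Finsupp.sum
  simp only [Finset.mul_sum]
  rw [Finset.sum_comm]
  exact Finset.sum_congr rfl fun v _ => Finset.sum_congr rfl fun y _ => by ring

/-- the formula for the difference of the means -/
theorem formula {p q : Sph 3 →₀ ℝ} (hp : Pw p) (hq : Pw q) :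
    ex p (gq p q) - ex q (gq p q) =
      (ex p (fun v => ⟪mo p (v : Eu 3), (v : Eu 3)⟫) - c2 3) +
      (ex q (fun v => ⟪mo q (v : Eu 3), (v : Eu 3)⟫) - c2 3) +
      (1 - c2 3) * (‖bar p‖ ^ 2 + ‖bar q‖ ^ 2) +
      2 * ex p (fun v => ex q (fun y => (1 + ⟪(v : Eu 3), (y : Eu 3)⟫) *
        (c2 3 - ⟪(v : Eu 3), (y : Eu 3)⟫))) := by
  have hg : ∀ z : Sph 3, gq p q z = (⟪mo p (z : Eu 3), (z : Eu 3)⟫ +
      (-1) * ⟪mo q (z : Eu 3), (z : Eu 3)⟫) +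
      ((1 - c2 3) * ⟪(z : Eu 3), bar p⟫ + (-(1 - c2 3)) * ⟪(z : Eu 3), bar q⟫) := by
    intro z
    unfold gq
    rw [sub_apply, inner_sub_left, inner_sub_left,
      real_inner_comm (z : Eu 3) (bar p), real_inner_comm (z : Eu 3) (bar q)]
    ring
  have hex : ∀ r : Sph 3 →₀ ℝ, ex r (gq p q) =
      (ex r (fun v => ⟪mo p (v : Eu 3), (v : Eu 3)⟫) +
        (-1) * ex r (fun v => ⟪mo q (v : Eu 3), (v : Eu 3)⟫)) +
      ((1 - c2 3) * ⟪bar r, bar p⟫ + (-(1 - c2 3)) * ⟪bar r, bar q⟫) := by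
    intro r
    have h1 : gq p q = fun z : Sph 3 => (⟪mo p (z : Eu 3), (z : Eu 3)⟫ +
      (-1) * ⟪mo q (z : Eu 3), (z : Eu 3)⟫) +
      ((1 - c2 3) * ⟪(z : Eu 3), bar p⟫ + (-(1 - c2 3)) * ⟪(z : Eu 3), bar q⟫) := funext hg
    rw [h1, ex_add, ex_add, ex_add, ex_mul, ex_mul, ex_mul, ← inner_bar, ← inner_bar]
  have hW : ex p (fun v => ⟪mo q (v : Eu 3), (v : Eu 3)⟫) =
      ex q (fun v => ⟪mo p (v : Eu 3), (v : Eu 3)⟫) := by
    simp only [inner_mo]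
    rw [ex_comm]
    simp only [real_inner_comm]
  have hE : ex p (fun v => ex q (fun y => (1 + ⟪(v : Eu 3), (y : Eu 3)⟫) *
        (c2 3 - ⟪(v : Eu 3), (y : Eu 3)⟫))) =
      c2 3 + ((c2 3 - 1) * ⟪bar p, bar q⟫ +
        (-1) * ex p (fun v => ⟪mo q (v : Eu 3), (v : Eu 3)⟫)) := by
    have h1 : ∀ v y : Sph 3, (1 + ⟪(v : Eu 3), (y : Eu 3)⟫) * (c2 3 - ⟪(v : Eu 3), (y : Eu 3)⟫) =
        c2 3 + ((c2 3 - 1) * ⟪(y : Eu 3), (v : Eu 3)⟫ + (-1) * ⟪(y : Eu 3), (v : Eu 3)⟫ ^ 2) := by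
      intro v y
      rw [real_inner_comm (y : Eu 3) (v : Eu 3)]
      ring
    simp only [h1]
    simp only [ex_add, ex_mul, ex_const hq, ex_const hp, ← inner_bar, ← inner_mo]
    have h2 : ex p (fun v => ⟪bar q, (v : Eu 3)⟫) = ⟪bar p, bar q⟫ := by
      rw [inner_bar]
      simp only [real_inner_comm]
    rw [h2]
  rw [hex p, hex q, hE, ← hW, real_inner_self_eq_norm_sq, real_inner_self_eq_norm_sq,
    real_inner_comm (bar p) (bar q)]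
  ring

theorem inner_ge (v y : Sph 3) : -1 ≤ ⟪(v : Eu 3), (y : Eu 3)⟫ := by
  have h1 : ‖(v : Eu 3)‖ = 1 := mem_sphere_zero_iff_norm.1 v.2
  have h2 : ‖(y : Eu 3)‖ = 1 := mem_sphere_zero_iff_norm.1 y.2
  have h3 := abs_real_inner_le_norm (v : Eu 3) (y : Eu 3)
  rw [h1, h2, mul_one] at h3
  exact (abs_le.1 h3).1

theorem c23 : c2 3 = 1 / 4 := by
  unfold c2
  norm_num

/-- the three bounds -/
theorem three (hIp : SIp) (hW : SWelch) {ε τ : ℝ} {p q : Sph 3 →₀ ℝ} (h0 : 0 ≤ ε)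
    (h1 : ε ≤ 1 / 100) (hp : Pw p) (hq : Pw q) (hC : Cpt2 (1 / 4 + ε) p q)
    (hτ : ipw (Dm 1 p q) (Dm 1 p q) + 3 * ε ≤ τ) :
    (ex p (fun v => ⟪mo p (v : Eu 3), (v : Eu 3)⟫) - 1 / 4 ≤ τ ∧ 3 / 4 * ‖bar p‖ ^ 2 ≤ τ) ∧
    (ex q (fun v => ⟪mo q (v : Eu 3), (v : Eu 3)⟫) - 1 / 4 ≤ τ ∧ 3 / 4 * ‖bar q‖ ^ 2 ≤ τ) := by
  have hf := formula hp hq
  rw [hIp.1 p q p q, c23] at hf
  have hWp := hW 3 p hp
  have hWq := hW 3 q hq
  rw [c23] at hWp hWq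
  have hE : -(13 / 10) * ε ≤ ex p (fun v => ex q (fun y => (1 + ⟪(v : Eu 3), (y : Eu 3)⟫) *
      (1 / 4 - ⟪(v : Eu 3), (y : Eu 3)⟫))) := by
    have h2 : -(13 / 10) * ε = ex p (fun _ => ex q (fun _ => -(13 / 10) * ε)) := by
      rw [ex_const hq, ex_const hp]
    rw [h2]
    refine ex_mono hp fun v hv => ex_mono hq fun y hy => ?_
    have h3 := hC v y hv hy
    have h4 := inner_ge v y
    by_cases h5 : ⟪(v : Eu 3), (y : Eu 3)⟫ ≤ 1 / 4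
    · have h6 : 0 ≤ (1 + ⟪(v : Eu 3), (y : Eu 3)⟫) * (1 / 4 - ⟪(v : Eu 3), (y : Eu 3)⟫) :=
        mul_nonneg (by linarith) (by linarith)
      linarith
    · push Not at h5
      nlinarith
  have hbp := sq_nonneg ‖bar p‖
  have hbq := sq_nonneg ‖bar q‖
  refine ⟨⟨?_, ?_⟩, ?_, ?_⟩ <;> linarith

/-- the standard basis -/
noncomputable def bs : OrthonormalBasis (Fin (3 + 1)) ℝ (Eu 3) := EuclideanSpace.basisFun (Fin (3 + 1)) ℝ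

/-- the square norm of the second moment -/
theorem sum_mo (hMo : SMo) {r : Sph 3 →₀ ℝ} (hr : Pw r) :
    ∑ k, ‖mo r (bs k)‖ ^ 2 = ex r (fun v => ⟪mo r (v : Eu 3), (v : Eu 3)⟫) := by
  obtain ⟨-, -, -, hs, -⟩ := hMo 3 r r hr hr
  have h1 : ∀ k, ‖mo r (bs k)‖ ^ 2 =
      ex r (fun v => ⟪mo r (v : Eu 3), bs k⟫ * ⟪bs k, (v : Eu 3)⟫) := by
    intro k
    rw [← real_inner_self_eq_norm_sq, inner_mo2]
    congr 1
    funext v
    rw [← hs, real_inner_comm (bs k) (v : Eu 3)]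
    ring
  simp_rw [h1]
  unfold ex Finsupp.sum
  rw [Finset.sum_comm]
  refine Finset.sum_congr rfl fun v _ => ?_
  rw [← Finset.mul_sum, bs.sum_inner_mul_inner]

theorem quad (hMo : SMo) {r : Sph 3 →₀ ℝ} (hr : Pw r) (x : Sph 3) :
    (⟪mo r (x : Eu 3), (x : Eu 3)⟫ - 1 / 4) ^ 2 ≤
      ex r (fun v => ⟪mo r (v : Eu 3), (v : Eu 3)⟫) - 1 / 4 := by
  obtain ⟨-, -, -, hs, -, -, htr, -⟩ := hMo 3 r r hr hr
  have hx : ‖(x : Eu 3)‖ = 1 := mem_sphere_zero_iff_norm.1 x.2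
  have htr2 : ∑ k, ⟪bs k, mo r (bs k)⟫ = 1 := by
    rw [← htr, LinearMap.trace_eq_sum_inner _ bs]
    rfl
  have hA : ∀ k, ‖mo r (bs k) - (1 / 4 : ℝ) • bs k‖ ^ 2 =
      ‖mo r (bs k)‖ ^ 2 - 1 / 2 * ⟪bs k, mo r (bs k)⟫ + 1 / 16 := by
    intro k
    rw [norm_sub_sq_real, real_inner_smul_right, norm_smul, bs.norm_eq_one,
      real_inner_comm (bs k) (mo r (bs k))]
    norm_num
    ring
  have hsum : ∑ k, ‖mo r (bs k) - (1 / 4 : ℝ) • bs k‖ ^ 2 =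
      ex r (fun v => ⟪mo r (v : Eu 3), (v : Eu 3)⟫) - 1 / 4 := by
    simp_rw [hA]
    rw [Finset.sum_add_distrib, Finset.sum_sub_distrib, ← Finset.mul_sum, htr2, sum_mo hMo hr]
    simp
    ring
  have hin : ⟪mo r (x : Eu 3), (x : Eu 3)⟫ - 1 / 4 =
      ∑ k, ⟪(x : Eu 3), bs k⟫ * ⟪mo r (bs k) - (1 / 4 : ℝ) • bs k, (x : Eu 3)⟫ := by
    have h1 : ∀ k, ⟪(x : Eu 3), bs k⟫ * ⟪mo r (bs k) - (1 / 4 : ℝ) • bs k, (x : Eu 3)⟫ =
        ⟪(x : Eu 3), bs k⟫ * ⟪bs k, mo r (x : Eu 3)⟫ - 1 / 4 * (⟪(x : Eu 3), bs k⟫ *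
          ⟪bs k, (x : Eu 3)⟫) := by
      intro k
      rw [inner_sub_left, real_inner_smul_left, hs]
      ring
    simp_rw [h1]
    rw [Finset.sum_sub_distrib, ← Finset.mul_sum, bs.sum_inner_mul_inner, bs.sum_inner_mul_inner,
      real_inner_self_eq_norm_sq, hx, real_inner_comm (mo r (x : Eu 3)) (x : Eu 3)]
    norm_num
  have hone : ∑ k, ⟪(x : Eu 3), bs k⟫ ^ 2 = 1 := by
    have h1 := bs.sum_inner_mul_inner (x : Eu 3) (x : Eu 3)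
    rw [real_inner_self_eq_norm_sq, hx] at h1
    rw [one_pow] at h1
    refine Eq.trans (Finset.sum_congr rfl fun k _ => ?_) h1
    rw [real_inner_comm (x : Eu 3) (bs k), pow_two]
  rw [hin, ← hsum]
  calc (∑ k, ⟪(x : Eu 3), bs k⟫ * ⟪mo r (bs k) - (1 / 4 : ℝ) • bs k, (x : Eu 3)⟫) ^ 2
      ≤ (∑ k, ⟪(x : Eu 3), bs k⟫ ^ 2) *
        ∑ k, ⟪mo r (bs k) - (1 / 4 : ℝ) • bs k, (x : Eu 3)⟫ ^ 2 :=
        Finset.sum_mul_sq_le_sq_mul_sq _ _ _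
    _ = ∑ k, ⟪mo r (bs k) - (1 / 4 : ℝ) • bs k, (x : Eu 3)⟫ ^ 2 := by rw [hone, one_mul]
    _ ≤ ∑ k, ‖mo r (bs k) - (1 / 4 : ℝ) • bs k‖ ^ 2 := by
        refine Finset.sum_le_sum fun k _ => ?_
        have h1 := abs_real_inner_le_norm (mo r (bs k) - (1 / 4 : ℝ) • bs k) (x : Eu 3)
        rw [hx, mul_one] at h1
        rw [← sq_abs]
        exact pow_le_pow_left₀ (abs_nonneg _) h1 2

/-- the two estimates -/
theorem fin (hMo : SMo) {τ : ℝ} {r : Sph 3 →₀ ℝ} (hr : Pw r) (hτ : 0 ≤ τ)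
    (h1 : ex r (fun v => ⟪mo r (v : Eu 3), (v : Eu 3)⟫) - 1 / 4 ≤ τ)
    (h2 : 3 / 4 * ‖bar r‖ ^ 2 ≤ τ) (x : Sph 3) :
    |⟪(x : Eu 3), bar r⟫| ≤ 2 * √τ ∧
      |ex r (fun y => (1 + ⟪(x : Eu 3), (y : Eu 3)⟫) * (1 / 4 - ⟪(x : Eu 3), (y : Eu 3)⟫))| ≤
        2 * √τ := by
  have hx : ‖(x : Eu 3)‖ = 1 := mem_sphere_zero_iff_norm.1 x.2
  have hs0 := Real.sqrt_nonneg τ
  have hs2 := Real.sq_sqrt hτ
  have hb : |⟪(x : Eu 3), bar r⟫| ≤ 29 / 25 * √τ := by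
    have h3 := abs_real_inner_le_norm (x : Eu 3) (bar r)
    rw [hx, one_mul] at h3
    refine h3.trans ?_
    refine abs_le_of_sq_le_sq' ?_ (by positivity) |>.2
    nlinarith
  have hq := quad hMo hr x
  have hA : |⟪mo r (x : Eu 3), (x : Eu 3)⟫ - 1 / 4| ≤ √τ := by
    refine Real.abs_le_sqrt ?_
    linarith
  refine ⟨by linarith, ?_⟩
  have hex : ex r (fun y => (1 + ⟪(x : Eu 3), (y : Eu 3)⟫) * (1 / 4 - ⟪(x : Eu 3), (y : Eu 3)⟫)) =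
      -(3 / 4) * ⟪(x : Eu 3), bar r⟫ - (⟪mo r (x : Eu 3), (x : Eu 3)⟫ - 1 / 4) := by
    have h3 : ∀ y : Sph 3, (1 + ⟪(x : Eu 3), (y : Eu 3)⟫) * (1 / 4 - ⟪(x : Eu 3), (y : Eu 3)⟫) =
        1 / 4 + ((-(3 / 4)) * ⟪(y : Eu 3), (x : Eu 3)⟫ + (-1) * ⟪(y : Eu 3), (x : Eu 3)⟫ ^ 2) := by
      intro y
      rw [real_inner_comm (y : Eu 3) (x : Eu 3)]
      ring
    simp only [h3]
    simp only [ex_add, ex_mul, ex_const hr, ← inner_bar, ← inner_mo]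
    rw [real_inner_comm (x : Eu 3) (bar r)]
    ring
  rw [hex]
  rw [abs_le] at hb hA ⊢
  constructor <;> nlinarith [hb.1, hb.2, hA.1, hA.2]

end EngAux

open EngAux in
theorem pEng : SIp → SWelch → SMo → SEng := by
  intro hIp hW hMo ε τ p q h0 h1 hp hq hC hτ r hr x
  obtain ⟨⟨a1, a2⟩, b1, b2⟩ := three hIp hW h0 h1 hp hq hC hτ
  have hτ0 : 0 ≤ τ := le_trans (by positivity) a2
  rcases hr with rfl | rfl
  · exact fin hMo hp hτ0 a1 a2 x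
  · exact fin hMo hq hτ0 b1 b2 x

end Pool.Agent.MPaafd8a
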