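import Pool.Agent.Lib.MP_aafd8a_gt_D.SpecB

/-!
# MP_aafd8a_gt, disproof for `n = 3`, block (A-i): equivariance and continuity of the model
-/

set_option autoImplicit false

open Topology RealInnerProductSpace

namespace Pool.Agent.MPaafd8a

namespace EqvAux

theorem Sm_smul (s : Equiv.Perm (Fin 5)) (v : RS) (w : WV) : Sm (fv (s • v)) w = Sm (fv v) w := by
  unfold Sm
  have h : ∑ i, ⟪w.2 (fv (s • v) i), fv (s • v) i⟫ • tp (fv (s • v) i) =
      ∑ i, ⟪w.2 (fv v i), fv v i⟫ • tp (fv v i) :=
    Equiv.sum_comp s⁻¹ (fun i => ⟪w.2 (fv v i), fv v i⟫ • tp (fv v i))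
  rw [h]

theorem av_smul (s : Equiv.Perm (Fin 5)) (v : RS) (w : WV) (i : Fin 5) :
    av (fv (s • v)) w i = av (fv v) w (s⁻¹ i) := by
  unfold av
  rw [Sm_smul, fv_smul]

theorem bv_smul (s : Equiv.Perm (Fin 5)) (v : RS) (w : WV) (i : Fin 5) :
    bv (fv (s • v)) w i = bv (fv v) w (s⁻¹ i) := by
  unfold bv
  rw [Sm_smul, fv_smul]

variable {X : Type} [TopologicalSpace X]

theorem continuous_ro {f g : X → Eu 3} (hf : Continuous f) (hg : Continuous g) :
    Continuous fun x => ro (f x) (g x) := by
  have h1 : Continuous fun x => innerSL ℝ (f x) := (innerSL ℝ).continuous.comp hf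
  exact ((ContinuousLinearMap.smulRightL ℝ (Eu 3) (Eu 3)).continuous.comp h1).clm_apply hg

theorem continuous_u (i : Fin 5) : Continuous (fun s : RS × WV => fv s.1 i) :=
  (continuous_fv i).comp continuous_fst

theorem continuous_w : Continuous (fun s : RS × WV => s.2.2) := continuous_snd.comp continuous_snd

theorem continuous_wu (i : Fin 5) : Continuous (fun s : RS × WV => ⟪s.2.2 (fv s.1 i), fv s.1 i⟫) :=
  (continuous_w.clm_apply (continuous_u i)).inner (continuous_u i)

theorem continuous_au (i : Fin 5) : Continuous (fun s : RS × WV => ⟪s.2.1, fv s.1 i⟫) :=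
  (continuous_fst.comp continuous_snd).inner (continuous_u i)

theorem continuous_Sm : Continuous (fun s : RS × WV => Sm (fv s.1) s.2) := by
  unfold Sm
  have h1 : Continuous (fun s : RS × WV =>
      ∑ i, ⟪s.2.2 (fv s.1 i), fv s.1 i⟫ • tp (fv s.1 i)) := by
    refine continuous_finsetSum _ fun i _ => ?_
    exact (continuous_wu i).smul (continuous_ro (continuous_u i) (continuous_u i))
  have h2 : Continuous (fun s : RS × WV =>
      (16 / 15 : ℝ) • ∑ i, ⟪s.2.2 (fv s.1 i), fv s.1 i⟫ • tp (fv s.1 i)) :=
    (continuous_const_smul (16 / 15 : ℝ)).comp h1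
  exact continuous_w.sub h2

theorem continuous_Pm (i : Fin 5) : Continuous (fun s : RS × WV => Pm (fv s.1) s.2 i) := by
  unfold Pm
  exact (continuous_const.add (continuous_const.mul (continuous_au i))).add
    (continuous_const.mul (continuous_wu i))

theorem continuous_Qm (i : Fin 5) : Continuous (fun s : RS × WV => Qm (fv s.1) s.2 i) := by
  unfold Qm
  exact (continuous_const.add (continuous_const.mul (continuous_au i))).sub
    (continuous_const.mul (continuous_wu i))

theorem continuous_av (i : Fin 5) : Continuous (fun s : RS × WV => av (fv s.1) s.2 i) := by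
  unfold av
  exact (continuous_u i).add (continuous_Sm.clm_apply (continuous_u i))

theorem continuous_bv (i : Fin 5) : Continuous (fun s : RS × WV => bv (fv s.1) s.2 i) := by
  unfold bv
  have h := continuous_Sm.clm_apply (continuous_u i)
  exact (((continuous_u i).sub h).add (continuous_Sm.clm_apply h)).neg

theorem continuous_cl {f : X → Fin 5 → Eu 3} (x : Sph 3) (i : Fin 5) (h : Continuous fun v => f v i) :
    Continuous (fun v => cl (f v) x i) := by
  unfold cl
  exact continuous_const.max (continuous_const.min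
    (continuous_const.sub (continuous_const.mul (continuous_const.sub h).norm)))

end EqvAux

open EqvAux in
theorem pEqv : SEqv := by
  refine ⟨fun s v w i => ⟨rfl, rfl, av_smul s v w i, bv_smul s v w i⟩, fun s v x i => ⟨rfl, rfl⟩,
    fun i => ⟨continuous_Pm i, continuous_Qm i, continuous_av i, continuous_bv i⟩, fun x i => ⟨?_, ?_⟩⟩
  · exact continuous_cl x i (continuous_fv i)
  · exact continuous_cl (f := fun (v : RS) j => -fv v j) x i (continuous_fv i).neg

end Pool.Agent.MPaafd8a
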