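import Pool.Agent.Lib.MP_aafd8a_gt_D.SpecC

set_option autoImplicit false

open Topology RealInnerProductSpace

namespace Pool.Agent.MPaafd8a

namespace FarAux

theorem hom_of {X Y : Type} [TopologicalSpace X] [TopologicalSpace Y] (H : C(unitInterval × X, Y)) (f g : C(X, Y))
    (h0 : ∀ x, H (0, x) = f x) (h1 : ∀ x, H (1, x) = g x) : f.Homotopic g :=
  ⟨{ toFun := H, continuous_toFun := H.continuous, map_zero_left := h0, map_one_left := h1 }⟩

theorem sqrt_bound {κ' ε : ℝ} (h1 : 1 ≤ κ') (h0 : 0 < ε) (h : ε < 1 / (900 * κ' ^ 2 + 1)) : 30 * κ' * ε ≤ √ε := by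
  have h2 : 0 < √ε := Real.sqrt_pos.2 h0
  have h3 : √ε * √ε = ε := Real.mul_self_sqrt h0.le
  have h4 : 30 * κ' * √ε ≤ 1 := by
    have h5 : (30 * κ' * √ε) ^ 2 ≤ 1 := by
      have h6 : (30 * κ' * √ε) ^ 2 = 900 * κ' ^ 2 * ε := by
        rw [mul_pow, mul_pow, pow_two (√ε), h3]
        ring
      rw [h6]
      have h7 : ε * (900 * κ' ^ 2 + 1) < 1 := by
        rwa [lt_div_iff₀ (by positivity)] at h
      nlinarith
    nlinarith [mul_pos (show (0 : ℝ) < 30 * κ' by linarith) h2]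
  calc 30 * κ' * ε = (30 * κ' * √ε) * √ε := by rw [mul_assoc (30 * κ'), h3]
    _ ≤ 1 * √ε := mul_le_mul_of_nonneg_right h4 h2.le
    _ = √ε := one_mul _

/-- Straight line homotopies in `W1`. -/
theorem line {X : Type} [TopologicalSpace X] (d e : C(X, W1))
    (h : ∀ (t : unitInterval) (x : X), (1 - (t : ℝ)) • (d x).1 + (t : ℝ) • (e x).1 ≠ 0) : d.Homotopic e := by
  have hm : ∀ y : unitInterval × X, (1 - (y.1 : ℝ)) • (d y.2).1 + (y.1 : ℝ) • (e y.2).1 ∈ W0 3 := fun y =>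
    (W0 3).add_mem ((W0 3).smul_mem _ (d y.2).2.1) ((W0 3).smul_mem _ (e y.2).2.1)
  have hc : Continuous fun y : unitInterval × X => (1 - (y.1 : ℝ)) • (d y.2).1 + (y.1 : ℝ) • (e y.2).1 := by
    have h1 : Continuous fun y : unitInterval × X => (y.1 : ℝ) := continuous_subtype_val.comp continuous_fst
    have h2 : Continuous fun y : unitInterval × X => (d y.2).1 :=
      continuous_subtype_val.comp (d.continuous.comp continuous_snd)
    have h3 : Continuous fun y : unitInterval × X => (e y.2).1 :=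
      continuous_subtype_val.comp (e.continuous.comp continuous_snd)
    exact ((continuous_const.sub h1).smul h2).add (h1.smul h3)
  refine hom_of ⟨fun y => ⟨(1 - (y.1 : ℝ)) • (d y.2).1 + (y.1 : ℝ) • (e y.2).1, hm y, h y.1 y.2⟩,
    hc.subtype_mk _⟩ d e (fun x => ?_) (fun x => ?_)
  · apply Subtype.ext
    change (1 - ((0 : unitInterval) : ℝ)) • (d x).1 + ((0 : unitInterval) : ℝ) • (e x).1 = (d x).1
    rw [Set.Icc.coe_zero, sub_zero, one_smul, zero_smul ℝ (e x).1, add_zero]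
  · apply Subtype.ext
    change (1 - ((1 : unitInterval) : ℝ)) • (d x).1 + ((1 : unitInterval) : ℝ) • (e x).1 = (e x).1
    rw [Set.Icc.coe_one, sub_self, zero_smul ℝ (d x).1, one_smul, zero_add]

/-- The sphere of radius `R` in `W0 3`. -/
abbrev Sp (R : ℝ) : Type := {w : WV // w ∈ W0 3 ∧ ‖w‖ = R}

instance (R : ℝ) : CompactSpace (Sp R) := by
  have : ProperSpace WV := FiniteDimensional.proper ℝ WV
  have h1 : IsClosed {w : WV | w ∈ W0 3} := (W0 3).closed_of_finiteDimensional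
  have h2 : IsClosed {w : WV | ‖w‖ = R} := isClosed_eq continuous_norm continuous_const
  have h3 : IsCompact {w : WV | w ∈ W0 3 ∧ ‖w‖ = R} := by
    refine Metric.isCompact_of_isClosed_isBounded (h1.inter h2) ?_
    refine (Metric.isBounded_closedBall (x := (0 : WV)) (r := R)).subset ?_
    intro w hw
    rw [mem_closedBall_zero_iff]
    exact hw.2.le
  exact isCompact_iff_compactSpace.1 h3

end FarAux

open FarAux in
theorem pFar : SLoc → SHB → SYT → SDc → SHA → SEx5 → SFar := by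
  intro hLoc hHB hYT hDc hHA hEx
  obtain ⟨κ', ε₁, hε₁, hloc⟩ := hLoc 82 (by norm_num)
  have h9 : (0 : ℝ) < 1 / (900 * κ' ^ 2 + 1) := by positivity
  refine ⟨min (min ε₁ (1 / 1000)) (1 / (900 * κ' ^ 2 + 1)), lt_min (lt_min hε₁ (by norm_num)) h9, ?_⟩
  intro ε hc hε0 hε3
  have hl := hloc ε hε0 (hε3.trans_le ((min_le_left _ _).trans (min_le_left _ _)))
  have hε4 : ε ≤ 1 / 1000 := (hε3.trans_le ((min_le_left _ _).trans (min_le_right _ _))).le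
  have hsb := sqrt_bound hl.2.2.1 hε0 (hε3.trans_le (min_le_right _ _))
  have hκ' : 1 ≤ κ' := hl.2.2.1
  have hs0 : 0 < √ε := Real.sqrt_pos.2 hε0
  have hκε : 0 < κ' * ε := mul_pos (by linarith) hε0
  obtain ⟨M, hM⟩ := hHA ε hc hε0 hε4
  obtain ⟨T', g, md, k, -, -, -, -, hmD⟩ := hHB 82 κ' ε hl ∅
  obtain ⟨v₀⟩ := hEx
  obtain ⟨hY1, -, -, hY4, -, -⟩ := hYT (1 / 4 + ε) T'
  obtain ⟨⟨gp, hgp⟩, ⟨gq', hgq⟩⟩ := hY4 hc
  obtain ⟨z, hz⟩ : ∃ z : C(BW (82 * √ε), YT (1 / 4 + ε) T'), ∀ w, z w = md (mkR v₀, w) :=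
    ⟨md.comp ⟨fun w => (mkR v₀, w), continuous_const.prodMk continuous_id⟩, fun w => rfl⟩
  have hzD : ∀ w, ‖Dz (z w) - w.1‖ ≤ √ε := by
    intro w
    have h1 := hmD (mkR v₀) w
    rw [hz]
    nlinarith
  obtain ⟨i, hi⟩ : ∃ i : C(Sp (82 * √ε), BW (82 * √ε)), ∀ w, (i w).1 = w.1 :=
    ⟨⟨fun w => ⟨w.1, w.2.1, w.2.2.le⟩, continuous_subtype_val.subtype_mk _⟩, fun w => rfl⟩
  obtain ⟨p, hp⟩ : ∃ p : C(Sp (82 * √ε), Geo (capK 3 (1 / 4 + ε) hc)), ∀ w, p w = gp (z (i w)) :=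
    ⟨gp.comp (z.comp i), fun w => rfl⟩
  obtain ⟨q, hq⟩ : ∃ q : C(Sp (82 * √ε), Geo (capK 3 (1 / 4 + ε) hc)), ∀ w, q w = gq' (z (i w)) :=
    ⟨gq'.comp (z.comp i), fun w => rfl⟩
  have hp1 : ∀ w, (p w).1 = yp (z (i w)) := fun w => by rw [hp, hgp]
  have hq1 : ∀ w, (q w).1 = yq (z (i w)) := fun w => by rw [hq, hgq]
  have hpq : ∀ w, Comp (1 / 4 + ε) (p w) (q w) := by
    intro w
    have h1 : Cpt2 (1 / 4 + ε) (p w).1 (q w).1 := by
      rw [hp1, hq1]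
      exact (hY1 _).2.2.1
    exact h1
  have hD1 : ∀ w, Dm 1 (p w).1 (q w).1 = Dz (z (i w)) := by
    intro w
    rw [hp1, hq1]
    rfl
  have hDn : ∀ w : Sp (82 * √ε), ‖Dm 1 (p w).1 (q w).1 - w.1‖ ≤ √ε := by
    intro w
    rw [hD1, ← hi]
    exact hzD _
  have hDn' : ∀ w : Sp (82 * √ε), 81 * √ε ≤ ‖Dm 1 (p w).1 (q w).1‖ := by
    intro w
    have h1 := hDn w
    have h2 := norm_sub_norm_le w.1 (Dm 1 (p w).1 (q w).1)
    rw [norm_sub_rev, w.2.2] at h2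
    linarith
  obtain ⟨hD2, hD3, -⟩ := hDc (capK 3 (1 / 4 + ε) hc) (Sp (82 * √ε)) p q
  have hne : ∀ w, Dm 1 (p w).1 (q w).1 ≠ 0 := by
    intro w h
    have h1 := hDn' w
    rw [h, norm_zero] at h1
    linarith
  obtain ⟨d, hd⟩ : ∃ d : C(Sp (82 * √ε), W1), ∀ w, (d w).1 = Dm 1 (p w).1 (q w).1 :=
    ⟨⟨fun w => ⟨Dm 1 (p w).1 (q w).1, hD3 w, hne w⟩, hD2.subtype_mk _⟩, fun w => rfl⟩
  have hA1 : p.Homotopic (M.comp d) := hM (Sp (82 * √ε)) p q d hpq (fun w => by linarith [hDn' w]) hd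
  have hR : 0 < 82 * √ε := by positivity
  have hne2 : ∀ w : Sp (82 * √ε), w.1 ≠ 0 := by
    intro w h
    have h1 := w.2.2
    rw [h, norm_zero] at h1
    linarith
  obtain ⟨ι, hι⟩ : ∃ ι : C(Sp (82 * √ε), W1), ∀ w, (ι w).1 = w.1 :=
    ⟨⟨fun w => ⟨w.1, w.2.1, hne2 w⟩, continuous_subtype_val.subtype_mk _⟩, fun w => rfl⟩
  have hdι : d.Homotopic ι := by
    refine line d ι (fun t w h => ?_)
    rw [hd, hι] at h
    have h1 := hDn w
    have ht0 : 0 ≤ (t : ℝ) := t.2.1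
    have ht1 : (t : ℝ) ≤ 1 := t.2.2
    have h2 : w.1 = -((1 - (t : ℝ)) • (Dm 1 (p w).1 (q w).1 - w.1)) := by
      have h3 : (1 - (t : ℝ)) • (Dm 1 (p w).1 (q w).1 - w.1) + w.1 =
          (1 - (t : ℝ)) • Dm 1 (p w).1 (q w).1 + (t : ℝ) • w.1 := by
        rw [smul_sub, sub_smul 1 (t : ℝ) w.1, one_smul]
        abel
      rw [h] at h3
      exact eq_neg_of_add_eq_zero_right h3
    have h3 : ‖w.1‖ ≤ √ε := by
      rw [h2, norm_neg, norm_smul, Real.norm_eq_abs, abs_of_nonneg (by linarith)]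
      have h4 := norm_nonneg (Dm 1 (p w).1 (q w).1 - w.1)
      nlinarith
    rw [w.2.2] at h3
    linarith
  -- the disc
  have hsc : ∀ y : unitInterval × Sp (82 * √ε), (1 - (y.1 : ℝ)) • y.2.1 ∈ W0 3 ∧ ‖(1 - (y.1 : ℝ)) • y.2.1‖ ≤ 82 * √ε := by
    intro y
    refine ⟨(W0 3).smul_mem _ y.2.2.1, ?_⟩
    have ht0 : 0 ≤ (y.1 : ℝ) := y.1.2.1
    have ht1 : (y.1 : ℝ) ≤ 1 := y.1.2.2
    rw [norm_smul, Real.norm_eq_abs, abs_of_nonneg (by linarith), y.2.2.2]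
    nlinarith
  have hscc : Continuous fun y : unitInterval × Sp (82 * √ε) => (1 - (y.1 : ℝ)) • y.2.1 :=
    (continuous_const.sub (continuous_subtype_val.comp continuous_fst)).smul
      (continuous_subtype_val.comp continuous_snd)
  obtain ⟨G, hG⟩ : ∃ G : C(unitInterval × Sp (82 * √ε), Geo (capK 3 (1 / 4 + ε) hc)),
      ∀ y, G y = gp (z ⟨(1 - (y.1 : ℝ)) • y.2.1, hsc y⟩) :=
    ⟨gp.comp (z.comp ⟨fun y => ⟨(1 - (y.1 : ℝ)) • y.2.1, hsc y⟩, hscc.subtype_mk _⟩), fun y => rfl⟩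
  obtain ⟨k₀, hk₀⟩ : ∃ k₀, k₀ = gp (z ⟨0, (W0 3).zero_mem, by rw [norm_zero]; exact hR.le⟩) := ⟨_, rfl⟩
  have hpc : p.Homotopic (ContinuousMap.const _ k₀) := by
    refine hom_of G p _ (fun w => ?_) (fun w => ?_)
    · rw [hG, hp]
      congr 2
      apply Subtype.ext
      change (1 - ((0 : unitInterval) : ℝ)) • w.1 = (i w).1
      rw [Set.Icc.coe_zero, sub_zero, one_smul, hi]
    · rw [hG]
      change _ = k₀
      rw [hk₀]
      congr 2
      apply Subtype.ext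
      change (1 - ((1 : unitInterval) : ℝ)) • w.1 = 0
      rw [Set.Icc.coe_one, sub_self]
      exact zero_smul ℝ w.1
  have hMι : (M.comp ι).Homotopic (ContinuousMap.const _ k₀) :=
    ((ContinuousMap.Homotopic.refl M).comp hdι.symm).trans (hA1.symm.trans hpc)
  -- the retraction
  have hwp : ∀ w : W1, 0 < ‖w.1‖ := fun w => norm_pos_iff.2 w.2.2
  have hr : ∀ w : W1, (82 * √ε / ‖w.1‖) • w.1 ∈ W0 3 ∧ ‖(82 * √ε / ‖w.1‖) • w.1‖ = 82 * √ε := by
    intro w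
    refine ⟨(W0 3).smul_mem _ w.2.1, ?_⟩
    rw [norm_smul, Real.norm_eq_abs, abs_of_pos (div_pos hR (hwp w)), div_mul_cancel₀ _ (hwp w).ne']
  have hrc : Continuous fun w : W1 => (82 * √ε / ‖w.1‖) • w.1 :=
    (continuous_const.div continuous_subtype_val.norm (fun w => (hwp w).ne')).smul continuous_subtype_val
  obtain ⟨r, hr1⟩ : ∃ r : C(W1, Sp (82 * √ε)), ∀ w, (r w).1 = (82 * √ε / ‖w.1‖) • w.1 :=
    ⟨⟨fun w => ⟨(82 * √ε / ‖w.1‖) • w.1, hr w⟩, hrc.subtype_mk _⟩, fun w => rfl⟩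
  have hid : (ContinuousMap.id W1).Homotopic (ι.comp r) := by
    refine line _ _ (fun t w h => ?_)
    have ht0 : 0 ≤ (t : ℝ) := t.2.1
    have ht1 : (t : ℝ) ≤ 1 := t.2.2
    have h10 : (1 - (t : ℝ)) • w.1 + (t : ℝ) • ((82 * √ε / ‖w.1‖) • w.1) = 0 := by
      rw [← hr1, ← hι]
      exact h
    rw [smul_smul] at h10
    have h1' : ((1 - (t : ℝ)) + (t : ℝ) * (82 * √ε / ‖w.1‖)) • w.1 = 0 := (add_smul _ _ w.1).trans h10
    have h5 : ‖(1 - (t : ℝ)) + (t : ℝ) * (82 * √ε / ‖w.1‖)‖ * ‖w.1‖ = 0 := by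
      rw [← norm_smul, h1', norm_zero]
    have h6 := (mul_eq_zero.1 h5).resolve_right (hwp w).ne'
    have h1 : (1 - (t : ℝ)) + (t : ℝ) * (82 * √ε / ‖w.1‖) = 0 := norm_eq_zero.1 h6
    have h2 : 0 < 82 * √ε / ‖w.1‖ := div_pos hR (hwp w)
    rcases lt_or_eq_of_le ht1 with h3 | h3
    · have h4 : 0 ≤ (t : ℝ) * (82 * √ε / ‖w.1‖) := mul_nonneg ht0 h2.le
      linarith
    · rw [h3] at h1
      linarith
  have hMc : M.Homotopic (ContinuousMap.const _ k₀) := by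
    have h1 : (M.comp (ContinuousMap.id W1)).Homotopic (M.comp (ι.comp r)) :=
      (ContinuousMap.Homotopic.refl M).comp hid
    have h2 : ((M.comp ι).comp r).Homotopic ((ContinuousMap.const (Sp (82 * √ε)) k₀).comp r) :=
      hMι.comp (ContinuousMap.Homotopic.refl r)
    exact h1.trans h2
  refine ⟨k₀, ?_⟩
  intro X _ _ p' q' hC hD
  obtain ⟨hD2', hD3', -⟩ := hDc (capK 3 (1 / 4 + ε) hc) X p' q'
  have hne' : ∀ x, Dm 1 (p' x).1 (q' x).1 ≠ 0 := by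
    intro x h
    have h1 := hD x
    rw [h, norm_zero] at h1
    linarith
  obtain ⟨d', hd'⟩ : ∃ d' : C(X, W1), ∀ x, (d' x).1 = Dm 1 (p' x).1 (q' x).1 :=
    ⟨⟨fun x => ⟨Dm 1 (p' x).1 (q' x).1, hD3' x, hne' x⟩, hD2'.subtype_mk _⟩, fun x => rfl⟩
  have hA2 : p'.Homotopic (M.comp d') := hM X p' q' d' hC hD hd'
  have h2 : (M.comp d').Homotopic ((ContinuousMap.const W1 k₀).comp d') :=
    hMc.comp (ContinuousMap.Homotopic.refl d')
  exact hA2.trans h2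

end Pool.Agent.MPaafd8a
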