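import Pool.Agent.Lib.MP_aafd8a_gt_D.SpecA

/-!
# MP_aafd8a_gt, block (A-i): five clusters
-/

set_option autoImplicit false

open Topology RealInnerProductSpace

namespace Pool.Agent.MPaafd8a

namespace FiveAux

theorem ms_eq (q : Sph 3 →₀ ℝ) (s : Set (Sph 3)) :
    ms q s = ∑ v ∈ q.support, q v * s.indicator (fun _ => (1 : ℝ)) v := rfl

theorem ms_mono {q : Sph 3 →₀ ℝ} (hq : Pw q) {s t : Set (Sph 3)} (h : ∀ v, 0 < q v → v ∈ s → v ∈ t) :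
    ms q s ≤ ms q t := by
  rw [ms_eq, ms_eq]
  refine Finset.sum_le_sum fun v hv => ?_
  have h0 : 0 < q v := lt_of_le_of_ne (hq.1 v) (Ne.symm (Finsupp.mem_support_iff.1 hv))
  refine mul_le_mul_of_nonneg_left ?_ h0.le
  by_cases hs : v ∈ s
  · rw [Set.indicator_of_mem hs, Set.indicator_of_mem (h v h0 hs)]
  · rw [Set.indicator_of_notMem hs]
    exact Set.indicator_nonneg (fun _ _ => zero_le_one) v

theorem exists_of_lt {q : Sph 3 →₀ ℝ} (hq : Pw q) {s t : Set (Sph 3)} (h : ms q t < ms q s) :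
    ∃ v, 0 < q v ∧ v ∈ s ∧ v ∉ t := by
  by_contra hcon
  push Not at hcon
  exact absurd (ms_mono hq hcon) (not_le.2 h)

theorem ms_empty (q : Sph 3 →₀ ℝ) : ms q ∅ = 0 := by
  rw [ms_eq]
  refine Finset.sum_eq_zero fun v _ => ?_
  rw [Set.indicator_empty, mul_zero]

theorem exists_of_pos {q : Sph 3 →₀ ℝ} (hq : Pw q) {s : Set (Sph 3)} (h : 0 < ms q s) : ∃ v, 0 < q v ∧ v ∈ s := by
  rw [← ms_empty q] at h
  obtain ⟨v, h1, h2, _⟩ := exists_of_lt hq h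
  exact ⟨v, h1, h2⟩

theorem sum_ms {q : Sph 3 →₀ ℝ} (hq : Pw q) (S : Finset (Sph 3)) (C : Sph 3 → Set (Sph 3))
    (h : ∀ v, 0 < q v → ∃ s ∈ S, v ∈ C s ∧ ∀ s' ∈ S, s' ≠ s → v ∉ C s') : ∑ s ∈ S, ms q (C s) = 1 := by
  have h1 : (∑ v ∈ q.support, q v) = 1 := hq.2
  simp only [ms_eq]
  rw [Finset.sum_comm]
  refine Eq.trans ?_ h1
  refine Finset.sum_congr rfl fun v hv => ?_
  have h0 : 0 < q v := lt_of_le_of_ne (hq.1 v) (Ne.symm (Finsupp.mem_support_iff.1 hv))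
  obtain ⟨s, hs, hvs, huniq⟩ := h v h0
  rw [← Finset.mul_sum, Finset.sum_eq_single s, Set.indicator_of_mem hvs, mul_one]
  · intro s' hs' hne
    exact Set.indicator_of_notMem (huniq s' hs' hne) _
  · intro h2
    exact absurd hs h2

theorem nrm1 (x : Sph 3) : ‖(x : Eu 3)‖ = 1 := mem_sphere_zero_iff_norm.1 x.2

theorem sq_add (x y : Sph 3) : ‖(x : Eu 3) + y‖ ^ 2 = 2 + 2 * ⟪(x : Eu 3), (y : Eu 3)⟫ := by
  rw [norm_add_sq_real, nrm1, nrm1]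
  ring

theorem sq_sub (x y : Sph 3) : ‖(x : Eu 3) - y‖ ^ 2 = 2 - 2 * ⟪(x : Eu 3), (y : Eu 3)⟫ := by
  rw [norm_sub_sq_real, nrm1, nrm1]
  ring

theorem near {r : ℝ} (hr : 0 ≤ r) {x y : Sph 3} (h : ⟪(x : Eu 3), (y : Eu 3)⟫ ≤ -1 + r ^ 2) :
    ‖(x : Eu 3) + y‖ ≤ 3 / 2 * r := by
  have h1 := sq_add x y
  have h2 : ‖(x : Eu 3) + y‖ ^ 2 ≤ (3 / 2 * r) ^ 2 := by nlinarith [sq_nonneg r]
  exact abs_le_of_sq_le_sq' h2 (by positivity) |>.2

theorem tri (x y s : Sph 3) : ‖(x : Eu 3) - s‖ ≤ ‖(x : Eu 3) + y‖ + ‖(s : Eu 3) + y‖ := by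
  have h : (x : Eu 3) - s = ((x : Eu 3) + y) - ((s : Eu 3) + y) := by abel
  rw [h]
  exact norm_sub_le _ _

theorem tri' (x y s : Sph 3) : ‖(x : Eu 3) + y‖ ≤ ‖(x : Eu 3) - s‖ + ‖(s : Eu 3) + y‖ := by
  have h : (x : Eu 3) + y = ((x : Eu 3) - s) + ((s : Eu 3) + y) := by abel
  rw [h]
  exact norm_add_le _ _

theorem dich {r : ℝ} (hr : 0 < r) (hr2 : r ^ 2 ≤ 1 / 1000) {p q : Sph 3 →₀ ℝ} (hq : Pw q)
    (hc : Cpt2 (1 / 4 + r ^ 2) p q) (hM : ∀ x, 0 < p x → MsP (r ^ 2) q x) {x x' : Sph 3} (hx : 0 < p x)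
    (hx' : 0 < p x') : ‖(x : Eu 3) - x'‖ ≤ 3 * r ∨ |⟪(x : Eu 3), (x' : Eu 3)⟫ + 1 / 4| ≤ 2 * r := by
  have hr1 : r ≤ 1 / 2 := by nlinarith
  have h1 := (hM x hx).1
  have h2 := (hM x' hx').2.2
  obtain ⟨y, hy, hy1, hy2⟩ := exists_of_lt hq (lt_of_le_of_lt h2 (lt_of_lt_of_le (by linarith) h1))
  have hy1' : ⟪(x : Eu 3), (y : Eu 3)⟫ ≤ -1 + r ^ 2 := hy1
  have hn := near hr.le hy1'
  have hup := hc x' y hx' hy
  by_cases ht : ⟪(x' : Eu 3), (y : Eu 3)⟫ ≤ -1 + r ^ 2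
  · left
    have hn' := near hr.le ht
    have := tri x y x'
    linarith
  · right
    have hlo : 1 / 4 - r ^ 2 ≤ ⟪(x' : Eu 3), (y : Eu 3)⟫ := by
      by_contra hcon
      exact hy2 ⟨not_le.1 ht, not_le.1 hcon⟩
    have e1 : ⟪(x : Eu 3), (x' : Eu 3)⟫ = ⟪(x' : Eu 3), (x : Eu 3) + y⟫ - ⟪(x' : Eu 3), (y : Eu 3)⟫ := by
      rw [inner_add_right, real_inner_comm (x' : Eu 3) (x : Eu 3)]
      ring
    have e2 : |⟪(x' : Eu 3), (x : Eu 3) + y⟫| ≤ ‖(x : Eu 3) + y‖ := by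
      have := abs_real_inner_le_norm (x' : Eu 3) ((x : Eu 3) + y)
      rwa [nrm1, one_mul] at this
    have e3 := abs_le.1 e2
    rw [e1, abs_le]
    constructor <;> nlinarith [e3.1, e3.2]

end FiveAux

open FiveAux in
theorem pFive : SFive := by
  intro θ p q hθ hθ1 hp hq hc hMq hMp
  classical
  obtain ⟨r, hr, hrθ⟩ : ∃ r : ℝ, 0 < r ∧ r ^ 2 = θ := ⟨√θ, Real.sqrt_pos.2 hθ, Real.sq_sqrt hθ.le⟩
  have hsq : √θ = r := by rw [← hrθ, Real.sqrt_sq hr.le]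
  rw [hsq]
  subst hrθ
  have hr1 : r ≤ 1 / 30 := by nlinarith
  have hD : ∀ x x' : Sph 3, 0 < p x → 0 < p x' →
      ‖(x : Eu 3) - x'‖ ≤ 3 * r ∨ |⟪(x : Eu 3), (x' : Eu 3)⟫ + 1 / 4| ≤ 2 * r :=
    fun x x' hx hx' => dich hr hθ1 hq hc hMq hx hx'
  -- a maximal set
  obtain ⟨S, hS, hmax⟩ := Finset.exists_max_image
    (p.support.powerset.filter fun T : Finset (Sph 3) => ∀ a ∈ T, ∀ b ∈ T, a ≠ b → 3 * r < ‖(a : Eu 3) - b‖)
    Finset.card ⟨∅, by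
      rw [Finset.mem_filter]
      exact ⟨Finset.empty_mem_powerset _, fun a ha => absurd ha (Finset.notMem_empty a)⟩⟩
  obtain ⟨hSs, hSd⟩ := Finset.mem_filter.1 hS
  rw [Finset.mem_powerset] at hSs
  have hpos : ∀ s ∈ S, 0 < p s := fun s hs =>
    lt_of_le_of_ne (hp.1 s) (Ne.symm (Finsupp.mem_support_iff.1 (hSs hs)))
  have hcov : ∀ z : Sph 3, 0 < p z → ∃ s ∈ S, ‖(z : Eu 3) - s‖ ≤ 3 * r := by
    intro z hz
    by_contra hcon
    push Not at hcon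
    have hzS : z ∉ S := by
      intro h
      have := hcon z h
      rw [sub_self, norm_zero] at this
      linarith
    have h1 : insert z S ∈ p.support.powerset.filter
        fun T : Finset (Sph 3) => ∀ a ∈ T, ∀ b ∈ T, a ≠ b → 3 * r < ‖(a : Eu 3) - b‖ := by
      rw [Finset.mem_filter, Finset.mem_powerset]
      refine ⟨Finset.insert_subset (Finsupp.mem_support_iff.2 hz.ne') hSs, ?_⟩
      intro a ha b hb hab
      rcases Finset.mem_insert.1 ha with rfl | ha'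
      · rcases Finset.mem_insert.1 hb with rfl | hb'
        · exact absurd rfl hab
        · exact hcon b hb'
      · rcases Finset.mem_insert.1 hb with rfl | hb'
        · rw [norm_sub_rev]
          exact hcon a ha'
        · exact hSd a ha' b hb' hab
    have h2 := hmax _ h1
    rw [Finset.card_insert_of_notMem hzS] at h2
    omega
  have hfar : ∀ s ∈ S, ∀ s' ∈ S, s ≠ s' → |⟪(s : Eu 3), (s' : Eu 3)⟫ + 1 / 4| ≤ 2 * r := by
    intro s hs s' hs' hne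
    rcases hD s s' (hpos s hs) (hpos s' hs') with h | h
    · exact absurd h (not_le.2 (hSd s hs s' hs' hne))
    · exact h
  have hdist : ∀ s ∈ S, ∀ s' ∈ S, s ≠ s' → 1 < ‖(s : Eu 3) - s'‖ := by
    intro s hs s' hs' hne
    have h1 := (abs_le.1 (hfar s hs s' hs' hne)).2
    have h2 := sq_sub s s'
    nlinarith [norm_nonneg ((s : Eu 3) - s')]
  -- masses
  have hone : ∀ s ∈ S, |ms p {z : Sph 3 | ‖(z : Eu 3) - s‖ ≤ 3 * r} - 1 / 5| ≤ 26 * r ^ 2 ∧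
      1 / 5 - 3 * r ^ 2 ≤ ms p {z : Sph 3 | ‖(z : Eu 3) - s‖ ≤ 3 * r} := by
    intro s hs
    have h1 := (hMq s (hpos s hs)).1
    obtain ⟨y, hy, hys⟩ := exists_of_pos hq (lt_of_lt_of_le (by linarith) h1)
    have hys' : ⟪(s : Eu 3), (y : Eu 3)⟫ ≤ -1 + r ^ 2 := hys
    have hn := near hr.le hys'
    obtain ⟨m1, m2, _⟩ := hMp y hy
    have m2' := m2 (13 * r ^ 2) (by nlinarith) (by linarith)
    have hlow : 1 / 5 - 3 * r ^ 2 ≤ ms p {z : Sph 3 | ‖(z : Eu 3) - s‖ ≤ 3 * r} := by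
      refine m1.trans (ms_mono hp ?_)
      intro z _ hz
      have hz' : ⟪(y : Eu 3), (z : Eu 3)⟫ ≤ -1 + r ^ 2 := hz
      rw [real_inner_comm] at hz'
      have h2 := near hr.le hz'
      have h3 := tri z y s
      show ‖(z : Eu 3) - s‖ ≤ 3 * r
      linarith
    have hhigh : ms p {z : Sph 3 | ‖(z : Eu 3) - s‖ ≤ 3 * r} ≤ 1 / 5 + 2 * (13 * r ^ 2) := by
      refine le_trans (ms_mono hp ?_) m2'
      intro z _ hz
      have hz' : ‖(z : Eu 3) - s‖ ≤ 3 * r := hz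
      have h3 := tri' z y s
      have h4 : ‖(z : Eu 3) + y‖ ≤ 9 / 2 * r := by linarith
      have h5 := sq_add z y
      have h6 : ‖(z : Eu 3) + y‖ ^ 2 ≤ (9 / 2 * r) ^ 2 := by
        exact pow_le_pow_left₀ (norm_nonneg _) h4 2
      show ⟪(y : Eu 3), (z : Eu 3)⟫ ≤ -1 + 13 * r ^ 2
      rw [real_inner_comm]
      nlinarith [sq_nonneg r]
    refine ⟨?_, hlow⟩
    rw [abs_le]
    constructor
    · nlinarith [sq_nonneg r]
    · linarith
  have hsum : ∑ s ∈ S, ms p {z : Sph 3 | ‖(z : Eu 3) - s‖ ≤ 3 * r} = 1 := by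
    refine sum_ms hp S (fun s => {z : Sph 3 | ‖(z : Eu 3) - s‖ ≤ 3 * r}) ?_
    intro v hv
    obtain ⟨s, hs, hvs⟩ := hcov v hv
    refine ⟨s, hs, hvs, ?_⟩
    intro s' hs' hne hvs'
    have h1 : ‖(v : Eu 3) - s'‖ ≤ 3 * r := hvs'
    have h2 := hdist s' hs' s hs hne
    have h3 : ‖(s' : Eu 3) - s‖ ≤ ‖(v : Eu 3) - s‖ + ‖(v : Eu 3) - s'‖ := by
      have h4 : (s' : Eu 3) - s = ((v : Eu 3) - s) - ((v : Eu 3) - s') := by abel
      rw [h4]
      exact norm_sub_le _ _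
    linarith
  have hcard : S.card = 5 := by
    have hle : (S.card : ℝ) * (1 / 5 - 3 * r ^ 2) ≤ 1 := by
      rw [← nsmul_eq_mul]
      refine le_trans ?_ hsum.le
      exact Finset.card_nsmul_le_sum _ _ _ fun s hs => (hone s hs).2
    have hge : 1 ≤ (S.card : ℝ) * (1 / 5 + 26 * r ^ 2) := by
      rw [← nsmul_eq_mul]
      refine le_trans hsum.ge ?_
      refine Finset.sum_le_card_nsmul _ _ _ fun s hs => ?_
      have := (abs_le.1 (hone s hs).1).2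
      linarith
    have hup : S.card < 6 := by
      by_contra hcon
      have h1 : (6 : ℝ) ≤ S.card := by exact_mod_cast not_lt.1 hcon
      nlinarith
    have hlo : 4 < S.card := by
      by_contra hcon
      have h1 : (S.card : ℝ) ≤ 4 := by exact_mod_cast not_lt.1 hcon
      nlinarith [sq_nonneg r]
    omega
  let e := S.equivFinOfCardEq hcard
  have hmem : ∀ i, ((e.symm i : S) : Sph 3) ∈ S := fun i => (e.symm i).2
  have hne : ∀ i j, i ≠ j → ((e.symm i : S) : Sph 3) ≠ ((e.symm j : S) : Sph 3) := by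
    intro i j hij h
    exact hij (e.symm.injective (Subtype.ext h))
  have hsurj : ∀ s ∈ S, ∃ i, ((e.symm i : S) : Sph 3) = s := by
    intro s hs
    exact ⟨e ⟨s, hs⟩, by rw [Equiv.symm_apply_apply]⟩
  refine ⟨fun i => ((e.symm i : S) : Sph 3), fun i j hij => hfar _ (hmem i) _ (hmem j) (hne i j hij), ?_, ?_,
    fun i => (hone _ (hmem i)).1, ?_⟩
  · intro z hz
    obtain ⟨s, hs, hzs⟩ := hcov z hz
    obtain ⟨i, hi⟩ := hsurj s hs
    refine ⟨i, ?_⟩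
    show ‖(z : Eu 3) - (((e.symm i : S) : Sph 3) : Eu 3)‖ ≤ 3 * r
    rw [hi]
    exact hzs
  · intro y hy
    have h1 := (hMp y hy).1
    obtain ⟨z, hz, hzy⟩ := exists_of_pos hp (lt_of_lt_of_le (by linarith) h1)
    have hzy' : ⟪(y : Eu 3), (z : Eu 3)⟫ ≤ -1 + r ^ 2 := hzy
    have hn := near hr.le hzy'
    obtain ⟨s, hs, hzs⟩ := hcov z hz
    obtain ⟨i, hi⟩ := hsurj s hs
    refine ⟨i, ?_⟩
    show ‖(y : Eu 3) + (((e.symm i : S) : Sph 3) : Eu 3)‖ ≤ 5 * r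
    rw [hi]
    have h3 : ‖(y : Eu 3) + s‖ ≤ ‖(y : Eu 3) + z‖ + ‖(z : Eu 3) - s‖ := by
      have h4 : (y : Eu 3) + s = ((y : Eu 3) + z) - ((z : Eu 3) - s) := by abel
      rw [h4]
      exact norm_sub_le _ _
    linarith
  · intro i
    set s : Sph 3 := ((e.symm i : S) : Sph 3) with hs
    obtain ⟨m1, m2, _⟩ := hMq s (hpos s (hmem i))
    have m2' := m2 (13 * r ^ 2) (by nlinarith) (by linarith)
    have hlow : 1 / 5 - 3 * r ^ 2 ≤ ms q {y : Sph 3 | ‖(y : Eu 3) + s‖ ≤ 5 * r} := by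
      refine m1.trans (ms_mono hq ?_)
      intro z _ hz
      have hz' : ⟪(s : Eu 3), (z : Eu 3)⟫ ≤ -1 + r ^ 2 := hz
      rw [real_inner_comm] at hz'
      have h2 := near hr.le hz'
      show ‖(z : Eu 3) + s‖ ≤ 5 * r
      linarith
    have hhigh : ms q {y : Sph 3 | ‖(y : Eu 3) + s‖ ≤ 5 * r} ≤ 1 / 5 + 2 * (13 * r ^ 2) := by
      refine le_trans (ms_mono hq ?_) m2'
      intro z _ hz
      have hz' : ‖(z : Eu 3) + s‖ ≤ 5 * r := hz
      have h5 := sq_add z s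
      have h6 : ‖(z : Eu 3) + s‖ ^ 2 ≤ (5 * r) ^ 2 := pow_le_pow_left₀ (norm_nonneg _) hz' 2
      show ⟪(s : Eu 3), (z : Eu 3)⟫ ≤ -1 + 13 * r ^ 2
      rw [real_inner_comm]
      nlinarith [sq_nonneg r]
    show |ms q {y : Sph 3 | ‖(y : Eu 3) + s‖ ≤ 5 * r} - 1 / 5| ≤ 26 * r ^ 2
    rw [abs_le]
    constructor
    · nlinarith [sq_nonneg r]
    · linarith

end Pool.Agent.MPaafd8a
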