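import Pool.Agent.Lib.MP_aafd8a_gt_D.SpecA

set_option autoImplicit false

open Topology RealInnerProductSpace

namespace Pool.Agent.MPaafd8a

namespace FrmAux

/-- The total deviation from a regular simplex. -/
noncomputable def F (x : Fin 5 → Sph 3) : ℝ :=
  ∑ i, ∑ j, if i ≠ j then |⟪(x i : Eu 3), (x j : Eu 3)⟫ + 1 / 4| else 0

theorem cont_F : Continuous F := by
  unfold F
  refine continuous_finsetSum _ fun i _ => continuous_finsetSum _ fun j _ => ?_
  split_ifs
  · exact (((continuous_subtype_val.comp (continuous_apply i)).inner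
      (continuous_subtype_val.comp (continuous_apply j))).add continuous_const).abs
  · exact continuous_const

theorem term_nonneg (x : Fin 5 → Sph 3) (i j : Fin 5) :
    0 ≤ (if i ≠ j then |⟪(x i : Eu 3), (x j : Eu 3)⟫ + 1 / 4| else 0 : ℝ) := by
  split_ifs
  · exact abs_nonneg _
  · exact le_refl _

theorem F_nonneg (x : Fin 5 → Sph 3) : 0 ≤ F x :=
  Finset.sum_nonneg fun i _ => Finset.sum_nonneg fun j _ => term_nonneg x i j

theorem F_zero (x : Fin 5 → Sph 3) (h : F x = 0) (i j : Fin 5) (hij : i ≠ j) :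
    ⟪(x i : Eu 3), (x j : Eu 3)⟫ = -(1 / 4 : ℝ) := by
  unfold F at h
  rw [Finset.sum_eq_zero_iff_of_nonneg fun i _ => Finset.sum_nonneg fun j _ =>
    term_nonneg x i j] at h
  have h1 := h i (Finset.mem_univ i)
  rw [Finset.sum_eq_zero_iff_of_nonneg fun j _ => term_nonneg x i j] at h1
  have h2 := h1 j (Finset.mem_univ j)
  rw [if_pos hij, abs_eq_zero] at h2
  linarith

theorem F_le (x : Fin 5 → Sph 3) (δ : ℝ) (hδ : 0 ≤ δ)
    (h : ∀ i j, i ≠ j → |⟪(x i : Eu 3), (x j : Eu 3)⟫ + 1 / 4| ≤ δ) : F x ≤ 25 * δ := by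
  unfold F
  calc _ ≤ ∑ _i : Fin 5, ∑ _j : Fin 5, δ := by
        refine Finset.sum_le_sum fun i _ => Finset.sum_le_sum fun j _ => ?_
        split_ifs with hij
        · exact h i j hij
        · exact hδ
    _ = 25 * δ := by
        simp only [Finset.sum_const, Finset.card_univ, Fintype.card_fin, nsmul_eq_mul]
        push_cast
        ring

/-- The neighbourhood of the regular simplices. -/
def B (η : ℝ) : Set (Fin 5 → Sph 3) := {x | ∃ v : RS, ∀ i, ‖(x i : Eu 3) - fv v i‖ < η}

theorem open_B (η : ℝ) : IsOpen (B η) := by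
  have h : B η = ⋃ v : RS, ⋂ i : Fin 5, {x : Fin 5 → Sph 3 | ‖(x i : Eu 3) - fv v i‖ < η} := by
    ext x
    simp [B]
  rw [h]
  refine isOpen_iUnion fun v => isOpen_iInter_of_finite fun i => ?_
  exact isOpen_lt (((continuous_subtype_val.comp (continuous_apply i)).sub
    continuous_const).norm) continuous_const

end FrmAux

open FrmAux

theorem pFrame : SFrame := by
  intro η hη
  by_cases hne : ((B η)ᶜ : Set (Fin 5 → Sph 3)).Nonempty
  · obtain ⟨x₀, hx₀, hmin⟩ := (open_B η).isClosed_compl.isCompact.exists_isMinOn hne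
      cont_F.continuousOn
    have hpos : 0 < F x₀ := by
      refine lt_of_le_of_ne (F_nonneg x₀) fun h0 => hx₀ ?_
      refine ⟨⟨x₀, F_zero x₀ h0.symm⟩, fun i => ?_⟩
      change ‖(x₀ i : Eu 3) - (x₀ i : Eu 3)‖ < η
      rw [sub_self, norm_zero]
      exact hη
    refine ⟨F x₀ / 26, by positivity, fun x hx => ?_⟩
    by_cases hB : x ∈ B η
    · obtain ⟨v, hv⟩ := hB
      exact ⟨v, fun i => (hv i).le⟩
    · have h1 := hmin hB
      have h2 := F_le x (F x₀ / 26) (by positivity) hx
      have h3 : F x₀ ≤ F x := h1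
      linarith
  · refine ⟨1, one_pos, fun x _ => ?_⟩
    have hx : x ∈ B η := by
      by_contra h
      exact hne ⟨x, h⟩
    obtain ⟨v, hv⟩ := hx
    exact ⟨v, fun i => (hv i).le⟩

end Pool.Agent.MPaafd8a
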