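import Pool.Agent.Lib.MP_aafd8a_gt_D.SpecA

/-!
# MP_aafd8a_gt, disproof for `n = 3`: existence of an adapted simplex
-/

set_option autoImplicit false

open Topology RealInnerProductSpace

namespace Pool.Agent.MPaafd8a

theorem pGauE : SN1 → SClu → SMaxB → SGauE := by
  intro hN1 hClu hMax
  have hη : (0 : ℝ) < et ^ 2 / 80 := by unfold et; norm_num
  obtain ⟨τ₀, hτ, H⟩ := hN1 (et ^ 2 / 80) hη
  refine ⟨τ₀, hτ, ?_⟩
  intro ε p q hε hp hq hc hτε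
  obtain ⟨v₀, hNp, hNq, hcm⟩ := H ε p q hε hp hq hc hτε
  obtain ⟨η, hηd⟩ : ∃ η : ℝ, η = et ^ 2 / 80 := ⟨_, rfl⟩
  rw [← hηd] at hNp hNq hcm hη
  have hη1 : η ≤ et / 2 := by rw [hηd]; unfold et; norm_num
  have het : et = 1 / 20000 := rfl
  have hη2 : η ≤ 1 / 100 := by rw [hηd, het]; norm_num
  have hη3 : 20 * η = (et / 2) ^ 2 := by rw [hηd]; ring
  have hS0 := isS_fv v₀
  obtain ⟨-, -, hc0, hcv, hch⟩ := hClu (fv v₀) η p hS0 (by linarith) hp hNp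
  obtain ⟨-, -, -, -, hch'⟩ := hClu (fun i => -fv v₀ i) η q (isS_neg hS0) (by linarith) hq hNq
  obtain ⟨t, ht⟩ : ∃ t : Fin 5 → Eu 3, t = vb (fv v₀) p := ⟨_, rfl⟩
  have hcm1 : ∀ i, 1 / 10 ≤ cm (fv v₀) p i := by
    intro i
    have := (abs_le.1 (hcm i).1).1
    linarith
  have hcm2 : ∀ i, 1 / 10 ≤ cm (fun i => -fv v₀ i) q i := by
    intro i
    have := (abs_le.1 (hcm i).2).1
    linarith
  have htv : ∀ i, ‖t i - fv v₀ i‖ ≤ η := by
    intro i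
    have h1 : 0 < cm (fv v₀) p i := by linarith [hcm1 i]
    have h2 : t i - fv v₀ i = (cm (fv v₀) p i)⁻¹ • (cv (fv v₀) p i - cm (fv v₀) p i • fv v₀ i) := by
      rw [ht]
      unfold vb
      rw [max_eq_right (hcm1 i), smul_sub, smul_smul, inv_mul_cancel₀ h1.ne', one_smul]
    rw [h2, norm_smul, norm_inv, Real.norm_of_nonneg h1.le]
    calc (cm (fv v₀) p i)⁻¹ * ‖cv (fv v₀) p i - cm (fv v₀) p i • fv v₀ i‖
        ≤ (cm (fv v₀) p i)⁻¹ * (η * cm (fv v₀) p i) :=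
          mul_le_mul_of_nonneg_left (hcv i) (inv_nonneg.2 h1.le)
      _ = η := by field_simp
  -- the maximum
  have hcont : Continuous (fun v' : RS => ∑ i, ⟪t i, fv v' i⟫) :=
    continuous_finsetSum _ fun i _ => continuous_const.inner (continuous_fv i)
  obtain ⟨v, -, hvm⟩ := isCompact_univ.exists_isMaxOn ⟨v₀, Set.mem_univ v₀⟩ hcont.continuousOn
  have hvm' : ∀ v' : RS, ∑ i, ⟪t i, fv v' i⟫ ≤ ∑ i, ⟪t i, fv v i⟫ := fun v' => hvm (Set.mem_univ v')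
  have hS := isS_fv v
  have hBal := hMax t v hvm'
  -- the distance
  have h1 : ∀ w : RS, ∀ i, |⟪t i - fv v₀ i, fv w i⟫| ≤ η := by
    intro w i
    have h2 := abs_real_inner_le_norm (t i - fv v₀ i) (fv w i)
    rw [(isS_fv w).1 i, mul_one] at h2
    exact h2.trans (htv i)
  have hsum : ∑ i, ‖fv v i - fv v₀ i‖ ^ 2 ≤ 20 * η := by
    have e1 : ∀ i, ‖fv v i - fv v₀ i‖ ^ 2 = 2 - 2 * ⟪fv v₀ i, fv v i⟫ := by
      intro i
      rw [norm_sub_sq_real, hS.1 i, hS0.1 i, real_inner_comm (fv v₀ i) (fv v i)]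
      ring
    have e2 : ∀ i, ⟪fv v₀ i, fv v i⟫ = ⟪t i, fv v i⟫ - ⟪t i - fv v₀ i, fv v i⟫ := by
      intro i
      rw [inner_sub_left]
      ring
    have e3 : ∀ i, ⟪t i, fv v₀ i⟫ = 1 + ⟪t i - fv v₀ i, fv v₀ i⟫ := by
      intro i
      rw [inner_sub_left, real_inner_self_eq_norm_sq, hS0.1 i]
      ring
    have e4 := hvm' v₀
    have e5 : ∑ i, ‖fv v i - fv v₀ i‖ ^ 2 = 10 - 2 * ∑ i, ⟪fv v₀ i, fv v i⟫ := by
      rw [Finset.sum_congr rfl fun i _ => e1 i, Finset.sum_sub_distrib, ← Finset.mul_sum]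
      simp
      norm_num
    have e6 : ∑ i, ⟪fv v₀ i, fv v i⟫ = ∑ i, ⟪t i, fv v i⟫ - ∑ i, ⟪t i - fv v₀ i, fv v i⟫ := by
      rw [← Finset.sum_sub_distrib]
      exact Finset.sum_congr rfl fun i _ => e2 i
    have e7 : ∑ i, ⟪t i, fv v₀ i⟫ = 5 + ∑ i, ⟪t i - fv v₀ i, fv v₀ i⟫ := by
      rw [Finset.sum_congr rfl fun i _ => e3 i, Finset.sum_add_distrib]
      simp
    have e8 : ∑ i, ⟪t i - fv v₀ i, fv v i⟫ ≤ 5 * η := by
      have : ∑ i, ⟪t i - fv v₀ i, fv v i⟫ ≤ ∑ _i : Fin 5, η :=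
        Finset.sum_le_sum fun i _ => (abs_le.1 (h1 v i)).2
      simpa using this
    have e9 : -(5 * η) ≤ ∑ i, ⟪t i - fv v₀ i, fv v₀ i⟫ := by
      have : ∑ _i : Fin 5, -η ≤ ∑ i, ⟪t i - fv v₀ i, fv v₀ i⟫ :=
        Finset.sum_le_sum fun i _ => (abs_le.1 (h1 v₀ i)).1
      simpa using this
    rw [e5, e6]
    linarith
  have hdist : ∀ i, ‖fv v i - fv v₀ i‖ ≤ et / 2 := by
    intro i
    have e1 : ‖fv v i - fv v₀ i‖ ^ 2 ≤ (et / 2) ^ 2 := by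
      rw [← hη3]
      exact (Finset.single_le_sum (f := fun i => ‖fv v i - fv v₀ i‖ ^ 2) (fun i _ => sq_nonneg _)
        (Finset.mem_univ i)).trans hsum
    exact abs_le_of_sq_le_sq' e1 (by rw [het]; norm_num) |>.2
  have hdist' : ∀ i, ‖fv v₀ i - fv v i‖ ≤ et / 2 := fun i => by rw [norm_sub_rev]; exact hdist i
  have hA := hch (fv v) hS fun i => by
    have := hdist' i
    rw [het] at this
    linarith
  have hA' := hch' (fun i => -fv v i) (isS_neg hS) fun i => by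
    have := hdist' i
    rw [het] at this
    have h2 : ‖-fv v₀ i - -fv v i‖ = ‖fv v₀ i - fv v i‖ := by
      rw [neg_sub_neg, norm_sub_rev]
    change ‖-fv v₀ i - -fv v i‖ + η ≤ 1 / 4
    rw [h2]
    linarith
  have hvb : vb (fv v) p = t := by
    rw [ht]
    funext i
    unfold vb
    rw [(hA i).1, (hA i).2]
  refine ⟨v, ⟨?_, ?_, ?_, ?_⟩, ?_⟩
  · intro x hx
    obtain ⟨i, hi⟩ := hNp x hx
    refine ⟨i, ?_⟩
    calc ‖(x : Eu 3) - fv v i‖ ≤ ‖(x : Eu 3) - fv v₀ i‖ + ‖fv v₀ i - fv v i‖ := norm_sub_le_norm_sub_add_norm_sub _ _ _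
      _ ≤ η + et / 2 := add_le_add hi (hdist' i)
      _ ≤ et := by linarith
  · intro x hx
    obtain ⟨i, hi⟩ := hNq x hx
    refine ⟨i, ?_⟩
    calc ‖(x : Eu 3) - -fv v i‖ ≤ ‖(x : Eu 3) - -fv v₀ i‖ + ‖-fv v₀ i - -fv v i‖ :=
          norm_sub_le_norm_sub_add_norm_sub _ _ _
      _ ≤ η + et / 2 := by
          refine add_le_add hi ?_
          rw [neg_sub_neg]
          exact hdist i
      _ ≤ et := by linarith
  · intro i
    rw [(hA i).1]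
    exact hcm1 i
  · intro i
    rw [(hA' i).1]
    exact hcm2 i
  · rw [hvb]
    exact hBal

end Pool.Agent.MPaafd8a
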