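import Pool.Agent.Lib.MP_aafd8a_gt_D.SpecB

/-!
# MP_aafd8a_gt, disproof for `n = 3`, block (A-i): the adapted simplex is continuous
-/

set_option autoImplicit false

open Topology RealInnerProductSpace

namespace Pool.Agent.MPaafd8a

theorem pGm : SYT → SQuo → SQuo2 → SRelC → SGauU → SGm := by
  intro hYT hQuo hQuo2 hRelC hGau κ κ' ε hLoc T
  obtain ⟨hY1, -, hY3, -, -, -⟩ := hYT (1 / 4 + ε) T
  obtain ⟨-, -, -, -, hL, -⟩ := hLoc
  have hcomp : CompactSpace (YS (1 / 4 + ε) T (κ * √ε)) := by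
    have h1 : IsClosed {z : YT (1 / 4 + ε) T | ‖Dz z‖ ≤ κ * √ε} :=
      isClosed_le (continuous_norm.comp hY3) continuous_const
    exact isCompact_iff_compactSpace.1 h1.isCompact
  have hR : IsClosed {s : YS (1 / 4 + ε) T (κ * √ε) × RS | Rel s.1.1 s.2} := by
    have h1 : Continuous fun s : YS (1 / 4 + ε) T (κ * √ε) × RS => (s.1.1, s.2) :=
      (continuous_subtype_val.comp continuous_fst).prodMk continuous_snd
    exact (hRelC (1 / 4 + ε) T).1.preimage h1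
  have hsur : ∀ z : YS (1 / 4 + ε) T (κ * √ε), ∃ v : RS,
      (z, v) ∈ {s : YS (1 / 4 + ε) T (κ * √ε) × RS | Rel s.1.1 s.2} := by
    intro z
    obtain ⟨h1, h2, h3, -, -⟩ := hY1 z.1
    exact hL (yp z.1) (yq z.1) h1 h2 h3 z.2
  have hφ : Continuous fun s : {s : YS (1 / 4 + ε) T (κ * √ε) × RS | Rel s.1.1 s.2} => mkR s.1.2 :=
    hQuo2.1.comp (continuous_snd.comp continuous_subtype_val)
  obtain ⟨ψ, hψ⟩ := hQuo (YS (1 / 4 + ε) T (κ * √ε)) RS RSq _ hR hsur ⟨_, hφ⟩ (by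
    intro z v v' h h'
    obtain ⟨h1, -, -, -, -⟩ := hY1 z.1
    obtain ⟨s, hs⟩ := hGau (yp z.1) (yq z.1) v v' h1 h.1 h'.1 h.2 h'.2
    change mkR v = mkR v'
    rw [hs, hQuo2.2.1])
  exact ⟨ψ, fun z v h => hψ z v h⟩

end Pool.Agent.MPaafd8a
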