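import Pool.Agent.Lib.MP_aafd8a_gt_D.SpecC

/-!
# MP_aafd8a_gt, block (A-i): far pairs
-/

set_option autoImplicit false

open Topology RealInnerProductSpace

namespace Pool.Agent.MPaafd8a

namespace HAAux

theorem ipw_zero (hIp : SIp) (w : WV) : ipw 0 w = 0 := by
  have h := hIp.2.2.1 0 0 w 1
  have h1 : (0 : WV) + (1 : ℝ) • (0 : WV) = 0 := by
    rw [one_smul, add_zero]
  rw [h1] at h
  linarith

theorem ipw_combo (hIp : SIp) (a b w : WV) (s t : ℝ) :
    ipw (s • a + t • b) w = s * ipw a w + t * ipw b w := by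
  have h := hIp.2.2.1 (s • a) b w t
  have h1 := hIp.2.2.1 0 a w s
  rw [zero_add, ipw_zero hIp, zero_add] at h1
  rw [h, h1]

theorem line_ne (hIp : SIp) {a b : WV} (hb : b ≠ 0) (hab : 0 < ipw a b) {t : ℝ} (h0 : 0 ≤ t)
    (h1 : t ≤ 1) : (1 - t) • a + t • b ≠ 0 := by
  intro h
  have h2 := ipw_combo hIp a b b (1 - t) t
  rw [h, ipw_zero hIp] at h2
  have h3 : 0 < ipw b b := by
    have h4 := hIp.2.2.2.1 b
    have h5 : 0 < ‖b‖ := norm_pos_iff.2 hb
    have h6 : 0 < 3 / 4 * ‖b‖ ^ 2 := by positivity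
    linarith
  rcases h0.eq_or_lt with h7 | h7
  · rw [← h7] at h2
    linarith
  · have h8 : 0 < t * ipw b b := mul_pos h7 h3
    have h9 : 0 ≤ (1 - t) * ipw a b := mul_nonneg (by linarith) hab.le
    linarith

theorem combo0 (a b : WV) : (1 - (0 : ℝ)) • a + (0 : ℝ) • b = a := by
  have h1 : (0 : ℝ) • b = 0 := zero_smul ℝ b
  rw [h1, sub_zero, one_smul, add_zero]

theorem combo1 (a b : WV) : (1 - (1 : ℝ)) • a + (1 : ℝ) • b = b := by
  have h1 : (0 : ℝ) • a = 0 := zero_smul ℝ a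
  rw [sub_self, h1, one_smul, zero_add]

theorem line (hIp : SIp) {X : Type} [TopologicalSpace X] (d d' : C(X, W1))
    (h : ∀ x, 0 < ipw (d x).1 (d' x).1) : d.Homotopic d' := by
  refine ⟨⟨⟨fun z => ⟨(1 - (z.1 : ℝ)) • (d z.2).1 + (z.1 : ℝ) • (d' z.2).1, ?_, ?_⟩, ?_⟩, ?_, ?_⟩⟩
  · exact (W0 3).add_mem ((W0 3).smul_mem _ (d z.2).2.1) ((W0 3).smul_mem _ (d' z.2).2.1)
  · exact line_ne hIp (d' z.2).2.2 (h z.2) z.1.2.1 z.1.2.2
  · refine Continuous.subtype_mk ?_ _
    have h1 : Continuous fun z : unitInterval × X => (z.1 : ℝ) :=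
      continuous_subtype_val.comp continuous_fst
    have h2 : Continuous fun z : unitInterval × X => (d z.2).1 :=
      continuous_subtype_val.comp (d.continuous.comp continuous_snd)
    have h3 : Continuous fun z : unitInterval × X => (d' z.2).1 :=
      continuous_subtype_val.comp (d'.continuous.comp continuous_snd)
    exact ((continuous_const.sub h1).smul h2).add (h1.smul h3)
  · intro x
    apply Subtype.ext
    exact combo0 (d x).1 (d' x).1
  · intro x
    apply Subtype.ext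
    exact combo1 (d x).1 (d' x).1

end HAAux

open HAAux in
/-- Far pairs. -/
theorem pHA : SIp → SDc → SDM → SPStep → SHA := by
  intro hIp hDc hDM hPStep ε hc h0 h1
  obtain ⟨M, hM⟩ := hDM (1 / 4 + ε) hc (by linarith)
  refine ⟨M, ?_⟩
  intro X _ _ p q d hcomp hfar hd
  have h' : (-1 : ℝ) < 1 / 4 - ε := by linarith
  obtain ⟨p'', q'', p₁, hcomp'', hp₁, hhom, hpos⟩ := hPStep ε hc h' h0 h1 X p q hcomp hfar
  obtain ⟨hc1, hc2, hc3⟩ := hDc (capK 3 (1 / 4 - ε) h') X p'' q''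
  have hne : ∀ x, Dm 1 (p'' x).1 (q'' x).1 ≠ 0 := fun x =>
    hc3 x fun v w hv hw => (hcomp'' x v w hv hw).trans_le (by linarith)
  let d'' : C(X, W1) := ⟨fun x => ⟨Dm 1 (p'' x).1 (q'' x).1, hc2 x, hne x⟩,
    Continuous.subtype_mk hc1 _⟩
  have hM1 : p₁.Homotopic (M.comp d'') :=
    hM (1 / 4 - ε) h' (by linarith) X p'' q'' p₁ d'' hcomp'' hp₁ (fun x => rfl)
  have hdd : d''.Homotopic d := line hIp d'' d fun x => by
    rw [hd x]
    exact hpos x
  exact hhom.trans (hM1.trans (ContinuousMap.Homotopic.comp (ContinuousMap.Homotopic.refl M) hdd))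

end Pool.Agent.MPaafd8a
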