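import Pool.Agent.Lib.MP_aafd8a_gt_D.SpecB

/-!
# MP_aafd8a_gt, block (A-i): the pair homotopy (helper84)

Assembly of the stages of `SpecB.lean`.
-/

set_option autoImplicit false

open Topology RealInnerProductSpace

namespace Pool.Agent.MPaafd8a

namespace HBAux

/-- a uniform gap -/
theorem gap (c ε : ℝ) (hε : 0 < ε) (T : Finset (Sph 3)) :
    ∃ m : ℝ, 0 < m ∧ m ≤ ε / 4 ∧
      ∀ v ∈ T, ∀ w ∈ T, ⟪(v : Eu 3), (w : Eu 3)⟫ < c → ⟪(v : Eu 3), (w : Eu 3)⟫ ≤ c - m := by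
  have h1 : ∀ v ∈ T, ∀ᶠ m in 𝓝[>] (0 : ℝ), ∀ w ∈ T, ⟪(v : Eu 3), (w : Eu 3)⟫ < c →
      ⟪(v : Eu 3), (w : Eu 3)⟫ ≤ c - m := by
    intro v _
    refine (Filter.eventually_all_finset T).2 fun w _ => ?_
    by_cases h : ⟪(v : Eu 3), (w : Eu 3)⟫ < c
    · have h2 : ∀ᶠ m in 𝓝[>] (0 : ℝ), m < c - ⟪(v : Eu 3), (w : Eu 3)⟫ :=
        nhdsWithin_le_nhds (Iio_mem_nhds (by linarith))
      exact h2.mono fun m hm _ => by linarith
    · exact Filter.Eventually.of_forall fun m h' => absurd h' h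
  have h3 : ∀ᶠ m in 𝓝[>] (0 : ℝ), ∀ v ∈ T, ∀ w ∈ T, ⟪(v : Eu 3), (w : Eu 3)⟫ < c →
      ⟪(v : Eu 3), (w : Eu 3)⟫ ≤ c - m := (Filter.eventually_all_finset T).2 h1
  have h4 : ∀ᶠ m in 𝓝[>] (0 : ℝ), m < ε / 4 := nhdsWithin_le_nhds (Iio_mem_nhds (by linarith))
  have h5 : ∀ᶠ m in 𝓝[>] (0 : ℝ), 0 < m := self_mem_nhdsWithin
  obtain ⟨m, h⟩ := (h3.and (h4.and h5)).exists
  exact ⟨m, h.2.2, h.2.1.le, h.1⟩

theorem cm_ext0 (T : Finset (Sph 3)) (α : T → ℝ) (w : Fin 5 → Eu 3) (i : Fin 5) :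
    cm w (ext0 α) i = ∑ x : T, α x * cl w x i := by
  unfold cm ex
  have h1 : ((ext0 α).sum fun v a => a * cl w v i) = ∑ x ∈ T, ext0 α x * cl w x i :=
    Finsupp.sum_of_support_subset (ext0 α) (ext0_support α) (fun v a => a * cl w v i) (fun x _ => zero_mul _)
  have h2 : ∑ x : T, ext0 α (x : Sph 3) * cl w x i = ∑ x ∈ T, ext0 α x * cl w x i :=
    Finset.sum_coe_sort T (fun x => ext0 α x * cl w x i)
  refine h1.trans (h2.symm.trans ?_)
  exact Finset.sum_congr rfl fun x _ => by rw [ext0_mem α x.2]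

/-- smoothing the cluster means is smoothing the cluster masses -/
theorem sm_cl (hClu : SClu) {B : Type} [Fintype B] (T : Finset (Sph 3)) (u : B → Sph 3) (φ : B → Eu 3 → ℝ)
    (α : T → ℝ) (w : Fin 5 → Eu 3) (hw : IsS w) (hp : Pw (ext0 α)) (hn : Nr et w (ext0 α)) (a : Fin 5 → Eu 3) :
    sm u φ α (fun x : T => ∑ i, cl w x i • a i) = sm u φ (fun i => cm w (ext0 α) i) a := by
  have hη : et ≤ 1 / 4 := by
    unfold et
    norm_num
  obtain ⟨h1, -⟩ := hClu w et (ext0 α) hw hη hp hn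
  have h2 : ∀ (x : T) (b : B),
      α x * φ b (∑ i, cl w x i • a i) = ∑ i, (α x * cl w x i) * φ b (a i) := by
    intro x b
    rcases eq_or_ne (α x) 0 with h | h
    · simp [h]
    · have h3 : 0 < ext0 α (x : Sph 3) := by
        have h30 : ext0 α (x : Sph 3) = α x := ext0_mem α x.2
        have h31 := hp.1 (x : Sph 3)
        rw [h30] at h31 ⊢
        exact lt_of_le_of_ne h31 (Ne.symm h)
      obtain ⟨i, hi⟩ := hn x h3
      obtain ⟨h4, h5⟩ := h1 x i (hi.trans hη)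
      have h6 : ∑ j, cl w x j • a j = a i := by
        rw [Finset.sum_eq_single i, h4, one_smul]
        · intro j _ hj
          rw [(h5 j hj).1, zero_smul]
        · intro h
          exact absurd (Finset.mem_univ _) h
      have h7 : ∑ j, (α x * cl w x j) * φ b (a j) = α x * φ b (a i) := by
        rw [Finset.sum_eq_single i, h4, mul_one]
        · intro j _ hj
          rw [(h5 j hj).1]
          ring
        · intro h
          exact absurd (Finset.mem_univ _) h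
      rw [h6, h7]
  unfold sm
  simp_rw [h2, cm_ext0, Finset.sum_mul, Finsupp.single_finsetSum]
  rw [Finset.sum_comm]
  rw [Finset.sum_comm (s := (Finset.univ : Finset (Fin 5)))]
  exact Finset.sum_congr rfl fun b _ => Finset.sum_comm

end HBAux

/-- **THE PAIR HOMOTOPY** -/
theorem pHB : SYT → SNetV → SGm → SB1 → SB2 → SB3 → SB4 → SDst → SClu → SHB := by
  intro hYT hNet hGm hB1 hB2 hB3 hB4 hDst hClu κ κ' ε hL T
  classical
  have hε : 0 < ε := hL.1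
  obtain ⟨m, hm0, hm4, hm⟩ := HBAux.gap (1 / 4 + ε) ε hε T
  obtain ⟨B, iB, u, φ, hN⟩ := hNet (m / 2) (by linarith)
  obtain ⟨T', hT, hu⟩ : ∃ T' : Finset (Sph 3), T ⊆ T' ∧ ∀ b, u b ∈ T' :=
    ⟨T ∪ Finset.univ.image u, Finset.subset_union_left, fun b =>
      Finset.mem_union_right _ (Finset.mem_image_of_mem u (Finset.mem_univ b))⟩
  obtain ⟨g, hg⟩ := hGm κ κ' ε hL T
  obtain ⟨k1, hk1⟩ := hB1 (1 / 4 + ε) (m / 2) m T T' B u φ (by linarith) hN (by linarith) hm hT hu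
  obtain ⟨k2, hk2⟩ := hB2 κ κ' ε (m / 2) m T T' B u φ hL (by linarith) hN (by linarith) hm4 hm hu
  obtain ⟨k3, hk3⟩ := hB3 κ κ' ε (m / 2) m T T' B u φ hL (by linarith) hN (by linarith) hm4 hu
  obtain ⟨md, hmd, hmd'⟩ := hB4 κ κ' ε (m / 2) m T' B u φ hL (by linarith) hN (by linarith) hm4 hu
  have hD := hDst κ κ' ε (m / 2) T B u φ hL (by linarith) hN (by linarith)
  have hv : ∀ z : YS (1 / 4 + ε) T (κ * √ε), ∃ v : RS, Rel z.1 v := by
    intro z
    obtain ⟨hp, hq, hpq, -, -⟩ := (hYT (1 / 4 + ε) T).1 z.1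
    exact hL.2.2.2.2.1 _ _ hp hq hpq z.2
  have hext : ∀ z z' : YT (1 / 4 + ε) T', yp z = yp z' → yq z = yq z' → z = z' :=
    (hYT (1 / 4 + ε) T').2.2.2.2.2
  -- matching
  have hM1 : ∀ z : YS (1 / 4 + ε) T (κ * √ε), k2 (0, z) = k1 (1, z.1) := by
    intro z
    obtain ⟨v, hz⟩ := hv z
    obtain ⟨h1, h2⟩ := hk2 0 z v hz
    obtain ⟨h3, h4⟩ := hk1 1 z.1
    apply hext
    · rw [h1, h3]
      simp
    · rw [h2, h4]
      simp
  have hM2 : ∀ z : YS (1 / 4 + ε) T (κ * √ε), k3 (0, z) = k2 (1, z) := by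
    intro z
    obtain ⟨v, hz⟩ := hv z
    obtain ⟨h1, h2⟩ := hk3 0 z v hz
    obtain ⟨h3, h4⟩ := hk2 1 z v hz
    obtain ⟨hp, hq, -, -, -⟩ := (hYT (1 / 4 + ε) T).1 z.1
    have h5 := HBAux.sm_cl hClu T u φ z.1.1.1 (fv v) (isS_fv v) hp hz.1.1 (fun i => av (fv v) (Dz z.1) i)
    have h6 := HBAux.sm_cl hClu T u φ z.1.1.2 (fun j => -fv v j) (isS_neg (isS_fv v)) hq hz.1.2.1
      (fun i => bv (fv v) (Dz z.1) i)
    apply hext
    · rw [h1, h3]
      simp only [Set.Icc.coe_zero, Set.Icc.coe_one, sub_zero,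
        sub_self, one_mul, zero_mul, add_zero, zero_smul, one_smul, zero_add]
      exact h5.symm
    · rw [h2, h4]
      simp only [Set.Icc.coe_zero, Set.Icc.coe_one, sub_zero,
        sub_self, one_mul, zero_mul, add_zero, zero_smul, one_smul, zero_add]
      exact h6.symm
  have hM3 : ∀ (z : YS (1 / 4 + ε) T (κ * √ε)) (h : Dz z.1 ∈ W0 3), k3 (1, z) = md (g z, ⟨Dz z.1, h, z.2⟩) := by
    intro z h
    obtain ⟨v, hz⟩ := hv z
    obtain ⟨h1, h2⟩ := hk3 1 z v hz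
    obtain ⟨h3, h4⟩ := hmd v ⟨Dz z.1, h, z.2⟩
    rw [hg z v hz]
    apply hext
    · rw [h1, h3]
      simp
    · rw [h2, h4]
      simp
  -- the property
  let P : C(YS (1 / 4 + ε) T (κ * √ε), YT (1 / 4 + ε) T') → Prop :=
    fun f => ∀ z, ‖Dz (f z) - Dz z.1‖ ≤ 30 * κ' * ε
  have hP1 : ∀ (t : unitInterval) (z : YS (1 / 4 + ε) T (κ * √ε)),
      ‖Dz (k1 (t, z.1)) - Dz z.1‖ ≤ 30 * κ' * ε := by
    intro t z
    obtain ⟨v, hz⟩ := hv z
    obtain ⟨h3, h4⟩ := hk1 t z.1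
    have h5 := (hD z v hz t t.2.1 t.2.2).1
    unfold Dz at h5 ⊢
    rw [h3, h4]
    exact h5
  have hP2 : ∀ (t : unitInterval) (z : YS (1 / 4 + ε) T (κ * √ε)),
      ‖Dz (k2 (t, z)) - Dz z.1‖ ≤ 30 * κ' * ε := by
    intro t z
    obtain ⟨v, hz⟩ := hv z
    obtain ⟨h3, h4⟩ := hk2 t z v hz
    have h5 := (hD z v hz t t.2.1 t.2.2).2.1
    have h6 : Dz (k2 (t, z)) = Dm 1 (yp (k2 (t, z))) (yq (k2 (t, z))) := rfl
    rw [h6, h3, h4]
    exact h5
  have hP3 : ∀ (t : unitInterval) (z : YS (1 / 4 + ε) T (κ * √ε)),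
      ‖Dz (k3 (t, z)) - Dz z.1‖ ≤ 30 * κ' * ε := by
    intro t z
    obtain ⟨v, hz⟩ := hv z
    obtain ⟨h3, h4⟩ := hk3 t z v hz
    have h5 := (hD z v hz t t.2.1 t.2.2).2.2
    have h6 : Dz (k3 (t, z)) = Dm 1 (yp (k3 (t, z))) (yq (k3 (t, z))) := rfl
    rw [h6, h3, h4]
    exact h5
  let k1' : C(unitInterval × YS (1 / 4 + ε) T (κ * √ε), YT (1 / 4 + ε) T') :=
    ⟨fun s => k1 (s.1, s.2.1), k1.continuous.comp (continuous_fst.prodMk (continuous_subtype_val.comp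
      continuous_snd))⟩
  let f0 : C(YS (1 / 4 + ε) T (κ * √ε), YT (1 / 4 + ε) T') :=
    ⟨fun z => k1' (0, z), k1'.continuous.comp (continuous_const.prodMk continuous_id)⟩
  let f1 : C(YS (1 / 4 + ε) T (κ * √ε), YT (1 / 4 + ε) T') :=
    ⟨fun z => k1' (1, z), k1'.continuous.comp (continuous_const.prodMk continuous_id)⟩
  let f2 : C(YS (1 / 4 + ε) T (κ * √ε), YT (1 / 4 + ε) T') :=
    ⟨fun z => k2 (1, z), k2.continuous.comp (continuous_const.prodMk continuous_id)⟩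
  let f3 : C(YS (1 / 4 + ε) T (κ * √ε), YT (1 / 4 + ε) T') :=
    ⟨fun z => k3 (1, z), k3.continuous.comp (continuous_const.prodMk continuous_id)⟩
  let H1 : ContinuousMap.HomotopyWith f0 f1 P :=
    { toContinuousMap := k1'
      map_zero_left := fun z => rfl
      map_one_left := fun z => rfl
      prop' := fun t z => hP1 t z }
  let H2 : ContinuousMap.HomotopyWith f1 f2 P :=
    { toContinuousMap := k2
      map_zero_left := fun z => hM1 z
      map_one_left := fun z => rfl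
      prop' := fun t z => hP2 t z }
  let H3 : ContinuousMap.HomotopyWith f2 f3 P :=
    { toContinuousMap := k3
      map_zero_left := fun z => hM2 z
      map_one_left := fun z => rfl
      prop' := fun t z => hP3 t z }
  let K := (H1.trans H2).trans H3
  refine ⟨T', g, md, K.toContinuousMap, hT, fun z => ?_, fun z h => ?_, fun t z => K.prop t z, hmd'⟩
  · have h1 : K.toContinuousMap (0, z) = k1 (0, z.1) := K.apply_zero z
    obtain ⟨h3, h4⟩ := hk1 0 z.1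
    rw [h1, h3, h4]
    simp
  · have h1 : K.toContinuousMap (1, z) = k3 (1, z) := K.apply_one z
    rw [h1]
    exact hM3 z h

end Pool.Agent.MPaafd8a
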