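import Pool.Agent.Lib.MP_aafd8a_gt_D.SpecA

/-!
# MP_aafd8a_gt, disproof for `n = 3`, block (A-i), module Ip: the inner product of pairs of moments
-/

set_option autoImplicit false

open Topology RealInnerProductSpace

namespace Pool.Agent.MPaafd8a

namespace IpAux

/-- The standard basis. -/
noncomputable def sb (k : Fin (3 + 1)) : Eu 3 := EuclideanSpace.single k 1

theorem sb_inner (k : Fin (3 + 1)) (x : Eu 3) : ⟪sb k, x⟫ = x k := by
  unfold sb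
  rw [EuclideanSpace.inner_single_left]
  simp

theorem inner_sb (k : Fin (3 + 1)) (x : Eu 3) : ⟪x, sb k⟫ = x k := by
  rw [real_inner_comm, sb_inner]

theorem sb_norm (k : Fin (3 + 1)) : ‖sb k‖ = 1 := by
  unfold sb
  simp

theorem rep (x : Eu 3) : x = ∑ k, x k • sb k := by
  ext j
  unfold sb
  simp [Finset.sum_apply, EuclideanSpace.single, Pi.single_apply]

theorem map_rep (N : Eu 3 →L[ℝ] Eu 3) (x : Eu 3) : N x = ∑ k, x k • N (sb k) := by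
  conv_lhs => rw [rep x]
  rw [map_sum]
  exact Finset.sum_congr rfl fun k _ => map_smul _ _ _

theorem ipw_eq (w w' : WV) : ipw w w' = 3 / 4 * ⟪w.1, w'.1⟫ + ∑ k, ⟪w.2 (sb k), w'.2 (sb k)⟫ := rfl

theorem ex_q (p : Sph 3 →₀ ℝ) (a : Eu 3) (S : Eu 3 →L[ℝ] Eu 3) :
    ex p (fun z => ⟪S (z : Eu 3), (z : Eu 3)⟫ + 3 / 4 * ⟪a, (z : Eu 3)⟫) =
      3 / 4 * ⟪bar p, a⟫ + ∑ k, ⟪mo p (sb k), S (sb k)⟫ := by
  have h1 : ∀ k, mo p (sb k) = ∑ v ∈ p.support, p v • ((v : Eu 3) k • (v : Eu 3)) := by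
    intro k
    unfold mo Finsupp.sum
    rw [_root_.sum_apply]
    refine Finset.sum_congr rfl fun v _ => ?_
    show p v • (⟪(v : Eu 3), sb k⟫ • (v : Eu 3)) = _
    rw [inner_sb]
  have h2 : bar p = ∑ v ∈ p.support, p v • (v : Eu 3) := rfl
  have h3 : ∑ k, ⟪mo p (sb k), S (sb k)⟫ = ∑ v ∈ p.support, p v * ⟪S (v : Eu 3), (v : Eu 3)⟫ := by
    have h4 : ∀ k, ⟪mo p (sb k), S (sb k)⟫ =
        ∑ v ∈ p.support, p v * ((v : Eu 3) k * ⟪S (sb k), (v : Eu 3)⟫) := by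
      intro k
      rw [h1, sum_inner]
      refine Finset.sum_congr rfl fun v _ => ?_
      rw [real_inner_smul_left, real_inner_smul_left, real_inner_comm]
    rw [Finset.sum_congr rfl fun k _ => h4 k, Finset.sum_comm]
    refine Finset.sum_congr rfl fun v _ => ?_
    rw [← Finset.mul_sum, map_rep S (v : Eu 3), sum_inner]
    refine congrArg _ (Finset.sum_congr rfl fun k _ => ?_)
    rw [real_inner_smul_left]
  rw [h3, h2, sum_inner, Finset.mul_sum, ← Finset.sum_add_distrib]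
  unfold ex Finsupp.sum
  refine Finset.sum_congr rfl fun v _ => ?_
  rw [real_inner_smul_left, real_inner_comm a (v : Eu 3)]
  ring

theorem ex_gq (p q p' : Sph 3 →₀ ℝ) : ex p' (gq p q) =
    3 / 4 * ⟪bar p', bar p - bar q⟫ + ∑ k, ⟪mo p' (sb k), (mo p - mo q) (sb k)⟫ := by
  rw [← ex_q]
  congr 1
  funext z
  unfold gq c2
  norm_num

theorem hs_aux (N : Eu 3 →L[ℝ] Eu 3) (z : Eu 3) :
    ‖N z‖ ^ 2 ≤ ‖z‖ ^ 2 * ∑ k, ‖N (sb k)‖ ^ 2 := by
  have h2 : ‖N z‖ ≤ ∑ k, |z k| * ‖N (sb k)‖ := by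
    rw [map_rep N z]
    refine (norm_sum_le _ _).trans (Finset.sum_le_sum fun k _ => ?_)
    rw [norm_smul, Real.norm_eq_abs]
  have h3 : (∑ k, |z k| * ‖N (sb k)‖) ^ 2 ≤ (∑ k, |z k| ^ 2) * ∑ k, ‖N (sb k)‖ ^ 2 :=
    Finset.sum_mul_sq_le_sq_mul_sq _ _ _
  have h4 : ∑ k, |z k| ^ 2 = ‖z‖ ^ 2 := by
    rw [EuclideanSpace.norm_sq_eq]
    simp only [Real.norm_eq_abs]
  rw [h4] at h3
  exact (pow_le_pow_left₀ (norm_nonneg _) h2 2).trans h3

theorem hs_num {a b s : ℝ} (hb : 0 ≤ b) (hs : 0 ≤ s) (h : a ^ 2 ≤ b ^ 2 * s) : a ≤ √s * b := by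
  have h5 : a ^ 2 ≤ (√s * b) ^ 2 := by
    rw [mul_pow, Real.sq_sqrt hs]
    linarith
  exact (abs_le_of_sq_le_sq' h5 (by positivity)).2

theorem hs (N : Eu 3 →L[ℝ] Eu 3) : ‖N‖ ^ 2 ≤ ∑ k, ‖N (sb k)‖ ^ 2 := by
  have h0 : 0 ≤ ∑ k, ‖N (sb k)‖ ^ 2 := Finset.sum_nonneg fun k _ => sq_nonneg _
  have haux := hs_aux N
  generalize (∑ k, ‖N (sb k)‖ ^ 2) = s at h0 haux ⊢
  have h1 : ‖N‖ ≤ √s :=
    ContinuousLinearMap.opNorm_le_bound _ (Real.sqrt_nonneg _) fun z =>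
      hs_num (norm_nonneg z) h0 (haux z)
  have h2 := pow_le_pow_left₀ (norm_nonneg N) h1 2
  rwa [Real.sq_sqrt h0] at h2

end IpAux

open IpAux in
theorem pIp : SIp := by
  refine ⟨fun p q p' q' => ?_, fun w w' => ?_, fun w w' w'' r => ?_, fun w => ?_, fun w => ?_⟩
  · rw [ex_gq, ex_gq, ipw_eq]
    unfold Dm
    simp only [one_smul]
    have h1 : ⟪bar p' - bar q', bar p - bar q⟫ =
        ⟪bar p', bar p - bar q⟫ - ⟪bar q', bar p - bar q⟫ := inner_sub_left _ _ _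
    have h2 : ∀ k, ⟪(mo p' - mo q') (sb k), (mo p - mo q) (sb k)⟫ =
        ⟪mo p' (sb k), (mo p - mo q) (sb k)⟫ - ⟪mo q' (sb k), (mo p - mo q) (sb k)⟫ := by
      intro k
      rw [_root_.sub_apply, inner_sub_left]
    rw [h1, Finset.sum_congr rfl fun k _ => h2 k, Finset.sum_sub_distrib]
    ring
  · rw [ipw_eq, ipw_eq, real_inner_comm]
    congr 1
    exact Finset.sum_congr rfl fun k _ => real_inner_comm _ _
  · rw [ipw_eq, ipw_eq, ipw_eq]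
    have h2 : ∀ k, ⟪(w + r • w').2 (sb k), w''.2 (sb k)⟫ =
        ⟪w.2 (sb k), w''.2 (sb k)⟫ + r * ⟪w'.2 (sb k), w''.2 (sb k)⟫ := by
      intro k
      rw [Prod.snd_add, Prod.smul_snd, ContinuousLinearMap.add_apply,
        ContinuousLinearMap.smul_apply, inner_add_left, real_inner_smul_left]
    rw [Finset.sum_congr rfl fun k _ => h2 k, Finset.sum_add_distrib, ← Finset.mul_sum,
      Prod.fst_add, Prod.smul_fst, inner_add_left, real_inner_smul_left]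
    ring
  · rw [ipw_eq]
    have h1 := hs w.2
    have h2 : ∀ k, ⟪w.2 (sb k), w.2 (sb k)⟫ = ‖w.2 (sb k)‖ ^ 2 := fun k =>
      real_inner_self_eq_norm_sq _
    rw [Finset.sum_congr rfl fun k _ => h2 k, real_inner_self_eq_norm_sq]
    have h3 : 0 ≤ ‖w.2‖ ^ 2 := sq_nonneg _
    have h4 : 0 ≤ ‖w.1‖ ^ 2 := sq_nonneg _
    rw [Prod.norm_def]
    rcases le_total ‖w.1‖ ‖w.2‖ with h | h
    · rw [max_eq_right h]
      linarith
    · rw [max_eq_left h]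
      linarith
  · rw [ipw_eq]
    have h2 : ∀ k, ⟪w.2 (sb k), w.2 (sb k)⟫ ≤ ‖w‖ ^ 2 := by
      intro k
      rw [real_inner_self_eq_norm_sq]
      have h3 : ‖w.2 (sb k)‖ ≤ ‖w‖ := by
        refine (w.2.le_opNorm (sb k)).trans ?_
        rw [sb_norm, mul_one]
        exact norm_snd_le w
      exact pow_le_pow_left₀ (norm_nonneg _) h3 2
    have h4 : ∑ k, ⟪w.2 (sb k), w.2 (sb k)⟫ ≤ ∑ _k : Fin (3 + 1), ‖w‖ ^ 2 :=
      Finset.sum_le_sum fun k _ => h2 k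
    have h5 : ‖w.1‖ ^ 2 ≤ ‖w‖ ^ 2 := pow_le_pow_left₀ (norm_nonneg _) (norm_fst_le w) 2
    rw [real_inner_self_eq_norm_sq]
    simp only [Finset.sum_const, Finset.card_univ, Fintype.card_fin, nsmul_eq_mul] at h4
    push_cast at h4
    have h6 : 0 ≤ ‖w‖ ^ 2 := sq_nonneg _
    linarith

end Pool.Agent.MPaafd8a
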