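import Pool.Agent.Lib.MP_aafd8a_gt_D.SpecA

/-!
# MP_aafd8a_gt, disproof for `n = 3`, block (A-i): local facts
-/

set_option autoImplicit false

open Topology RealInnerProductSpace

namespace Pool.Agent.MPaafd8a

/-- The choice of the constant. -/
private theorem loc_const (κ κ' τ₀ : ℝ) (hτ : 0 < τ₀) : ∃ ε₀ : ℝ, 0 < ε₀ ∧ ∀ ε : ℝ, 0 < ε → ε < ε₀ →
    ε ≤ 1 / 10 ^ 10 ∧ κ * √ε ≤ 1 / 1000 ∧ (5 * κ ^ 2 + 3) * ε ≤ τ₀ ∧ 12 * κ' ^ 2 * ε ≤ 1 ∧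
      343 * κ ^ 3 * √ε ≤ 1 / 2 := by
  have h1 : ∀ᶠ ε : ℝ in 𝓝 0, ε ≤ 1 / 10 ^ 10 :=
    (continuous_id.tendsto' (0 : ℝ) 0 rfl).eventually_le_const (by norm_num)
  have h2 : ∀ᶠ ε : ℝ in 𝓝 0, κ * √ε ≤ 1 / 1000 :=
    ((continuous_const.mul Real.continuous_sqrt).tendsto' (0 : ℝ) 0 (by simp)).eventually_le_const
      (by norm_num)
  have h3 : ∀ᶠ ε : ℝ in 𝓝 0, (5 * κ ^ 2 + 3) * ε ≤ τ₀ :=
    ((continuous_const.mul continuous_id).tendsto' (0 : ℝ) 0 (by simp)).eventually_le_const hτ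
  have h4 : ∀ᶠ ε : ℝ in 𝓝 0, 12 * κ' ^ 2 * ε ≤ 1 :=
    ((continuous_const.mul continuous_id).tendsto' (0 : ℝ) 0 (by simp)).eventually_le_const
      (by norm_num)
  have h5 : ∀ᶠ ε : ℝ in 𝓝 0, 343 * κ ^ 3 * √ε ≤ 1 / 2 :=
    ((continuous_const.mul Real.continuous_sqrt).tendsto' (0 : ℝ) 0 (by simp)).eventually_le_const
      (by norm_num)
  obtain ⟨ε₀, hε₀, h⟩ := Metric.eventually_nhds_iff.1 (h1.and (h2.and (h3.and (h4.and h5))))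
  refine ⟨ε₀, hε₀, fun ε hε hε2 => h ?_⟩
  rw [Real.dist_eq, sub_zero, abs_of_pos hε]
  exact hε2

theorem pLoc : SIp → SMo → SGauE → STL → SMdl → SMdD → SLoc := by
  intro hIp _ hG hTL hMdl hMdD κ hκ
  obtain ⟨τ₀, hτ, hG⟩ := hG
  obtain ⟨κ', hκ'⟩ : ∃ κ' : ℝ, κ' = 5 * 10 ^ 6 * (1 + κ ^ 2) + 1000 * κ ^ 2 + 1 := ⟨_, rfl⟩
  obtain ⟨ε₀, hε₀, h⟩ := loc_const κ κ' τ₀ hτ
  refine ⟨κ', ε₀, hε₀, fun ε hε hεε => ?_⟩
  obtain ⟨ha, hb, hc, hd, he⟩ := h ε hε hεε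
  have hs0 : 0 < √ε := Real.sqrt_pos.2 hε
  have hs : √ε ^ 2 = ε := Real.sq_sqrt hε.le
  have hκ1 : 1 ≤ κ' := by rw [hκ']; nlinarith [sq_nonneg κ]
  have hsq : ∀ t : ℝ, 0 ≤ t → t ≤ κ * √ε → t ^ 2 ≤ κ ^ 2 * ε := fun t ht0 ht => by
    calc t ^ 2 ≤ (κ * √ε) ^ 2 := pow_le_pow_left₀ ht0 ht 2
      _ = κ ^ 2 * ε := by rw [mul_pow, hs]
  have hT : ∀ t : ℝ, 0 ≤ t → t ≤ κ * √ε → 5 * 10 ^ 6 * (ε + t ^ 2) ≤ κ' * ε := fun t ht0 ht => by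
    have h1 := hsq t ht0 ht
    rw [hκ']
    nlinarith [mul_nonneg (sq_nonneg κ) hε.le]
  have hM : ∀ t : ℝ, 0 ≤ t → t ≤ κ * √ε → 1000 * t ^ 2 ≤ κ' * ε := fun t ht0 ht => by
    have h1 := hsq t ht0 ht
    rw [hκ']
    nlinarith [mul_nonneg (sq_nonneg κ) hε.le]
  refine ⟨hε, ?_, hκ1, ?_, ?_, ?_, ?_⟩
  · exact ha.trans (by norm_num)
  · calc 12 * (κ' * ε) ^ 2 = (12 * κ' ^ 2 * ε) * ε := by ring
      _ ≤ 1 * ε := mul_le_mul_of_nonneg_right hd hε.le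
      _ = ε := one_mul ε
  · intro p q hp hq hC hD
    refine hG ε p q hε.le hp hq hC ?_
    have h1 := hIp.2.2.2.2 (Dm 1 p q)
    have h2 := hsq _ (norm_nonneg _) hD
    linarith
  · intro p q v hp hq hC hD hGd hB
    have h1 := hT _ (norm_nonneg (Dm 1 p q)) hD
    obtain ⟨e1, e2, e3⟩ := hTL (fv v) ε p q (isS_fv v) hε.le ha hp hq hC (hD.trans hb) hGd hB
    exact ⟨fun x i hx hxi => (e1 x i hx hxi).trans h1, fun y i hy hyi => (e2 y i hy hyi).trans h1,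
      fun i => ⟨(e3 i).1.trans h1, (e3 i).2.trans h1⟩⟩
  · intro v w hw hwn
    obtain ⟨-, -, -, e1, e2, e3, e4, e5⟩ := hMdl (fv v) w (isS_fv v) hw
    obtain ⟨f1, f2⟩ := hMdD (fv v) w (isS_fv v) hw ((hwn.trans hb).trans (by norm_num))
    have h1 := hM _ (norm_nonneg w) hwn
    have h2 : ‖w‖ ≤ 1 / 1000 := hwn.trans hb
    have h3 : (7 * ‖w‖) ^ 3 ≤ ε / 2 := by
      calc (7 * ‖w‖) ^ 3 ≤ (7 * (κ * √ε)) ^ 3 := by gcongr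
        _ = (343 * κ ^ 3 * √ε) * √ε ^ 2 := by ring
        _ = (343 * κ ^ 3 * √ε) * ε := by rw [hs]
        _ ≤ 1 / 2 * ε := mul_le_mul_of_nonneg_right he hε.le
        _ = ε / 2 := by ring
    refine ⟨fun i => ⟨(e1 i).1, (e1 i).2, ?_, ?_⟩, e3, e4, fun i j => ?_, f1.trans h1, f2.trans h1⟩
    · have := (abs_le.1 (e5 i).1).1
      linarith
    · have := (abs_le.1 (e5 i).2).1
      linarith
    · have := e2 i j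
      linarith

end Pool.Agent.MPaafd8a
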