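import Pool.Agent.Lib.MP_aafd8a_gt_D.SpecC
import Pool.Agent.Lib.MP_aafd8a_gt.Sect

/-!
# MP_aafd8a_gt, disproof for `n = 3`: the map of near maxima
-/

set_option autoImplicit false

open Topology RealInnerProductSpace

namespace Pool.Agent.MPaafd8a

namespace M0Aux

open SectX

theorem norm_bar_le {n : ℕ} {p : Sph n →₀ ℝ} (hp : Pw p) : ‖bar p‖ ≤ 1 := by
  unfold bar
  refine (norm_sum_le _ _).trans (le_trans ?_ hp.2.le)
  refine Finset.sum_le_sum fun v _ => ?_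
  change ‖p v • (v : Eu n)‖ ≤ p v
  rw [norm_smul, nv, mul_one, Real.norm_of_nonneg (hp.1 v)]

theorem norm_mo_le {n : ℕ} {p : Sph n →₀ ℝ} (hp : Pw p) : ‖mo p‖ ≤ 1 := by
  unfold mo
  refine (norm_sum_le _ _).trans (le_trans ?_ hp.2.le)
  refine Finset.sum_le_sum fun v _ => ?_
  change ‖p v • (innerSL ℝ (v : Eu n)).smulRight (v : Eu n)‖ ≤ p v
  rw [norm_smul, ContinuousLinearMap.norm_smulRight_apply, innerSL_apply_norm, nv, mul_one, mul_one,
    Real.norm_of_nonneg (hp.1 v)]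

theorem norm_Dm_le {n : ℕ} {p q : Sph n →₀ ℝ} (hp : Pw p) (hq : Pw q) {η : ℝ} (h0 : 0 < η)
    (h1 : η ≤ 1) : ‖Dm η p q‖ ≤ 4 := by
  have b1 := norm_bar_le hp
  have b2 := norm_mo_le hp
  have b3 := norm_bar_le hq
  have b4 := norm_mo_le hq
  rw [norm_prod_le_iff]
  refine ⟨?_, ?_⟩
  · change ‖bar p - bar q‖ ≤ 4
    have := norm_sub_le (bar p) (bar q)
    linarith
  · change ‖η • (mo p - mo q)‖ ≤ 4
    rw [norm_smul, Real.norm_eq_abs, abs_of_pos h0]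
    have e1 := norm_sub_le (mo p) (mo q)
    have e2 := norm_nonneg (mo p - mo q)
    nlinarith

end M0Aux

open SectX M0Aux

theorem pM0 : SHom → SMk → SNet → SNear → SFin → SM0 := by
  intro hHom hMk hNet hNear hFin c hc hcpos
  classical
  obtain ⟨η, hη0, hη1, ε, hε, c₀', hc₀', hfin⟩ := hFin 3 c hcpos
  obtain ⟨c₀, hc₀⟩ : ∃ c₀ : ℝ, c₀ = min c₀' (min c (1 / 5)) := ⟨_, rfl⟩
  have hc₀pos : 0 < c₀ := by rw [hc₀]; exact lt_min hc₀' (lt_min hcpos (by norm_num))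
  have hc₀1 : c₀ ≤ c₀' := by rw [hc₀]; exact min_le_left _ _
  have hc₀2 : c₀ ≤ c := by rw [hc₀]; exact (min_le_right _ _).trans (min_le_left _ _)
  have hc₀3 : c₀ ≤ 1 / 5 := by rw [hc₀]; exact (min_le_right _ _).trans (min_le_right _ _)
  have h₀ : -1 < c₀ := by linarith
  obtain ⟨ε₁, hε₁, hnear⟩ := hNear 3 c hcpos
  obtain ⟨ε₃, hε₃⟩ : ∃ ε₃ : ℝ, ε₃ = min ε₁ (ε / 4) := ⟨_, rfl⟩
  have hε₃pos : 0 < ε₃ := by rw [hε₃]; exact lt_min hε₁ (by positivity)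
  have hε₃1 : ε₃ ≤ ε₁ := by rw [hε₃]; exact min_le_left _ _
  have hε₃2 : ε₃ ≤ ε / 4 := by rw [hε₃]; exact min_le_right _ _
  -- the scaled moments
  obtain ⟨W, hW⟩ : ∃ W : W1 → Eu 3 × (Eu 3 →L[ℝ] Eu 3), ∀ z, W z = (z.1.1, η • z.1.2) :=
    ⟨fun z => (z.1.1, η • z.1.2), fun z => rfl⟩
  have hWc : Continuous W := by
    have e1 : W = fun z => (z.1.1, η • z.1.2) := funext hW
    rw [e1]
    exact (continuous_fst.comp continuous_subtype_val).prodMk
      ((continuous_snd.comp continuous_subtype_val).const_smul η)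
  have hWm : ∀ z, W z ∈ W0 3 := fun z => by
    rw [hW]
    obtain ⟨⟨h1, h2⟩, -⟩ := z.2
    refine ⟨fun x y => ?_, ?_⟩
    · change ⟪η • z.1.2 x, y⟫ = ⟪x, η • z.1.2 y⟫
      rw [real_inner_smul_left, real_inner_smul_right, h1]
    · change LinearMap.trace ℝ (Eu 3) (η • (z.1.2 : Eu 3 →ₗ[ℝ] Eu 3)) = 0
      rw [map_smul, h2, smul_zero]
  have hWne : ∀ z, W z ≠ 0 := by
    intro z hz
    rw [hW] at hz
    have e1 : z.1.1 = 0 := congrArg Prod.fst hz
    have e2 : η • z.1.2 = 0 := congrArg Prod.snd hz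
    have e3 : z.1.2 = 0 := (smul_eq_zero.1 e2).resolve_left hη0.ne'
    exact z.2.2 (Prod.ext e1 e3)
  -- the net
  obtain ⟨B, hB, u, χ, χc, χ0, χ1, χd⟩ := hNet 3 (ε₃ / 6) (by positivity)
  have hnet : ∀ z : Sph 3, ∃ b, dist (u b) z < ε₃ / 6 := by
    intro z
    obtain ⟨b, -, hb⟩ : ∃ b ∈ Finset.univ, 0 < χ b z := by
      by_contra hno
      push Not at hno
      have e2 := Finset.sum_nonpos (s := Finset.univ) hno
      rw [χ1] at e2
      exact absurd e2 (not_le.2 one_pos)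
    exact ⟨b, χd b z hb⟩
  obtain ⟨z₀⟩ : Nonempty (Sph 3) := by
    obtain ⟨v, hv⟩ := NormedSpace.sphere_nonempty (E := Eu 3) (x := 0) (r := 1) |>.2 zero_le_one
    exact ⟨⟨v, hv⟩⟩
  have : Nonempty B := ⟨(hnet z₀).choose⟩
  obtain ⟨m, mc, mle, mex⟩ := exmax (Y := Eu 3 × (Eu 3 →L[ℝ] Eu 3)) (B := B) (fun b w => qd w (u b)) (fun b => qd_cont (u b))
  obtain ⟨r, hr⟩ : ∃ r : B → Eu 3 × (Eu 3 →L[ℝ] Eu 3) → ℝ,
      r = fun b w => max 0 (qd w (u b) - m w + (ε₃ / 2) * ‖w‖) := ⟨_, rfl⟩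
  have rc : ∀ b, Continuous (r b) := by
    intro b
    rw [hr]
    exact continuous_const.max (((qd_cont (u b)).sub mc).add (continuous_const.mul continuous_norm))
  have r0 : ∀ b w, 0 ≤ r b w := by
    intro b w
    rw [hr]
    exact le_max_left _ _
  have rex : ∀ w, w ≠ 0 → ∃ b, 0 < r b w := by
    intro w hw
    obtain ⟨b, hb⟩ := mex w
    refine ⟨b, ?_⟩
    rw [hr]
    refine lt_max_of_lt_right ?_
    rw [hb]
    have := norm_pos_iff.2 hw
    change 0 < qd w (u b) - qd w (u b) + ε₃ / 2 * ‖w‖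
    rw [sub_self, zero_add]
    positivity
  have rnear : ∀ b w, 0 < r b w → ∀ z', qd w z' ≤ qd w (u b) + ε₃ * ‖w‖ := by
    intro b w hb z'
    rw [hr] at hb
    have e1 : 0 < qd w (u b) - m w + (ε₃ / 2) * ‖w‖ := by
      rcases lt_max_iff.1 hb with e | e
      · exact absurd e (lt_irrefl _)
      · exact e
    obtain ⟨b', hb'⟩ := hnet z'
    have e2 := qd_lip w z' (u b')
    rw [dist_comm] at e2
    have e3 : 3 * ‖w‖ * dist (u b') z' ≤ 3 * ‖w‖ * (ε₃ / 6) :=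
      mul_le_mul_of_nonneg_left hb'.le (by positivity)
    have e4 := mle b' w
    change qd w (u b') ≤ m w at e4
    nlinarith
  obtain ⟨P, Pc, P0, P1, Pp⟩ := normal (X := W1) (A := B) (fun b z => r b (W z))
    (fun b => (rc b).comp hWc) (fun b z => r0 _ _) (fun z => rex _ (hWne z))
  obtain ⟨M, hM⟩ := hMk _ (capK 3 c hc) W1 B P u Pc P0 P1 (by
    intro z σ hσ hv
    obtain ⟨y, hy⟩ := hnear (W z) (hWm z) (hWne z)
    refine ⟨hσ, y, fun w hw => ?_⟩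
    obtain ⟨b, hb, rfl⟩ := hv w hw
    refine hy (u b) fun z' => (rnear b _ (Pp b z hb) z').trans ?_
    have := mul_le_mul_of_nonneg_right hε₃1 (norm_nonneg (W z))
    linarith)
  refine ⟨M, c₀, h₀, hc₀pos, hc₀2, hc₀3, ?_⟩
  intro X _ _ p q p' d hpq hp' hd
  refine hHom _ _ _ p' (M.comp d) fun x σ hσ hv => ?_
  obtain ⟨y, hy, hy'⟩ := hfin (p x).1 (q x).1 (pw_of_geo (p x)) (pw_of_geo (q x))
    (fun v w hv hw => (hpq x v w hv hw).trans_le hc₀1)
  refine ⟨hσ, y, fun w hw => ?_⟩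
  rcases hv w hw with h | h
  · rw [hp'] at h
    exact (hpq x w y h hy).trans_le hc₀2
  · obtain ⟨b, hb, rfl⟩ := hM (d x) _ h
    have e1 : 0 < r b (W (d x)) := Pp b _ hb
    have e0 : W (d x) = Dm η (p x).1 (q x).1 := by
      rw [hW, hd]
      unfold Dm
      rw [one_smul]
    rw [e0] at e1
    refine hy' (u b) fun z' => (rnear b _ e1 z').trans ?_
    have e2 := norm_Dm_le (pw_of_geo (p x)) (pw_of_geo (q x)) hη0 hη1
    have e3 := norm_nonneg (Dm η (p x).1 (q x).1)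
    nlinarith

end Pool.Agent.MPaafd8a
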