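import Pool.Agent.Lib.MP_aafd8a_gt_D.SpecA

/-!
# MP_aafd8a_gt, disproof for `n = 3`, block (A-i): masses of caps
-/

set_option autoImplicit false

open Topology RealInnerProductSpace

namespace Pool.Agent.MPaafd8a

namespace MassAux

theorem mono {q : Sph 3 →₀ ℝ} (hq : Pw q) {f g : Sph 3 → ℝ} (h : ∀ y, 0 < q y → f y ≤ g y) :
    ex q f ≤ ex q g := by
  unfold ex
  refine Finset.sum_le_sum fun y hy => ?_
  have h0 : 0 < q y := lt_of_le_of_ne (hq.1 y) (Ne.symm (Finsupp.mem_support_iff.1 hy))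
  exact mul_le_mul_of_nonneg_left (h y h0) h0.le

theorem add (q : Sph 3 →₀ ℝ) (f g : Sph 3 → ℝ) :
    ex q (fun y => f y + g y) = ex q f + ex q g := by
  simp only [ex, Finsupp.sum, mul_add, Finset.sum_add_distrib]

theorem smul (q : Sph 3 →₀ ℝ) (c : ℝ) (f : Sph 3 → ℝ) :
    ex q (fun y => c * f y) = c * ex q f := by
  simp only [ex, Finsupp.sum, Finset.mul_sum]
  exact Finset.sum_congr rfl fun y _ => by ring

theorem const {q : Sph 3 →₀ ℝ} (hq : Pw q) (c : ℝ) : ex q (fun _ => c) = c := by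
  have h := hq.2
  simp only [Finsupp.sum] at h
  simp only [ex, Finsupp.sum, ← Finset.sum_mul]
  rw [h, one_mul]

theorem inner_bar (q : Sph 3 →₀ ℝ) (x : Sph 3) :
    ex q (fun y => ⟪(x : Eu 3), (y : Eu 3)⟫) = ⟪(x : Eu 3), bar q⟫ := by
  simp only [ex, bar, Finsupp.sum, inner_sum, inner_smul_right]

theorem ind (s : Set (Sph 3)) (y : Sph 3) :
    (y ∈ s ∧ s.indicator (fun _ => (1 : ℝ)) y = 1) ∨
      (y ∉ s ∧ s.indicator (fun _ => (1 : ℝ)) y = 0) := by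
  by_cases h : y ∈ s
  · exact Or.inl ⟨h, Set.indicator_of_mem h _⟩
  · exact Or.inr ⟨h, Set.indicator_of_notMem h _⟩

theorem abs_inner (x y : Sph 3) : -1 ≤ ⟪(x : Eu 3), (y : Eu 3)⟫ := by
  have h1 := abs_real_inner_le_norm (x : Eu 3) (y : Eu 3)
  have hx : ‖(x : Eu 3)‖ = 1 := mem_sphere_zero_iff_norm.1 x.2
  have hy : ‖(y : Eu 3)‖ = 1 := mem_sphere_zero_iff_norm.1 y.2
  rw [hx, hy, mul_one] at h1
  exact (abs_le.1 h1).1

end MassAux

theorem pMass : SMass := by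
  intro ε θ q x hε hθ hθ' hεθ hq hsup hbar hf
  have hb := abs_le.1 hbar
  have hf' := abs_le.1 hf
  have hθ2 : θ ^ 2 ≤ 1 / 50 * θ := by nlinarith
  have hθ2' : 0 < θ ^ 2 := by positivity
  have hθ4 : θ ^ 4 ≤ 1 / 2500 * θ ^ 2 := by
    have : θ ^ 2 ≤ 1 / 2500 := by nlinarith
    nlinarith
  have hε1 : ε ≤ 1 / 2500 * θ ^ 2 := hεθ.trans hθ4
  have hε2 : ε ≤ 1 / 100 := by nlinarith
  have ht := MassAux.inner_bar q x
  -- the middle region
  have hM : ms q {y | -1 + θ < ⟪(x : Eu 3), (y : Eu 3)⟫ ∧ ⟪(x : Eu 3), (y : Eu 3)⟫ < 1 / 4 - θ} ≤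
      2 * θ := by
    set s : Set (Sph 3) :=
      {y | -1 + θ < ⟪(x : Eu 3), (y : Eu 3)⟫ ∧ ⟪(x : Eu 3), (y : Eu 3)⟫ < 1 / 4 - θ} with hs
    have h1 : ex q (fun y => θ * (5 / 4 - θ) * s.indicator (fun _ => (1 : ℝ)) y) ≤
        ex q (fun y => (1 + ⟪(x : Eu 3), (y : Eu 3)⟫) * (1 / 4 - ⟪(x : Eu 3), (y : Eu 3)⟫) +
          13 / 10 * ε) := by
      refine MassAux.mono hq fun y hy => ?_
      have h2 := MassAux.abs_inner x y
      have h3 := hsup y hy
      rcases MassAux.ind s y with ⟨h4, h5⟩ | ⟨h4, h5⟩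
      · rw [h5, mul_one]
        obtain ⟨h6, h7⟩ := h4
        nlinarith [mul_pos (sub_pos.2 h6) (sub_pos.2 h7)]
      · rw [h5, mul_zero]
        rcases le_or_gt ⟪(x : Eu 3), (y : Eu 3)⟫ (1 / 4) with h6 | h6
        · have : 0 ≤ (1 + ⟪(x : Eu 3), (y : Eu 3)⟫) * (1 / 4 - ⟪(x : Eu 3), (y : Eu 3)⟫) :=
            mul_nonneg (by linarith) (by linarith)
          linarith
        · have h7 : (1 + ⟪(x : Eu 3), (y : Eu 3)⟫) * (⟪(x : Eu 3), (y : Eu 3)⟫ - 1 / 4) ≤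
              13 / 10 * ε :=
            mul_le_mul (by linarith) (by linarith) (by linarith) (by norm_num)
          have h8 : (1 + ⟪(x : Eu 3), (y : Eu 3)⟫) * (1 / 4 - ⟪(x : Eu 3), (y : Eu 3)⟫) =
              -((1 + ⟪(x : Eu 3), (y : Eu 3)⟫) * (⟪(x : Eu 3), (y : Eu 3)⟫ - 1 / 4)) := by ring
          rw [h8]
          linarith
    rw [MassAux.smul, MassAux.add, MassAux.const hq] at h1
    change θ * (5 / 4 - θ) * ms q s ≤ _ at h1
    have h2 : θ * (5 / 4 - θ) * ms q s ≤ 2 * θ ^ 2 + 13 / 10 * ε := by linarith [hf'.2]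
    have h3 : θ * ((5 / 4 - θ) * ms q s) ≤ θ * (2 * θ + 1 / 100 * θ) := by nlinarith
    have h4 := le_of_mul_le_mul_left h3 hθ
    by_contra! hcon
    nlinarith
  refine ⟨?_, ?_, hM⟩
  · -- the first part
    set s : Set (Sph 3) :=
      {y | -1 + θ < ⟪(x : Eu 3), (y : Eu 3)⟫ ∧ ⟪(x : Eu 3), (y : Eu 3)⟫ < 1 / 4 - θ} with hs
    set l : Set (Sph 3) := {y | ⟪(x : Eu 3), (y : Eu 3)⟫ ≤ -1 + θ} with hl
    have h1 : ex q (fun y => 1 / 4 + (-1) * ⟪(x : Eu 3), (y : Eu 3)⟫) ≤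
        ex q (fun y => (5 / 4 * l.indicator (fun _ => (1 : ℝ)) y +
          5 / 4 * s.indicator (fun _ => (1 : ℝ)) y) + θ) := by
      refine MassAux.mono hq fun y hy => ?_
      have h2 := MassAux.abs_inner x y
      rcases MassAux.ind l y with ⟨h4, h5⟩ | ⟨h4, h5⟩ <;>
        rcases MassAux.ind s y with ⟨h6, h7⟩ | ⟨h6, h7⟩ <;> rw [h5, h7]
      · linarith
      · linarith
      · linarith
      · have h8 : 1 / 4 - θ ≤ ⟪(x : Eu 3), (y : Eu 3)⟫ := by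
          by_contra! hcon
          have h9 : -1 + θ < ⟪(x : Eu 3), (y : Eu 3)⟫ := by
            by_contra! h10
            exact h4 h10
          exact h6 ⟨h9, hcon⟩
        linarith
    rw [MassAux.add, MassAux.smul, MassAux.const hq, MassAux.add, MassAux.add, MassAux.smul,
      MassAux.smul, MassAux.const hq, ht] at h1
    change _ ≤ 5 / 4 * ms q l + 5 / 4 * ms q s + θ at h1
    nlinarith [hb.1, hb.2]
  · -- the second part
    intro θ' h1 h2
    set l : Set (Sph 3) := {y | ⟪(x : Eu 3), (y : Eu 3)⟫ ≤ -1 + θ'} with hl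
    have h3 : ex q (fun y => (5 / 4 - θ') * l.indicator (fun _ => (1 : ℝ)) y) ≤
        ex q (fun y => (1 / 4 + (-1) * ⟪(x : Eu 3), (y : Eu 3)⟫) + ε) := by
      refine MassAux.mono hq fun y hy => ?_
      have h4 := hsup y hy
      rcases MassAux.ind l y with ⟨h5, h6⟩ | ⟨h5, h6⟩ <;> rw [h6]
      · have h7 : ⟪(x : Eu 3), (y : Eu 3)⟫ ≤ -1 + θ' := h5
        linarith
      · linarith
    rw [MassAux.smul, MassAux.add, MassAux.add, MassAux.smul, MassAux.const hq,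
      MassAux.const hq, ht] at h3
    change (5 / 4 - θ') * ms q l ≤ _ at h3
    have h4 : (5 / 4 - θ') * ms q l ≤ (5 / 4 - θ') * (1 / 5 + 2 * θ') := by
      nlinarith [hb.1, hb.2]
    exact le_of_mul_le_mul_left h4 (by linarith)

end Pool.Agent.MPaafd8a
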