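import Pool.Agent.Lib.MP_aafd8a_gt_D.SpecA

/-!
# MP_aafd8a_gt, disproof for `n = 3`: the first order condition at a maximum
-/

set_option autoImplicit false

open Topology RealInnerProductSpace

namespace Pool.Agent.MPaafd8a

namespace MaxBAux

/-- The rotation in the plane spanned by the orthonormal vectors `e`, `f`. -/
noncomputable def R (e f : Eu 3) (c s : ℝ) (z : Eu 3) : Eu 3 :=
  z + (c - 1) • (⟪z, e⟫ • e + ⟪z, f⟫ • f) + s • (⟪z, e⟫ • f - ⟪z, f⟫ • e)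

theorem inner_R {e f : Eu 3} (he : ⟪e, e⟫ = 1) (hf : ⟪f, f⟫ = 1) (hef : ⟪e, f⟫ = 0) {c s : ℝ}
    (hcs : c ^ 2 + s ^ 2 = 1) (z z' : Eu 3) : ⟪R e f c s z, R e f c s z'⟫ = ⟪z, z'⟫ := by
  have hfe : ⟪f, e⟫ = 0 := by rw [real_inner_comm]; exact hef
  unfold R
  simp only [inner_add_left, inner_add_right, inner_sub_left, inner_sub_right, real_inner_smul_left,
    real_inner_smul_right, he, hf, hef, hfe]
  rw [real_inner_comm z' e, real_inner_comm z' f]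
  linear_combination (⟪z, e⟫ * ⟪z', e⟫ + ⟪z, f⟫ * ⟪z', f⟫) * hcs

theorem ortho (t : Fin 5 → Eu 3) (v : RS)
    (hm : ∀ v' : RS, ∑ i, ⟪t i, fv v' i⟫ ≤ ∑ i, ⟪t i, fv v i⟫) {e f : Eu 3} (he : ⟪e, e⟫ = 1)
    (hf : ⟪f, f⟫ = 1) (hef : ⟪e, f⟫ = 0) :
    ∑ i, (⟪t i, e⟫ * ⟪fv v i, f⟫ - ⟪t i, f⟫ * ⟪fv v i, e⟫) = 0 := by
  set B : ℝ := ∑ i, (⟪fv v i, e⟫ * ⟪t i, e⟫ + ⟪fv v i, f⟫ * ⟪t i, f⟫) with hB
  set b : ℝ := ∑ i, (⟪fv v i, e⟫ * ⟪t i, f⟫ - ⟪fv v i, f⟫ * ⟪t i, e⟫) with hb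
  have key : ∀ θ : ℝ, (Real.cos θ - 1) * B + Real.sin θ * b ≤ 0 := by
    intro θ
    have hcs : Real.cos θ ^ 2 + Real.sin θ ^ 2 = 1 := Real.cos_sq_add_sin_sq θ
    have hv := isS_fv v
    have h1 : IsS (fun i => R e f (Real.cos θ) (Real.sin θ) (fv v i)) := by
      refine ⟨fun i => ?_, fun i j hij => ?_⟩
      · have h2 := inner_R he hf hef hcs (fv v i) (fv v i)
        rw [real_inner_self_eq_norm_sq, real_inner_self_eq_norm_sq, hv.1 i, one_pow] at h2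
        have h3 : ‖R e f (Real.cos θ) (Real.sin θ) (fv v i)‖ = 1 := by
          nlinarith [norm_nonneg (R e f (Real.cos θ) (Real.sin θ) (fv v i))]
        exact h3
      · exact (inner_R he hf hef hcs (fv v i) (fv v j)).trans (hv.2 i j hij)
    obtain ⟨v', hv'⟩ := exists_fv h1
    have h4 := hm v'
    rw [hv'] at h4
    have h5 : ∑ i, ⟪t i, R e f (Real.cos θ) (Real.sin θ) (fv v i)⟫ =
        ∑ i, ⟪t i, fv v i⟫ + ((Real.cos θ - 1) * B + Real.sin θ * b) := by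
      rw [hB, hb, Finset.mul_sum, Finset.mul_sum, ← Finset.sum_add_distrib, ← Finset.sum_add_distrib]
      refine Finset.sum_congr rfl fun i _ => ?_
      unfold R
      simp only [inner_add_right, inner_sub_right, real_inner_smul_right]
      ring
    rw [h5] at h4
    linarith
  have hd : HasDerivAt (fun θ : ℝ => (Real.cos θ - 1) * B + Real.sin θ * b)
      (-Real.sin 0 * B + Real.cos 0 * b) 0 :=
    (((Real.hasDerivAt_cos 0).sub_const 1).mul_const B).add ((Real.hasDerivAt_sin 0).mul_const b)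
  have hl : IsLocalMax (fun θ : ℝ => (Real.cos θ - 1) * B + Real.sin θ * b) 0 := by
    refine Filter.Eventually.of_forall fun θ => ?_
    simp only [Real.cos_zero, Real.sin_zero, sub_self, zero_mul, add_zero]
    exact key θ
  have h0 := hl.hasDerivAt_eq_zero hd
  rw [Real.sin_zero, Real.cos_zero, neg_zero, zero_mul, zero_add, one_mul] at h0
  rw [← neg_zero, ← h0, hb, ← Finset.sum_neg_distrib]
  refine Finset.sum_congr rfl fun i _ => ?_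
  ring

end MaxBAux

open MaxBAux in
theorem pMaxB : SMaxB := by
  intro t v hm x y
  by_cases hx : x = 0
  · subst hx
    simp
  have hx0 : ‖x‖ ≠ 0 := norm_ne_zero_iff.2 hx
  obtain ⟨e, he⟩ : ∃ e : Eu 3, e = ‖x‖⁻¹ • x := ⟨_, rfl⟩
  have hxe : x = ‖x‖ • e := by rw [he, smul_smul, mul_inv_cancel₀ hx0, one_smul]
  have hee : ⟪e, e⟫ = 1 := by
    rw [he, real_inner_smul_left, real_inner_smul_right, real_inner_self_eq_norm_sq]
    field_simp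
  obtain ⟨y', hy'⟩ : ∃ y' : Eu 3, y' = y - ⟪e, y⟫ • e := ⟨_, rfl⟩
  have hy : y = ⟪e, y⟫ • e + y' := by rw [hy']; abel
  have hey : ⟪e, y'⟫ = 0 := by
    rw [hy', inner_sub_right, real_inner_smul_right, hee]
    ring
  -- it is enough to treat `e` and `y'`
  have hmain : ∑ i, (⟪t i, e⟫ * ⟪fv v i, y'⟫ - ⟪t i, y'⟫ * ⟪fv v i, e⟫) = 0 := by
    by_cases hy0 : y' = 0
    · rw [hy0]
      simp
    have hn : ‖y'‖ ≠ 0 := norm_ne_zero_iff.2 hy0
    obtain ⟨f, hf⟩ : ∃ f : Eu 3, f = ‖y'‖⁻¹ • y' := ⟨_, rfl⟩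
    have hyf : y' = ‖y'‖ • f := by rw [hf, smul_smul, mul_inv_cancel₀ hn, one_smul]
    have hff : ⟪f, f⟫ = 1 := by
      rw [hf, real_inner_smul_left, real_inner_smul_right, real_inner_self_eq_norm_sq]
      field_simp
    have hef : ⟪e, f⟫ = 0 := by
      rw [hf, real_inner_smul_right, hey, mul_zero]
    have h1 := ortho t v hm hee hff hef
    have h2 : ∑ i, (⟪t i, e⟫ * ⟪fv v i, y'⟫ - ⟪t i, y'⟫ * ⟪fv v i, e⟫) =
        ‖y'‖ * ∑ i, (⟪t i, e⟫ * ⟪fv v i, f⟫ - ⟪t i, f⟫ * ⟪fv v i, e⟫) := by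
      rw [Finset.mul_sum]
      refine Finset.sum_congr rfl fun i _ => ?_
      obtain ⟨n, hn'⟩ : ∃ n : ℝ, n = ‖y'‖ := ⟨_, rfl⟩
      rw [← hn'] at hyf ⊢
      rw [hyf, real_inner_smul_right, real_inner_smul_right]
      ring
    rw [h2, h1, mul_zero]
  have h3 : ∑ i, (⟪t i, x⟫ * ⟪fv v i, y⟫ - ⟪t i, y⟫ * ⟪fv v i, x⟫) =
      ‖x‖ * ∑ i, (⟪t i, e⟫ * ⟪fv v i, y'⟫ - ⟪t i, y'⟫ * ⟪fv v i, e⟫) := by
    rw [Finset.mul_sum]
    refine Finset.sum_congr rfl fun i _ => ?_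
    obtain ⟨n, hn'⟩ : ∃ n : ℝ, n = ‖x‖ := ⟨_, rfl⟩
    obtain ⟨a, ha⟩ : ∃ a : ℝ, a = ⟪e, y⟫ := ⟨_, rfl⟩
    rw [← hn'] at hxe ⊢
    rw [← ha] at hy
    rw [hxe, hy]
    simp only [inner_add_right, real_inner_smul_right]
    ring
  rw [h3, hmain, mul_zero]

end Pool.Agent.MPaafd8a
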