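import Pool.Agent.Lib.MP_aafd8a_gt_D.SpecA

/-!
# MP_aafd8a_gt, disproof for `n = 3`: the moments of the model pair
-/

set_option autoImplicit false

open Topology RealInnerProductSpace

namespace Pool.Agent.MPaafd8a

namespace MdDAux

theorem norm_ro (x y : Eu 3) : ‖ro x y‖ = ‖x‖ * ‖y‖ := by
  unfold ro
  rw [ContinuousLinearMap.norm_smulRight_apply, innerSL_apply_norm]

theorem ro_add_left (x x' y : Eu 3) : ro (x + x') y = ro x y + ro x' y := by
  ext1 z
  simp only [ro_apply, add_apply, inner_add_left, add_smul]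

theorem ro_add_right (x y y' : Eu 3) : ro x (y + y') = ro x y + ro x y' := by
  ext1 z
  simp only [ro_apply, add_apply, smul_add]

theorem ro_sub_left (x x' y : Eu 3) : ro (x - x') y = ro x y - ro x' y := by
  ext1 z
  simp only [ro_apply, sub_apply, inner_sub_left, sub_smul]

theorem ro_sub_right (x y y' : Eu 3) : ro x (y - y') = ro x y - ro x y' := by
  ext1 z
  simp only [ro_apply, sub_apply, smul_sub]

theorem tp_sub_le (x y : Eu 3) : ‖tp x - tp y‖ ≤ ‖x - y‖ * (‖x‖ + ‖y‖) := by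
  have h : tp x - tp y = ro x (x - y) + ro (x - y) y := by
    rw [ro_sub_right, ro_sub_left]
    unfold tp
    abel
  rw [h]
  refine (norm_add_le _ _).trans ?_
  rw [norm_ro, norm_ro]
  apply le_of_eq
  ring

theorem tp_add (x y : Eu 3) : tp (x + y) = tp x + (ro x y + ro y x) + tp y := by
  unfold tp
  rw [ro_add_left, ro_add_right, ro_add_right]
  abel

theorem ro_neg_left (x y : Eu 3) : ro (-x) y = -ro x y := by
  ext1 z
  simp only [ro_apply, neg_apply, inner_neg_left, neg_smul]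

theorem ro_neg_right (x y : Eu 3) : ro x (-y) = -ro x y := by
  ext1 z
  simp only [ro_apply, neg_apply, smul_neg]

theorem tp_neg_add (x y : Eu 3) : tp (-x + y) = tp x - (ro x y + ro y x) + tp y := by
  rw [tp_add]
  unfold tp
  rw [ro_neg_left, ro_neg_right, ro_neg_left, ro_neg_right, neg_neg]
  abel

theorem norm_nmz {z : Eu 3} (h : 1 ≤ ‖z‖) : ‖nmz z‖ = 1 := by
  unfold nmz
  rw [norm_smul, norm_inv, norm_norm]
  exact inv_mul_cancel₀ (by linarith)

theorem nmz_sub {z : Eu 3} {δ : ℝ} (h : 1 ≤ ‖z‖) (h2 : ‖z‖ ^ 2 ≤ 1 + 2 * δ) :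
    ‖nmz z - z‖ ≤ δ := by
  have h3 : nmz z - z = (‖z‖⁻¹ - 1) • z := by
    unfold nmz
    rw [sub_smul, one_smul]
  have hz : 0 < ‖z‖ := by linarith
  have h4 : ‖‖z‖⁻¹ - 1‖ = 1 - ‖z‖⁻¹ := by
    rw [Real.norm_eq_abs, abs_sub_comm]
    apply abs_of_nonneg
    have := inv_le_one_of_one_le₀ h
    linarith
  rw [h3, norm_smul, h4, sub_mul, inv_mul_cancel₀ hz.ne']
  nlinarith

theorem conv_le {E : Type} [NormedAddCommGroup E] [NormedSpace ℝ E] (P : Fin 5 → ℝ)
    (f : Fin 5 → E) (B : ℝ) (h0 : ∀ i, 0 ≤ P i) (h1 : ∑ i, P i = 1) (hf : ∀ i, ‖f i‖ ≤ B) :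
    ‖∑ i, P i • f i‖ ≤ B := by
  refine (norm_sum_le _ _).trans ?_
  calc ∑ i, ‖P i • f i‖ ≤ ∑ i, P i * B := by
        refine Finset.sum_le_sum fun i _ => ?_
        rw [norm_smul, Real.norm_of_nonneg (h0 i)]
        exact mul_le_mul_of_nonneg_left (hf i) (h0 i)
    _ = B := by rw [← Finset.sum_mul, h1, one_mul]

theorem sum5_le {E : Type} [NormedAddCommGroup E] [NormedSpace ℝ E]
    (f : Fin 5 → E) (B : ℝ) (hf : ∀ i, ‖f i‖ ≤ B) : ‖∑ i, f i‖ ≤ 5 * B := by
  refine (norm_sum_le _ _).trans ?_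
  calc ∑ i, ‖f i‖ ≤ ∑ _i : Fin 5, B := Finset.sum_le_sum fun i _ => hf i
    _ = 5 * B := by simp

end MdDAux

open MdDAux

theorem pMdD (hA : SAlg) (hM : SMdl) : SMdD := by
  intro u w hu hw hw1
  obtain ⟨a1, a2, -, -, -⟩ := hA u hu
  obtain ⟨m1, m2, m3, m4, -, m6, m7, m8⟩ := hM u w hu hw
  obtain ⟨hN, -⟩ := hw
  set S := Sm u w with hS
  set W : ℝ := ‖w‖ with hW
  set s : ℝ := ‖S‖ with hs
  have hW0 : 0 ≤ W := norm_nonneg _
  have hs0 : 0 ≤ s := norm_nonneg _
  have hs1 : s ≤ 1 / 10 := by linarith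
  have ha : ‖w.1‖ ≤ W := norm_fst_le w
  have hn : ‖w.2‖ ≤ W := norm_snd_le w
  have hu1 : ∀ i, ‖u i‖ = 1 := hu.1
  have hSu : ∀ i, ‖S (u i)‖ ≤ s := fun i => by
    have := S.le_opNorm (u i)
    rwa [hu1 i, mul_one] at this
  have hSSu : ∀ i, ‖S (S (u i))‖ ≤ s * s := fun i =>
    (S.le_opNorm _).trans (mul_le_mul_of_nonneg_left (hSu i) hs0)
  have hP0 : ∀ i, 0 ≤ Pm u w i := fun i => by
    have := abs_le.1 (m8 i).1
    linarith [this.1]
  have hQ0 : ∀ i, 0 ≤ Qm u w i := fun i => by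
    have := abs_le.1 (m8 i).2
    linarith [this.1]
  have hau : ∀ i, |⟪w.1, u i⟫| ≤ W := fun i => by
    have := abs_real_inner_le_norm w.1 (u i)
    rw [hu1 i, mul_one] at this
    exact this.trans ha
  have hni : ∀ i, |⟪w.2 (u i), u i⟫| ≤ W := fun i => by
    have h1 := abs_real_inner_le_norm (w.2 (u i)) (u i)
    rw [hu1 i, mul_one] at h1
    have h2 := w.2.le_opNorm (u i)
    rw [hu1 i, mul_one] at h2
    linarith
  -- the errors
  have hE : ∀ i, ‖nmz (av u w i) - (u i + S (u i))‖ ≤ s ^ 2 := by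
    intro i
    have h1 : ‖u i + S (u i)‖ ^ 2 ≤ 1 + 2 * s ^ 2 := by
      rw [norm_add_sq_real, real_inner_comm, m2 i, hu1 i]
      nlinarith [hSu i, norm_nonneg (S (u i))]
    exact nmz_sub (m4 i).1 h1
  have hF : ∀ i, ‖nmz (bv u w i) - (-u i + S (u i))‖ ≤ 3 * s ^ 2 := by
    intro i
    have hb : bv u w i = (-u i + S (u i)) - S (S (u i)) := by
      unfold bv
      rw [← hS]
      abel
    have h1 : ‖bv u w i‖ ^ 2 ≤ 1 + 2 * (2 * s ^ 2) := by
      have e1 : ‖(-u i + S (u i))‖ ^ 2 = 1 + ‖S (u i)‖ ^ 2 := by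
        rw [norm_add_sq_real, inner_neg_left, real_inner_comm, m2 i, norm_neg, hu1 i]
        ring
      have e2 : ⟪-u i + S (u i), S (S (u i))⟫ = -‖S (u i)‖ ^ 2 + ⟪S (u i), S (S (u i))⟫ := by
        rw [inner_add_left, inner_neg_left, ← m1 (u i) (S (u i)), real_inner_self_eq_norm_sq]
      have e3 : |⟪S (u i), S (S (u i))⟫| ≤ s * (s * s) :=
        (abs_real_inner_le_norm _ _).trans (mul_le_mul (hSu i) (hSSu i) (norm_nonneg _) hs0)
      have e4 := (abs_le.1 e3).1
      rw [hb, norm_sub_sq_real, e1, e2]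
      have e5 : ‖S (u i)‖ ^ 2 ≤ s ^ 2 := pow_le_pow_left₀ (norm_nonneg _) (hSu i) 2
      have e6 : ‖S (S (u i))‖ ^ 2 ≤ (s * s) ^ 2 := pow_le_pow_left₀ (norm_nonneg _) (hSSu i) 2
      have e7 : s ^ 2 * s ≤ s ^ 2 * (1 / 10) := mul_le_mul_of_nonneg_left hs1 (sq_nonneg s)
      have e8 : s * s ^ 3 ≤ s ^ 2 * (1 / 10) * (1 / 10) := by
        nlinarith [mul_nonneg (sq_nonneg s) hs0, sq_nonneg s]
      nlinarith
    have h2 := nmz_sub (m4 i).2 h1
    have h3 : nmz (bv u w i) - (-u i + S (u i)) = (nmz (bv u w i) - bv u w i) + -(S (S (u i))) := by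
      rw [hb]
      abel
    rw [h3]
    refine (norm_add_le _ _).trans ?_
    rw [norm_neg]
    have := hSSu i
    nlinarith
  have hPQ : ∀ i, Pm u w i + Qm u w i = 2 / 5 + 4 / 5 * ⟪w.1, u i⟫ := fun i => by
    unfold Pm Qm
    ring
  have hPQ' : ∀ i, Pm u w i - Qm u w i = 16 / 15 * ⟪w.2 (u i), u i⟫ := fun i => by
    unfold Pm Qm
    ring
  have hsW : s ^ 2 ≤ 49 * W ^ 2 := by nlinarith
  have hWs : W * s ≤ 7 * W ^ 2 := by nlinarith
  constructor
  · have k1 : ∑ i, (Pm u w i + Qm u w i) • u i = w.1 := by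
      simp only [hPQ, add_smul, Finset.sum_add_distrib]
      rw [← Finset.smul_sum, a1, smul_zero, zero_add]
      simp only [mul_smul]
      rw [← Finset.smul_sum, a2, smul_smul]
      norm_num
    have k2 : ‖∑ i, (Pm u w i - Qm u w i) • S (u i)‖ ≤ 5 * (16 / 15 * (W * s)) := by
      apply sum5_le
      intro i
      rw [hPQ', norm_smul, norm_mul, Real.norm_eq_abs, Real.norm_eq_abs,
        abs_of_nonneg (by norm_num : (0 : ℝ) ≤ 16 / 15), mul_assoc]
      exact mul_le_mul_of_nonneg_left (mul_le_mul (hni i) (hSu i) (norm_nonneg _) hW0) (by norm_num)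
    have k3 := conv_le (fun i => Pm u w i) (fun i => nmz (av u w i) - (u i + S (u i))) _ hP0 m6 hE
    have k4 := conv_le (fun i => Qm u w i) (fun i => nmz (bv u w i) - (-u i + S (u i))) _ hQ0 m7 hF
    have k5 : ∑ i, Pm u w i • nmz (av u w i) - ∑ i, Qm u w i • nmz (bv u w i) - w.1 =
        (∑ i, (Pm u w i - Qm u w i) • S (u i) +
          ∑ i, Pm u w i • (nmz (av u w i) - (u i + S (u i)))) -
          ∑ i, Qm u w i • (nmz (bv u w i) - (-u i + S (u i))) := by
      conv_lhs => rw [← k1]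
      rw [← Finset.sum_sub_distrib, ← Finset.sum_sub_distrib, ← Finset.sum_add_distrib,
        ← Finset.sum_sub_distrib]
      refine Finset.sum_congr rfl fun i _ => ?_
      simp only [smul_sub, smul_add, sub_smul, add_smul, smul_neg]
      abel
    rw [k5]
    refine (norm_sub_le _ _).trans ((add_le_add (norm_add_le _ _) le_rfl).trans ?_)
    nlinarith
  · have r1 : ∑ i, ro (u i) (S (u i)) = (5 / 4 : ℝ) • S := by
      ext1 z
      rw [sum_apply, smul_apply]
      simp only [ro_apply]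
      have : ∑ i, ⟪u i, z⟫ • S (u i) = S (∑ i, ⟪z, u i⟫ • u i) := by
        rw [map_sum]
        exact Finset.sum_congr rfl fun i _ => by rw [map_smul, real_inner_comm]
      rw [this, a2, map_smul]
    have r2 : ∑ i, ro (S (u i)) (u i) = (5 / 4 : ℝ) • S := by
      ext1 z
      rw [sum_apply, smul_apply]
      simp only [ro_apply]
      rw [← a2 (S z)]
      exact Finset.sum_congr rfl fun i _ => by rw [m1, real_inner_comm]
    have k1 : ∑ i, (Pm u w i - Qm u w i) • tp (u i) + S = w.2 := by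
      have : S = w.2 - (16 / 15 : ℝ) • ∑ i, ⟪w.2 (u i), u i⟫ • tp (u i) := rfl
      rw [this, Finset.smul_sum]
      simp only [hPQ', mul_smul]
      abel
    have k2 : ∑ i, (2 / 5 : ℝ) • (ro (u i) (S (u i)) + ro (S (u i)) (u i)) = S := by
      rw [← Finset.smul_sum, Finset.sum_add_distrib, r1, r2]
      module
    have k3 : ‖∑ i, (4 / 5 * ⟪w.1, u i⟫) • (ro (u i) (S (u i)) + ro (S (u i)) (u i))‖ ≤
        5 * (4 / 5 * (W * (2 * s))) := by
      apply sum5_le
      intro i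
      rw [norm_smul, norm_mul, Real.norm_eq_abs, Real.norm_eq_abs,
        abs_of_nonneg (by norm_num : (0 : ℝ) ≤ 4 / 5), mul_assoc]
      refine mul_le_mul_of_nonneg_left (mul_le_mul (hau i) ?_ (norm_nonneg _) hW0) (by norm_num)
      refine (norm_add_le _ _).trans ?_
      rw [norm_ro, norm_ro, hu1 i]
      linarith [hSu i]
    have hE2 : ∀ i, ‖tp (nmz (av u w i)) - tp (u i + S (u i))‖ ≤ 3 * s ^ 2 := by
      intro i
      refine (tp_sub_le _ _).trans ?_
      have e1 : ‖u i + S (u i)‖ ≤ 1 + s := (norm_add_le _ _).trans (by rw [hu1 i]; linarith [hSu i])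
      rw [norm_nmz (m4 i).1]
      have e2 : ‖nmz (av u w i) - (u i + S (u i))‖ * (1 + ‖u i + S (u i)‖) ≤ s ^ 2 * 3 :=
        mul_le_mul (hE i) (by linarith) (by positivity) (sq_nonneg s)
      linarith
    have hF2 : ∀ i, ‖tp (nmz (bv u w i)) - tp (-u i + S (u i))‖ ≤ 9 * s ^ 2 := by
      intro i
      refine (tp_sub_le _ _).trans ?_
      have e1 : ‖-u i + S (u i)‖ ≤ 1 + s :=
        (norm_add_le _ _).trans (by rw [norm_neg, hu1 i]; linarith [hSu i])
      rw [norm_nmz (m4 i).2]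
      have e2 : ‖nmz (bv u w i) - (-u i + S (u i))‖ * (1 + ‖-u i + S (u i)‖) ≤ 3 * s ^ 2 * 3 :=
        mul_le_mul (hF i) (by linarith) (by positivity) (by positivity)
      linarith
    have hT : ∀ i, ‖tp (S (u i))‖ ≤ s ^ 2 := by
      intro i
      unfold tp
      rw [norm_ro]
      nlinarith [hSu i, norm_nonneg (S (u i))]
    have k4 := conv_le (fun i => Pm u w i) (fun i => tp (nmz (av u w i)) - tp (u i + S (u i))) _
      hP0 m6 hE2
    have k5 := conv_le (fun i => Qm u w i) (fun i => tp (nmz (bv u w i)) - tp (-u i + S (u i))) _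
      hQ0 m7 hF2
    have k6 := conv_le (fun i => Pm u w i) (fun i => tp (S (u i))) _ hP0 m6 hT
    have k7 := conv_le (fun i => Qm u w i) (fun i => tp (S (u i))) _ hQ0 m7 hT
    have k8 : ∑ i, Pm u w i • tp (nmz (av u w i)) - ∑ i, Qm u w i • tp (nmz (bv u w i)) - w.2 =
        (∑ i, (4 / 5 * ⟪w.1, u i⟫) • (ro (u i) (S (u i)) + ro (S (u i)) (u i)) +
          ∑ i, Pm u w i • (tp (nmz (av u w i)) - tp (u i + S (u i))) +
          ∑ i, Pm u w i • tp (S (u i))) -
          (∑ i, Qm u w i • (tp (nmz (bv u w i)) - tp (-u i + S (u i))) +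
          ∑ i, Qm u w i • tp (S (u i))) := by
      conv_lhs => rw [← k1]
      conv_lhs => rw [← k2]
      rw [← Finset.sum_sub_distrib, ← Finset.sum_add_distrib, ← Finset.sum_sub_distrib,
        ← Finset.sum_add_distrib, ← Finset.sum_add_distrib, ← Finset.sum_add_distrib,
        ← Finset.sum_sub_distrib]
      refine Finset.sum_congr rfl fun i _ => ?_
      rw [tp_add, tp_neg_add]
      have e1 : Qm u w i = 2 / 5 + 4 / 5 * ⟪w.1, u i⟫ - Pm u w i := by
        linarith [hPQ i]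
      rw [e1]
      module
    rw [k8]
    refine (norm_sub_le _ _).trans ?_
    refine (add_le_add (norm_add₃_le) (norm_add_le _ _)).trans ?_
    nlinarith

end Pool.Agent.MPaafd8a
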