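import Pool.Agent.Lib.MP_aafd8a_gt_D.SpecA

set_option autoImplicit false

open Topology RealInnerProductSpace

namespace Pool.Agent.MPaafd8a

namespace MdlAux

theorem Sm_apply (u : Fin 5 → Eu 3) (w : WV) (z : Eu 3) :
    Sm u w z = w.2 z - (16 / 15 : ℝ) • ∑ i, ⟪w.2 (u i), u i⟫ • ⟪u i, z⟫ • u i := by
  simp only [Sm, ContinuousLinearMap.sub_apply, ContinuousLinearMap.smul_apply,
    ContinuousLinearMap.sum_apply, tp_apply]

theorem inner_Sm (u : Fin 5 → Eu 3) (w : WV) (z z' : Eu 3) :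
    ⟪Sm u w z, z'⟫ = ⟪w.2 z, z'⟫ - 16 / 15 * ∑ i, ⟪w.2 (u i), u i⟫ * (⟪u i, z⟫ * ⟪u i, z'⟫) := by
  rw [Sm_apply, inner_sub_left, inner_smul_left, sum_inner]
  simp only [inner_smul_left, conj_trivial]

theorem norm_tp (x : Eu 3) (hx : ‖x‖ = 1) : ‖tp x‖ ≤ 1 := by
  refine ContinuousLinearMap.opNorm_le_bound _ zero_le_one fun z => ?_
  rw [tp_apply, norm_smul, hx, mul_one, one_mul, Real.norm_eq_abs]
  have h := abs_real_inner_le_norm x z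
  rwa [hx, one_mul] at h

variable {u : Fin 5 → Eu 3} {w : WV}

theorem n_le (hu : IsS u) (i : Fin 5) : |⟪w.2 (u i), u i⟫| ≤ ‖w.2‖ := by
  refine (abs_real_inner_le_norm _ _).trans ?_
  rw [hu.1 i, mul_one]
  have h := w.2.le_opNorm (u i)
  rwa [hu.1 i, mul_one] at h

theorem norm_Sm (hu : IsS u) : ‖Sm u w‖ ≤ 7 * ‖w‖ := by
  have h2 : ‖w.2‖ ≤ ‖w‖ := norm_snd_le w
  have h0 : 0 ≤ ‖w.2‖ := norm_nonneg _
  have h3 : ‖∑ i, ⟪w.2 (u i), u i⟫ • tp (u i)‖ ≤ 5 * ‖w.2‖ := by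
    refine (norm_sum_le _ _).trans ?_
    have h4 : ∑ i : Fin 5, ‖⟪w.2 (u i), u i⟫ • tp (u i)‖ ≤ ∑ i : Fin 5, ‖w.2‖ := by
      refine Finset.sum_le_sum fun i _ => ?_
      rw [norm_smul, Real.norm_eq_abs]
      calc |⟪w.2 (u i), u i⟫| * ‖tp (u i)‖ ≤ ‖w.2‖ * 1 :=
            mul_le_mul (n_le hu i) (norm_tp _ (hu.1 i)) (norm_nonneg _) h0
        _ = ‖w.2‖ := mul_one _
    rw [Finset.sum_const, Finset.card_univ, Fintype.card_fin, nsmul_eq_mul] at h4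
    push_cast at h4
    exact h4
  unfold Sm
  refine (norm_sub_le _ _).trans ?_
  rw [norm_smul, Real.norm_eq_abs, abs_of_pos (by norm_num : (0 : ℝ) < 16 / 15)]
  linarith

theorem sum_n (h : SAlg) (hu : IsS u) (hw : w ∈ W0 3) : ∑ i, ⟪w.2 (u i), u i⟫ = 0 := by
  rw [(h u hu).2.2.2.2 w.2, hw.2, mul_zero]

theorem symm (hw : w ∈ W0 3) (z z' : Eu 3) : ⟪Sm u w z, z'⟫ = ⟪z, Sm u w z'⟫ := by
  rw [inner_Sm, real_inner_comm (Sm u w z') z, inner_Sm, hw.1 z z', real_inner_comm (w.2 z') z]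
  congr 2
  exact Finset.sum_congr rfl fun i _ => by ring

theorem diag (h : SAlg) (hu : IsS u) (hw : w ∈ W0 3) (j : Fin 5) : ⟪Sm u w (u j), u j⟫ = 0 := by
  rw [inner_Sm]
  have h1 : ∀ i, ⟪w.2 (u i), u i⟫ * (⟪u i, u j⟫ * ⟪u i, u j⟫) =
      1 / 16 * ⟪w.2 (u i), u i⟫ + if i = j then 15 / 16 * ⟪w.2 (u j), u j⟫ else 0 := by
    intro i
    by_cases hij : i = j
    · subst hij
      rw [if_pos rfl, real_inner_self_eq_norm_sq, hu.1 i]
      ring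
    · rw [if_neg hij, hu.2 i j hij]
      ring
  rw [Finset.sum_congr rfl fun i _ => h1 i, Finset.sum_add_distrib, ← Finset.mul_sum, sum_n h hu hw,
    Finset.sum_ite_eq' Finset.univ j, if_pos (Finset.mem_univ j)]
  ring

theorem one_le (z : Eu 3) (hz : 1 ≤ ‖z‖ ^ 2) : 1 ≤ ‖z‖ := by
  by_contra hlt
  push Not at hlt
  nlinarith [norm_nonneg z]

theorem av_le (h : SAlg) (hu : IsS u) (hw : w ∈ W0 3) (i : Fin 5) : 1 ≤ ‖av u w i‖ := by
  refine one_le _ ?_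
  unfold av
  rw [norm_add_sq_real, hu.1 i, real_inner_comm, diag h hu hw i]
  nlinarith [sq_nonneg ‖Sm u w (u i)‖]

theorem bv_le (h : SAlg) (hu : IsS u) (hw : w ∈ W0 3) (i : Fin 5) : 1 ≤ ‖bv u w i‖ := by
  refine one_le _ ?_
  unfold bv
  have h1 : ⟪u i, Sm u w (Sm u w (u i))⟫ = ‖Sm u w (u i)‖ ^ 2 := by
    rw [← symm hw, real_inner_self_eq_norm_sq]
  have h2 : ⟪u i, Sm u w (u i)⟫ = 0 := by
    rw [real_inner_comm, diag h hu hw i]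
  rw [norm_neg, norm_add_sq_real, norm_sub_sq_real, inner_sub_left, hu.1 i, h1, h2]
  have h3 := real_inner_le_norm (Sm u w (u i)) (Sm u w (Sm u w (u i)))
  nlinarith [sq_nonneg (‖Sm u w (u i)‖ - ‖Sm u w (Sm u w (u i))‖), sq_nonneg ‖Sm u w (u i)‖]

theorem avbv (hu : IsS u) (hw : w ∈ W0 3) (i j : Fin 5) :
    ⟪av u w i, bv u w j⟫ ≤ 1 / 4 + (7 * ‖w‖) ^ 3 := by
  have h1 : ⟪av u w i, bv u w j⟫ = -⟪u i, u j⟫ - ⟪Sm u w (u i), Sm u w (Sm u w (u j))⟫ := by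
    unfold av bv
    rw [inner_neg_right, inner_add_left, inner_add_right, inner_add_right, inner_sub_right,
      inner_sub_right, symm hw (u i) (u j), symm hw (u i) (Sm u w (u j))]
    ring
  have h2 : -⟪u i, u j⟫ ≤ 1 / 4 := by
    by_cases hij : i = j
    · subst hij
      rw [real_inner_self_eq_norm_sq, hu.1 i]
      norm_num
    · rw [hu.2 i j hij]
      norm_num
  have h3 := norm_Sm (w := w) hu
  have h0 : 0 ≤ ‖Sm u w‖ := norm_nonneg _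
  have h4 : ∀ k, ‖Sm u w (u k)‖ ≤ ‖Sm u w‖ := by
    intro k
    have h := (Sm u w).le_opNorm (u k)
    rwa [hu.1 k, mul_one] at h
  have h5 : ‖Sm u w (Sm u w (u j))‖ ≤ ‖Sm u w‖ * ‖Sm u w‖ :=
    ((Sm u w).le_opNorm _).trans (mul_le_mul_of_nonneg_left (h4 j) h0)
  have h6 : |⟪Sm u w (u i), Sm u w (Sm u w (u j))⟫| ≤ ‖Sm u w‖ ^ 3 := by
    refine (abs_real_inner_le_norm _ _).trans ?_
    calc ‖Sm u w (u i)‖ * ‖Sm u w (Sm u w (u j))‖ ≤ ‖Sm u w‖ * (‖Sm u w‖ * ‖Sm u w‖) :=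
          mul_le_mul (h4 i) h5 (norm_nonneg _) h0
      _ = ‖Sm u w‖ ^ 3 := by ring
  have h7 : ‖Sm u w‖ ^ 3 ≤ (7 * ‖w‖) ^ 3 := pow_le_pow_left₀ h0 h3 3
  rw [h1]
  linarith [(abs_le.1 h6).1]

end MdlAux

open MdlAux in
theorem pMdl : SAlg → SMdl := by
  intro h u w hu hw
  have h1 : ∑ i, ⟪w.1, u i⟫ = 0 := by
    rw [← inner_sum, (h u hu).1, inner_zero_right]
  have h2 := sum_n h hu hw
  have h3 : ‖w.1‖ ≤ ‖w‖ := norm_fst_le w
  have h4 : ‖w.2‖ ≤ ‖w‖ := norm_snd_le w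
  refine ⟨symm hw, diag h hu hw, norm_Sm hu, fun i => ⟨av_le h hu hw i, bv_le h hu hw i⟩, avbv hu hw,
    ?_, ?_, ?_⟩
  · simp only [Pm, Finset.sum_add_distrib, ← Finset.mul_sum]
    rw [h1, h2]
    simp
  · simp only [Qm, Finset.sum_add_distrib, Finset.sum_sub_distrib, ← Finset.mul_sum]
    rw [h1, h2]
    simp
  · intro i
    have h5 : |⟪w.1, u i⟫| ≤ ‖w.1‖ := by
      have h := abs_real_inner_le_norm w.1 (u i)
      rwa [hu.1 i, mul_one] at h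
    have h6 := n_le (w := w) hu i
    rw [abs_le] at h5 h6
    have h0 : 0 ≤ ‖w‖ := norm_nonneg _
    unfold Pm Qm
    constructor <;> rw [abs_le] <;> constructor <;> linarith [h5.1, h5.2, h6.1, h6.2]

end Pool.Agent.MPaafd8a
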