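import Pool.Agent.Lib.MP_aafd8a_gt_D.SpecA

/-!
# MP_aafd8a_gt, disproof for `n = 3`: pairs with small moments are near a simplex
-/

set_option autoImplicit false

open Topology RealInnerProductSpace

namespace Pool.Agent.MPaafd8a

namespace N1Aux

theorem ex_congr (r : Sph 3 →₀ ℝ) (f g : Sph 3 → ℝ) (h : ∀ z, r z ≠ 0 → f z = g z) : ex r f = ex r g := by
  unfold ex
  exact Finsupp.sum_congr fun z hz => by rw [h z (Finsupp.mem_support_iff.1 hz)]

/-- The mass of a cluster is the mass of a ball. -/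
theorem cm_eq (hClu : SClu) (u : Fin 5 → Eu 3) (y : Fin 5 → Eu 3) (η ρ : ℝ) (r : Sph 3 →₀ ℝ) (hu : IsS u)
    (hη : η ≤ 1 / 8) (hr : Pw r) (hyu : ∀ i, ‖y i - u i‖ ≤ η / 2) (hρ : ρ ≤ η / 2)
    (hN : ∀ z : Sph 3, 0 < r z → ∃ i, ‖(z : Eu 3) - y i‖ ≤ ρ) (i : Fin 5) :
    cm u r i = ms r {z : Sph 3 | ‖(z : Eu 3) - y i‖ ≤ ρ} := by
  have hnear : ∀ (z : Sph 3) (j : Fin 5), ‖(z : Eu 3) - y j‖ ≤ ρ → ‖(z : Eu 3) - u j‖ ≤ η := by
    intro z j hz
    have h1 : (z : Eu 3) - u j = ((z : Eu 3) - y j) + (y j - u j) := by abel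
    rw [h1]
    have h2 := norm_add_le ((z : Eu 3) - y j) (y j - u j)
    linarith [hyu j]
  have hNr : Nr η u r := by
    intro z hz
    obtain ⟨j, hj⟩ := hN z hz
    exact ⟨j, hnear z j hj⟩
  have hη4 : η ≤ 1 / 4 := by linarith
  obtain ⟨h1, -⟩ := hClu u η r hu hη4 hr hNr
  unfold cm ms
  apply ex_congr
  intro z hz
  have hz0 : 0 < r z := lt_of_le_of_ne (hr.1 z) (Ne.symm hz)
  obtain ⟨j, hj⟩ := hN z hz0
  obtain ⟨h2, h3⟩ := h1 z j ((hnear z j hj).trans hη4)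
  by_cases hij : i = j
  · subst hij
    rw [h2, Set.indicator_of_mem]
    exact hj
  · obtain ⟨h4, h5⟩ := h3 i hij
    rw [h4, Set.indicator_of_notMem]
    intro hzi
    have h6 := hnear z i hzi
    linarith

end N1Aux

open N1Aux

theorem pN1 : SIp → SEng → SMass → SFive → SFrame → SClu → SN1 := by
  intro hIp hEng hMass hFive hFrame hClu η0 hη0
  obtain ⟨η, hη, hηle, hη8⟩ : ∃ η : ℝ, 0 < η ∧ η ≤ η0 ∧ η ≤ 1 / 8 :=
    ⟨min η0 (1 / 8), lt_min hη0 (by norm_num), min_le_left _ _, min_le_right _ _⟩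
  obtain ⟨δ, hδ, hFr⟩ := hFrame (η / 2) (by linarith)
  obtain ⟨θ, hθ, hθ1, hθ2, hθ3, hθ4⟩ : ∃ θ : ℝ, 0 < θ ∧ θ ≤ 1 / 1000 ∧ 26 * θ ≤ η ∧
      5 * √θ ≤ η / 2 ∧ 2 * √θ ≤ δ := by
    have hr : 0 < min (η / 10) (δ / 2) := lt_min (by linarith) (by linarith)
    refine ⟨min (min (1 / 1000) (η / 26)) ((min (η / 10) (δ / 2)) ^ 2),
      lt_min (lt_min (by norm_num) (by linarith)) (by positivity), ?_, ?_, ?_, ?_⟩
    · exact (min_le_left _ _).trans (min_le_left _ _)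
    · have := (min_le_left (min (1 / 1000) (η / 26)) ((min (η / 10) (δ / 2)) ^ 2)).trans
        (min_le_right _ _)
      linarith
    · have h1 : √(min (min (1 / 1000) (η / 26)) ((min (η / 10) (δ / 2)) ^ 2)) ≤
          min (η / 10) (δ / 2) := by
        refine (Real.sqrt_le_sqrt (min_le_right _ _)).trans ?_
        rw [Real.sqrt_sq hr.le]
      have := h1.trans (min_le_left _ _)
      linarith
    · have h1 : √(min (min (1 / 1000) (η / 26)) ((min (η / 10) (δ / 2)) ^ 2)) ≤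
          min (η / 10) (δ / 2) := by
        refine (Real.sqrt_le_sqrt (min_le_right _ _)).trans ?_
        rw [Real.sqrt_sq hr.le]
      have := h1.trans (min_le_right _ _)
      linarith
  have hsq : 0 ≤ √θ := Real.sqrt_nonneg θ
  refine ⟨θ ^ 4, by positivity, fun ε p q hε hp hq hC hE => ?_⟩
  have hip : 0 ≤ ipw (Dm 1 p q) (Dm 1 p q) :=
    le_trans (by positivity) (hIp.2.2.2.1 (Dm 1 p q))
  have hεθ4 : ε ≤ θ ^ 4 := by linarith
  have hθ43 : θ ^ 4 ≤ θ := by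
    have h1 : θ ^ 3 ≤ 1 := pow_le_one₀ hθ.le (by linarith)
    calc θ ^ 4 = θ * θ ^ 3 := by ring
      _ ≤ θ * 1 := mul_le_mul_of_nonneg_left h1 hθ.le
      _ = θ := mul_one θ
  have hεθ : ε ≤ θ := hεθ4.trans hθ43
  have hsqrt : √(θ ^ 4) = θ ^ 2 := by
    have h1 : θ ^ 4 = (θ ^ 2) ^ 2 := by ring
    rw [h1, Real.sqrt_sq (by positivity)]
  have hE' := hEng ε (θ ^ 4) p q hε (by linarith) hp hq hC hE
  rw [hsqrt] at hE'
  have hMq : ∀ x, 0 < p x → MsP θ q x := by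
    intro x hx
    obtain ⟨h1, h2⟩ := hE' q (Or.inr rfl) x
    exact hMass ε θ q x hε hθ (by linarith) hεθ4 hq (fun y hy => hC x y hx hy) h1 h2
  have hMp : ∀ y, 0 < q y → MsP θ p y := by
    intro y hy
    obtain ⟨h1, h2⟩ := hE' p (Or.inl rfl) y
    refine hMass ε θ p y hε hθ (by linarith) hεθ4 hp (fun x hx => ?_) h1 h2
    rw [real_inner_comm]
    exact hC x y hx hy
  have hC' : Cpt2 (1 / 4 + θ) p q := fun v w hv hw => lt_of_lt_of_le (hC v w hv hw) (by linarith)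
  obtain ⟨x, hx1, hx2, hx3, hx4, hx5⟩ := hFive θ p q hθ hθ1 hp hq hC' hMq hMp
  obtain ⟨v, hv⟩ := hFr x fun i j hij => (hx1 i j hij).trans hθ4
  have h3 : 3 * √θ ≤ η / 2 := by linarith
  refine ⟨v, ?_, ?_, fun i => ⟨?_, ?_⟩⟩
  · intro z hz
    obtain ⟨i, hi⟩ := hx2 z hz
    refine ⟨i, ?_⟩
    have h1 : (z : Eu 3) - fv v i = ((z : Eu 3) - x i) + ((x i : Eu 3) - fv v i) := by abel
    rw [h1]
    have h2 := norm_add_le ((z : Eu 3) - x i) ((x i : Eu 3) - fv v i)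
    linarith [hv i]
  · intro z hz
    obtain ⟨i, hi⟩ := hx3 z hz
    refine ⟨i, ?_⟩
    have h1 : (z : Eu 3) - -fv v i = ((z : Eu 3) + x i) + -((x i : Eu 3) - fv v i) := by abel
    rw [h1]
    have h2 := norm_add_le ((z : Eu 3) + x i) (-((x i : Eu 3) - fv v i))
    rw [norm_neg] at h2
    linarith [hv i]
  · rw [cm_eq hClu (fv v) (fun i => (x i : Eu 3)) η (3 * √θ) p (isS_fv v) hη8 hp hv h3 hx2 i]
    exact (hx4 i).trans (by linarith)
  · have hset : ∀ i, {y : Sph 3 | ‖(y : Eu 3) + x i‖ ≤ 5 * √θ} =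
        {y : Sph 3 | ‖(y : Eu 3) - -(x i : Eu 3)‖ ≤ 5 * √θ} := by
      intro i
      ext y
      simp only [Set.mem_ofPred_eq, sub_neg_eq_add]
    rw [cm_eq hClu (fun i => -fv v i) (fun i => -(x i : Eu 3)) η (5 * √θ) q (isS_neg (isS_fv v)) hη8 hq
      (fun j => ?_) hθ3 (fun z hz => ?_) i, ← hset i]
    · exact (hx5 i).trans (by linarith)
    · have h1 : -(x j : Eu 3) - -fv v j = -((x j : Eu 3) - fv v j) := by abel
      rw [h1, norm_neg]
      exact hv j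
    · obtain ⟨j, hj⟩ := hx3 z hz
      refine ⟨j, ?_⟩
      rw [sub_neg_eq_add]
      exact hj

end Pool.Agent.MPaafd8a
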