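import Pool.Agent.Lib.MP_aafd8a_gt_D.SpecC

set_option autoImplicit false

open Topology RealInnerProductSpace

namespace Pool.Agent.MPaafd8a

namespace NFAux

/-- Homogeneous maps continuous at the origin are bounded. -/
theorem bnd {V V' : Type} (n : V → ℝ) (n' : V' → ℝ) (f : V → V') (sc : ℝ → V → V) (sc' : ℝ → V' → V')
    (h1 : ∀ r v, n (sc r v) = |r| * n v) (h1' : ∀ r v, n' (sc' r v) = |r| * n' v) (hf : ∀ r v, f (sc r v) = sc' r (f v))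
    (δ : ℝ) (hδ : 0 < δ) (h0 : ∀ v, 0 ≤ n v) (h : ∀ v, n v < δ → n' (f v) < 1) : ∀ v, n' (f v) ≤ 1 / δ * n v := by
  intro v
  by_contra hc
  push Not at hc
  have hc' : n v < δ * n' (f v) := by
    have h2 := mul_lt_mul_of_pos_left hc hδ
    have h3 : δ * (1 / δ * n v) = n v := by field_simp
    linarith
  obtain ⟨m, hm1, hm2⟩ := exists_between hc'
  have hm0 : 0 < m := lt_of_le_of_lt (h0 v) hm1
  have h4 := h (sc (δ / m) v) (by
    rw [h1, abs_of_pos (div_pos hδ hm0), div_mul_eq_mul_div, div_lt_iff₀ hm0]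
    exact mul_lt_mul_of_pos_left hm1 hδ)
  rw [hf, h1', abs_of_pos (div_pos hδ hm0), div_mul_eq_mul_div, div_lt_iff₀ hm0, one_mul] at h4
  linarith

/-- The coordinates on `W0 3`. -/
theorem lam (hDim : SDim) : ∃ (L : W0 3 ≃L[ℝ] (Fin 13 → ℝ)) (κ₁ κ₂ : ℝ), 1 ≤ κ₁ ∧ 1 ≤ κ₂ ∧
    (∀ w, ‖L w‖ ≤ κ₁ * ‖w.1‖) ∧ ∀ w, ‖w.1‖ ≤ κ₂ * ‖L w‖ := by
  have h : Module.finrank ℝ (W0 3) = Module.finrank ℝ (Fin 13 → ℝ) := by
    rw [hDim 3, Module.finrank_fin_fun]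
    rfl
  obtain ⟨L⟩ : Nonempty (W0 3 ≃L[ℝ] (Fin 13 → ℝ)) :=
    FiniteDimensional.nonempty_continuousLinearEquiv_of_finrank_eq (𝕜 := ℝ) (E := W0 3) (F := Fin 13 → ℝ) h
  obtain ⟨δ, hδ, h1⟩ := Metric.continuousAt_iff.1 (L.continuous.continuousAt (x := 0)) 1 one_pos
  obtain ⟨δ', hδ', h2⟩ := Metric.continuousAt_iff.1 (L.symm.continuous.continuousAt (x := 0)) 1 one_pos
  rw [map_zero] at h1 h2
  have h3 := bnd (V := W0 3) (V' := Fin 13 → ℝ) (fun w => ‖w.1‖) (fun y => ‖y‖) L (fun r w => r • w) (fun r y => r • y)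
    (fun r w => by
      change ‖r • w.1‖ = _
      rw [norm_smul, Real.norm_eq_abs])
    (fun r y => by rw [norm_smul, Real.norm_eq_abs]) (fun r w => map_smul L r w) δ hδ (fun w => norm_nonneg _)
    (fun w hw => by
      have h4 := h1 (x := w) (by
        change dist w.1 (0 : WV) < δ
        rw [dist_zero_right]
        exact hw)
      rwa [dist_zero_right] at h4)
  have h5 := bnd (V := Fin 13 → ℝ) (V' := W0 3) (fun y => ‖y‖) (fun w => ‖w.1‖) L.symm (fun r y => r • y)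
    (fun r w => r • w) (fun r y => by rw [norm_smul, Real.norm_eq_abs])
    (fun r w => by
      change ‖r • w.1‖ = _
      rw [norm_smul, Real.norm_eq_abs])
    (fun r w => map_smul L.symm r w) δ' hδ' (fun w => norm_nonneg _)
    (fun w hw => by
      have h4 : dist (L.symm w).1 (0 : WV) < 1 := h2 (x := w) (by
        rw [dist_zero_right]
        exact hw)
      rw [dist_zero_right] at h4
      exact h4)
  refine ⟨L, max 1 (1 / δ), max 1 (1 / δ'), le_max_left _ _, le_max_left _ _, fun w => ?_, fun w => ?_⟩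
  · exact (h3 w).trans (mul_le_mul_of_nonneg_right (le_max_right _ _) (norm_nonneg _))
  · have h6 := h5 (L w)
    simp only [ContinuousLinearEquiv.symm_apply_apply] at h6
    exact h6.trans (mul_le_mul_of_nonneg_right (le_max_right _ _) (norm_nonneg _))

/-- Gluing with a constant. -/
theorem glue {X Y : Type} [TopologicalSpace X] [TopologicalSpace Y] (ν : X → ℝ) (hν : Continuous ν) (s : ℝ) (y₀ : Y)
    (φ : C({x : X // ν x ≤ s}, Y)) (h : ∀ (x : X) (hx : ν x ≤ s), s ≤ ν x → φ ⟨x, hx⟩ = y₀) :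
    ∃ ψ : C(X, Y), (∀ (x : X) (hx : ν x ≤ s), ψ x = φ ⟨x, hx⟩) ∧ ∀ x, s ≤ ν x → ψ x = y₀ := by
  classical
  let ψ : X → Y := fun x => if hx : ν x ≤ s then φ ⟨x, hx⟩ else y₀
  have hψ1 : ∀ (x : X) (hx : ν x ≤ s), ψ x = φ ⟨x, hx⟩ := fun x hx => dif_pos hx
  have hψ2 : ∀ x, s ≤ ν x → ψ x = y₀ := by
    intro x hx
    by_cases hx' : ν x ≤ s
    · rw [hψ1 x hx']
      exact h x hx' hx
    · exact dif_neg hx'
  have hc : Continuous ψ := by
    rw [continuous_iff_isClosed]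
    intro C hC
    have e : ψ ⁻¹' C = (Subtype.val '' (φ ⁻¹' C)) ∪ ({x | s ≤ ν x} ∩ ψ ⁻¹' C) := by
      ext x
      constructor
      · intro hx
        by_cases hx' : ν x ≤ s
        · left
          refine ⟨⟨x, hx'⟩, ?_, rfl⟩
          change φ ⟨x, hx'⟩ ∈ C
          rw [← hψ1 x hx']
          exact hx
        · right
          exact ⟨(not_le.1 hx').le, hx⟩
      · rintro (⟨y, hy, rfl⟩ | hx)
        · change ψ y.1 ∈ C
          rw [hψ1 y.1 y.2]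
          exact hy
        · exact hx.2
    rw [e]
    refine IsClosed.union ?_ ?_
    · exact (isClosed_le hν continuous_const).isClosedEmbedding_subtypeVal.isClosedMap _ (hC.preimage φ.continuous)
    · by_cases hy : y₀ ∈ C
      · have e2 : {x | s ≤ ν x} ∩ ψ ⁻¹' C = {x | s ≤ ν x} := by
          ext x
          constructor
          · exact fun hx => hx.1
          · intro hx
            refine ⟨hx, ?_⟩
            change ψ x ∈ C
            rw [hψ2 x hx]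
            exact hy
        rw [e2]
        exact isClosed_le continuous_const hν
      · have e2 : {x | s ≤ ν x} ∩ ψ ⁻¹' C = ∅ := by
          ext x
          constructor
          · rintro ⟨hx1, hx2⟩
            have hx3 : ψ x ∈ C := hx2
            rw [hψ2 x hx1] at hx3
            exact hy hx3
          · exact fun hx => hx.elim
        rw [e2]
        exact isClosed_empty
  exact ⟨⟨ψ, hc⟩, hψ1, hψ2⟩

/-- A continuous map on the cylinder gives a homotopy. -/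
theorem hom_of {X Y : Type} [TopologicalSpace X] [TopologicalSpace Y] (H : C(unitInterval × X, Y)) (f g : C(X, Y))
    (h0 : ∀ x, H (0, x) = f x) (h1 : ∀ x, H (1, x) = g x) : f.Homotopic g :=
  ⟨{ toFun := H, continuous_toFun := H.continuous, map_zero_left := h0, map_one_left := h1 }⟩

theorem sqrt_bound {κ' ε : ℝ} (h1 : 1 ≤ κ') (h0 : 0 < ε) (h : ε < 1 / (900 * κ' ^ 2 + 1)) : 30 * κ' * ε ≤ √ε := by
  have h2 : 0 < √ε := Real.sqrt_pos.2 h0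
  have h3 : √ε * √ε = ε := Real.mul_self_sqrt h0.le
  have h4 : 30 * κ' * √ε ≤ 1 := by
    have h5 : (30 * κ' * √ε) ^ 2 ≤ 1 := by
      have h6 : (30 * κ' * √ε) ^ 2 = 900 * κ' ^ 2 * ε := by
        rw [mul_pow, mul_pow, pow_two (√ε), h3]
        ring
      rw [h6]
      have h7 : ε * (900 * κ' ^ 2 + 1) < 1 := by
        rwa [lt_div_iff₀ (by positivity)] at h
      nlinarith
    nlinarith [mul_pos (show (0 : ℝ) < 30 * κ' by linarith) h2]
  calc 30 * κ' * ε = (30 * κ' * √ε) * √ε := by rw [mul_assoc (30 * κ'), h3]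
    _ ≤ 1 * √ε := mul_le_mul_of_nonneg_right h4 h2.le
    _ = √ε := one_mul _

set_option maxHeartbeats 4000000 in
/-- The normal form for a fixed `ε`. -/
theorem core (hCrd : SCrd) (hCpt : SCpt) (hHom : SHom) (hCut : SCut) (hMo : SMo) (hYT : SYT) (hHB : SHB) (hPhi : SPhi)
    (L : W0 3 ≃L[ℝ] (Fin 13 → ℝ)) (κ₁ κ₂ κ' ε : ℝ) (hκ₁ : 1 ≤ κ₁) (hκ₂ : 1 ≤ κ₂)
    (hL1 : ∀ w, ‖L w‖ ≤ κ₁ * ‖w.1‖) (hL2 : ∀ w, ‖w.1‖ ≤ κ₂ * ‖L w‖) (hloc : Loc (164 * κ₁ * κ₂) κ' ε)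
    (hε : 30 * κ' * ε ≤ √ε) (hc : -1 < 1 / 4 + ε) (k₀ : Geo (capK 3 (1 / 4 + ε) hc))
    (hfar : Far (1 / 4 + ε) hc (80 * √ε) k₀) (X : Type) [MetricSpace X] [CompactSpace X]
    (F : C(X, Geo (capK 3 (1 / 4 + ε) hc))) :
    ∃ (J : C(RSq × (Fin 13 → ℝ), Geo (capK 3 (1 / 4 + ε) hc))) (D : C(X, Fin 13 → ℝ))
      (g : C({z : X // ‖D z‖ ≤ 1}, RSq)) (f : C(X, Geo (capK 3 (1 / 4 + ε) hc))),
      (∀ x d, 1 ≤ ‖d‖ → J (x, d) = k₀) ∧ (∀ (z : X) (h : ‖D z‖ ≤ 1), f z = J (g ⟨z, h⟩, D z)) ∧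
      (∀ z, 1 ≤ ‖D z‖ → f z = k₀) ∧ F.Homotopic f := by
  classical
  have hε0 : 0 < ε := hloc.1
  have hs0 : 0 < √ε := Real.sqrt_pos.2 hε0
  have hκ' : 1 ≤ κ' := hloc.2.2.1
  obtain ⟨s, hs⟩ : ∃ s, s = 164 * κ₁ * √ε := ⟨_, rfl⟩
  have hspos : 0 < s := by
    rw [hs]
    have : 0 < κ₁ := by linarith
    positivity
  have t1 : ∀ w : W0 3, ‖L w‖ ≤ s → ‖w.1‖ ≤ 164 * κ₁ * κ₂ * √ε := by
    intro w hw
    calc ‖w.1‖ ≤ κ₂ * ‖L w‖ := hL2 w
      _ ≤ κ₂ * s := mul_le_mul_of_nonneg_left hw (by linarith)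
      _ = 164 * κ₁ * κ₂ * √ε := by rw [hs]; ring
  have t2 : ∀ w : W0 3, s / 2 < ‖L w‖ → 82 * √ε < ‖w.1‖ := by
    intro w hw
    have h1 := hL1 w
    rw [hs] at hw
    by_contra hn
    push Not at hn
    have h2 : κ₁ * ‖w.1‖ ≤ κ₁ * (82 * √ε) := mul_le_mul_of_nonneg_left hn (by linarith)
    linarith
  obtain ⟨p, q, hp, hpq⟩ := hCut 3 (1 / 4 + ε) (capK 3 (1 / 4 + ε) hc) (fun σ => Iff.rfl) X F
  have hFp : F.Homotopic p := by
    apply hHom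
    intro x σ hσ h
    refine face_of_subset _ (F x).2.2.2 ?_ hσ
    intro v hv
    have hv' : 0 < (F x).1 v := by
      rcases h v hv with h1 | h1
      · exact h1
      · exact hp x v h1
    exact Finsupp.mem_support_iff.2 hv'.ne'
  obtain ⟨T₁, hT₁⟩ := hCpt _ _ _ (isCompact_range p.continuous)
  obtain ⟨T₂, hT₂⟩ := hCpt _ _ _ (isCompact_range q.continuous)
  obtain ⟨T, hT⟩ : ∃ T, T = T₁ ∪ T₂ := ⟨_, rfl⟩
  have hTp : ∀ x, (p x).1.support ⊆ T := fun x =>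
    (hT₁ _ ⟨x, rfl⟩).trans (by rw [hT]; exact Finset.subset_union_left)
  have hTq : ∀ x, (q x).1.support ⊆ T := fun x =>
    (hT₂ _ ⟨x, rfl⟩).trans (by rw [hT]; exact Finset.subset_union_right)
  obtain ⟨hY1, hY2, hY3, -, hY5, -⟩ := hYT (1 / 4 + ε) T
  obtain ⟨j, hj⟩ := hY5 X (fun x => (p x).1) (fun x => (q x).1)
    (fun x => ⟨pw_of_geo _, pw_of_geo _, hpq x, hTp x, hTq x⟩) (fun v => (hCrd _ _ v).comp p.continuous)
    (fun v => (hCrd _ _ v).comp q.continuous)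
  have hW : ∀ z : YT (1 / 4 + ε) T, Dz z ∈ W0 3 := fun z => (hMo 3 (yp z) (yq z) (hY1 z).1 (hY1 z).2.1).1 1
  obtain ⟨dW, hdW⟩ : ∃ dW : C(X, W0 3), ∀ x, dW x = ⟨Dz (j x), hW (j x)⟩ :=
    ⟨⟨fun x => ⟨Dz (j x), hW (j x)⟩, (hY3.comp j.continuous).subtype_mk _⟩, fun x => rfl⟩
  have hdW1 : ∀ x, (dW x).1 = Dz (j x) := fun x => by rw [hdW]
  have hLc : Continuous fun x => L (dW x) := L.continuous.comp dW.continuous
  have hLc' : Continuous fun x => s⁻¹ • L (dW x) := by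
    have h := hLc.const_smul s⁻¹
    exact h
  obtain ⟨D, hD⟩ : ∃ D : C(X, Fin 13 → ℝ), ∀ x, D x = s⁻¹ • L (dW x) :=
    ⟨⟨fun x => s⁻¹ • L (dW x), hLc'⟩, fun x => rfl⟩
  have hDn : ∀ x, s * ‖D x‖ = ‖L (dW x)‖ := by
    intro x
    rw [hD, norm_smul, Real.norm_eq_abs, abs_of_pos (inv_pos.2 hspos), ← mul_assoc, mul_inv_cancel₀ hspos.ne', one_mul]
  have hD1 : ∀ x, ‖D x‖ ≤ 1 → ‖L (dW x)‖ ≤ s := by
    intro x hx
    rw [← hDn]
    exact mul_le_of_le_one_right hspos.le hx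
  have hD1' : ∀ x, ‖L (dW x)‖ ≤ s → ‖D x‖ ≤ 1 := by
    intro x hx
    rw [← hDn] at hx
    by_contra hn
    push Not at hn
    have := mul_lt_mul_of_pos_left hn hspos
    linarith
  have hD2 : ∀ x, 1 ≤ ‖D x‖ → s ≤ ‖L (dW x)‖ := by
    intro x hx
    rw [← hDn]
    exact le_mul_of_one_le_right hspos.le hx
  obtain ⟨T', g₀, md, k, hTT', hk0, hk1, hkD, hmD⟩ := hHB _ κ' ε hloc T
  obtain ⟨Φ, hΦ1, hΦ2⟩ := hPhi (1 / 4 + ε) hc (80 * √ε) s k₀ hspos hfar T'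
  obtain ⟨-, -, -, -, hY5', hY6'⟩ := hYT (1 / 4 + ε) T'
  obtain ⟨ι, hι⟩ := hY5' (YT (1 / 4 + ε) T) (fun z => yp z) (fun z => yq z)
    (fun z => ⟨(hY1 z).1, (hY1 z).2.1, (hY1 z).2.2.1, (hY1 z).2.2.2.1.trans hTT', (hY1 z).2.2.2.2.trans hTT'⟩)
    (fun v => (hY2 v).1) (fun v => (hY2 v).2)
  have hιD : ∀ z, Dz (ι z) = Dz z := by
    intro z
    unfold Dz
    rw [(hι z).1, (hι z).2]
  have hjS : ∀ x, ‖L (dW x)‖ ≤ s → ‖Dz (j x)‖ ≤ 164 * κ₁ * κ₂ * √ε := by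
    intro x hx
    have := t1 (dW x) hx
    rwa [hdW1] at this
  have hjL : ∀ x, s / 2 < ‖L (dW x)‖ → 82 * √ε < ‖Dz (j x)‖ := by
    intro x hx
    have := t2 (dW x) hx
    rwa [hdW1] at this
  have hνc : Continuous fun x => ‖L (dW x)‖ := (L.continuous.comp dW.continuous).norm
  -- homotopy 2
  have m1 : ∀ (x : X) (t : unitInterval) (h : ‖L (dW x)‖ ≤ s),
      ‖L (dW x)‖ ≤ s / 2 ∨ 80 * √ε ≤ ‖Dz (k (t, ⟨j x, hjS x h⟩))‖ := by
    intro x t h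
    rcases le_or_gt (‖L (dW x)‖) (s / 2) with h1 | h1
    · exact Or.inl h1
    · right
      have h2 := hjL x h1
      have h3 := hkD t ⟨j x, hjS x h⟩
      have h4 := norm_sub_norm_le (Dz (j x)) (Dz (k (t, ⟨j x, hjS x h⟩)))
      rw [norm_sub_rev] at h4
      have h5 : ‖Dz (k (t, ⟨j x, hjS x h⟩)) - Dz (j x)‖ ≤ 30 * κ' * ε := h3
      linarith
  obtain ⟨φ2, hφ2⟩ : ∃ φ2 : C({y : unitInterval × X // ‖L (dW y.2)‖ ≤ s}, Geo (capK 3 (1 / 4 + ε) hc)),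
      ∀ y, φ2 y = Φ ⟨(‖L (dW y.1.2)‖, k (y.1.1, ⟨j y.1.2, hjS _ y.2⟩)), m1 _ _ y.2⟩ := by
    refine ⟨⟨fun y => Φ ⟨(‖L (dW y.1.2)‖, k (y.1.1, ⟨j y.1.2, hjS _ y.2⟩)), m1 _ _ y.2⟩, ?_⟩, fun y => rfl⟩
    refine Φ.continuous.comp (Continuous.subtype_mk (Continuous.prodMk ?_ ?_) _)
    · exact hνc.comp (continuous_snd.comp continuous_subtype_val)
    · refine k.continuous.comp (Continuous.prodMk (continuous_fst.comp continuous_subtype_val) ?_)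
      exact (j.continuous.comp (continuous_snd.comp continuous_subtype_val)).subtype_mk _
  obtain ⟨H2, hH2a, hH2b⟩ := glue (X := unitInterval × X) (fun y => ‖L (dW y.2)‖) (hνc.comp continuous_snd) s k₀ φ2
    (fun y hy hy' => by
      rw [hφ2]
      exact hΦ2 _ hy')
  -- the map J
  have hwd : ∀ d : Fin 13 → ℝ, ‖L (L.symm (s • d))‖ = s * ‖d‖ := by
    intro d
    rw [ContinuousLinearEquiv.apply_symm_apply, norm_smul, Real.norm_eq_abs, abs_of_pos hspos]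
  have hwd1 : ∀ d : Fin 13 → ℝ, ‖d‖ ≤ 1 → ‖(L.symm (s • d)).1‖ ≤ 164 * κ₁ * κ₂ * √ε := by
    intro d hd
    apply t1
    rw [hwd]
    exact mul_le_of_le_one_right hspos.le hd
  have m2 : ∀ (A : RSq) (d : Fin 13 → ℝ) (h : ‖d‖ ≤ 1),
      s * ‖d‖ ≤ s / 2 ∨ 80 * √ε ≤ ‖Dz (md (A, ⟨(L.symm (s • d)).1, (L.symm (s • d)).2, hwd1 d h⟩))‖ := by
    intro A d h
    rcases le_or_gt (s * ‖d‖) (s / 2) with h1 | h1
    · exact Or.inl h1
    · right
      have h2 : 82 * √ε < ‖(L.symm (s • d)).1‖ := t2 _ (by rw [hwd]; exact h1)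
      have h3 := hmD A ⟨(L.symm (s • d)).1, (L.symm (s • d)).2, hwd1 d h⟩
      have h4 := norm_sub_norm_le (L.symm (s • d)).1 (Dz (md (A, ⟨(L.symm (s • d)).1, (L.symm (s • d)).2, hwd1 d h⟩)))
      rw [norm_sub_rev] at h4
      have h6 : 0 < κ' * ε := mul_pos (by linarith) hε0
      have h5 : ‖Dz (md (A, ⟨(L.symm (s • d)).1, (L.symm (s • d)).2, hwd1 d h⟩)) - (L.symm (s • d)).1‖ ≤ 2 * κ' * ε := h3
      nlinarith
  obtain ⟨φJ, hφJ⟩ : ∃ φJ : C({y : RSq × (Fin 13 → ℝ) // ‖y.2‖ ≤ 1}, Geo (capK 3 (1 / 4 + ε) hc)),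
      ∀ y, φJ y = Φ ⟨(s * ‖y.1.2‖, md (y.1.1, ⟨(L.symm (s • y.1.2)).1, (L.symm (s • y.1.2)).2, hwd1 _ y.2⟩)), m2 _ _ y.2⟩ := by
    refine ⟨⟨fun y => Φ ⟨(s * ‖y.1.2‖, md (y.1.1, ⟨(L.symm (s • y.1.2)).1, (L.symm (s • y.1.2)).2, hwd1 _ y.2⟩)),
      m2 _ _ y.2⟩, ?_⟩, fun y => rfl⟩
    refine Φ.continuous.comp (Continuous.subtype_mk (Continuous.prodMk ?_ ?_) _)
    · exact continuous_const.mul (continuous_snd.comp continuous_subtype_val).norm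
    · refine md.continuous.comp (Continuous.prodMk (continuous_fst.comp continuous_subtype_val) ?_)
      exact (continuous_subtype_val.comp (L.symm.continuous.comp
        ((continuous_snd.comp continuous_subtype_val).const_smul s))).subtype_mk _
  obtain ⟨J, hJa, hJb⟩ := glue (X := RSq × (Fin 13 → ℝ)) (fun y => ‖y.2‖) continuous_snd.norm 1 k₀ φJ
    (fun y hy hy' => by
      rw [hφJ]
      refine hΦ2 _ ?_
      exact le_mul_of_one_le_right hspos.le hy')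
  -- homotopy 1
  have m3 : ∀ y : unitInterval × X, min ‖L (dW y.2)‖ (s / 2 + (y.1 : ℝ) * (s / 2)) ≤ s / 2 ∨
      80 * √ε ≤ ‖Dz (ι (j y.2))‖ := by
    intro y
    rcases le_or_gt (‖L (dW y.2)‖) (s / 2) with h1 | h1
    · exact Or.inl ((min_le_left _ _).trans h1)
    · right
      rw [hιD]
      have := hjL y.2 h1
      linarith
  obtain ⟨H1, hH1⟩ : ∃ H1 : C(unitInterval × X, Geo (capK 3 (1 / 4 + ε) hc)),
      ∀ y, H1 y = Φ ⟨(min ‖L (dW y.2)‖ (s / 2 + (y.1 : ℝ) * (s / 2)), ι (j y.2)), m3 y⟩ := by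
    refine ⟨⟨fun y => Φ ⟨(min ‖L (dW y.2)‖ (s / 2 + (y.1 : ℝ) * (s / 2)), ι (j y.2)), m3 y⟩, ?_⟩, fun y => rfl⟩
    refine Φ.continuous.comp (Continuous.subtype_mk (Continuous.prodMk ?_ ?_) _)
    · exact (hνc.comp continuous_snd).min
        (continuous_const.add ((continuous_subtype_val.comp continuous_fst).mul continuous_const))
    · exact ι.continuous.comp (j.continuous.comp continuous_snd)
  obtain ⟨e1, he1⟩ : ∃ e1 : C(X, Geo (capK 3 (1 / 4 + ε) hc)), ∀ x, e1 x = H1 (1, x) :=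
    ⟨H1.comp ⟨fun x => ((1 : unitInterval), x), continuous_const.prodMk continuous_id⟩, fun x => rfl⟩
  obtain ⟨f, hf⟩ : ∃ f : C(X, Geo (capK 3 (1 / 4 + ε) hc)), ∀ x, f x = H2 (1, x) :=
    ⟨H2.comp ⟨fun x => ((1 : unitInterval), x), continuous_const.prodMk continuous_id⟩, fun x => rfl⟩
  have hp1 : p.Homotopic e1 := by
    refine hom_of H1 p e1 (fun x => ?_) (fun x => (he1 x).symm)
    apply Subtype.ext
    rw [hH1]
    have h1 : (min ‖L (dW x)‖ (s / 2 + ((0 : unitInterval) : ℝ) * (s / 2))) ≤ s / 2 := by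
      refine (min_le_right _ _).trans ?_
      rw [Set.Icc.coe_zero, zero_mul, add_zero]
    rw [hΦ1 _ h1]
    change yp (ι (j x)) = _
    rw [(hι _).1, (hj x).1]
  have hp2 : e1.Homotopic f := by
    refine hom_of H2 e1 f (fun x => ?_) (fun x => (hf x).symm)
    rw [he1, hH1]
    rcases le_or_gt (‖L (dW x)‖) s with h1 | h1
    · rw [hH2a (0, x) h1, hφ2]
      congr 1
      apply Subtype.ext
      refine Prod.ext ?_ ?_
      · change ‖L (dW x)‖ = min ‖L (dW x)‖ (s / 2 + ((1 : unitInterval) : ℝ) * (s / 2))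
        rw [Set.Icc.coe_one, one_mul, add_halves, min_eq_left h1]
      · change k (0, ⟨j x, hjS x h1⟩) = ι (j x)
        apply hY6'
        · rw [(hk0 _).1, (hι _).1]
        · rw [(hk0 _).2, (hι _).2]
    · rw [hH2b (0, x) h1.le]
      symm
      refine hΦ2 _ ?_
      change s ≤ min ‖L (dW x)‖ (s / 2 + ((1 : unitInterval) : ℝ) * (s / 2))
      rw [Set.Icc.coe_one, one_mul, add_halves]
      exact le_min h1.le le_rfl
  obtain ⟨g, hg⟩ : ∃ g : C({z : X // ‖D z‖ ≤ 1}, RSq), ∀ z, g z = g₀ ⟨j z.1, hjS _ (hD1 _ z.2)⟩ :=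
    ⟨g₀.comp ⟨fun z => ⟨j z.1, hjS _ (hD1 _ z.2)⟩, (j.continuous.comp continuous_subtype_val).subtype_mk _⟩,
      fun z => rfl⟩
  refine ⟨J, D, g, f, fun x d hd => hJb (x, d) hd, fun z h => ?_, fun z h => ?_, hFp.trans (hp1.trans hp2)⟩
  · rw [hf, hH2a (1, z) (hD1 z h), hφ2, hJa (g ⟨z, h⟩, D z) h, hφJ]
    congr 1
    apply Subtype.ext
    refine Prod.ext ?_ ?_
    · change ‖L (dW z)‖ = s * ‖D z‖
      rw [hDn]
    · change k (1, ⟨j z, hjS z (hD1 z h)⟩) =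
        md (g ⟨z, h⟩, ⟨(L.symm (s • D z)).1, (L.symm (s • D z)).2, hwd1 _ h⟩)
      rw [hk1 ⟨j z, hjS z (hD1 z h)⟩ (hW (j z)), hg]
      congr 1
      refine Prod.ext rfl ?_
      apply Subtype.ext
      change Dz (j z) = (L.symm (s • D z)).1
      rw [hD, smul_smul, mul_inv_cancel₀ hspos.ne', one_smul, ContinuousLinearEquiv.symm_apply_apply, hdW1]
  · rw [hf, hH2b (1, z) (hD2 z h)]

end NFAux

open NFAux in
theorem pNF : SCrd → SCpt → SHom → SCut → SDim → SMo → SYT → SLoc → SHB → SFar → SPhi → SNF := by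
  intro hCrd hCpt hHom hCut hDim hMo hYT hLoc hHB hFar hPhi
  obtain ⟨L, κ₁, κ₂, hκ₁, hκ₂, hL1, hL2⟩ := lam hDim
  obtain ⟨κ', ε₁, hε₁, hloc⟩ := hLoc (164 * κ₁ * κ₂) (by
    have h1 : 0 < κ₁ := by linarith
    have h2 : 0 < κ₂ := by linarith
    positivity)
  obtain ⟨ε₂, hε₂, hfar⟩ := hFar
  have h9 : (0 : ℝ) < 1 / (900 * κ' ^ 2 + 1) := by positivity
  refine ⟨min (min ε₁ ε₂) (1 / (900 * κ' ^ 2 + 1)), lt_min (lt_min hε₁ hε₂) h9, ?_⟩
  intro c hc hc1 hc2 i F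
  obtain ⟨ε, rfl⟩ : ∃ ε, c = 1 / 4 + ε := ⟨c - 1 / 4, by ring⟩
  have hε0 : 0 < ε := by linarith
  have hε3 : ε < min (min ε₁ ε₂) (1 / (900 * κ' ^ 2 + 1)) := by linarith
  have hl := hloc ε hε0 (hε3.trans_le ((min_le_left _ _).trans (min_le_left _ _)))
  obtain ⟨k₀, hk₀⟩ := hfar ε hc hε0 (hε3.trans_le ((min_le_left _ _).trans (min_le_right _ _)))
  obtain ⟨J, D, g, f, h1, h2, h3, h4⟩ := core hCrd hCpt hHom hCut hMo hYT hHB hPhi L κ₁ κ₂ κ' ε hκ₁ hκ₂ hL1 hL2 hl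
    (sqrt_bound hl.2.2.1 hε0 (hε3.trans_le (min_le_right _ _))) hc k₀ hk₀ (CSph (i + 1)) F
  exact ⟨k₀, J, D, g, f, h1, h2, h3, h4⟩

end Pool.Agent.MPaafd8a
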