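import Pool.Agent.Lib.MP_aafd8a_gt_D.SpecB

/-!
# MP_aafd8a_gt, module NetV: nets for vectors (`SNetV`, from `SNet`)
-/

set_option autoImplicit false

open Topology RealInnerProductSpace Filter

namespace Pool.Agent.MPaafd8a

namespace NetVAux

/-- The direction of `z`. -/
noncomputable def dir (z : {z : Eu 3 // z ≠ 0}) : Sph 3 :=
  ⟨‖z.1‖⁻¹ • z.1, by
    rw [mem_sphere_zero_iff_norm, norm_smul, norm_inv, norm_norm]
    exact inv_mul_cancel₀ (norm_ne_zero_iff.2 z.2)⟩

theorem dir_cont : Continuous dir := by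
  have h1 : Continuous (fun z : {z : Eu 3 // z ≠ 0} => ‖z.1‖) := continuous_norm.comp continuous_subtype_val
  have h2 : Continuous (fun z : {z : Eu 3 // z ≠ 0} => ‖z.1‖⁻¹) := h1.inv₀ (fun z => norm_ne_zero_iff.2 z.2)
  exact (h2.smul continuous_subtype_val).subtype_mk _

/-- The weight as a function of the vector. -/
noncomputable def P (χ : Sph 3 → ℝ) (z : Eu 3) : ℝ := by
  classical
  exact if h : z = 0 then 0 else min 1 (2 * ‖z‖) * χ (dir ⟨z, h⟩)

theorem P_zero (χ : Sph 3 → ℝ) : P χ (0 : Eu 3) = 0 := by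
  unfold P
  rw [dif_pos rfl]

theorem P_ne (χ : Sph 3 → ℝ) {z : Eu 3} (h : z ≠ 0) : P χ z = min 1 (2 * ‖z‖) * χ (dir ⟨z, h⟩) := by
  unfold P
  rw [dif_neg h]

theorem min_nonneg (z : Eu 3) : 0 ≤ min 1 (2 * ‖z‖) := le_min zero_le_one (by positivity)

theorem P_nonneg (χ : Sph 3 → ℝ) (h0 : ∀ v, 0 ≤ χ v) (z : Eu 3) : 0 ≤ P χ z := by
  by_cases h : z = 0
  · rw [h, P_zero]
  · rw [P_ne χ h]
    exact mul_nonneg (min_nonneg z) (h0 _)

theorem P_le (χ : Sph 3 → ℝ) (h1 : ∀ v, χ v ≤ 1) (z : Eu 3) : P χ z ≤ min 1 (2 * ‖z‖) := by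
  by_cases h : z = 0
  · rw [h, P_zero]
    exact min_nonneg _
  · rw [P_ne χ h]
    exact mul_le_of_le_one_right (min_nonneg z) (h1 _)

theorem P_cont (χ : Sph 3 → ℝ) (hc : Continuous χ) (h0 : ∀ v, 0 ≤ χ v) (h1 : ∀ v, χ v ≤ 1) :
    Continuous (P χ) := by
  rw [continuous_iff_continuousAt]
  intro z
  by_cases h : z = 0
  · subst h
    unfold ContinuousAt
    rw [P_zero]
    have hg : Tendsto (fun z : Eu 3 => min 1 (2 * ‖z‖)) (𝓝 0) (𝓝 0) := by
      have h2 : Continuous (fun z : Eu 3 => min 1 (2 * ‖z‖)) :=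
        continuous_const.min (continuous_const.mul continuous_norm)
      have h3 := h2.tendsto (0 : Eu 3)
      rw [norm_zero, mul_zero, min_eq_right (zero_le_one (α := ℝ))] at h3
      exact h3
    exact squeeze_zero (P_nonneg χ h0) (P_le χ h1) hg
  · have h2 : ContinuousOn (P χ) {z : Eu 3 | z ≠ 0} := by
      rw [continuousOn_iff_continuous_domRestrict]
      have h3 : ({z : Eu 3 | z ≠ 0}.domRestrict (P χ)) =
          fun z : {z : Eu 3 // z ≠ 0} => min 1 (2 * ‖z.1‖) * χ (dir z) := by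
        funext z
        exact P_ne χ z.2
      rw [h3]
      exact (continuous_const.min (continuous_const.mul (continuous_norm.comp continuous_subtype_val))).mul
        (hc.comp dir_cont)
    exact h2.continuousAt (isOpen_ne.mem_nhds h)

end NetVAux

open NetVAux in
theorem pNetV : SNet → SNetV := by
  intro hN ρ hρ
  obtain ⟨B, hB, u, χ, hc, h0, hs, hd⟩ := hN 3 ρ hρ
  have hle : ∀ b v, χ b v ≤ 1 := by
    intro b v
    rw [← hs v]
    exact Finset.single_le_sum (f := fun b => χ b v) (fun b _ => h0 b v) (Finset.mem_univ b)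
  refine ⟨B, hB, u, fun b => P (χ b), fun b => P_cont _ (hc b) (h0 b) (hle b),
    fun b z => P_nonneg _ (h0 b) z, ?_, ?_⟩
  · intro z hz
    have hz0 : z ≠ 0 := by
      rintro rfl
      rw [norm_zero] at hz
      linarith
    have h1 : ∀ b, P (χ b) z = χ b (dir ⟨z, hz0⟩) := by
      intro b
      rw [P_ne _ hz0, min_eq_left (by linarith), one_mul]
    rw [Finset.sum_congr rfl fun b _ => h1 b]
    exact hs _
  · intro b z hz hpos
    have hz0 : z ≠ 0 := by
      rintro rfl
      rw [norm_zero] at hz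
      linarith
    have hpos' : 0 < P (χ b) z := hpos
    rw [P_ne _ hz0, min_eq_left (by linarith), one_mul] at hpos'
    have h1 := hd b _ hpos'
    rw [Subtype.dist_eq, dist_eq_norm] at h1
    exact h1

end Pool.Agent.MPaafd8a
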