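import Pool.Agent.Lib.MP_aafd8a_gt_D.SpecC
import Pool.Agent.Lib.MP_aafd8a_gt.StepD

/-! # MP_aafd8a_gt, block (A-i): one step down for pairs (`pPStep`) -/

set_option autoImplicit false

open Topology RealInnerProductSpace Filter

namespace Pool.Agent.MPaafd8a

namespace PStepAux

open StepX

theorem c23 : c2 3 = 1 / 4 := by
  unfold c2
  norm_num

theorem dm_fst (p q : Sph 3 →₀ ℝ) : ‖bar p - bar q‖ ≤ ‖Dm 1 p q‖ := norm_fst_le (Dm 1 p q)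

theorem dm_snd (p q : Sph 3 →₀ ℝ) : ‖mo p - mo q‖ ≤ ‖Dm 1 p q‖ := by
  have h1 := norm_snd_le (Dm 1 p q)
  have h2 : (Dm 1 p q).2 = mo p - mo q := one_smul ℝ _
  rwa [h2] at h1

theorem dm_le (hMo : SMo) {p q : Sph 3 →₀ ℝ} (hp : Pw p) (hq : Pw q) : ‖Dm 1 p q‖ ≤ 2 := by
  obtain ⟨-, b1, b2, -⟩ := hMo 3 p p hp hp
  obtain ⟨-, b3, b4, -⟩ := hMo 3 q q hq hq
  have h1 := norm_sub_le (bar p) (bar q)
  have h2 := norm_sub_le (mo p) (mo q)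
  have h3 : Dm 1 p q = (bar p - bar q, mo p - mo q) := by
    unfold Dm
    rw [one_smul]
  rw [h3, Prod.norm_mk]
  exact max_le (by linarith) (by linarith)

theorem xi_le {c : ℝ} (hc : 1 / 4 ≤ c) (p q : Sph 3 →₀ ℝ) (z : Sph 3) :
    ‖xi c p q (z : Eu 3)‖ ≤ 5 * ‖Dm 1 p q‖ := by
  have h1 : ‖(mo p - mo q) (z : Eu 3)‖ ≤ ‖Dm 1 p q‖ := by
    have h2 := (mo p - mo q).le_opNorm (z : Eu 3)
    rw [nv, mul_one] at h2
    exact h2.trans (dm_snd p q)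
  have h3 := dm_fst p q
  have h0 := norm_nonneg (Dm 1 p q)
  have e3 : 1 / c ≤ 4 := by
    rw [div_le_iff₀ (by linarith)]
    linarith
  have e4 : (1 - c2 3) / (1 + c) ≤ 3 / 5 := by
    rw [c23, div_le_iff₀ (by linarith)]
    linarith
  have e5 : 0 ≤ (1 - c2 3) / (1 + c) := div_nonneg (by rw [c23]; norm_num) (by linarith)
  unfold xi
  refine (norm_add_le _ _).trans ?_
  rw [norm_smul, norm_smul, Real.norm_eq_abs, Real.norm_eq_abs, abs_of_nonneg e5,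
    abs_of_nonneg (by positivity : (0 : ℝ) ≤ 1 / c)]
  have e6 : 1 / c * ‖(mo p - mo q) (z : Eu 3)‖ ≤ 4 * ‖Dm 1 p q‖ := mul_le_mul e3 h1 (norm_nonneg _) (by norm_num)
  have e7 : (1 - c2 3) / (1 + c) * ‖bar p - bar q‖ ≤ 3 / 5 * ‖Dm 1 p q‖ :=
    mul_le_mul e4 h3 (norm_nonneg _) (by norm_num)
  linarith

theorem gq_lip (p q : Sph 3 →₀ ℝ) (z z' : Sph 3) :
    gq p q z - gq p q z' ≤ 11 / 4 * ‖Dm 1 p q‖ * ‖(z : Eu 3) - z'‖ := by
  obtain ⟨S, hS⟩ : ∃ S, S = mo p - mo q := ⟨_, rfl⟩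
  obtain ⟨a, ha⟩ : ∃ a, a = bar p - bar q := ⟨_, rfl⟩
  have hSn := dm_snd p q
  have han := dm_fst p q
  unfold gq
  rw [c23]
  rw [← hS] at hSn ⊢
  rw [← ha] at han ⊢
  have h1 : ⟪S (z : Eu 3), (z : Eu 3)⟫ - ⟪S (z' : Eu 3), (z' : Eu 3)⟫ =
      ⟪S ((z : Eu 3) - z'), (z : Eu 3)⟫ + ⟪S (z' : Eu 3), (z : Eu 3) - z'⟫ := by
    rw [map_sub, inner_sub_left, inner_sub_right]
    ring
  have h2 : ⟪S ((z : Eu 3) - z'), (z : Eu 3)⟫ ≤ ‖Dm 1 p q‖ * ‖(z : Eu 3) - z'‖ := by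
    refine (real_inner_le_norm _ _).trans ?_
    rw [nv, mul_one]
    exact (S.le_opNorm _).trans (mul_le_mul_of_nonneg_right hSn (norm_nonneg _))
  have h3 : ⟪S (z' : Eu 3), (z : Eu 3) - z'⟫ ≤ ‖Dm 1 p q‖ * ‖(z : Eu 3) - z'‖ := by
    refine (real_inner_le_norm _ _).trans ?_
    have h4 := S.le_opNorm (z' : Eu 3)
    rw [nv, mul_one] at h4
    exact mul_le_mul_of_nonneg_right (h4.trans hSn) (norm_nonneg _)
  have h5 : ⟪a, (z : Eu 3)⟫ - ⟪a, (z' : Eu 3)⟫ ≤ ‖Dm 1 p q‖ * ‖(z : Eu 3) - z'‖ := by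
    rw [← inner_sub_right]
    refine (real_inner_le_norm _ _).trans ?_
    exact mul_le_mul_of_nonneg_right han (norm_nonneg _)
  linarith

theorem mv_le {v w : Sph 3} {ξ : Eu 3} (hw : (w : Eu 3) = ‖(v : Eu 3) + ξ‖⁻¹ • ((v : Eu 3) + ξ))
    (h : ‖(v : Eu 3) + ξ‖ ≠ 0) : ‖(w : Eu 3) - v‖ ≤ 2 * ‖ξ‖ := by
  have e1 : (w : Eu 3) - v = (‖(v : Eu 3) + ξ‖⁻¹ - 1) • ((v : Eu 3) + ξ) + ξ := by
    rw [hw, sub_smul, one_smul]
    abel
  have e2 : ‖(‖(v : Eu 3) + ξ‖⁻¹ - 1) • ((v : Eu 3) + ξ)‖ ≤ ‖ξ‖ := by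
    rw [norm_smul, Real.norm_eq_abs]
    have e3 : |‖(v : Eu 3) + ξ‖⁻¹ - 1| * ‖(v : Eu 3) + ξ‖ = |1 - ‖(v : Eu 3) + ξ‖| := by
      rw [← abs_of_nonneg (norm_nonneg ((v : Eu 3) + ξ)), ← abs_mul, abs_of_nonneg (norm_nonneg ((v : Eu 3) + ξ)),
        sub_mul, inv_mul_cancel₀ h, one_mul]
    rw [e3]
    have e4 := abs_norm_sub_norm_le (v : Eu 3) ((v : Eu 3) + ξ)
    rw [nv, sub_add_cancel_left, norm_neg] at e4
    exact e4
  rw [e1]
  refine (norm_add_le _ _).trans ?_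
  linarith

theorem ip_dist {a b : Sph 3} (y : Sph 3) {r : ℝ} (h : dist a b < r) :
    ⟪(a : Eu 3), (y : Eu 3)⟫ < ⟪(b : Eu 3), (y : Eu 3)⟫ + r := by
  have e1 : ⟪(a : Eu 3), (y : Eu 3)⟫ = ⟪(b : Eu 3), (y : Eu 3)⟫ + ⟪(a : Eu 3) - b, (y : Eu 3)⟫ := by
    rw [inner_sub_left]
    ring
  have e2 := real_inner_le_norm ((a : Eu 3) - b) (y : Eu 3)
  rw [nv, mul_one, ← dist_eq_norm] at e2
  have e3 : dist (a : Eu 3) (b : Eu 3) = dist a b := rfl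
  linarith

/-- The estimate for one pair of points. -/
theorem pairP (hMo : SMo) (hPt : SPt) {ε c : ℝ} (hε : 0 < ε) (hε' : ε ≤ 1 / 1000) (hc : c = 1 / 4 + ε)
    {p q : Sph 3 →₀ ℝ} (hp : Pw p) (hq : Pw q) {η₀ : ℝ} (hη : 0 ≤ η₀) {v y : Sph 3}
    (hvy : ⟪(v : Eu 3), (y : Eu 3)⟫ ≤ c - η₀) (hk : 9 / 16 * ‖Dm 1 p q‖ ^ 2 ≤ gq p q v - gq p q y) {s : ℝ}
    (hs : 0 ≤ s) (hs' : s ≤ 1 / 200) :
    1 / 2 ≤ ‖(v : Eu 3) + s • xi c p q (v : Eu 3)‖ ∧ 1 / 2 ≤ ‖(y : Eu 3) - s • xi c p q (y : Eu 3)‖ ∧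
    ∀ w r : Sph 3, (w : Eu 3) = ‖(v : Eu 3) + s • xi c p q (v : Eu 3)‖⁻¹ • ((v : Eu 3) + s • xi c p q (v : Eu 3)) →
      (r : Eu 3) = ‖(y : Eu 3) - s • xi c p q (y : Eu 3)‖⁻¹ • ((y : Eu 3) - s • xi c p q (y : Eu 3)) →
      ⟪(w : Eu 3), (r : Eu 3)⟫ ≤ c - 4 / 9 * (η₀ + 5 / 16 * s * ‖Dm 1 p q‖ ^ 2) := by
  have hcpos : 0 < c := by rw [hc]; linarith
  have hc4 : 1 / 4 ≤ c := by rw [hc]; linarith
  have h0 := norm_nonneg (Dm 1 p q)
  have h2 := dm_le hMo hp hq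
  have hxv := xi_le hc4 p q v
  have hxy := xi_le hc4 p q y
  have hsC : s * (5 * ‖Dm 1 p q‖) ≤ 1 / 2 := by
    have e1 : s * (5 * ‖Dm 1 p q‖) ≤ 1 / 200 * (5 * 2) :=
      mul_le_mul hs' (by linarith) (by positivity) (by norm_num)
    linarith
  have e5 : s * (9 / 16 * ‖Dm 1 p q‖ ^ 2) ≤ s * (gq p q v - gq p q y) := mul_le_mul_of_nonneg_left hk hs
  have e6 : 2 * s ^ 2 * (5 * ‖Dm 1 p q‖) ^ 2 ≤ s * (1 / 4 * ‖Dm 1 p q‖ ^ 2) := by
    have e7 : s * (s * ‖Dm 1 p q‖ ^ 2) ≤ 1 / 200 * (s * ‖Dm 1 p q‖ ^ 2) :=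
      mul_le_mul_of_nonneg_right hs' (by positivity)
    have e8 : 2 * s ^ 2 * (5 * ‖Dm 1 p q‖) ^ 2 = 50 * (s * (s * ‖Dm 1 p q‖ ^ 2)) := by ring
    rw [e8]
    linarith
  obtain ⟨p1, p2, p3⟩ := hPt 3 v y (xi c p q (v : Eu 3)) (xi c p q (y : Eu 3)) c (5 * ‖Dm 1 p q‖) s
    (η₀ + 5 / 16 * s * ‖Dm 1 p q‖ ^ 2) hcpos.le (by rw [hc]; linarith) hxv hxy hs hsC (by positivity) (by
      rw [xi_kappa hMo hcpos hp hq]
      have e9 : s * (9 / 16 * ‖Dm 1 p q‖ ^ 2) - s * (1 / 4 * ‖Dm 1 p q‖ ^ 2) = 5 / 16 * s * ‖Dm 1 p q‖ ^ 2 := by ring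
      linarith)
  refine ⟨p1, p2, fun w r hw hr => ?_⟩
  rw [hw, hr, real_inner_smul_left, real_inner_smul_right]
  obtain ⟨N1, hN1⟩ : ∃ N, N = ‖(v : Eu 3) + s • xi c p q (v : Eu 3)‖ := ⟨_, rfl⟩
  obtain ⟨N2, hN2⟩ : ∃ N, N = ‖(y : Eu 3) - s • xi c p q (y : Eu 3)‖ := ⟨_, rfl⟩
  rw [← hN1] at p1 p3 ⊢
  rw [← hN2] at p2 p3 ⊢
  have hN1p : 0 < N1 := by linarith
  have hN2p : 0 < N2 := by linarith
  have e8 : N1⁻¹ * (N2⁻¹ * ⟪(v : Eu 3) + s • xi c p q (v : Eu 3), (y : Eu 3) - s • xi c p q (y : Eu 3)⟫)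
      = ⟪(v : Eu 3) + s • xi c p q (v : Eu 3), (y : Eu 3) - s • xi c p q (y : Eu 3)⟫ / (N1 * N2) := by
    field_simp
  rw [e8, div_le_iff₀ (mul_pos hN1p hN2p)]
  exact p3

theorem pos_of_mul {a b : ℝ} (ha : 0 ≤ a) (hb : 0 ≤ b) (h : 0 < a * b) : 0 < a ∧ 0 < b := by
  constructor
  · by_contra hn
    rw [le_antisymm (not_lt.1 hn) ha, zero_mul] at h
    exact lt_irrefl _ h
  · by_contra hn
    rw [le_antisymm (not_lt.1 hn) hb, mul_zero] at h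
    exact lt_irrefl _ h

theorem exists_chi {B : Type} [Fintype B] {χ : B → Sph 3 → ℝ} (χ1 : ∀ v, ∑ b, χ b v = 1) (v : Sph 3) :
    ∃ b, 0 < χ b v := by
  by_contra hno
  push Not at hno
  have e2 := Finset.sum_nonpos (s := Finset.univ) fun b _ => hno b
  rw [χ1] at e2
  exact absurd e2 (not_le.2 one_pos)

end PStepAux

open StepX PStepAux

theorem pPStep : SCrd → SCpt → SHom → SMk → SNet → SSub → SMo → SPt → SIp → SPStep := by
  intro hCrd hCpt hHom hMk hNet hSub hMo hPt hIp ε hc h' hε hε' X _ _ p q hpq hbig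
  classical
  obtain ⟨c, hcc⟩ : ∃ c : ℝ, c = 1 / 4 + ε := ⟨_, rfl⟩
  -- finite supports and the margin
  obtain ⟨T₁, hT₁⟩ := hCpt _ _ _ (isCompact_range p.continuous)
  obtain ⟨T₂, hT₂⟩ := hCpt _ _ _ (isCompact_range q.continuous)
  obtain ⟨T, hT⟩ : ∃ T : Finset (Sph 3), T = T₁ ∪ T₂ := ⟨_, rfl⟩
  have hpT : ∀ x, (p x).1.support ⊆ T := fun x => by
    rw [hT]
    exact (hT₁ _ (Set.mem_range_self x)).trans Finset.subset_union_left
  have hqT : ∀ x, (q x).1.support ⊆ T := fun x => by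
    rw [hT]
    exact (hT₂ _ (Set.mem_range_self x)).trans Finset.subset_union_right
  obtain ⟨η₀, hη₀, hη₀'⟩ := margin (T ×ˢ T) (fun a : Sph 3 × Sph 3 => c - ⟪(a.1 : Eu 3), (a.2 : Eu 3)⟫)
  have hpair : ∀ x, ∀ v y : Sph 3, 0 < (p x).1 v → 0 < (q x).1 y → ⟪(v : Eu 3), (y : Eu 3)⟫ ≤ c - η₀ := by
    intro x v y hv hy
    have e0 := hpq x v y hv hy
    have e1 := hη₀' (v, y) (Finset.mem_product.2 ⟨hpT x (smem _ hv), hqT x (smem _ hy)⟩)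
      (sub_pos.2 (by rw [hcc]; exact e0))
    change η₀ ≤ c - ⟪(v : Eu 3), (y : Eu 3)⟫ at e1
    linarith
  have hpw : ∀ x, Pw (p x).1 := fun x => pw_of_geo (p x)
  have hqw : ∀ x, Pw (q x).1 := fun x => pw_of_geo (q x)
  -- continuity of the coordinates and moments
  have hpc : ∀ v, Continuous fun x => (p x).1 v := fun v => (hCrd _ _ v).comp p.continuous
  have hqc : ∀ v, Continuous fun x => (q x).1 v := fun v => (hCrd _ _ v).comp q.continuous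
  have hbar : Continuous fun x => bar (p x).1 - bar (q x).1 := (cont_bar hpT hpc).sub (cont_bar hqT hqc)
  have hmo : Continuous fun x => mo (p x).1 - mo (q x).1 := (cont_mo hpT hpc).sub (cont_mo hqT hqc)
  have hclm : Continuous (fun w : (Eu 3 →L[ℝ] Eu 3) × Eu 3 => w.1 w.2) := isBoundedBilinearMap_apply.continuous
  have hmoz : ∀ z : Eu 3, Continuous fun x => (mo (p x).1 - mo (q x).1) z := fun z =>
    hclm.comp (hmo.prodMk continuous_const)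
  obtain ⟨G, hGdef⟩ : ∃ G : X → Sph 3 → ℝ, G = fun x => gq (p x).1 (q x).1 := ⟨_, rfl⟩
  have hGv : ∀ x v, G x v = gq (p x).1 (q x).1 v := fun x v => by rw [hGdef]
  have hG : ∀ v : Sph 3, Continuous fun x => G x v := by
    intro v
    rw [hGdef]
    change Continuous fun x => gq (p x).1 (q x).1 v
    unfold gq
    exact ((hmoz _).inner continuous_const).add (continuous_const.mul (hbar.inner continuous_const))
  have hexp : Continuous fun x => ex (p x).1 (G x) := by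
    have e1 : (fun x => ex (p x).1 (G x)) = fun x => ∑ v ∈ T, (p x).1 v * G x v := funext fun x => ex_eq (hpT x) _
    rw [e1]
    exact continuous_finsetSum _ fun v _ => (hpc v).mul (hG v)
  have hexq : Continuous fun x => ex (q x).1 (G x) := by
    have e1 : (fun x => ex (q x).1 (G x)) = fun x => ∑ v ∈ T, (q x).1 v * G x v := funext fun x => ex_eq (hqT x) _
    rw [e1]
    exact continuous_finsetSum _ fun v _ => (hqc v).mul (hG v)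
  obtain ⟨E, hE⟩ : ∃ E : X → ℝ, E = fun x => ex (p x).1 (G x) - ex (q x).1 (G x) := ⟨_, rfl⟩
  have hEv : ∀ x, E x = ex (p x).1 (G x) - ex (q x).1 (G x) := fun x => by rw [hE]
  have hEc : Continuous E := by
    rw [hE]
    exact hexp.sub hexq
  obtain ⟨D, hD⟩ : ∃ D : X → ℝ, D = fun x => ‖Dm 1 (p x).1 (q x).1‖ := ⟨_, rfl⟩
  have hDv : ∀ x, D x = ‖Dm 1 (p x).1 (q x).1‖ := fun x => by rw [hD]
  have hD0 : ∀ x, 0 < D x := fun x => by
    have e1 := hbig x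
    have e2 : 0 < √ε := Real.sqrt_pos.2 hε
    rw [hDv]
    linarith
  have hD2 : ∀ x, D x ≤ 2 := fun x => by
    rw [hDv]
    exact dm_le hMo (hpw x) (hqw x)
  have hDε : ∀ x, 6400 * ε ≤ D x ^ 2 := fun x => by
    have e1 := hbig x
    rw [← hDv] at e1
    have e2 := Real.sq_sqrt hε.le
    have e3 : (80 * √ε) ^ 2 ≤ D x ^ 2 := pow_le_pow_left₀ (by positivity) e1 2
    have e4 : (80 * √ε) ^ 2 = 6400 * (√ε) ^ 2 := by ring
    rw [e4, e2] at e3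
    exact e3
  have hED : ∀ x, 3 / 4 * D x ^ 2 ≤ E x := fun x => by
    have e1 := hIp.1 (p x).1 (q x).1 (p x).1 (q x).1
    have e2 := hIp.2.2.2.1 (Dm 1 (p x).1 (q x).1)
    rw [hEv, hDv, hGdef]
    change _ ≤ ex (p x).1 (gq (p x).1 (q x).1) - ex (q x).1 (gq (p x).1 (q x).1)
    rw [e1]
    exact e2
  have hE0 : ∀ x, 0 < E x := fun x => by
    have e1 := hED x
    have e2 := hD0 x
    have e3 : 0 < D x ^ 2 := by positivity
    linarith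
  have hcpos : 0 < c := by rw [hcc]; linarith
  have hc4 : 1 / 4 ≤ c := by rw [hcc]; linarith
  have hxi : ∀ v : Sph 3, Continuous fun x => xi c (p x).1 (q x).1 (v : Eu 3) := by
    intro v
    unfold xi
    exact ((hmoz _).const_smul (1 / c)).add (hbar.const_smul ((1 - c2 3) / (1 + c)))
  have hxn : ∀ x (v : Sph 3), ‖xi c (p x).1 (q x).1 (v : Eu 3)‖ ≤ 5 * D x := fun x v => by
    rw [hDv]
    exact xi_le hc4 _ _ v
  obtain ⟨s₀, hs₀⟩ : ∃ s₀ : ℝ, s₀ = 1 / 200 := ⟨_, rfl⟩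
  have hsn : ∀ (s : ℝ) x (v : Sph 3), 0 ≤ s → s ≤ s₀ → ‖s • xi c (p x).1 (q x).1 (v : Eu 3)‖ ≤ 1 / 40 * D x := by
    intro s x v h0 h1
    rw [norm_smul, Real.norm_eq_abs, abs_of_nonneg h0]
    have e1 : s * ‖xi c (p x).1 (q x).1 (v : Eu 3)‖ ≤ 1 / 200 * (5 * D x) :=
      mul_le_mul (by rw [← hs₀]; exact h1) (hxn x v) (norm_nonneg _) (by norm_num)
    linarith
  have hsn2 : ∀ (s : ℝ) x (v : Sph 3), 0 ≤ s → s ≤ s₀ → ‖s • xi c (p x).1 (q x).1 (v : Eu 3)‖ ≤ 1 / 20 := by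
    intro s x v h0 h1
    have e1 := hsn s x v h0 h1
    have e2 := hD2 x
    linarith
  have hnz : ∀ (v : Sph 3) (ξ : Eu 3), ‖ξ‖ ≤ 1 / 20 → (v : Eu 3) + ξ ≠ 0 := by
    intro v ξ h1 h2
    have e2 : (v : Eu 3) = -ξ := eq_neg_of_add_eq_zero_left h2
    have e3 := congrArg norm e2
    rw [nv, norm_neg] at e3
    linarith
  have hnz' : ∀ (v : Sph 3) (ξ : Eu 3), ‖ξ‖ ≤ 1 / 20 → (v : Eu 3) - ξ ≠ 0 := by
    intro v ξ h1 h2
    refine hnz v (-ξ) (by rw [norm_neg]; exact h1) ?_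
    rw [← sub_eq_add_neg]
    exact h2
  have hts : ∀ t : unitInterval, 0 ≤ (t : ℝ) * s₀ ∧ (t : ℝ) * s₀ ≤ s₀ := by
    intro t
    have e1 := t.2.1
    have e2 := t.2.2
    rw [hs₀]
    constructor
    · positivity
    · linarith
  -- the moving points
  have hPtE : ∀ v : Sph 3, ∃ F : unitInterval × X → Sph 3, Continuous F ∧ ∀ a, (F a : Eu 3)
      = ‖(v : Eu 3) + ((a.1 : ℝ) * s₀) • xi c (p a.2).1 (q a.2).1 (v : Eu 3)‖⁻¹
        • ((v : Eu 3) + ((a.1 : ℝ) * s₀) • xi c (p a.2).1 (q a.2).1 (v : Eu 3)) := by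
    intro v
    refine mkSph (fun a : unitInterval × X => (v : Eu 3) + ((a.1 : ℝ) * s₀) • xi c (p a.2).1 (q a.2).1 (v : Eu 3)) ?_ ?_
    · have e0 : Continuous fun a : unitInterval × X => (a.1 : ℝ) * s₀ :=
        (continuous_subtype_val.comp continuous_fst).mul continuous_const
      exact continuous_const.add (e0.smul ((hxi v).comp continuous_snd))
    · intro a
      exact hnz v _ (hsn2 _ _ v (hts a.1).1 (hts a.1).2)
  choose Pt hPtc hPtv using hPtE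
  have hRtE : ∀ v : Sph 3, ∃ F : unitInterval × X → Sph 3, Continuous F ∧ ∀ a, (F a : Eu 3)
      = ‖(v : Eu 3) - ((a.1 : ℝ) * s₀) • xi c (p a.2).1 (q a.2).1 (v : Eu 3)‖⁻¹
        • ((v : Eu 3) - ((a.1 : ℝ) * s₀) • xi c (p a.2).1 (q a.2).1 (v : Eu 3)) := by
    intro v
    refine mkSph (fun a : unitInterval × X => (v : Eu 3) - ((a.1 : ℝ) * s₀) • xi c (p a.2).1 (q a.2).1 (v : Eu 3)) ?_ ?_
    · have e0 : Continuous fun a : unitInterval × X => (a.1 : ℝ) * s₀ :=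
        (continuous_subtype_val.comp continuous_fst).mul continuous_const
      exact continuous_const.sub (e0.smul ((hxi v).comp continuous_snd))
    · intro a
      exact hnz' v _ (hsn2 _ _ v (hts a.1).1 (hts a.1).2)
  choose Rt hRtc hRtv using hRtE
  -- the net
  obtain ⟨ρ, hρ⟩ : ∃ ρ : ℝ, ρ = min (4 / 9 * η₀) (ε / 2) := ⟨_, rfl⟩
  have hρpos : 0 < ρ := by rw [hρ]; exact lt_min (by positivity) (by positivity)
  have hρ1 : ρ ≤ 4 / 9 * η₀ := by rw [hρ]; exact min_le_left _ _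
  have hρ2 : ρ ≤ ε / 2 := by rw [hρ]; exact min_le_right _ _
  obtain ⟨B, hB, u, χ, χc, χ0, χ1, χd⟩ := hNet 3 ρ hρpos
  -- the weights
  obtain ⟨Aw, hAw⟩ : ∃ Aw : Sph 3 → X → ℝ, Aw = fun v x => (p x).1 v * max 0 (G x v - ex (p x).1 (G x) + E x / 8) :=
    ⟨_, rfl⟩
  obtain ⟨Bw, hBw⟩ : ∃ Bw : Sph 3 → X → ℝ, Bw = fun y x => (q x).1 y * max 0 (ex (q x).1 (G x) + E x / 8 - G x y) :=
    ⟨_, rfl⟩
  have hAwc : ∀ v, Continuous (Aw v) := by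
    intro v
    rw [hAw]
    exact (hpc v).mul (continuous_const.max (((hG v).sub hexp).add (hEc.div_const 8)))
  have hBwc : ∀ v, Continuous (Bw v) := by
    intro v
    rw [hBw]
    exact (hqc v).mul (continuous_const.max ((hexq.add (hEc.div_const 8)).sub (hG v)))
  have hAw0 : ∀ v x, 0 ≤ Aw v x := by
    intro v x
    rw [hAw]
    exact mul_nonneg ((p x).2.1 v) (le_max_left _ _)
  have hBw0 : ∀ v x, 0 ≤ Bw v x := by
    intro v x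
    rw [hBw]
    exact mul_nonneg ((q x).2.1 v) (le_max_left _ _)
  have hAwp : ∀ v x, 0 < Aw v x → 0 < (p x).1 v ∧ ex (p x).1 (G x) - E x / 8 < G x v := by
    intro v x h
    rw [hAw] at h
    obtain ⟨h1, h2⟩ := pos_of_mul ((p x).2.1 v) (le_max_left _ _) h
    refine ⟨h1, ?_⟩
    by_contra hn
    rw [max_eq_left (by linarith)] at h2
    exact lt_irrefl _ h2
  have hBwp : ∀ v x, 0 < Bw v x → 0 < (q x).1 v ∧ G x v < ex (q x).1 (G x) + E x / 8 := by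
    intro v x h
    rw [hBw] at h
    obtain ⟨h1, h2⟩ := pos_of_mul ((q x).2.1 v) (le_max_left _ _) h
    refine ⟨h1, ?_⟩
    by_contra hn
    rw [max_eq_left (by linarith)] at h2
    exact lt_irrefl _ h2
  have hAex : ∀ x, ∃ v, v ∈ T ∧ 0 < Aw v x := by
    intro x
    obtain ⟨v, hv, hv'⟩ := ((hMo 3 _ _ (hpw x) (hpw x)).2.2.2.2.2.2.2.1 (G x)).2
    refine ⟨v, hpT x (smem _ hv), ?_⟩
    rw [hAw]
    have := hE0 x
    exact mul_pos hv (lt_max_of_lt_right (by linarith))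
  have hBex : ∀ x, ∃ v, v ∈ T ∧ 0 < Bw v x := by
    intro x
    obtain ⟨v, hv, hv'⟩ := ((hMo 3 _ _ (hqw x) (hqw x)).2.2.2.2.2.2.2.1 (G x)).1
    refine ⟨v, hqT x (smem _ hv), ?_⟩
    rw [hBw]
    have := hE0 x
    exact mul_pos hv (lt_max_of_lt_right (by linarith))
  have hkap : ∀ x v y, 0 < Aw v x → 0 < Bw y x →
      9 / 16 * ‖Dm 1 (p x).1 (q x).1‖ ^ 2 ≤ gq (p x).1 (q x).1 v - gq (p x).1 (q x).1 y := by
    intro x v y hv hy
    have e1 := (hAwp v x hv).2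
    have e2 := (hBwp y x hy).2
    have e3 := hED x
    have e4 := hEv x
    rw [← hGv, ← hGv, ← hDv]
    linarith
  -- the estimate for the moved points
  have hmove : ∀ (t : unitInterval) x v y, 0 < Aw v x → 0 < Bw y x →
      ⟪(Pt v (t, x) : Eu 3), (Rt y (t, x) : Eu 3)⟫ ≤ c - 4 / 9 * (η₀ + 5 / 16 * ((t : ℝ) * s₀) * D x ^ 2) := by
    intro t x v y hv hy
    have e1 := pairP hMo hPt hε hε' hcc (hpw x) (hqw x) hη₀.le (hpair x v y (hAwp v x hv).1 (hBwp y x hy).1)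
      (hkap x v y hv hy) (hts t).1 (by rw [← hs₀]; exact (hts t).2)
    rw [hDv]
    exact e1.2.2 _ _ (hPtv v (t, x)) (hRtv y (t, x))
  have hmove1 : ∀ x v y, 0 < Aw v x → 0 < Bw y x →
      ⟪(Pt v (1, x) : Eu 3), (Rt y (1, x) : Eu 3)⟫ ≤ 1 / 4 - 3 * ε := by
    intro x v y hv hy
    have e1 := hmove 1 x v y hv hy
    have e2 : (((1 : unitInterval) : ℝ)) = 1 := rfl
    rw [e2, one_mul, hs₀] at e1
    have e3 := hDε x
    have e4 : 5 / 16 * (1 / 200) * D x ^ 2 = D x ^ 2 / 640 := by ring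
    rw [e4, hcc] at e1
    linarith
  -- the normalised weights
  obtain ⟨P, Pc, P0, P1, Pp⟩ := normal (X := unitInterval × X) (A := {v // v ∈ T} × B)
    (fun a z => Aw a.1.1 z.2 * χ a.2 (Pt a.1.1 z))
    (fun a => ((hAwc a.1.1).comp continuous_snd).mul ((χc a.2).comp (hPtc a.1.1)))
    (fun a z => mul_nonneg (hAw0 _ _) (χ0 _ _))
    (fun z => by
      obtain ⟨v, hvT, hv⟩ := hAex z.2
      obtain ⟨b, hb⟩ := exists_chi χ1 (Pt v z)
      exact ⟨(⟨v, hvT⟩, b), mul_pos hv hb⟩)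
  have Pp' : ∀ (a : {v // v ∈ T} × B) (z : unitInterval × X), 0 < P a z →
      0 < Aw a.1.1 z.2 ∧ dist (u a.2) (Pt a.1.1 z) < ρ := by
    intro a z h
    obtain ⟨e1, e2⟩ := pos_of_mul (hAw0 _ _) (χ0 _ _) (Pp a z h)
    exact ⟨e1, χd _ _ e2⟩
  obtain ⟨Q, Qc, Q0, Q1, Qp⟩ := normal (X := X) (A := {v // v ∈ T} × B)
    (fun a x => Bw a.1.1 x * χ a.2 (Rt a.1.1 (1, x)))
    (fun a => (hBwc a.1.1).mul ((χc a.2).comp ((hRtc a.1.1).comp (continuous_const.prodMk continuous_id))))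
    (fun a z => mul_nonneg (hBw0 _ _) (χ0 _ _))
    (fun x => by
      obtain ⟨v, hvT, hv⟩ := hBex x
      obtain ⟨b, hb⟩ := exists_chi χ1 (Rt v (1, x))
      exact ⟨(⟨v, hvT⟩, b), mul_pos hv hb⟩)
  have Qp' : ∀ (a : {v // v ∈ T} × B) (x : X), 0 < Q a x →
      0 < Bw a.1.1 x ∧ dist (u a.2) (Rt a.1.1 (1, x)) < ρ := by
    intro a x h
    obtain ⟨e1, e2⟩ := pos_of_mul (hBw0 _ _) (χ0 _ _) (Qp a x h)
    exact ⟨e1, χd _ _ e2⟩
  -- the homotopy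
  obtain ⟨F, hF⟩ := hMk _ (capK 3 (1 / 4 + ε) hc) (unitInterval × X) ({v // v ∈ T} × B) P (fun a => u a.2) Pc P0 P1 (by
    intro z σ hσ hv
    obtain ⟨y, -, hy⟩ := hBex z.2
    refine ⟨hσ, Rt y z, fun w hw => ?_⟩
    obtain ⟨a, ha, rfl⟩ := hv w hw
    obtain ⟨e1, e2⟩ := Pp' a z ha
    have e3 := hmove z.1 z.2 a.1.1 y e1 hy
    have e4 := ip_dist (Rt y z) e2
    have e5 : 0 ≤ 5 / 16 * ((z.1 : ℝ) * s₀) * D z.2 ^ 2 := by
      have := (hts z.1).1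
      positivity
    change ⟪(Pt a.1.1 z : Eu 3), (Rt y z : Eu 3)⟫ ≤ _ at e3
    rw [← hcc]
    linarith)
  obtain ⟨F1, hF1⟩ : ∃ F1 : C(X, Geo (capK 3 (1 / 4 + ε) hc)), ∀ x, F1 x = F (1, x) :=
    ⟨⟨fun x => F (1, x), F.continuous.comp (continuous_const.prodMk continuous_id)⟩, fun x => rfl⟩
  obtain ⟨F0, hF0⟩ : ∃ F0 : C(X, Geo (capK 3 (1 / 4 + ε) hc)), ∀ x, F0 x = F (0, x) :=
    ⟨⟨fun x => F (0, x), F.continuous.comp (continuous_const.prodMk continuous_id)⟩, fun x => rfl⟩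
  have hF1s : ∀ x w, 0 < (F1 x).1 w → ∃ a : {v // v ∈ T} × B, 0 < Aw a.1.1 x ∧ dist (u a.2) (Pt a.1.1 (1, x)) < ρ ∧ u a.2 = w := by
    intro x w hw
    rw [hF1] at hw
    obtain ⟨a, ha, ha'⟩ := hF _ _ hw
    obtain ⟨e1, e2⟩ := Pp' a _ ha
    exact ⟨a, e1, e2, ha'⟩
  obtain ⟨p'', hp''⟩ := hSub _ (capK 3 (1 / 4 + ε) hc) (capK 3 (1 / 4 - ε) h') X F1 (by
    intro x
    obtain ⟨y, -, hy⟩ := hBex x
    refine ⟨support_nonempty_of_sum (F1 x).2.2.1, Rt y (1, x), fun w hw => ?_⟩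
    obtain ⟨a, e1, e2, rfl⟩ := hF1s x w (spos _ hw)
    have e3 := hmove1 x a.1.1 y e1 hy
    have e4 := ip_dist (Rt y (1, x)) e2
    linarith)
  obtain ⟨q'', hq''⟩ := hMk _ (capK 3 (1 / 4 - ε) h') X ({v // v ∈ T} × B) Q (fun a => u a.2) Qc Q0 Q1 (by
    intro x σ hσ hv
    obtain ⟨v, -, hv'⟩ := hAex x
    refine ⟨hσ, Pt v (1, x), fun w hw => ?_⟩
    obtain ⟨a, ha, rfl⟩ := hv w hw
    obtain ⟨e1, e2⟩ := Qp' a x ha
    have e3 := hmove1 x v a.1.1 hv' e1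
    have e4 := ip_dist (Pt v (1, x)) e2
    rw [real_inner_comm (Pt v (1, x) : Eu 3) (Rt a.1.1 (1, x) : Eu 3)] at e4
    linarith)
  have hp''s : ∀ x w, 0 < (p'' x).1 w → ∃ a : {v // v ∈ T} × B, 0 < Aw a.1.1 x ∧ dist (u a.2) (Pt a.1.1 (1, x)) < ρ ∧ u a.2 = w := by
    intro x w hw
    rw [hp''] at hw
    exact hF1s x w hw
  have hq''s : ∀ x w, 0 < (q'' x).1 w → ∃ a : {v // v ∈ T} × B, 0 < Bw a.1.1 x ∧ dist (u a.2) (Rt a.1.1 (1, x)) < ρ ∧ u a.2 = w := by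
    intro x w hw
    obtain ⟨a, ha, ha'⟩ := hq'' x w hw
    obtain ⟨e1, e2⟩ := Qp' a _ ha
    exact ⟨a, e1, e2, ha'⟩
  refine ⟨p'', q'', F1, fun x v w hv hw => ?_, fun x => (hp'' x).symm, ?_, fun x => ?_⟩
  · -- compatibility
    obtain ⟨a, a1, a2, rfl⟩ := hp''s x v hv
    obtain ⟨b, b1, b2, rfl⟩ := hq''s x w hw
    have e1 := ip_dist (u b.2) a2
    have e2 := ip_dist (Pt a.1.1 (1, x)) b2
    rw [real_inner_comm (Pt a.1.1 (1, x) : Eu 3) (u b.2 : Eu 3),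
      real_inner_comm (Pt a.1.1 (1, x) : Eu 3) (Rt b.1.1 (1, x) : Eu 3)] at e2
    have e3 := hmove1 x a.1.1 b.1.1 a1 b1
    linarith
  · -- homotopies
    have H2 : p.Homotopic F0 := by
      refine hHom _ _ _ p F0 fun x σ hσ hv => ?_
      obtain ⟨y, -, hy⟩ := hBex x
      have hy' := (hBwp y x hy).1
      refine ⟨hσ, y, fun w hw => ?_⟩
      rcases hv w hw with h | h
      · have := hpair x w y h hy'
        rw [← hcc]
        linarith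
      · rw [hF0] at h
        obtain ⟨a, ha, rfl⟩ := hF _ _ h
        obtain ⟨e1, e2⟩ := Pp' a _ ha
        obtain ⟨e3, -⟩ := hAwp _ _ e1
        have e4 : (Pt a.1.1 ((0 : unitInterval), x) : Eu 3) = (a.1.1 : Eu 3) := by
          rw [hPtv]
          have e5 : (((0 : unitInterval) : ℝ)) = 0 := rfl
          change ‖(a.1.1 : Eu 3) + (((0 : unitInterval) : ℝ) * s₀) • xi c (p x).1 (q x).1 (a.1.1 : Eu 3)‖⁻¹
            • ((a.1.1 : Eu 3) + (((0 : unitInterval) : ℝ) * s₀) • xi c (p x).1 (q x).1 (a.1.1 : Eu 3)) = _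
          rw [e5, zero_mul, zero_smul, add_zero, nv, inv_one, one_smul]
        have e6 : Pt a.1.1 ((0 : unitInterval), x) = a.1.1 := Subtype.ext e4
        rw [e6] at e2
        have e7 := ip_dist y e2
        have e8 := hpair x a.1.1 y e3 hy'
        rw [← hcc]
        linarith
    have H3 : F0.Homotopic F1 := ⟨⟨F, fun x => (hF0 x).symm, fun x => (hF1 x).symm⟩⟩
    exact H2.trans H3
  · -- the moments
    have e1 := hIp.1 (p x).1 (q x).1 (p'' x).1 (q'' x).1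
    rw [← e1]
    have e0 : gq (p x).1 (q x).1 = G x := by rw [hGdef]
    rw [e0]
    obtain ⟨v, hv, hv'⟩ := ((hMo 3 _ _ (pw_of_geo (p'' x)) (pw_of_geo (p'' x))).2.2.2.2.2.2.2.1 (G x)).1
    obtain ⟨y, hy, hy'⟩ := ((hMo 3 _ _ (pw_of_geo (q'' x)) (pw_of_geo (q'' x))).2.2.2.2.2.2.2.1 (G x)).2
    obtain ⟨a, a1, a2, rfl⟩ := hp''s x v hv
    obtain ⟨b, b1, b2, rfl⟩ := hq''s x y hy
    have e2 := (hAwp _ _ a1).2
    have e3 := (hBwp _ _ b1).2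
    have e4 := hED x
    have e5 := hEv x
    have e6 := hDε x
    have e7 := hD0 x
    have e8 := hD2 x
    have hone : (((1 : unitInterval) : ℝ)) = 1 := rfl
    have d1 : ‖(a.1.1 : Eu 3) - (u a.2 : Eu 3)‖ ≤ ρ + 1 / 20 * D x := by
      have f1 : ‖(Pt a.1.1 (1, x) : Eu 3) - (a.1.1 : Eu 3)‖ ≤
          2 * ‖(((1 : unitInterval) : ℝ) * s₀) • xi c (p x).1 (q x).1 (a.1.1 : Eu 3)‖ :=
        mv_le (hPtv a.1.1 (1, x)) (norm_ne_zero_iff.2 (hnz _ _ (hsn2 _ _ _ (hts 1).1 (hts 1).2)))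
      have f2 := hsn _ x a.1.1 (hts 1).1 (hts 1).2
      have f3 : ‖(u a.2 : Eu 3) - (Pt a.1.1 (1, x) : Eu 3)‖ < ρ := by
        rw [← dist_eq_norm]
        exact a2
      have f4 : (a.1.1 : Eu 3) - (u a.2 : Eu 3) = -(((u a.2 : Eu 3) - (Pt a.1.1 (1, x) : Eu 3)) +
          ((Pt a.1.1 (1, x) : Eu 3) - (a.1.1 : Eu 3))) := by abel
      rw [f4, norm_neg]
      refine (norm_add_le _ _).trans ?_
      linarith
    have d2 : ‖(u b.2 : Eu 3) - (b.1.1 : Eu 3)‖ ≤ ρ + 1 / 20 * D x := by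
      have f1 : ‖(Rt b.1.1 (1, x) : Eu 3) - (b.1.1 : Eu 3)‖ ≤
          2 * ‖-((((1 : unitInterval) : ℝ) * s₀) • xi c (p x).1 (q x).1 (b.1.1 : Eu 3))‖ := by
        refine mv_le ?_ (norm_ne_zero_iff.2 (hnz _ _ ?_))
        · rw [← sub_eq_add_neg]
          exact hRtv b.1.1 (1, x)
        · rw [norm_neg]
          exact hsn2 _ _ _ (hts 1).1 (hts 1).2
      rw [norm_neg] at f1
      have f2 := hsn _ x b.1.1 (hts 1).1 (hts 1).2
      have f3 : ‖(u b.2 : Eu 3) - (Rt b.1.1 (1, x) : Eu 3)‖ < ρ := by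
        rw [← dist_eq_norm]
        exact b2
      have f4 : (u b.2 : Eu 3) - (b.1.1 : Eu 3) = ((u b.2 : Eu 3) - (Rt b.1.1 (1, x) : Eu 3)) +
          ((Rt b.1.1 (1, x) : Eu 3) - (b.1.1 : Eu 3)) := by abel
      rw [f4]
      refine (norm_add_le _ _).trans ?_
      linarith
    have g0 : 11 / 4 * D x * (ρ + 1 / 20 * D x) ≤ 14 / 100 * D x ^ 2 := by
      have f1 : ρ ≤ D x ^ 2 / 12800 := by linarith
      have f2 : D x ^ 2 ≤ 2 * D x := by nlinarith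
      have f3 : ρ ≤ D x / 6400 := by linarith
      have f4 : D x * ρ ≤ D x * (D x / 6400) := mul_le_mul_of_nonneg_left f3 e7.le
      have f5 : 11 / 4 * D x * (ρ + 1 / 20 * D x) = 11 / 4 * (D x * ρ) + 11 / 80 * D x ^ 2 := by ring
      have f6 : D x * (D x / 6400) = D x ^ 2 / 6400 := by ring
      have f7 : 0 ≤ D x ^ 2 := by positivity
      rw [f5]
      linarith
    have g1 := gq_lip (p x).1 (q x).1 a.1.1 (u a.2)
    have g2 := gq_lip (p x).1 (q x).1 (u b.2) b.1.1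
    rw [← hDv, ← hGv, ← hGv] at g1 g2
    have g3 : 11 / 4 * D x * ‖(a.1.1 : Eu 3) - (u a.2 : Eu 3)‖ ≤ 11 / 4 * D x * (ρ + 1 / 20 * D x) :=
      mul_le_mul_of_nonneg_left d1 (by positivity)
    have g4 : 11 / 4 * D x * ‖(u b.2 : Eu 3) - (b.1.1 : Eu 3)‖ ≤ 11 / 4 * D x * (ρ + 1 / 20 * D x) :=
      mul_le_mul_of_nonneg_left d2 (by positivity)
    have g5 : 0 < D x ^ 2 := by positivity
    linarith

end Pool.Agent.MPaafd8a
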