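import Pool.Agent.Lib.MP_aafd8a_gt_D.SpecB

/-!
# MP_aafd8a_gt, disproof for `n = 3`, block (A-i): straight paths
-/

set_option autoImplicit false

open Topology RealInnerProductSpace

namespace Pool.Agent.MPaafd8a

namespace PathAux

theorem inner_comb (x y a b : Eu 3) (t : ℝ) :
    ⟪(1 - t) • x + t • a, (1 - t) • y + t • b⟫ =
      (1 - t) * ⟪x, y⟫ + t * ⟪a, b⟫ - t * (1 - t) * ⟪x - a, y - b⟫ := by
  simp only [inner_add_left, inner_add_right, inner_sub_left, inner_sub_right, real_inner_smul_left,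
    real_inner_smul_right]
  ring

theorem norm_comb (x a : Eu 3) (Δ t : ℝ) (hx : ‖x‖ = 1) (ha : 1 ≤ ‖a‖) (h : ‖x - a‖ ≤ Δ) (hΔ : 12 * Δ ^ 2 ≤ 1)
    (ht : 0 ≤ t) (ht1 : t ≤ 1) : 1 - t * Δ ^ 2 ≤ ‖(1 - t) • x + t • a‖ := by
  have h1 : ‖(1 - t) • x + t • a‖ ^ 2 = (1 - t) * ‖x‖ ^ 2 + t * ‖a‖ ^ 2 - t * (1 - t) * ‖x - a‖ ^ 2 := by
    rw [← real_inner_self_eq_norm_sq, ← real_inner_self_eq_norm_sq, ← real_inner_self_eq_norm_sq,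
      ← real_inner_self_eq_norm_sq, inner_comb]
  have h2 : ‖x - a‖ ^ 2 ≤ Δ ^ 2 := pow_le_pow_left₀ (norm_nonneg _) h 2
  have h3 : (1 : ℝ) ≤ ‖a‖ ^ 2 := by nlinarith
  have h4 : 0 ≤ t * (1 - t) := mul_nonneg ht (by linarith)
  have h5 : t * (1 - t) * ‖x - a‖ ^ 2 ≤ t * (1 - t) * Δ ^ 2 := mul_le_mul_of_nonneg_left h2 h4
  have h6 : t * (1 - t) * Δ ^ 2 ≤ t * Δ ^ 2 := by nlinarith [mul_nonneg (mul_nonneg ht ht) (sq_nonneg Δ)]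
  have h7 : t ≤ t * ‖a‖ ^ 2 := by nlinarith
  have h8 : 1 - t * Δ ^ 2 ≤ ‖(1 - t) • x + t • a‖ ^ 2 := by
    rw [h1, hx]
    linarith
  have h9 : 0 ≤ t * Δ ^ 2 := mul_nonneg ht (sq_nonneg Δ)
  have h10 : t * Δ ^ 2 ≤ 1 := by nlinarith [sq_nonneg Δ]
  refine le_of_sq_le_sq ?_ (norm_nonneg _)
  nlinarith

end PathAux

theorem pPath : SPath := by
  intro x y a b c ε η m Δ t hx hy ha hb hxa hyb hΔ hε hc hm hmc hmη hmε ht ht1 hxy hab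
  have hΔ1 : 12 * Δ ^ 2 ≤ 1 := hΔ.trans hε
  have hP := PathAux.norm_comb x a Δ t hx ha hxa hΔ1 ht ht1
  have hQ := PathAux.norm_comb y b Δ t hy hb hyb hΔ1 ht ht1
  have h9 : 0 ≤ t * Δ ^ 2 := mul_nonneg ht (sq_nonneg Δ)
  have h10 : t * Δ ^ 2 ≤ 1 / 12 := by nlinarith [sq_nonneg Δ]
  refine ⟨by linarith, by linarith, ?_⟩
  rw [PathAux.inner_comb]
  have h1 : -(Δ ^ 2) ≤ ⟪x - a, y - b⟫ := by
    have h2 := abs_real_inner_le_norm (x - a) (y - b)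
    have h3 : ‖x - a‖ * ‖y - b‖ ≤ Δ * Δ :=
      mul_le_mul hxa hyb (norm_nonneg _) ((norm_nonneg _).trans hxa)
    have h4 := neg_abs_le ⟪x - a, y - b⟫
    rw [sq]
    linarith
  have h4 : 0 ≤ t * (1 - t) := mul_nonneg ht (by linarith)
  have h5 : -(t * (1 - t) * ⟪x - a, y - b⟫) ≤ t * Δ ^ 2 := by
    have h6 : t * (1 - t) * (-(Δ ^ 2)) ≤ t * (1 - t) * ⟪x - a, y - b⟫ := mul_le_mul_of_nonneg_left h1 h4
    have h7 : t * (1 - t) * Δ ^ 2 ≤ t * Δ ^ 2 := by nlinarith [mul_nonneg (mul_nonneg ht ht) (sq_nonneg Δ)]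
    linarith
  have h6 : 1 - 2 * (t * Δ ^ 2) ≤ ‖(1 - t) • x + t • a‖ * ‖(1 - t) • y + t • b‖ := by
    have h7 : (1 - t * Δ ^ 2) * (1 - t * Δ ^ 2) ≤ ‖(1 - t) • x + t • a‖ * ‖(1 - t) • y + t • b‖ :=
      mul_le_mul hP hQ (by linarith) (norm_nonneg _)
    have h8 : 0 ≤ (t * Δ ^ 2) * (t * Δ ^ 2) := mul_self_nonneg _
    linarith
  have h7 : (c - m) * (1 - 2 * (t * Δ ^ 2)) ≤ (c - m) * (‖(1 - t) • x + t • a‖ * ‖(1 - t) • y + t • b‖) :=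
    mul_le_mul_of_nonneg_left h6 (by linarith)
  have h8 : (c - m) * (2 * (t * Δ ^ 2)) ≤ 1 * (2 * (t * Δ ^ 2)) :=
    mul_le_mul_of_nonneg_right (by linarith) (by linarith)
  have h11 : (1 - t) * ⟪x, y⟫ ≤ (1 - t) * (c - η) := mul_le_mul_of_nonneg_left hxy (by linarith)
  have h12 : t * ⟪a, b⟫ ≤ t * (c - ε / 2) := mul_le_mul_of_nonneg_left hab ht
  have h13 : (1 - t) * m ≤ (1 - t) * η := mul_le_mul_of_nonneg_left hmη (by linarith)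
  have h14 : t * m ≤ t * (ε / 4) := mul_le_mul_of_nonneg_left hmε ht
  have h15 : t * (12 * Δ ^ 2) ≤ t * ε := mul_le_mul_of_nonneg_left hΔ ht
  linarith

end Pool.Agent.MPaafd8a
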