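import Pool.Agent.Lib.MP_aafd8a_gt_D.SpecA

/-!
# MP_aafd8a_gt, disproof for `n = 3`: strict maximum
-/

set_option autoImplicit false

open Topology RealInnerProductSpace

namespace Pool.Agent.MPaafd8a

namespace PolQAux

/-- The operator `x ↦ ∑ ⟪u i, x⟫ t i`. -/
noncomputable def M (u t : Fin 5 → Eu 3) : Eu 3 →L[ℝ] Eu 3 := ∑ i, ro (u i) (t i)

theorem M_apply (u t : Fin 5 → Eu 3) (x : Eu 3) : M u t x = ∑ i, ⟪u i, x⟫ • t i := by
  unfold M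
  rw [ContinuousLinearMap.sum_apply]
  rfl

theorem inner_M (u t : Fin 5 → Eu 3) (x y : Eu 3) : ⟪M u t x, y⟫ = ∑ i, ⟪u i, x⟫ * ⟪t i, y⟫ := by
  rw [M_apply, sum_inner]
  refine Finset.sum_congr rfl fun i _ => ?_
  rw [real_inner_smul_left]

theorem M_symm {u t : Fin 5 → Eu 3} (hB : Bal u t) (x y : Eu 3) : ⟪M u t x, y⟫ = ⟪M u t y, x⟫ := by
  have h := hB y x
  rw [inner_M, inner_M, ← sub_eq_zero, ← Finset.sum_sub_distrib, ← h]
  refine Finset.sum_congr rfl fun i _ => ?_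
  ring

theorem M_u {u t : Fin 5 → Eu 3} (hu : IsS u) (j : Fin 5) :
    M u t (u j) = (5 / 4 : ℝ) • t j - (1 / 4 : ℝ) • ∑ i, t i := by
  have h : ∀ i, ⟪u i, u j⟫ • t i = (if i = j then (5 / 4 : ℝ) • t i else 0) - (1 / 4 : ℝ) • t i := by
    intro i
    by_cases hij : i = j
    · subst hij
      rw [real_inner_self_eq_norm_sq, hu.1 i, if_pos rfl, ← sub_smul]
      norm_num
    · rw [hu.2 i j hij, if_neg hij, zero_sub, ← neg_smul]
  rw [M_apply, Finset.sum_congr rfl fun i _ => h i, Finset.sum_sub_distrib, ← Finset.smul_sum,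
    Finset.sum_ite_eq' Finset.univ j, if_pos (Finset.mem_univ j)]

end PolQAux

open PolQAux in
theorem pPolQ : SAlg → SPolQ := by
  intro hAlg u u' t hu hu' ht hB
  obtain ⟨hs, -, h3, -, h5⟩ := hAlg u hu
  obtain ⟨hs', -, -, -, h5'⟩ := hAlg u' hu'
  have hlow : ∀ x : Eu 3, ‖x‖ ^ 2 ≤ ⟪M u t x, x⟫ := by
    intro x
    rw [inner_M]
    have e1 : ∑ i, ⟪u i, x⟫ * ⟪t i, x⟫ = ∑ i, ⟪x, u i⟫ * ⟪x, u i⟫ + ∑ i, ⟪u i, x⟫ * ⟪t i - u i, x⟫ := by
      rw [← Finset.sum_add_distrib]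
      refine Finset.sum_congr rfl fun i _ => ?_
      rw [inner_sub_left, real_inner_comm x (u i)]
      ring
    rw [e1, h3 x x, real_inner_self_eq_norm_sq]
    have e2 : ∀ i : Fin 5, -(1 / 20 * ‖x‖ ^ 2) ≤ ⟪u i, x⟫ * ⟪t i - u i, x⟫ := by
      intro i
      have f1 : |⟪u i, x⟫| ≤ ‖x‖ := by
        have := abs_real_inner_le_norm (u i) x
        rwa [hu.1 i, one_mul] at this
      have f2 : |⟪t i - u i, x⟫| ≤ 1 / 20 * ‖x‖ :=
        (abs_real_inner_le_norm (t i - u i) x).trans (mul_le_mul_of_nonneg_right (ht i) (norm_nonneg x))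
      have f3 : |⟪u i, x⟫ * ⟪t i - u i, x⟫| ≤ ‖x‖ * (1 / 20 * ‖x‖) := by
        rw [abs_mul]
        exact mul_le_mul f1 f2 (abs_nonneg _) (norm_nonneg x)
      have f4 := neg_abs_le (⟪u i, x⟫ * ⟪t i - u i, x⟫)
      nlinarith
    have e3 : ∑ _i : Fin 5, -(1 / 20 * ‖x‖ ^ 2) ≤ ∑ i, ⟪u i, x⟫ * ⟪t i - u i, x⟫ :=
      Finset.sum_le_sum fun i _ => e2 i
    rw [Finset.sum_const, Finset.card_univ, Fintype.card_fin, nsmul_eq_mul] at e3
    push_cast at e3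
    linarith
  have hd0 : ∑ j, (u j - u' j) = 0 := by rw [Finset.sum_sub_distrib, hs, hs', sub_zero]
  have g1 : ∑ j, ⟪M u t (u j), u j - u' j⟫ = 5 / 4 * ∑ j, ⟪t j, u j - u' j⟫ := by
    have e1 : ∀ j, ⟪M u t (u j), u j - u' j⟫ = 5 / 4 * ⟪t j, u j - u' j⟫ - 1 / 4 * ⟪∑ i, t i, u j - u' j⟫ := by
      intro j
      rw [M_u hu j, inner_sub_left, real_inner_smul_left, real_inner_smul_left]
    rw [Finset.sum_congr rfl fun j _ => e1 j, Finset.sum_sub_distrib, ← Finset.mul_sum, ← Finset.mul_sum,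
      ← inner_sum, hd0, inner_zero_right, mul_zero, sub_zero]
  have g2 : ∑ j, ⟪M u t (u j), u j⟫ = ∑ j, ⟪M u t (u' j), u' j⟫ := by
    rw [h5 (M u t), h5' (M u t)]
  have g3 : ∑ j, ⟪M u t (u j - u' j), u j - u' j⟫ = 2 * ∑ j, ⟪M u t (u j), u j - u' j⟫ := by
    have e1 : ∀ j, ⟪M u t (u j - u' j), u j - u' j⟫ =
        2 * ⟪M u t (u j), u j - u' j⟫ + (⟪M u t (u' j), u' j⟫ - ⟪M u t (u j), u j⟫) := by
      intro j
      have e2 := M_symm hB (u j) (u' j)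
      rw [map_sub]
      simp only [inner_sub_left, inner_sub_right]
      linarith
    rw [Finset.sum_congr rfl fun j _ => e1 j, Finset.sum_add_distrib, Finset.sum_sub_distrib, g2,
      sub_self, add_zero, Finset.mul_sum]
  have g4 : ∑ j, ‖u j - u' j‖ ^ 2 ≤ ∑ j, ⟪M u t (u j - u' j), u j - u' j⟫ :=
    Finset.sum_le_sum fun j _ => hlow _
  have g5 : 0 ≤ ∑ j, ‖u j - u' j‖ ^ 2 := Finset.sum_nonneg fun j _ => sq_nonneg _
  rw [g3, g1] at g4
  linarith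

end Pool.Agent.MPaafd8a
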