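import Pool.Agent.Lib.MP_aafd8a_gt_D.SpecB

/-!
# MP_aafd8a_gt, block (A-i): descent along a closed relation
-/

set_option autoImplicit false

open Topology RealInnerProductSpace

namespace Pool.Agent.MPaafd8a

theorem pQuo : SQuo := by
  intro X Y Z _ _ _ _ _ _ R hR hex φ hφ
  have hcR : CompactSpace R := isCompact_iff_compactSpace.1 hR.isCompact
  let f : C(R, X) := ⟨fun s => s.1.1, continuous_fst.comp continuous_subtype_val⟩
  have hs : Function.Surjective f := fun x => by
    obtain ⟨y, h⟩ := hex x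
    exact ⟨⟨(x, y), h⟩, rfl⟩
  have hcl : IsClosedMap f := f.continuous.isClosedMap
  have hq : IsQuotientMap f := hcl.isQuotientMap f.continuous hs
  have hfac : Function.FactorsThrough φ f := by
    rintro ⟨⟨x, y⟩, h⟩ ⟨⟨x', y'⟩, h'⟩ hab
    have hx : x = x' := hab
    subst hx
    exact hφ x y y' h h'
  refine ⟨hq.lift φ hfac, fun x y h => ?_⟩
  have h1 := hq.lift_comp φ hfac
  exact DFunLike.congr_fun h1 ⟨(x, y), h⟩

end Pool.Agent.MPaafd8a
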