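import Pool.Agent.Lib.MP_aafd8a_gt_D.SpecB

set_option autoImplicit false

open Topology RealInnerProductSpace

namespace Pool.Agent.MPaafd8a

namespace Quo2Aux

instance contSMul : ContinuousConstSMul (Equiv.Perm (Fin 5)) RS := by
  refine ⟨fun s => ?_⟩
  have h : Continuous fun v : RS => (fun i => v.1 (s⁻¹ i) : Fin 5 → Sph 3) :=
    continuous_pi fun i => (continuous_apply (s⁻¹ i)).comp continuous_subtype_val
  exact Continuous.subtype_mk h _

theorem mk_open : IsOpenMap mkR := isOpenMap_quotient_mk'_mul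

theorem mk_cont : Continuous mkR := continuous_quotient_mk'

theorem mk_surj : Function.Surjective mkR := Quotient.mk_surjective

theorem mk_smul (s : Equiv.Perm (Fin 5)) (v : RS) : mkR (s • v) = mkR v :=
  Quotient.sound ⟨s, rfl⟩

theorem mk_eq (v v' : RS) (h : mkR v = mkR v') : ∃ s : Equiv.Perm (Fin 5), s • v' = v := by
  have h1 := Quotient.exact h
  exact h1

end Quo2Aux

open Quo2Aux in
theorem pQuo2 : SQuo2 := by
  refine ⟨mk_cont, mk_smul, ?_⟩
  intro Y Z _ _ φ hφ
  let f : C(RS × Y, RSq × Y) := ⟨Prod.map mkR id, mk_cont.prodMap continuous_id⟩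
  have hq : IsQuotientMap f :=
    IsOpenMap.isQuotientMap (mk_open.prodMap IsOpenMap.id) f.continuous
      (mk_surj.prodMap Function.surjective_id)
  have hf : Function.FactorsThrough φ f := by
    rintro ⟨v, y⟩ ⟨v', y'⟩ h
    have h1 : mkR v = mkR v' := congrArg Prod.fst h
    have h2 : y = y' := congrArg Prod.snd h
    obtain ⟨s, rfl⟩ := mk_eq v v' h1
    rw [h2]
    exact hφ s v' y'
  refine ⟨hq.lift φ hf, fun v y => ?_⟩
  have h := congrArg (fun g : C(RS × Y, Z) => g (v, y)) (hq.lift_comp φ hf)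
  exact h

end Pool.Agent.MPaafd8a
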