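import Pool.Agent.Lib.MP_aafd8a_gt_D.SpecB

/-!
# MP_aafd8a_gt, block (A-i): the relation between pairs of weights and simplices is closed

`pRelC : SYT → SRelC`. General facts for a family of simplices `u s` and weights `p s` with support in a fixed
finite set, depending continuously on a parameter `s`.
-/

set_option autoImplicit false

open Topology RealInnerProductSpace

namespace Pool.Agent.MPaafd8a

namespace RelCAux

variable {X : Type} [TopologicalSpace X] {u : X → Fin 5 → Eu 3} {p : X → Sph 3 →₀ ℝ} {T : Finset (Sph 3)}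

theorem continuous_cl (hu : ∀ i, Continuous fun s => u s i) (x : Sph 3) (i : Fin 5) :
    Continuous fun s => cl (u s) x i := by
  unfold cl
  exact continuous_const.max (continuous_const.min
    (continuous_const.sub (continuous_const.mul (continuous_const.sub (hu i)).norm)))

omit [TopologicalSpace X] in
theorem cm_eq (hT : ∀ s, (p s).support ⊆ T) (i : Fin 5) (s : X) :
    cm (u s) (p s) i = ∑ x ∈ T, p s x * cl (u s) x i := by
  unfold cm ex
  rw [Finsupp.sum_of_support_subset _ (hT s) _ (by intro i _; rw [zero_mul])]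

omit [TopologicalSpace X] in
theorem cv_eq (hT : ∀ s, (p s).support ⊆ T) (i : Fin 5) (s : X) :
    cv (u s) (p s) i = ∑ x ∈ T, (p s x * cl (u s) x i) • (x : Eu 3) := by
  unfold cv
  rw [Finsupp.sum_of_support_subset _ (hT s) _ (by intro i _; rw [zero_mul, zero_smul])]

theorem continuous_cm (hu : ∀ i, Continuous fun s => u s i) (hT : ∀ s, (p s).support ⊆ T)
    (hp : ∀ x, Continuous fun s => p s x) (i : Fin 5) : Continuous fun s => cm (u s) (p s) i := by
  have h : (fun s => cm (u s) (p s) i) = fun s => ∑ x ∈ T, p s x * cl (u s) x i := funext fun s => cm_eq hT i s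
  rw [h]
  exact continuous_finsetSum _ fun x _ => (hp x).mul (continuous_cl hu x i)

theorem continuous_cv (hu : ∀ i, Continuous fun s => u s i) (hT : ∀ s, (p s).support ⊆ T)
    (hp : ∀ x, Continuous fun s => p s x) (i : Fin 5) : Continuous fun s => cv (u s) (p s) i := by
  have h : (fun s => cv (u s) (p s) i) = fun s => ∑ x ∈ T, (p s x * cl (u s) x i) • (x : Eu 3) :=
    funext fun s => cv_eq hT i s
  rw [h]
  exact continuous_finsetSum _ fun x _ => ((hp x).mul (continuous_cl hu x i)).smul continuous_const

theorem continuous_vb (hu : ∀ i, Continuous fun s => u s i) (hT : ∀ s, (p s).support ⊆ T)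
    (hp : ∀ x, Continuous fun s => p s x) (i : Fin 5) : Continuous fun s => vb (u s) (p s) i := by
  unfold vb
  refine Continuous.smul (Continuous.inv₀ (continuous_const.max (continuous_cm hu hT hp i)) fun s => ?_)
    (continuous_cv hu hT hp i)
  have h : (1 / 10 : ℝ) ≤ max (1 / 10) (cm (u s) (p s) i) := le_max_left _ _
  have h2 : (0 : ℝ) < 1 / 10 := by norm_num
  exact (lt_of_lt_of_le h2 h).ne'

theorem isClosed_Nr (hu : ∀ i, Continuous fun s => u s i) (hp : ∀ x, Continuous fun s => p s x) (η : ℝ) :
    IsClosed {s : X | Nr η (u s) (p s)} := by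
  have h : {s : X | Nr η (u s) (p s)} = ⋂ x : Sph 3, ({s : X | p s x ≤ 0} ∪ ⋃ i, {s : X | ‖(x : Eu 3) - u s i‖ ≤ η}) := by
    ext s
    simp only [Set.mem_setOf_eq, Set.mem_iInter, Set.mem_union, Set.mem_iUnion]
    constructor
    · intro hs x
      by_cases h0 : 0 < p s x
      · exact Or.inr (hs x h0)
      · exact Or.inl (not_lt.1 h0)
    · intro hs x h0
      rcases hs x with h1 | h1
      · exact absurd h0 (not_lt.2 h1)
      · exact h1
  rw [h]
  refine isClosed_iInter fun x => IsClosed.union (isClosed_le (hp x) continuous_const) ?_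
  exact isClosed_iUnion_of_finite fun i => isClosed_le (continuous_const.sub (hu i)).norm continuous_const

theorem isClosed_cm (hu : ∀ i, Continuous fun s => u s i) (hT : ∀ s, (p s).support ⊆ T)
    (hp : ∀ x, Continuous fun s => p s x) (a : ℝ) : IsClosed {s : X | ∀ i, a ≤ cm (u s) (p s) i} := by
  have h : {s : X | ∀ i, a ≤ cm (u s) (p s) i} = ⋂ i, {s : X | a ≤ cm (u s) (p s) i} := by
    ext s
    simp only [Set.mem_setOf_eq, Set.mem_iInter]
  rw [h]
  exact isClosed_iInter fun i => isClosed_le continuous_const (continuous_cm hu hT hp i)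

theorem isClosed_Bal {t : X → Fin 5 → Eu 3} (hu : ∀ i, Continuous fun s => u s i)
    (ht : ∀ i, Continuous fun s => t s i) : IsClosed {s : X | Bal (u s) (t s)} := by
  have h : {s : X | Bal (u s) (t s)} = ⋂ x : Eu 3, ⋂ y : Eu 3,
      {s : X | ∑ i, (⟪t s i, x⟫ * ⟪u s i, y⟫ - ⟪t s i, y⟫ * ⟪u s i, x⟫) = 0} := by
    ext s
    simp only [Set.mem_setOf_eq, Set.mem_iInter]
    rfl
  rw [h]
  refine isClosed_iInter fun x => isClosed_iInter fun y => isClosed_eq ?_ continuous_const
  refine continuous_finsetSum _ fun i _ => ?_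
  exact (((ht i).inner continuous_const).mul ((hu i).inner continuous_const)).sub
    (((ht i).inner continuous_const).mul ((hu i).inner continuous_const))

end RelCAux

open RelCAux

theorem pRelC : SYT → SRelC := by
  intro h c T
  have hu : ∀ i, Continuous fun s : YT c T × RS => fv s.2 i := fun i => (continuous_fv i).comp continuous_snd
  have hu' : ∀ i, Continuous fun s : YT c T × RS => (fun j => -fv s.2 j) i := fun i => (hu i).neg
  have hp : ∀ x, Continuous fun s : YT c T × RS => yp s.1 x := fun x => ((h c T).2.1 x).1.comp continuous_fst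
  have hq : ∀ x, Continuous fun s : YT c T × RS => yq s.1 x := fun x => ((h c T).2.1 x).2.comp continuous_fst
  have hpT : ∀ s : YT c T × RS, (yp s.1).support ⊆ T := fun s => ((h c T).1 s.1).2.2.2.1
  have hqT : ∀ s : YT c T × RS, (yq s.1).support ⊆ T := fun s => ((h c T).1 s.1).2.2.2.2
  refine ⟨?_, fun i => ⟨continuous_cm hu hpT hp i, continuous_cm hu' hqT hq i⟩⟩
  exact ((isClosed_Nr hu hp et).inter ((isClosed_Nr hu' hq et).inter
    ((isClosed_cm hu hpT hp (1 / 10)).inter (isClosed_cm hu' hqT hq (1 / 10))))).inter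
    (isClosed_Bal hu (continuous_vb hu hpT hp))

end Pool.Agent.MPaafd8a
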