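import Pool.Agent.Lib.MP_aafd8a_gt_D.SpecB

/-!
# Families of smoothed weights
-/

set_option autoImplicit false

open Topology RealInnerProductSpace

namespace Pool.Agent.MPaafd8a

namespace SmCAux

theorem nmz_norm {P : Eu 3} (h : 1 / 2 ≤ ‖P‖) : ‖nmz P‖ = 1 := by
  have hP0 : 0 < ‖P‖ := by linarith
  unfold nmz
  rw [norm_smul, norm_inv, norm_norm, inv_mul_cancel₀ hP0.ne']

theorem nmz_inner {P Q : Eu 3} {s : ℝ} (hP : 1 / 2 ≤ ‖P‖) (hQ : 1 / 2 ≤ ‖Q‖)
    (h : ⟪P, Q⟫ ≤ s * (‖P‖ * ‖Q‖)) : ⟪nmz P, nmz Q⟫ ≤ s := by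
  have hP0 : 0 < ‖P‖ := by linarith
  have hQ0 : 0 < ‖Q‖ := by linarith
  unfold nmz
  rw [real_inner_smul_left, real_inner_smul_right, ← mul_assoc, ← mul_inv, mul_comm,
    ← div_eq_mul_inv, div_le_iff₀ (mul_pos hP0 hQ0)]
  exact h

theorem sm_cont {X A C : Type} [TopologicalSpace X] [Fintype A] [Fintype C] {u : C → Sph 3}
    {φ : C → Eu 3 → ℝ} {α : A → X → ℝ} {P : A → X → Eu 3} (hφ : ∀ b, Continuous (φ b))
    (hα : ∀ a, Continuous (α a)) (hP : ∀ a, Continuous (P a)) (v : Sph 3) :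
    Continuous fun x => sm u φ (fun a => α a x) (fun a => P a x) v := by
  classical
  have e : (fun x => sm u φ (fun a => α a x) (fun a => P a x) v) =
      fun x => ∑ a, ∑ b, if u b = v then α a x * φ b (P a x) else 0 := by
    funext x
    unfold sm
    rw [Finsupp.finsetSum_apply]
    refine Finset.sum_congr rfl fun a _ => ?_
    rw [Finsupp.finsetSum_apply]
    refine Finset.sum_congr rfl fun b _ => ?_
    rw [Finsupp.single_apply]
  rw [e]
  refine continuous_finsetSum _ fun a _ => continuous_finsetSum _ fun b _ => ?_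
  by_cases h : u b = v
  · simp only [if_pos h]
    exact (hα a).mul ((hφ b).comp (hP a))
  · simp only [if_neg h]
    exact continuous_const

end SmCAux

open SmCAux in
theorem pSmC : SYT → SSmP → SSmC := by
  intro hYT hSm c ρ m X A B C _ _ _ _ u φ α P β Q T hρ hN hm hT hα hP hβ hQ hα0 hα1 hβ0 hβ1 hP2 hQ2 hPQ
  obtain ⟨-, -, -, -, hcl, -⟩ := hYT c T
  have hsP := fun x => hSm ρ A C u φ (fun a => α a x) (fun a => P a x) hρ hN (fun a => hα0 a x)
    (hα1 x) (fun a ha => hP2 a x ha)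
  have hsQ := fun x => hSm ρ B C u φ (fun b => β b x) (fun b => Q b x) hρ hN (fun b => hβ0 b x)
    (hβ1 x) (fun b hb => hQ2 b x hb)
  refine hcl X (fun x => sm u φ (fun a => α a x) (fun a => P a x))
    (fun x => sm u φ (fun b => β b x) (fun b => Q b x)) (fun x => ⟨(hsP x).1, (hsQ x).1, ?_, ?_, ?_⟩)
    (fun v => sm_cont hN.1 hα hP v) (fun v => sm_cont hN.1 hβ hQ v)
  · intro v v' hv hv'
    obtain ⟨a, b, ha, hb, -, hd⟩ := (hsP x).2.1 v hv
    obtain ⟨a', b', ha', hb', -, hd'⟩ := (hsQ x).2.1 v' hv'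
    have n1 : ‖(v : Eu 3)‖ = 1 := mem_sphere_zero_iff_norm.1 v.2
    have n2 := nmz_norm (hQ2 a' x ha')
    have h1 := nmz_inner (hP2 a x ha) (hQ2 a' x ha') (hPQ a a' x ha ha')
    have e : ⟪(v : Eu 3), (v' : Eu 3)⟫ = ⟪nmz (P a x), nmz (Q a' x)⟫ +
        ⟪(v : Eu 3) - nmz (P a x), nmz (Q a' x)⟫ + ⟪(v : Eu 3), (v' : Eu 3) - nmz (Q a' x)⟫ := by
      rw [inner_sub_left, inner_sub_right]
      ring
    have h2 := real_inner_le_norm ((v : Eu 3) - nmz (P a x)) (nmz (Q a' x))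
    have h3 := real_inner_le_norm (v : Eu 3) ((v' : Eu 3) - nmz (Q a' x))
    rw [n2, mul_one] at h2
    rw [n1, one_mul] at h3
    rw [e]
    linarith
  · intro v hv
    have h1 : 0 < sm u φ (fun a => α a x) (fun a => P a x) v :=
      lt_of_le_of_ne ((hsP x).1.1 v) (Ne.symm (Finsupp.mem_support_iff.1 hv))
    obtain ⟨a, b, -, -, hb, -⟩ := (hsP x).2.1 v h1
    rw [hb]
    exact hT b
  · intro v hv
    have h1 : 0 < sm u φ (fun b => β b x) (fun b => Q b x) v :=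
      lt_of_le_of_ne ((hsQ x).1.1 v) (Ne.symm (Finsupp.mem_support_iff.1 hv))
    obtain ⟨a, b, -, -, hb, -⟩ := (hsQ x).2.1 v h1
    rw [hb]
    exact hT b

end Pool.Agent.MPaafd8a
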