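import Pool.Agent.Lib.MP_aafd8a_gt_D.SpecB

/-!
# MP_aafd8a_gt, disproof for `n = 3`, block (A-i): smoothed weights
-/

set_option autoImplicit false

open Topology RealInnerProductSpace

namespace Pool.Agent.MPaafd8a

namespace SmPAux

theorem norm_nmz_le (z : Eu 3) : ‖nmz z‖ ≤ 1 := by
  unfold nmz
  by_cases h : z = 0
  · simp [h]
  · rw [norm_smul, norm_inv, norm_norm, inv_mul_cancel₀ (norm_ne_zero_iff.2 h)]

theorem sum_sm {A B E : Type} [Fintype A] [Fintype B] [AddCommGroup E] [Module ℝ E]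
    (u : B → Sph 3) (φ : B → Eu 3 → ℝ) (α : A → ℝ) (P : A → Eu 3) (F : Sph 3 → E) :
    ((sm u φ α P).sum fun x a => a • F x) = ∑ a, ∑ b, (α a * φ b (P a)) • F (u b) := by
  rw [← Finsupp.linearCombination_apply, sm, map_sum]
  refine Finset.sum_congr rfl fun a _ => ?_
  rw [map_sum]
  refine Finset.sum_congr rfl fun b _ => ?_
  rw [Finsupp.linearCombination_single]

theorem sm_apply {A B : Type} [Fintype A] [Fintype B]
    (u : B → Sph 3) (φ : B → Eu 3 → ℝ) (α : A → ℝ) (P : A → Eu 3) (x : Sph 3) :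
    sm u φ α P x = ∑ a, ∑ b, (Finsupp.single (u b) (α a * φ b (P a))) x := by
  rw [sm, Finsupp.finset_sum_apply]
  refine Finset.sum_congr rfl fun a _ => ?_
  rw [Finsupp.finset_sum_apply]

end SmPAux

open SmPAux in
theorem pSmP : SMl → SSmP := by
  intro hM ρ A B _ _ u φ α P hρ hN hα hα1 hP
  classical
  obtain ⟨hM1, hM2⟩ := hM
  obtain ⟨-, hφ0, hφ1, hφ2⟩ := hN
  have hterm : ∀ (a : A) (b : B) (x : Sph 3),
      0 ≤ (Finsupp.single (u b) (α a * φ b (P a))) x := by
    intro a b x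
    rw [Finsupp.single_apply]
    split_ifs
    · exact mul_nonneg (hα a) (hφ0 b _)
    · exact le_refl _
  have hsumφ : ∀ a, ∑ b, α a * φ b (P a) = α a := by
    intro a
    rw [← Finset.mul_sum]
    rcases (hα a).eq_or_lt with h | h
    · rw [← h, zero_mul]
    · rw [hφ1 _ (hP a h), mul_one]
  have hmass : ((sm u φ α P).sum fun _ a => a) = 1 := by
    have h := sum_sm u φ α P (fun _ => (1 : ℝ))
    simp only [smul_eq_mul, mul_one] at h
    rw [h, ← hα1]
    exact Finset.sum_congr rfl fun a _ => hsumφ a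
  -- the family indexed by pairs
  have hγ0 : ∀ c : A × B, 0 ≤ α c.1 * φ c.2 (P c.1) := fun c => mul_nonneg (hα _) (hφ0 _ _)
  have hγ1 : ∑ c : A × B, α c.1 * φ c.2 (P c.1) = 1 := by
    rw [Fintype.sum_prod_type, ← hα1]
    exact Finset.sum_congr rfl fun a _ => hsumφ a
  have hpos : ∀ c : A × B, 0 < α c.1 * φ c.2 (P c.1) →
      0 < α c.1 ∧ 0 < φ c.2 (P c.1) := by
    intro c hc
    have h1 : 0 < α c.1 := by
      rcases (hα c.1).eq_or_lt with h | h
      · rw [← h, zero_mul] at hc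
        exact absurd hc (lt_irrefl _)
      · exact h
    exact ⟨h1, pos_of_mul_pos_right hc h1.le⟩
  have hkey := hM1 (A × B) (fun c => α c.1 * φ c.2 (P c.1)) (fun c => α c.1 * φ c.2 (P c.1))
    (fun c => (u c.2 : Eu 3)) (fun c => nmz (P c.1)) ρ hγ0 hγ1 hρ.le
    (fun c => ⟨(mem_sphere_zero_iff_norm.1 (u c.2).2).le, norm_nmz_le _⟩)
    (fun c hc => (hφ2 c.2 (P c.1) (hP c.1 (hpos c hc).1) (hpos c hc).2).le)
  obtain ⟨hk1, hk2, -, -⟩ := hkey
  refine ⟨⟨fun x => ?_, hmass⟩, ?_, ?_, ?_⟩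
  · rw [sm_apply]
    exact Finset.sum_nonneg fun a _ => Finset.sum_nonneg fun b _ => hterm a b x
  · intro x hx
    rw [sm_apply] at hx
    obtain ⟨a, ha⟩ : ∃ a, 0 < ∑ b, (Finsupp.single (u b) (α a * φ b (P a))) x := by
      by_contra hcon
      push Not at hcon
      exact absurd hx (not_lt.mpr (Finset.sum_nonpos fun a _ => hcon a))
    obtain ⟨b, hb⟩ : ∃ b, 0 < (Finsupp.single (u b) (α a * φ b (P a))) x := by
      by_contra hcon
      push Not at hcon
      exact absurd ha (not_lt.mpr (Finset.sum_nonpos fun b _ => hcon b))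
    rw [Finsupp.single_apply] at hb
    split_ifs at hb with h
    · have h2 := hpos (a, b) hb
      refine ⟨a, b, h2.1, h2.2, h.symm, ?_⟩
      rw [← h]
      exact hφ2 b (P a) (hP a h2.1) h2.2
    · exact absurd hb (lt_irrefl _)
  · have h1 : bar (sm u φ α P) = ∑ c : A × B, (α c.1 * φ c.2 (P c.1)) • (u c.2 : Eu 3) := by
      unfold bar
      rw [sum_sm u φ α P (fun x => (x : Eu 3)), Fintype.sum_prod_type]
    have h2 : ∑ a, α a • nmz (P a) =
        ∑ c : A × B, (α c.1 * φ c.2 (P c.1)) • nmz (P c.1) := by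
      rw [Fintype.sum_prod_type]
      refine Finset.sum_congr rfl fun a _ => ?_
      show α a • nmz (P a) = ∑ b, (α a * φ b (P a)) • nmz (P a)
      rw [← Finset.sum_smul, hsumφ a]
    rw [h1, h2]
    exact hk1
  · have h1 : mo (sm u φ α P) = ∑ c : A × B, (α c.1 * φ c.2 (P c.1)) • tp (u c.2 : Eu 3) := by
      unfold mo
      rw [sum_sm u φ α P (fun x => (innerSL ℝ (x : Eu 3)).smulRight (x : Eu 3)),
        Fintype.sum_prod_type]
      rfl
    have h2 : ∑ a, α a • tp (nmz (P a)) =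
        ∑ c : A × B, (α c.1 * φ c.2 (P c.1)) • tp (nmz (P c.1)) := by
      rw [Fintype.sum_prod_type]
      refine Finset.sum_congr rfl fun a _ => ?_
      show α a • tp (nmz (P a)) = ∑ b, (α a * φ b (P a)) • tp (nmz (P a))
      rw [← Finset.sum_smul, hsumφ a]
    rw [h1, h2]
    exact hk2

end Pool.Agent.MPaafd8a
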