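import Pool.Agent.Lib.MP_aafd8a_gt_D.SpecA

/-!
# MP_aafd8a_gt, disproof for `n = 3`, module TL (contact estimates for pairs of weights)
-/

set_option autoImplicit false

open Topology RealInnerProductSpace

namespace Pool.Agent.MPaafd8a

namespace TLAux

/-- A weight near a simplex as a labelled family. -/
theorem cluster (hclu : SClu) (u : Fin 5 → Eu 3) (r : Sph 3 →₀ ℝ) (hu : IsS u) (hr : Pw r) (hN : Nr et u r)
    (hcm : ∀ i, 1 / 10 ≤ cm u r i) :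
    ∃ l : r.support → Fin 5, Function.Surjective l ∧ (∀ a : r.support, ‖((a : Sph 3) : Eu 3) - u (l a)‖ ≤ et) ∧
      (∀ (a : r.support) (i : Fin 5), ‖((a : Sph 3) : Eu 3) - u i‖ ≤ et → i = l a) ∧
      (∀ i, lw l (fun a => r a) i = cm u r i) ∧
      (lm l (fun a => r a) (fun a => ((a : Sph 3) : Eu 3)) = vb u r) ∧
      (∑ a : r.support, r a • ((a : Sph 3) : Eu 3) = bar r) ∧
      (∑ a : r.support, r a • tp ((a : Sph 3) : Eu 3) = mo r) ∧
      (∑ a : r.support, r a = 1) ∧ ∀ a : r.support, 0 < r a := by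
  have het : et ≤ 1 / 4 := by unfold et; norm_num
  obtain ⟨hcl, -, -, -, -⟩ := hclu u et r hu het hr hN
  have hpos : ∀ a : r.support, 0 < r a := by
    intro a
    exact lt_of_le_of_ne (hr.1 a) (Ne.symm (Finsupp.mem_support_iff.1 a.2))
  choose l hl using fun a : r.support => hN a (hpos a)
  have hcl1 : ∀ (a : r.support) (i : Fin 5), cl u a i = if l a = i then 1 else 0 := by
    intro a i
    obtain ⟨h1, h2⟩ := hcl a (l a) ((hl a).trans het)
    split_ifs with h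
    · rw [← h]; exact h1
    · exact (h2 i (Ne.symm h)).1
  have huniq : ∀ (a : r.support) (i : Fin 5), ‖((a : Sph 3) : Eu 3) - u i‖ ≤ et → i = l a := by
    intro a i hi
    obtain ⟨h1, -⟩ := hcl a i (hi.trans het)
    rw [hcl1 a i] at h1
    by_contra hne
    rw [if_neg (Ne.symm hne)] at h1
    exact zero_ne_one h1
  have hlw : ∀ i, lw l (fun a => r a) i = cm u r i := by
    intro i
    unfold lw cm ex Finsupp.sum
    rw [← Finset.sum_coe_sort r.support]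
    refine Finset.sum_congr rfl fun a _ => ?_
    beta_reduce
    rw [hcl1 a i]
    split_ifs <;> simp
  have hsum : ∑ a : r.support, r a = 1 := by
    have := hr.2
    unfold Finsupp.sum at this
    rw [← Finset.sum_coe_sort r.support] at this
    exact this
  refine ⟨l, ?_, hl, huniq, hlw, ?_, ?_, ?_, hsum, hpos⟩
  · intro i
    by_contra hne
    push Not at hne
    have h1 : lw l (fun a => r a) i = 0 := by
      unfold lw
      exact Finset.sum_eq_zero fun a _ => if_neg (hne a)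
    have h2 := hcm i
    rw [← hlw i, h1] at h2
    norm_num at h2
  · funext i
    unfold lm vb cv Finsupp.sum
    rw [hlw i, max_eq_right (hcm i), ← Finset.sum_coe_sort r.support]
    congr 1
    refine Finset.sum_congr rfl fun a _ => ?_
    beta_reduce
    rw [hcl1 a i]
    split_ifs <;> simp
  · unfold bar Finsupp.sum
    rw [← Finset.sum_coe_sort r.support]
  · unfold mo Finsupp.sum
    rw [← Finset.sum_coe_sort r.support]
    rfl

theorem norm_tp (z : Eu 3) : ‖tp z‖ = ‖z‖ * ‖z‖ := by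
  unfold tp ro
  rw [ContinuousLinearMap.norm_smulRight_apply, innerSL_apply_norm]

theorem norm_Sm (u : Fin 5 → Eu 3) (w : WV) (hu : IsS u) : ‖Sm u w‖ ≤ 7 * ‖w‖ := by
  have h1 : ∀ i, ‖⟪w.2 (u i), u i⟫ • tp (u i)‖ ≤ ‖w.2‖ := by
    intro i
    rw [norm_smul, norm_tp, hu.1 i, mul_one, mul_one, Real.norm_eq_abs]
    calc |⟪w.2 (u i), u i⟫| ≤ ‖w.2 (u i)‖ * ‖u i‖ := abs_real_inner_le_norm _ _
      _ ≤ (‖w.2‖ * ‖u i‖) * ‖u i‖ := mul_le_mul_of_nonneg_right (w.2.le_opNorm _) (norm_nonneg _)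
      _ = ‖w.2‖ := by rw [hu.1 i]; ring
  have h2 : ‖∑ i, ⟪w.2 (u i), u i⟫ • tp (u i)‖ ≤ 5 * ‖w.2‖ := by
    refine (norm_sum_le _ _).trans ?_
    refine (Finset.sum_le_sum fun i _ => h1 i).trans ?_
    simp
  have h3 : ‖w.2‖ ≤ ‖w‖ := norm_snd_le w
  have h4 : ‖(16 / 15 : ℝ) • ∑ i, ⟪w.2 (u i), u i⟫ • tp (u i)‖ ≤ 16 / 15 * (5 * ‖w.2‖) := by
    rw [norm_smul]
    have : ‖(16 / 15 : ℝ)‖ = 16 / 15 := by norm_num
    rw [this]
    exact mul_le_mul_of_nonneg_left h2 (by norm_num)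
  unfold Sm
  calc ‖w.2 - (16 / 15 : ℝ) • ∑ i, ⟪w.2 (u i), u i⟫ • tp (u i)‖
      ≤ ‖w.2‖ + ‖(16 / 15 : ℝ) • ∑ i, ⟪w.2 (u i), u i⟫ • tp (u i)‖ := norm_sub_le _ _
    _ ≤ ‖w.2‖ + 16 / 15 * (5 * ‖w.2‖) := by linarith
    _ ≤ 7 * ‖w‖ := by
        have := norm_nonneg w.2
        linarith

end TLAux

open TLAux in
theorem pTL : SClu → SMo → STL1 → STL2 → STL3 → STL4 → STL := by
  intro hclu _ h1 h2 h3 h4 u ε p q hu hε0 hε hp hq hcp hw hg hb
  obtain ⟨hgp, hgq, hcp1, hcq1⟩ := hg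
  obtain ⟨l, hls, hl, hlu, hlw, hlm, hlbar, hlmo, hlsum, hlpos⟩ := cluster hclu u p hu hp hgp hcp1
  obtain ⟨m, hms, hm', hmu', hmw, -, hmbar, hmmo, hmsum, hmpos⟩ :=
    cluster hclu (fun i => -u i) q (isS_neg hu) hq hgq hcq1
  have hm : ∀ b : q.support, ‖((b : Sph 3) : Eu 3) + u (m b)‖ ≤ et := by
    intro b
    have := hm' b
    rwa [sub_neg_eq_add] at this
  have hmu : ∀ (b : q.support) (i : Fin 5), ‖((b : Sph 3) : Eu 3) + u i‖ ≤ et → i = m b := by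
    intro b i hi
    apply hmu' b i
    rwa [sub_neg_eq_add]
  -- the maximal distance
  obtain ⟨a1, -⟩ := hls 0
  obtain ⟨b1, -⟩ := hms 0
  obtain ⟨a0, -, ha0⟩ := Finset.exists_max_image (Finset.univ : Finset p.support)
    (fun a => ‖((a : Sph 3) : Eu 3) - u (l a)‖) ⟨a1, Finset.mem_univ _⟩
  obtain ⟨b0, -, hb0⟩ := Finset.exists_max_image (Finset.univ : Finset q.support)
    (fun b => ‖((b : Sph 3) : Eu 3) + u (m b)‖) ⟨b1, Finset.mem_univ _⟩
  obtain ⟨ρ, hρ⟩ : ∃ ρ : ℝ, ρ = max ‖((a0 : Sph 3) : Eu 3) - u (l a0)‖ ‖((b0 : Sph 3) : Eu 3) + u (m b0)‖ :=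
    ⟨_, rfl⟩
  have hρa : ∀ a : p.support, ‖((a : Sph 3) : Eu 3) - u (l a)‖ ≤ ρ := fun a => by
    rw [hρ]; exact (ha0 a (Finset.mem_univ _)).trans (le_max_left _ _)
  have hρb : ∀ b : q.support, ‖((b : Sph 3) : Eu 3) + u (m b)‖ ≤ ρ := fun b => by
    rw [hρ]; exact (hb0 b (Finset.mem_univ _)).trans (le_max_right _ _)
  have hρ0 : 0 ≤ ρ := (norm_nonneg _).trans (hρa a0)
  have hρ1 : ρ ≤ 1 / 20000 := by
    rw [hρ]
    exact max_le (hl a0) (hm b0)
  obtain ⟨e, he⟩ : ∃ e : ℝ, e = 24 * (ε + ρ ^ 2) := ⟨_, rfl⟩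
  have hρe : ρ ^ 2 ≤ e := by
    rw [he]
    nlinarith [sq_nonneg ρ]
  have hc : ∀ (a : p.support) (b : q.support),
      ⟪((a : Sph 3) : Eu 3), ((b : Sph 3) : Eu 3)⟫ ≤ 1 / 4 + ε := fun a b =>
    (hcp a b (hlpos a) (hmpos b)).le
  have hT := h1 u p.support q.support (fun a => a) (fun b => b) l m ε ρ hu hls hms hε0 hρa hρb hc
  rw [← he] at hT
  have hb' : Bal u (lm l (fun a => p a) fun a : p.support => ((a : Sph 3) : Eu 3)) := by
    rw [hlm]; exact hb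
  have h2' := h2 u p.support q.support (fun a => a) (fun b => b) l m (fun a => p a) ρ e hu hls hms hlpos hρa hρb
    hρe hT hb'
  obtain ⟨X, hX⟩ : ∃ X : Eu 3 →L[ℝ] Eu 3,
    X = Xi u (lm l (fun a => p a) fun a : p.support => ((a : Sph 3) : Eu 3)) := ⟨_, rfl⟩
  simp only [← hX] at h2'
  obtain ⟨hXs, hXn, hXa, hXb, hXi⟩ := h2'
  have hXu : ∀ i, ‖X (u i)‖ ≤ ‖X‖ := fun i => by
    have := X.le_opNorm (u i)
    rwa [hu.1 i, mul_one] at this
  -- where the maximum is attained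
  have hρX : ρ ≤ ‖X‖ + 6 * e := by
    rw [hρ]
    apply max_le
    · have h5 : ((a0 : Sph 3) : Eu 3) - u (l a0) =
          (((a0 : Sph 3) : Eu 3) - u (l a0) - X (u (l a0))) + X (u (l a0)) := by abel
      rw [h5]
      refine (norm_add_le _ _).trans ?_
      linarith [hXa a0, hXu (l a0)]
    · have h5 : ((b0 : Sph 3) : Eu 3) + u (m b0) =
          (((b0 : Sph 3) : Eu 3) + u (m b0) - X (u (m b0))) + X (u (m b0)) := by abel
      rw [h5]
      refine (norm_add_le _ _).trans ?_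
      linarith [hXb b0, hXu (m b0)]
  -- the masses
  obtain ⟨i0, -, hi0⟩ := Finset.exists_max_image (Finset.univ : Finset (Fin 5))
    (fun i => |lw l (fun a => p a) i - 1 / 5|) ⟨0, Finset.mem_univ _⟩
  obtain ⟨j0, -, hj0⟩ := Finset.exists_max_image (Finset.univ : Finset (Fin 5))
    (fun i => |lw m (fun b => q b) i - 1 / 5|) ⟨0, Finset.mem_univ _⟩
  obtain ⟨μ, hμ⟩ : ∃ μ : ℝ, μ = max |lw l (fun a => p a) i0 - 1 / 5| |lw m (fun b => q b) j0 - 1 / 5| :=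
    ⟨_, rfl⟩
  have hμ1 : ∀ i, |lw l (fun a => p a) i - 1 / 5| ≤ μ ∧ |lw m (fun b => q b) i - 1 / 5| ≤ μ := fun i => by
    rw [hμ]
    exact ⟨(hi0 i (Finset.mem_univ _)).trans (le_max_left _ _), (hj0 i (Finset.mem_univ _)).trans (le_max_right _ _)⟩
  have hμ2 : ∃ i, μ = |lw l (fun a => p a) i - 1 / 5| ∨ μ = |lw m (fun b => q b) i - 1 / 5| := by
    rcases max_choice |lw l (fun a => p a) i0 - 1 / 5| |lw m (fun b => q b) j0 - 1 / 5| with h | h
    · exact ⟨i0, Or.inl (hμ.trans h)⟩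
    · exact ⟨j0, Or.inr (hμ.trans h)⟩
  have h3' := h3 u p.support q.support (fun a => a) (fun b => b) l m (fun a => p a) (fun b => q b) ρ e μ X hu
    (fun a => (hlpos a).le) hlsum (fun b => (hmpos b).le) hmsum hρa hρb hρe hXs hXa hXb hμ1
  have hw1 : (Dm 1 p q).1 = bar p - bar q := rfl
  have hw2 : (Dm 1 p q).2 = mo p - mo q := one_smul _ _
  rw [hlbar, hmbar, hlmo, hmmo, ← hw1, ← hw2] at h3'
  have hP1 : ∑ i, lw l (fun a => p a) i = 1 := by
    unfold lw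
    rw [Finset.sum_comm, ← hlsum]
    refine Finset.sum_congr rfl fun a _ => ?_
    rw [Finset.sum_ite_eq]
    simp
  have hQ1 : ∑ i, lw m (fun b => q b) i = 1 := by
    unfold lw
    rw [Finset.sum_comm, ← hmsum]
    refine Finset.sum_congr rfl fun a _ => ?_
    rw [Finset.sum_ite_eq]
    simp
  obtain ⟨hS, hPQ⟩ := h4 u (Dm 1 p q) (lw l fun a => p a) (lw m fun b => q b) X ε ρ e μ hu hε0 hε hρ0 hρ1 he hw
    hP1 hQ1 hμ1 hμ2 hρX hXn hXi h3'.1 h3'.2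
  obtain ⟨S, hSd⟩ : ∃ S : Eu 3 →L[ℝ] Eu 3, S = Sm u (Dm 1 p q) := ⟨_, rfl⟩
  have hSn : ‖S‖ ≤ 7 * ‖Dm 1 p q‖ := by rw [hSd]; exact norm_Sm u _ hu
  rw [← hSd] at hS
  have hXS : ∀ i, ‖X (u i) - S (u i)‖ ≤ ‖S - X‖ := fun i => by
    have := (X - S).le_opNorm (u i)
    rw [hu.1 i, mul_one, norm_sub_rev X S] at this
    exact this
  have hww : 0 ≤ ε + ‖Dm 1 p q‖ ^ 2 := by positivity
  refine ⟨?_, ?_, ?_⟩
  · intro x i hx hxi
    have hmem : x ∈ p.support := Finsupp.mem_support_iff.2 hx.ne'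
    have hi := hlu ⟨x, hmem⟩ i hxi
    have h5 := hXa ⟨x, hmem⟩
    rw [← hi] at h5
    have h6 : (x : Eu 3) - av u (Dm 1 p q) i = ((x : Eu 3) - u i - X (u i)) + (X (u i) - S (u i)) := by
      unfold av
      rw [← hSd]
      abel
    rw [h6]
    refine (norm_add_le _ _).trans ?_
    have h7 := hXS i
    have h8 : ‖(x : Eu 3) - u i - X (u i)‖ ≤ 6 * e := h5
    linarith
  · intro y i hy hyi
    have hmem : y ∈ q.support := Finsupp.mem_support_iff.2 hy.ne'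
    have hi := hmu ⟨y, hmem⟩ i hyi
    have h5 := hXb ⟨y, hmem⟩
    rw [← hi] at h5
    have h6 : (y : Eu 3) - bv u (Dm 1 p q) i =
        ((y : Eu 3) + u i - X (u i)) + (X (u i) - S (u i)) + S (S (u i)) := by
      unfold bv
      rw [← hSd]
      abel
    rw [h6]
    refine (norm_add_le _ _).trans ?_
    have h6' := norm_add_le ((y : Eu 3) + u i - X (u i)) (X (u i) - S (u i))
    have h7 := hXS i
    have h8 : ‖(y : Eu 3) + u i - X (u i)‖ ≤ 6 * e := h5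
    have h9 : ‖S (S (u i))‖ ≤ 49 * ‖Dm 1 p q‖ ^ 2 := by
      calc ‖S (S (u i))‖ ≤ ‖S‖ * ‖S (u i)‖ := S.le_opNorm _
        _ ≤ ‖S‖ * (‖S‖ * ‖u i‖) := mul_le_mul_of_nonneg_left (S.le_opNorm _) (norm_nonneg _)
        _ = ‖S‖ ^ 2 := by rw [hu.1 i]; ring
        _ ≤ (7 * ‖Dm 1 p q‖) ^ 2 := by gcongr
        _ = 49 * ‖Dm 1 p q‖ ^ 2 := by ring
    have h10 : ‖Dm 1 p q‖ ^ 2 ≤ ε + ‖Dm 1 p q‖ ^ 2 := by linarith
    linarith
  · intro i
    obtain ⟨h5, h6⟩ := hPQ i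
    rw [hlw i] at h5
    rw [hmw i] at h6
    constructor <;> linarith

end Pool.Agent.MPaafd8a
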