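import Pool.Agent.Lib.MP_aafd8a_gt_D.SpecA

/-!
# MP_aafd8a_gt, disproof for `n = 3`, block (A-i): all contacts are almost tight
-/

set_option autoImplicit false

open Topology RealInnerProductSpace

namespace Pool.Agent.MPaafd8a

namespace TL1Aux

/-- One contact. -/
theorem one (u1 u2 x y : Eu 3) (ε ρ : ℝ) (hu1 : ‖u1‖ = 1) (hu2 : ‖u2‖ = 1) (hx : ‖x‖ = 1) (hy : ‖y‖ = 1)
    (hu : ⟪u1, u2⟫ = -(1 / 4 : ℝ) ∨ u1 = u2) (hε : 0 ≤ ε) (h1 : ‖x - u1‖ ≤ ρ) (h2 : ‖y + u2‖ ≤ ρ)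
    (h3 : ⟪x, y⟫ ≤ 1 / 4 + ε) : ⟪u1, y + u2⟫ - ⟪x - u1, u2⟫ ≤ ε + ρ ^ 2 := by
  have hρ : 0 ≤ ρ := (norm_nonneg _).trans h1
  rcases hu with hu | hu
  · have e : ⟪u1, y + u2⟫ - ⟪x - u1, u2⟫ = ⟪x, y⟫ - 1 / 4 - ⟪x - u1, y + u2⟫ := by
      simp only [inner_add_right, inner_sub_left, hu]
      ring
    have h4 := abs_real_inner_le_norm (x - u1) (y + u2)
    have h5 : ‖x - u1‖ * ‖y + u2‖ ≤ ρ * ρ := mul_le_mul h1 h2 (norm_nonneg _) hρ
    have h6 := (abs_le.1 h4).1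
    rw [e]
    nlinarith
  · subst hu
    have e1 : ‖x - u1‖ ^ 2 = 2 - 2 * ⟪x, u1⟫ := by
      rw [norm_sub_sq_real, hx, hu1]
      ring
    have e2 : ‖y + u1‖ ^ 2 = 2 + 2 * ⟪y, u1⟫ := by
      rw [norm_add_sq_real, hy, hu1]
      ring
    have e3 : ⟪u1, u1⟫ = (1 : ℝ) := by
      rw [real_inner_self_eq_norm_sq, hu1]
      norm_num
    have e : ⟪u1, y + u1⟫ - ⟪x - u1, u1⟫ = (‖x - u1‖ ^ 2 + ‖y + u1‖ ^ 2) / 2 := by
      rw [e1, e2]
      simp only [inner_add_right, inner_sub_left, e3]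
      rw [real_inner_comm u1 y]
      ring
    have h5 : ‖x - u1‖ ^ 2 ≤ ρ ^ 2 := pow_le_pow_left₀ (norm_nonneg _) h1 2
    have h6 : ‖y + u1‖ ^ 2 ≤ ρ ^ 2 := pow_le_pow_left₀ (norm_nonneg _) h2 2
    rw [e]
    linarith

/-- A choice of representatives. -/
theorem rep {A : Type} (l : A → Fin 5) (hl : Function.Surjective l) (a : A) :
    ∃ r : Fin 5 → A, (∀ i, l (r i) = i) ∧ r (l a) = a := by
  choose f hf using hl
  refine ⟨Function.update f (l a) a, fun i => ?_, Function.update_self _ _ _⟩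
  by_cases h : i = l a
  · rw [h, Function.update_self]
  · rw [Function.update_of_ne h]
    exact hf i

end TL1Aux

theorem pTL1 : SAlg → STL1 := by
  intro hA u A B x y l m ε ρ hu hl hm hε hx hy hxy a b
  obtain ⟨hs, -⟩ := hA u hu
  have hρ : 0 ≤ ρ := (norm_nonneg _).trans (hx a)
  have hnx : ∀ z : Sph 3, ‖(z : Eu 3)‖ = 1 := fun z => mem_sphere_zero_iff_norm.1 z.2
  set D : ℝ := ε + ρ ^ 2 with hD
  have hD0 : 0 ≤ D := by positivity
  have hT : ∀ a b, ⟪u (l a), (y b : Eu 3) + u (m b)⟫ - ⟪(x a : Eu 3) - u (l a), u (m b)⟫ ≤ D := by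
    intro a b
    refine TL1Aux.one (u (l a)) (u (m b)) (x a) (y b) ε ρ (hu.1 _) (hu.1 _) (hnx _) (hnx _) ?_ hε (hx a) (hy b) (hxy a b)
    by_cases h : l a = m b
    · exact Or.inr (by rw [h])
    · exact Or.inl (hu.2 _ _ h)
  obtain ⟨ra, hra, hra'⟩ := TL1Aux.rep l hl a
  obtain ⟨rb, hrb, hrb'⟩ := TL1Aux.rep m hm b
  set f : Fin 5 × Fin 5 → ℝ := fun p => D - (⟪u (l (ra p.1)), (y (rb p.2) : Eu 3) + u (m (rb p.2))⟫ -
    ⟪(x (ra p.1) : Eu 3) - u (l (ra p.1)), u (m (rb p.2))⟫) with hf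
  have hf0 : ∀ p, 0 ≤ f p := by
    intro p
    have := hT (ra p.1) (rb p.2)
    rw [hf]
    show 0 ≤ D - _
    linarith
  have hsum : ∑ p, f p = 25 * D := by
    have e1 : ∑ p : Fin 5 × Fin 5, ⟪u (l (ra p.1)), (y (rb p.2) : Eu 3) + u (m (rb p.2))⟫ = 0 := by
      rw [Fintype.sum_prod_type_right]
      refine Finset.sum_eq_zero (fun j _ => ?_)
      show ∑ i, ⟪u (l (ra i)), (y (rb j) : Eu 3) + u (m (rb j))⟫ = 0
      rw [← sum_inner]
      have e2 : ∑ i, u (l (ra i)) = 0 := by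
        simp only [hra]
        exact hs
      rw [e2, inner_zero_left]
    have e2 : ∑ p : Fin 5 × Fin 5, ⟪(x (ra p.1) : Eu 3) - u (l (ra p.1)), u (m (rb p.2))⟫ = 0 := by
      rw [Fintype.sum_prod_type]
      refine Finset.sum_eq_zero (fun i _ => ?_)
      show ∑ j, ⟪(x (ra i) : Eu 3) - u (l (ra i)), u (m (rb j))⟫ = 0
      rw [← inner_sum]
      have e2 : ∑ j, u (m (rb j)) = 0 := by
        simp only [hrb]
        exact hs
      rw [e2, inner_zero_right]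
    rw [hf]
    rw [Finset.sum_sub_distrib, Finset.sum_sub_distrib, e1, e2, Finset.sum_const, Finset.card_univ,
      Fintype.card_prod, Fintype.card_fin, nsmul_eq_mul]
    push_cast
    ring
  have h1 : f (l a, m b) ≤ 25 * D := by
    rw [← hsum]
    exact Finset.single_le_sum (fun p _ => hf0 p) (Finset.mem_univ _)
  have h2 : f (l a, m b) = D - (⟪u (l a), (y b : Eu 3) + u (m b)⟫ - ⟪(x a : Eu 3) - u (l a), u (m b)⟫) := by
    rw [hf]
    show D - (⟪u (l (ra (l a))), (y (rb (m b)) : Eu 3) + u (m (rb (m b)))⟫ -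
      ⟪(x (ra (l a)) : Eu 3) - u (l (ra (l a))), u (m (rb (m b)))⟫) = _
    rw [hra', hrb']
  rw [h2] at h1
  have h3 := hT a b
  rw [abs_le]
  constructor <;> linarith

end Pool.Agent.MPaafd8a
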