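import Pool.Agent.Lib.MP_aafd8a_gt_D.SpecA

/-! # MP_aafd8a_gt, disproof for `n = 3`, block (A-i): the common operator -/

set_option autoImplicit false

open Topology RealInnerProductSpace

namespace Pool.Agent.MPaafd8a

namespace TL2Aux

/-- Means of real numbers in an interval. -/
theorem mean_abs {A : Type} [Fintype A] {μ : A → ℝ} (h0 : ∀ a, 0 ≤ μ a) (h1 : ∑ a, μ a = 1) {f : A → ℝ}
    {C : ℝ} (hf : ∀ a, μ a ≠ 0 → |f a| ≤ C) : |∑ a, μ a * f a| ≤ C := by
  calc |∑ a, μ a * f a| ≤ ∑ a, |μ a * f a| := Finset.abs_sum_le_sum_abs _ _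
    _ ≤ ∑ a, μ a * C := by
        refine Finset.sum_le_sum fun a _ => ?_
        by_cases h : μ a = 0
        · rw [h, zero_mul, abs_zero, zero_mul]
        · rw [abs_mul, abs_of_nonneg (h0 a)]
          exact mul_le_mul_of_nonneg_left (hf a h) (h0 a)
    _ = C := by rw [← Finset.sum_mul, h1, one_mul]

theorem mean_norm {A : Type} [Fintype A] {μ : A → ℝ} (h0 : ∀ a, 0 ≤ μ a) (h1 : ∑ a, μ a = 1)
    {f : A → Eu 3} {C : ℝ} (hf : ∀ a, μ a ≠ 0 → ‖f a‖ ≤ C) : ‖∑ a, μ a • f a‖ ≤ C := by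
  calc ‖∑ a, μ a • f a‖ ≤ ∑ a, ‖μ a • f a‖ := norm_sum_le _ _
    _ ≤ ∑ a, μ a * C := by
        refine Finset.sum_le_sum fun a _ => ?_
        by_cases h : μ a = 0
        · rw [h, zero_smul, norm_zero, zero_mul]
        · rw [norm_smul, Real.norm_eq_abs, abs_of_nonneg (h0 a)]
          exact mul_le_mul_of_nonneg_left (hf a h) (h0 a)
    _ = C := by rw [← Finset.sum_mul, h1, one_mul]

/-- The weights of the means. -/
theorem exists_mu {A : Type} [Fintype A] (l : A → Fin 5) (α : A → ℝ) (hl : Function.Surjective l)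
    (hα : ∀ a, 0 < α a) (u : Fin 5 → Eu 3) (x : A → Eu 3) :
    ∃ μ : Fin 5 → A → ℝ, (∀ i a, 0 ≤ μ i a) ∧ (∀ i, ∑ a, μ i a = 1) ∧ (∀ i a, μ i a ≠ 0 → l a = i) ∧
      ∀ i, lm l α x i - u i = ∑ a, μ i a • (x a - u (l a)) := by
  have hpos : ∀ i, 0 < lw l α i := by
    intro i
    obtain ⟨a, ha⟩ := hl i
    unfold lw
    refine Finset.sum_pos' (fun b _ => ?_) ⟨a, Finset.mem_univ _, ?_⟩
    · split
      · exact (hα b).le
      · exact le_rfl
    · rw [if_pos ha]
      exact hα a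
  refine ⟨fun i a => (lw l α i)⁻¹ * (if l a = i then α a else 0), fun i a => ?_, fun i => ?_,
    fun i a h => ?_, fun i => ?_⟩
  · refine mul_nonneg (inv_nonneg.2 (hpos i).le) ?_
    split
    · exact (hα a).le
    · exact le_rfl
  · rw [← Finset.mul_sum]
    exact inv_mul_cancel₀ (hpos i).ne'
  · by_contra hne
    exact h (by simp only [if_neg hne, mul_zero])
  · have h1 : u i = ∑ a, ((lw l α i)⁻¹ * (if l a = i then α a else 0)) • u i := by
      rw [← Finset.sum_smul, ← Finset.mul_sum]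
      change u i = ((lw l α i)⁻¹ * lw l α i) • u i
      rw [inv_mul_cancel₀ (hpos i).ne', one_smul]
    have h2 : lm l α x i = ∑ a, ((lw l α i)⁻¹ * (if l a = i then α a else 0)) • x a := by
      unfold lm
      rw [Finset.smul_sum]
      refine Finset.sum_congr rfl fun a _ => ?_
      by_cases h : l a = i
      · rw [if_pos h, if_pos h, smul_smul]
      · rw [if_neg h, if_neg h, smul_zero, mul_zero, zero_smul]
    rw [h2]
    conv_lhs => rw [h1]
    rw [← Finset.sum_sub_distrib]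
    refine Finset.sum_congr rfl fun a _ => ?_
    by_cases h : l a = i
    · simp only [if_pos h, h, smul_sub]
    · simp only [if_neg h, mul_zero, zero_smul, sub_zero]

theorem Xi_apply (u t : Fin 5 → Eu 3) (z : Eu 3) :
    Xi u t z = (4 / 5 : ℝ) • ∑ i, ⟪u i, z⟫ • (t i - u i) := by
  unfold Xi
  rw [ContinuousLinearMap.smul_apply, ContinuousLinearMap.sum_apply]
  rfl

end TL2Aux

open TL2Aux

theorem pTL2 : SAlg → STL2 := by
  intro hAlg u A B _ _ x y l m α ρ e hu hl hm hα hx hy hρe hcon hBal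
  obtain ⟨hsum, -, -, hbd, -⟩ := hAlg u hu
  obtain ⟨a0, -⟩ := hl 0
  have hρ0 : 0 ≤ ρ := (norm_nonneg _).trans (hx a0)
  have he0 : 0 ≤ e := (sq_nonneg ρ).trans hρe
  obtain ⟨μ, hμ0, hμ1, hμl, hμx⟩ := exists_mu l α hl hα u fun a => (x a : Eu 3)
  set t : Fin 5 → Eu 3 := lm l α fun a => (x a : Eu 3) with ht
  set X : Eu 3 →L[ℝ] Eu 3 := Xi u t with hX
  -- symmetry
  have hsym : ∀ z z', ⟪X z, z'⟫ = ⟪z, X z'⟫ := by
    intro z z'
    have h1 := hBal z' z
    rw [hX, Xi_apply, Xi_apply, inner_smul_left, inner_smul_right, sum_inner, inner_sum]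
    simp only [inner_smul_left, inner_smul_right, RCLike.conj_to_real, inner_sub_left, inner_sub_right]
    congr 1
    rw [← sub_eq_zero, ← Finset.sum_sub_distrib, ← h1]
    refine Finset.sum_congr rfl fun i _ => ?_
    rw [real_inner_comm (t i) z, real_inner_comm (u i) z]
    ring
  -- the means
  have hmn : ∀ i, ‖t i - u i‖ ≤ ρ := by
    intro i
    rw [hμx i]
    exact mean_norm (hμ0 i) (hμ1 i) fun a _ => hx a
  have hnorm : ‖X‖ ≤ 4 * ρ := by
    refine ContinuousLinearMap.opNorm_le_bound _ (by positivity) fun z => ?_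
    rw [hX, Xi_apply, norm_smul]
    have h1 : ‖∑ i, ⟪u i, z⟫ • (t i - u i)‖ ≤ ∑ _i : Fin 5, ‖z‖ * ρ := by
      refine (norm_sum_le _ _).trans (Finset.sum_le_sum fun i _ => ?_)
      rw [norm_smul]
      refine mul_le_mul ?_ (hmn i) (norm_nonneg _) (norm_nonneg _)
      have := abs_real_inner_le_norm (u i) z
      rw [hu.1 i, one_mul] at this
      exact this
    rw [Finset.sum_const, Finset.card_univ, Fintype.card_fin, nsmul_eq_mul] at h1
    have h2 : ‖(4 / 5 : ℝ)‖ = 4 / 5 := by norm_num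
    rw [h2]
    push_cast at h1
    linarith
  -- comparison with the second family
  have H2 : ∀ i b, |⟪u i, (y b : Eu 3) + u (m b)⟫ - ⟪t i - u i, u (m b)⟫| ≤ e := by
    intro i b
    have h1 : ⟪u i, (y b : Eu 3) + u (m b)⟫ - ⟪t i - u i, u (m b)⟫ = ∑ a, μ i a *
        (⟪u i, (y b : Eu 3) + u (m b)⟫ - ⟪(x a : Eu 3) - u (l a), u (m b)⟫) := by
      simp only [mul_sub]
      rw [Finset.sum_sub_distrib, ← Finset.sum_mul, hμ1, one_mul, hμx i, sum_inner]
      congr 1
      refine Finset.sum_congr rfl fun a _ => ?_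
      rw [inner_smul_left]
      rfl
    rw [h1]
    refine mean_abs (hμ0 i) (hμ1 i) fun a ha => ?_
    have h2 := hcon a b
    rw [hμl i a ha] at h2
    rw [hμl i a ha]
    exact h2
  have hS : ‖∑ i, (t i - u i)‖ ≤ 2 * (5 * e) := by
    refine hbd _ _ (by positivity) fun k => ?_
    obtain ⟨b, rfl⟩ := hm k
    have h1 : ⟪∑ i, (t i - u i), u (m b)⟫ =
        -∑ i, (⟪u i, (y b : Eu 3) + u (m b)⟫ - ⟪t i - u i, u (m b)⟫) := by
      rw [Finset.sum_sub_distrib (f := fun i => ⟪u i, (y b : Eu 3) + u (m b)⟫), ← sum_inner, ← sum_inner,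
        hsum, inner_zero_left, zero_sub, neg_neg]
    rw [h1, abs_neg]
    refine (Finset.abs_sum_le_sum_abs _ _).trans ?_
    refine (Finset.sum_le_sum fun i _ => H2 i b).trans ?_
    rw [Finset.sum_const, Finset.card_univ, Fintype.card_fin, nsmul_eq_mul]
    push_cast
    exact le_rfl
  have hXu : ∀ j, t j - u j - X (u j) = (1 / 5 : ℝ) • ∑ i, (t i - u i) := by
    intro j
    have h1 : ∑ i, ⟪u i, u j⟫ • (t i - u i) = (5 / 4 : ℝ) • (t j - u j) - (1 / 4 : ℝ) • ∑ i, (t i - u i) := by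
      have h2 : ∀ i, ⟪u i, u j⟫ • (t i - u i) = (if i = j then (5 / 4 : ℝ) • (t j - u j) else 0) -
          (1 / 4 : ℝ) • (t i - u i) := by
        intro i
        by_cases h : i = j
        · subst h
          rw [if_pos rfl, real_inner_self_eq_norm_sq, hu.1 i, ← sub_smul]
          norm_num
        · rw [if_neg h, hu.2 i j h, zero_sub, neg_smul]
      rw [Finset.sum_congr rfl fun i _ => h2 i, Finset.sum_sub_distrib, Finset.sum_ite_eq',
        if_pos (Finset.mem_univ j), Finset.smul_sum]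
    rw [hX, Xi_apply, h1, smul_sub, smul_smul, smul_smul]
    norm_num
  have hXb : ∀ j, ‖t j - u j - X (u j)‖ ≤ 2 * e := by
    intro j
    rw [hXu j, norm_smul]
    have h2 : ‖(1 / 5 : ℝ)‖ = 1 / 5 := by norm_num
    rw [h2]
    linarith
  have hA : ∀ a, ‖(x a : Eu 3) - u (l a) - (t (l a) - u (l a))‖ ≤ 4 * e := by
    intro a
    have h1 : ‖(x a : Eu 3) - u (l a) - (t (l a) - u (l a))‖ ≤ 2 * (2 * e) := by
      refine hbd _ _ (by positivity) fun k => ?_
      obtain ⟨b, rfl⟩ := hm k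
      have h2 := abs_le.1 (hcon a b)
      have h3 := abs_le.1 (H2 (l a) b)
      rw [inner_sub_left, abs_le]
      constructor
      · linarith [h2.1, h2.2, h3.1, h3.2]
      · linarith [h2.1, h2.2, h3.1, h3.2]
    linarith
  refine ⟨hsym, hnorm, ?_, ?_, ?_⟩
  · intro a
    have h1 : (x a : Eu 3) - u (l a) - X (u (l a)) =
        ((x a : Eu 3) - u (l a) - (t (l a) - u (l a))) + (t (l a) - u (l a) - X (u (l a))) := by
      abel
    rw [h1]
    refine (norm_add_le _ _).trans ?_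
    linarith [hA a, hXb (l a)]
  · intro b
    have h1 : ‖(y b : Eu 3) + u (m b) - X (u (m b))‖ ≤ 2 * (3 * e) := by
      refine hbd _ _ (by positivity) fun i => ?_
      have h2 := abs_le.1 (H2 i b)
      have h3 : |⟪t i - u i - X (u i), u (m b)⟫| ≤ 2 * e := by
        refine (abs_real_inner_le_norm _ _).trans ?_
        rw [hu.1, mul_one]
        exact hXb i
      rw [inner_sub_left, hsym (u i) (u (m b))] at h3
      have h4 := abs_le.1 h3
      rw [inner_sub_left, real_inner_comm, real_inner_comm (u i) (X (u (m b))), abs_le]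
      constructor
      · linarith [h2.1, h2.2, h4.1, h4.2]
      · linarith [h2.1, h2.2, h4.1, h4.2]
    linarith
  · intro i
    have h1 : |⟪t i - u i, u i⟫| ≤ e / 2 := by
      have h2 : ⟪t i - u i, u i⟫ = ∑ a, μ i a * ⟪(x a : Eu 3) - u (l a), u i⟫ := by
        rw [hμx i, sum_inner]
        refine Finset.sum_congr rfl fun a _ => ?_
        rw [inner_smul_left]
        rfl
      rw [h2]
      refine mean_abs (hμ0 i) (hμ1 i) fun a ha => ?_
      have hla := hμl i a ha
      have h3 : ‖(x a : Eu 3)‖ = 1 := mem_sphere_zero_iff_norm.1 (x a).2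
      have h4 : ‖((x a : Eu 3) - u (l a)) + u (l a)‖ ^ 2 = 1 := by
        rw [sub_add_cancel, h3, one_pow]
      rw [norm_add_sq_real, hu.1, hla] at h4
      have h5 : ‖(x a : Eu 3) - u i‖ ^ 2 ≤ ρ ^ 2 := by
        have := hx a
        rw [hla] at this
        exact pow_le_pow_left₀ (norm_nonneg _) this 2
      have h6 : 0 ≤ ‖(x a : Eu 3) - u i‖ ^ 2 := sq_nonneg _
      rw [hla, abs_le]
      constructor <;> linarith
    have h3 : |⟪t i - u i - X (u i), u i⟫| ≤ 2 * e := by
      refine (abs_real_inner_le_norm _ _).trans ?_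
      rw [hu.1, mul_one]
      exact hXb i
    rw [inner_sub_left] at h3
    have h4 := abs_le.1 h3
    have h5 := abs_le.1 h1
    rw [abs_le]
    constructor
    · linarith [h4.1, h4.2, h5.1, h5.2]
    · linarith [h4.1, h4.2, h5.1, h5.2]

end Pool.Agent.MPaafd8a
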