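import Pool.Agent.Lib.MP_aafd8a_gt_D.SpecA

/-!
# MP_aafd8a_gt, disproof for `n = 3`: moments of a perturbed simplex
-/

set_option autoImplicit false

open Topology RealInnerProductSpace

namespace Pool.Agent.MPaafd8a

namespace TL3Aux

private theorem rearr {A M : Type} [Fintype A] [AddCommGroup M] [Module ℝ M] (l : A → Fin 5)
    (α : A → ℝ) (F : Fin 5 → M) : ∑ a, α a • F (l a) = ∑ i, lw l α i • F i := by
  simp only [lw, Finset.sum_smul, ite_smul, zero_smul]
  rw [Finset.sum_comm]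
  refine Finset.sum_congr rfl fun a _ => ?_
  rw [Finset.sum_ite_eq, if_pos (Finset.mem_univ _)]

private theorem ssub {M : Type} [AddCommGroup M] [Module ℝ M] (p q : Fin 5 → ℝ)
    (F : Fin 5 → M) : ∑ i, (p i - q i) • F i = ∑ i, p i • F i - ∑ i, q i • F i := by
  rw [← Finset.sum_sub_distrib]
  exact Finset.sum_congr rfl fun i _ => sub_smul _ _ _

private theorem sadd {M : Type} [AddCommGroup M] [Module ℝ M] (p q : Fin 5 → ℝ) (c : ℝ)
    (F : Fin 5 → M) : ∑ i, (p i + q i - c) • F i =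
      ∑ i, p i • F i + ∑ i, q i • F i - c • ∑ i, F i := by
  rw [Finset.smul_sum, ← Finset.sum_add_distrib, ← Finset.sum_sub_distrib]
  exact Finset.sum_congr rfl fun i _ => by rw [sub_smul, add_smul]

private theorem wb {A M : Type} [Fintype A] [NormedAddCommGroup M] [NormedSpace ℝ M] (α : A → ℝ)
    (h0 : ∀ a, 0 ≤ α a) (h1 : ∑ a, α a = 1) (F : A → M) (C : ℝ) (hF : ∀ a, ‖F a‖ ≤ C) :
    ‖∑ a, α a • F a‖ ≤ C := by
  calc ‖∑ a, α a • F a‖ ≤ ∑ a, α a * C := by
        refine norm_sum_le_of_le _ fun a _ => ?_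
        rw [norm_smul, Real.norm_of_nonneg (h0 a)]
        exact mul_le_mul_of_nonneg_left (hF a) (h0 a)
    _ = C := by rw [← Finset.sum_mul, h1, one_mul]

private theorem sb {M : Type} [NormedAddCommGroup M] [NormedSpace ℝ M] (r : Fin 5 → ℝ)
    (F : Fin 5 → M) (μ C : ℝ) (hr : ∀ i, |r i| ≤ 2 * μ) (hF : ∀ i, ‖F i‖ ≤ C) :
    ‖∑ i, r i • F i‖ ≤ 10 * μ * C := by
  calc ‖∑ i, r i • F i‖ ≤ ∑ _i : Fin 5, 2 * μ * C := by
        refine norm_sum_le_of_le _ fun i _ => ?_
        rw [norm_smul, Real.norm_eq_abs]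
        exact mul_le_mul (hr i) (hF i) (norm_nonneg _) ((abs_nonneg _).trans (hr i))
    _ = 10 * μ * C := by
        rw [Finset.sum_const, Finset.card_univ, Fintype.card_fin, nsmul_eq_mul]
        push_cast
        ring

private theorem norm_ro (x y : Eu 3) : ‖ro x y‖ = ‖x‖ * ‖y‖ := by
  rw [ro, ContinuousLinearMap.norm_smulRight_apply, innerSL_apply_norm]

private theorem tp_split (u ξ w : Eu 3) : tp (u + ξ) =
    tp u + (ro u w + ro w u) + (ro u (ξ - w) + ro (ξ - w) u + tp ξ) := by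
  ext1 z
  simp only [tp_apply, ro_apply, add_apply, inner_add_left, inner_sub_left]
  module

private theorem tp_split' (u ξ w : Eu 3) : tp (-u + ξ) =
    tp u - (ro u w + ro w u) + (-ro u (ξ - w) - ro (ξ - w) u + tp ξ) := by
  ext1 z
  simp only [tp_apply, ro_apply, add_apply, sub_apply,
    neg_apply, inner_add_left, inner_sub_left, inner_neg_left]
  module

private theorem err_le {u ξ w : Eu 3} {ρ e : ℝ} (hu : ‖u‖ = 1) (h1 : ‖ξ‖ ≤ ρ) (h2 : ρ ^ 2 ≤ e)
    (h3 : ‖ξ - w‖ ≤ 6 * e) : ‖ro u (ξ - w) + ro (ξ - w) u + tp ξ‖ ≤ 13 * e := by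
  have h4 : ‖ro u (ξ - w)‖ ≤ 6 * e := by rw [norm_ro, hu, one_mul]; exact h3
  have h5 : ‖ro (ξ - w) u‖ ≤ 6 * e := by rw [norm_ro, hu, mul_one]; exact h3
  have h6 : ‖tp ξ‖ ≤ e := by
    rw [tp, norm_ro]
    have h7 := norm_nonneg ξ
    nlinarith
  calc ‖ro u (ξ - w) + ro (ξ - w) u + tp ξ‖ ≤ ‖ro u (ξ - w)‖ + ‖ro (ξ - w) u‖ + ‖tp ξ‖ :=
        norm_add₃_le
    _ ≤ 13 * e := by linarith

private theorem err_le' {u ξ w : Eu 3} {ρ e : ℝ} (hu : ‖u‖ = 1) (h1 : ‖ξ‖ ≤ ρ) (h2 : ρ ^ 2 ≤ e)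
    (h3 : ‖ξ - w‖ ≤ 6 * e) : ‖-ro u (ξ - w) - ro (ξ - w) u + tp ξ‖ ≤ 13 * e := by
  have h4 : ‖ro u (ξ - w)‖ ≤ 6 * e := by rw [norm_ro, hu, one_mul]; exact h3
  have h5 : ‖ro (ξ - w) u‖ ≤ 6 * e := by rw [norm_ro, hu, mul_one]; exact h3
  have h6 : ‖tp ξ‖ ≤ e := by
    rw [tp, norm_ro]
    have h7 := norm_nonneg ξ
    nlinarith
  calc ‖-ro u (ξ - w) - ro (ξ - w) u + tp ξ‖ =
        ‖-ro u (ξ - w) + -ro (ξ - w) u + tp ξ‖ := by rw [sub_eq_add_neg]
    _ ≤ ‖-ro u (ξ - w)‖ + ‖-ro (ξ - w) u‖ + ‖tp ξ‖ := norm_add₃_le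
    _ ≤ 13 * e := by rw [norm_neg, norm_neg]; linarith

end TL3Aux

open TL3Aux

/-- **Moments of a perturbed simplex**. -/
theorem pTL3 : SAlg → STL3 := by
  intro hAlg u A B _ _ x y l m α β ρ e μ X hu hα0 hα1 hβ0 hβ1 hx hy hρ hX hxX hyX hμ
  obtain ⟨-, hT, -, -, -⟩ := hAlg u hu
  have hXu : ∀ i, ‖X (u i)‖ ≤ ‖X‖ := by
    intro i
    have h := X.le_opNorm (u i)
    rwa [hu.1 i, mul_one] at h
  have hPQ : ∀ i, |lw l α i - lw m β i| ≤ 2 * μ := by
    intro i
    have h1 := abs_le.1 (hμ i).1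
    have h2 := abs_le.1 (hμ i).2
    exact abs_le.2 ⟨by linarith [h1.1, h2.2], by linarith [h1.2, h2.1]⟩
  have hPQ' : ∀ i, |lw l α i + lw m β i - 2 / 5| ≤ 2 * μ := by
    intro i
    have h1 := abs_le.1 (hμ i).1
    have h2 := abs_le.1 (hμ i).2
    exact abs_le.2 ⟨by linarith [h1.1, h2.1], by linarith [h1.2, h2.2]⟩
  constructor
  · -- first moments
    have ex : ∑ a, α a • (x a : Eu 3) = ∑ i, lw l α i • u i + ∑ i, lw l α i • X (u i) +
        ∑ a, α a • ((x a : Eu 3) - u (l a) - X (u (l a))) := by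
      rw [← rearr l α u, ← rearr l α fun i => X (u i), ← Finset.sum_add_distrib,
        ← Finset.sum_add_distrib]
      refine Finset.sum_congr rfl fun a _ => ?_
      rw [← smul_add, ← smul_add]
      congr 1
      abel
    have ey : ∑ b, β b • (y b : Eu 3) = -∑ i, lw m β i • u i + ∑ i, lw m β i • X (u i) +
        ∑ b, β b • ((y b : Eu 3) + u (m b) - X (u (m b))) := by
      rw [← rearr m β u, ← rearr m β fun i => X (u i), ← Finset.sum_neg_distrib,
        ← Finset.sum_add_distrib, ← Finset.sum_add_distrib]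
      refine Finset.sum_congr rfl fun b _ => ?_
      rw [← smul_neg, ← smul_add, ← smul_add]
      congr 1
      abel
    have e1 : ∑ a, α a • (x a : Eu 3) - ∑ b, β b • (y b : Eu 3) -
        ∑ i, (lw l α i + lw m β i) • u i =
        ∑ i, (lw l α i - lw m β i) • X (u i) +
          ∑ a, α a • ((x a : Eu 3) - u (l a) - X (u (l a))) -
          ∑ b, β b • ((y b : Eu 3) + u (m b) - X (u (m b))) := by
      rw [ex, ey]
      simp only [add_smul, sub_smul, Finset.sum_add_distrib, Finset.sum_sub_distrib]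
      abel
    rw [e1]
    have n1 := wb α hα0 hα1 (fun a => (x a : Eu 3) - u (l a) - X (u (l a))) _ hxX
    have n2 := wb β hβ0 hβ1 (fun b => (y b : Eu 3) + u (m b) - X (u (m b))) _ hyX
    have n3 := sb (fun i => lw l α i - lw m β i) (fun i => X (u i)) μ ‖X‖ hPQ hXu
    refine (norm_sub_le _ _).trans ?_
    refine (add_le_add ((norm_add_le _ _).trans (add_le_add n3 n1)) n2).trans ?_
    linarith
  · -- second moments
    have ex : ∑ a, α a • tp (x a : Eu 3) = ∑ i, lw l α i • tp (u i) +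
        ∑ i, lw l α i • (ro (u i) (X (u i)) + ro (X (u i)) (u i)) +
        ∑ a, α a • (ro (u (l a)) ((x a : Eu 3) - u (l a) - X (u (l a))) +
          ro ((x a : Eu 3) - u (l a) - X (u (l a))) (u (l a)) + tp ((x a : Eu 3) - u (l a))) := by
      rw [← rearr l α fun i => tp (u i),
        ← rearr l α fun i => ro (u i) (X (u i)) + ro (X (u i)) (u i), ← Finset.sum_add_distrib,
        ← Finset.sum_add_distrib]
      refine Finset.sum_congr rfl fun a _ => ?_
      rw [← smul_add, ← smul_add]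
      congr 1
      have h := tp_split (u (l a)) ((x a : Eu 3) - u (l a)) (X (u (l a)))
      rw [add_sub_cancel] at h
      exact h
    have ey : ∑ b, β b • tp (y b : Eu 3) = ∑ i, lw m β i • tp (u i) -
        ∑ i, lw m β i • (ro (u i) (X (u i)) + ro (X (u i)) (u i)) +
        ∑ b, β b • (-ro (u (m b)) ((y b : Eu 3) + u (m b) - X (u (m b))) -
          ro ((y b : Eu 3) + u (m b) - X (u (m b))) (u (m b)) + tp ((y b : Eu 3) + u (m b))) := by
      rw [← rearr m β fun i => tp (u i),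
        ← rearr m β fun i => ro (u i) (X (u i)) + ro (X (u i)) (u i), ← Finset.sum_sub_distrib,
        ← Finset.sum_add_distrib]
      refine Finset.sum_congr rfl fun b _ => ?_
      rw [← smul_sub, ← smul_add]
      congr 1
      have h := tp_split' (u (m b)) ((y b : Eu 3) + u (m b)) (X (u (m b)))
      rw [show -u (m b) + ((y b : Eu 3) + u (m b)) = (y b : Eu 3) by abel] at h
      exact h
    -- the sum of the mixed terms
    have hY : ∑ i, (ro (u i) (X (u i)) + ro (X (u i)) (u i)) = (5 / 2 : ℝ) • X := by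
      ext1 z
      rw [sum_apply, smul_apply]
      simp only [add_apply, ro_apply]
      rw [Finset.sum_add_distrib]
      have h1 : ∑ i, ⟪u i, z⟫ • X (u i) = (5 / 4 : ℝ) • X z := by
        have h2 := congrArg X (hT z)
        rw [map_sum, map_smul] at h2
        rw [← h2]
        refine Finset.sum_congr rfl fun i _ => ?_
        rw [map_smul, real_inner_comm]
      have h3 : ∑ i, ⟪X (u i), z⟫ • u i = (5 / 4 : ℝ) • X z := by
        rw [← hT (X z)]
        refine Finset.sum_congr rfl fun i _ => ?_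
        rw [hX, real_inner_comm]
      rw [h1, h3, ← add_smul]
      norm_num
    have e1 : ∑ a, α a • tp (x a : Eu 3) - ∑ b, β b • tp (y b : Eu 3) -
        ∑ i, (lw l α i - lw m β i) • tp (u i) - X =
        ∑ i, (lw l α i + lw m β i - 2 / 5) • (ro (u i) (X (u i)) + ro (X (u i)) (u i)) +
        ∑ a, α a • (ro (u (l a)) ((x a : Eu 3) - u (l a) - X (u (l a))) +
          ro ((x a : Eu 3) - u (l a) - X (u (l a))) (u (l a)) + tp ((x a : Eu 3) - u (l a))) -
        ∑ b, β b • (-ro (u (m b)) ((y b : Eu 3) + u (m b) - X (u (m b))) -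
          ro ((y b : Eu 3) + u (m b) - X (u (m b))) (u (m b)) + tp ((y b : Eu 3) + u (m b))) := by
      have h5 : ∑ i, (lw l α i + lw m β i - 2 / 5) • (ro (u i) (X (u i)) + ro (X (u i)) (u i)) =
          ∑ i, lw l α i • (ro (u i) (X (u i)) + ro (X (u i)) (u i)) +
          ∑ i, lw m β i • (ro (u i) (X (u i)) + ro (X (u i)) (u i)) - X := by
        have h7 : (2 / 5 : ℝ) • ((5 / 2 : ℝ) • X) = X := by
          rw [smul_smul]
          norm_num
        exact (sadd _ _ _ _).trans (by rw [hY, h7])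
      rw [h5, ex, ey]
      have h6 : ∑ i, (lw l α i - lw m β i) • tp (u i) =
          ∑ i, lw l α i • tp (u i) - ∑ i, lw m β i • tp (u i) := ssub _ _ _
      rw [h6]
      abel
    rw [e1]
    have n1 := wb α hα0 hα1 (fun a => ro (u (l a)) ((x a : Eu 3) - u (l a) - X (u (l a))) +
      ro ((x a : Eu 3) - u (l a) - X (u (l a))) (u (l a)) + tp ((x a : Eu 3) - u (l a))) (13 * e)
      fun a => err_le (hu.1 _) (hx a) hρ (hxX a)
    have n2 := wb β hβ0 hβ1 (fun b => -ro (u (m b)) ((y b : Eu 3) + u (m b) - X (u (m b))) -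
      ro ((y b : Eu 3) + u (m b) - X (u (m b))) (u (m b)) + tp ((y b : Eu 3) + u (m b))) (13 * e)
      fun b => err_le' (hu.1 _) (hy b) hρ (hyX b)
    have n3 := sb (fun i => lw l α i + lw m β i - 2 / 5)
      (fun i => ro (u i) (X (u i)) + ro (X (u i)) (u i)) μ (2 * ‖X‖) hPQ' (by
        intro i
        refine (norm_add_le _ _).trans ?_
        rw [norm_ro, norm_ro, hu.1 i, one_mul, mul_one]
        linarith [hXu i])
    refine (norm_sub_le _ _).trans ?_
    refine (add_le_add ((norm_add_le _ _).trans (add_le_add n3 n1)) n2).trans ?_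
    linarith

end Pool.Agent.MPaafd8a
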