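import Pool.Agent.Lib.MP_aafd8a_gt_D.SpecA

/-!
# MP_aafd8a_gt, block (A-i): the bootstrap
-/

set_option autoImplicit false

open Topology RealInnerProductSpace

namespace Pool.Agent.MPaafd8a

namespace TL4Aux

theorem inner_u {u : Fin 5 → Eu 3} (hu : IsS u) (i j : Fin 5) :
    ⟪u i, u j⟫ = -(1 / 4 : ℝ) + (if i = j then 5 / 4 else 0) := by
  by_cases h : i = j
  · subst h
    rw [if_pos rfl, real_inner_self_eq_norm_sq, hu.1 i]
    norm_num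
  · rw [if_neg h, hu.2 i j h, add_zero]

theorem sum_in {u : Fin 5 → Eu 3} (hu : IsS u) (c : Fin 5 → ℝ) (j : Fin 5) :
    ∑ i, c i * ⟪u i, u j⟫ = 5 / 4 * c j - 1 / 4 * ∑ i, c i := by
  have h : ∀ i, c i * ⟪u i, u j⟫ = -(1 / 4) * c i + (if i = j then 5 / 4 * c i else 0) := by
    intro i
    rw [inner_u hu]
    split_ifs <;> ring
  simp only [h]
  rw [Finset.sum_add_distrib, ← Finset.mul_sum, Finset.sum_ite_eq' Finset.univ j, if_pos (Finset.mem_univ j)]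
  ring

theorem sum_sq {u : Fin 5 → Eu 3} (hu : IsS u) (c : Fin 5 → ℝ) (j : Fin 5) :
    ∑ i, c i * ⟪u i, u j⟫ ^ 2 = 15 / 16 * c j + 1 / 16 * ∑ i, c i := by
  have h : ∀ i, c i * ⟪u i, u j⟫ ^ 2 = 1 / 16 * c i + (if i = j then 15 / 16 * c i else 0) := by
    intro i
    rw [inner_u hu]
    split_ifs <;> ring
  simp only [h]
  rw [Finset.sum_add_distrib, ← Finset.mul_sum, Finset.sum_ite_eq' Finset.univ j, if_pos (Finset.mem_univ j)]
  ring

theorem norm_tp {x : Eu 3} (hx : ‖x‖ = 1) : ‖tp x‖ ≤ 1 := by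
  refine ContinuousLinearMap.opNorm_le_bound _ zero_le_one fun z => ?_
  rw [tp_apply, norm_smul, hx, mul_one, one_mul]
  have := norm_inner_le_norm (𝕜 := ℝ) x z
  rwa [hx, one_mul] at this

theorem norm_sum_tp {u : Fin 5 → Eu 3} (hu : IsS u) (c : Fin 5 → ℝ) (C : ℝ) (hc : ∀ i, |c i| ≤ C) :
    ‖∑ i, c i • tp (u i)‖ ≤ 5 * C := by
  calc ‖∑ i, c i • tp (u i)‖ ≤ ∑ i, ‖c i • tp (u i)‖ := norm_sum_le _ _
    _ ≤ ∑ _i : Fin 5, C := by
        refine Finset.sum_le_sum fun i _ => ?_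
        rw [norm_smul, Real.norm_eq_abs]
        have h1 := norm_tp (hu.1 i)
        have h2 := hc i
        have h3 := abs_nonneg (c i)
        have h4 := norm_nonneg (tp (u i))
        nlinarith
    _ = 5 * C := by simp

theorem inner_bd {u : Fin 5 → Eu 3} (hu : IsS u) (v : Eu 3) (C : ℝ) (hv : ‖v‖ ≤ C) (j : Fin 5) :
    |⟪v, u j⟫| ≤ C := by
  have h := abs_real_inner_le_norm v (u j)
  rw [hu.1 j, mul_one] at h
  exact h.trans hv

theorem op_bd {u : Fin 5 → Eu 3} (hu : IsS u) (N : Eu 3 →L[ℝ] Eu 3) (C : ℝ) (hN : ‖N‖ ≤ C) (j : Fin 5) :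
    |⟪N (u j), u j⟫| ≤ C := by
  refine inner_bd hu _ C ?_ j
  have h := N.le_opNorm (u j)
  rw [hu.1 j, mul_one] at h
  exact h.trans hN

/-- The numerical part. -/
theorem num {ε ρ e μ n ω s : ℝ} (hε0 : 0 ≤ ε) (hε1 : ε ≤ 1 / 10 ^ 10) (hρ0 : 0 ≤ ρ) (hρ1 : ρ ≤ 1 / 20000)
    (he : e = 24 * (ε + ρ ^ 2)) (hω0 : 0 ≤ ω) (hω1 : ω ≤ 1 / 1000) (hμ0 : 0 ≤ μ) (hn0 : 0 ≤ n)
    (hρX : ρ ≤ n + 6 * e) (hXρ : n ≤ 4 * ρ) (h3 : μ ≤ ω + 21 * e + 15 * (μ * n))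
    (h4 : s ≤ 198 * e + 140 * (μ * n)) (h5 : n ≤ 7 * ω + s) :
    s + 6 * e ≤ 3 * 10 ^ 6 * (ε + ω ^ 2) ∧ 21 * e + 15 * (μ * n) ≤ 3 * 10 ^ 6 * (ε + ω ^ 2) := by
  have he0 : 0 ≤ e := by rw [he]; positivity
  have hn1 : n ≤ 1 / 5000 := by linarith
  have hμn : μ * n ≤ μ * (1 / 5000) := mul_le_mul_of_nonneg_left hn1 hμ0
  have a1 : μ ≤ 2 * ω + 22 * e := by linarith
  have a2 : n ≤ 8 * ω + 199 * e := by linarith
  have hρ2 : ρ ^ 2 ≤ ρ * (1 / 20000) := by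
    rw [sq]
    exact mul_le_mul_of_nonneg_left hρ1 hρ0
  have hρ3 : ρ ^ 2 ≤ (1 / 20000) ^ 2 := pow_le_pow_left₀ hρ0 hρ1 2
  have a3 : e ≤ 24 * ε + 12 / 10000 * ρ := by rw [he]; linarith
  have a4 : ρ ≤ 11 * ω + 6600 * ε := by linarith
  have a5 : ρ ^ 2 ≤ 2 * (121 * ω ^ 2 + 6600 ^ 2 * ε ^ 2) := by
    have h := pow_le_pow_left₀ hρ0 a4 2
    nlinarith [sq_nonneg (11 * ω - 6600 * ε)]
  have a6 : ε ^ 2 ≤ ε * (1 / 10 ^ 10) := by
    rw [sq]
    exact mul_le_mul_of_nonneg_left hε1 hε0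
  have a7 : e ≤ 25 * ε + 5808 * ω ^ 2 := by rw [he]; linarith
  have a8 : e ≤ 1 / 10 ^ 7 := by rw [he]; norm_num at hρ3 hε1 ⊢; linarith
  have hω2 : 0 ≤ ω ^ 2 := sq_nonneg ω
  have a9 : μ * n ≤ 16 * ω ^ 2 + e := by
    have h : μ * n ≤ (2 * ω + 22 * e) * (8 * ω + 199 * e) := mul_le_mul a1 a2 hn0 (by positivity)
    have h1 : ω * e ≤ 1 / 1000 * e := mul_le_mul_of_nonneg_right hω1 he0
    have h2 : e * e ≤ 1 / 10 ^ 7 * e := mul_le_mul_of_nonneg_right a8 he0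
    nlinarith
  constructor
  · linarith
  · linarith

end TL4Aux

open TL4Aux

theorem pTL4 (_h : SAlg) : STL4 := by
  intro u w P Q X ε ρ e μ hu hε0 hε1 hρ0 hρ1 he hw hP hQ hμ hμa hρX hXρ hX h1 h2
  have hω0 := norm_nonneg w
  have hn0 := norm_nonneg X
  have hμ0 : 0 ≤ μ := (abs_nonneg _).trans (hμ 0).1
  have he0 : 0 ≤ e := by rw [he]; positivity
  have hw1 : ‖w.1‖ ≤ ‖w‖ := norm_fst_le w
  have hw2 : ‖w.2‖ ≤ ‖w‖ := norm_snd_le w
  have A1 : ∀ j, |⟪w.1, u j⟫ - (5 / 4 * (P j + Q j) - 1 / 2)| ≤ 12 * e + 10 * μ * ‖X‖ := by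
    intro j
    have h := inner_bd hu _ _ h1 j
    rw [inner_sub_left, sum_inner] at h
    simp only [real_inner_smul_left] at h
    rw [sum_in hu (fun i => P i + Q i) j, Finset.sum_add_distrib, hP, hQ] at h
    convert h using 3
    ring
  have A2 : ∀ j, |⟪w.2 (u j), u j⟫ - 15 / 16 * (P j - Q j)| ≤ 29 * e + 20 * μ * ‖X‖ := by
    intro j
    have h := op_bd hu _ _ h2 j
    simp only [ContinuousLinearMap.sub_apply, ContinuousLinearMap.sum_apply, ContinuousLinearMap.smul_apply,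
      tp_apply] at h
    rw [inner_sub_left, inner_sub_left, sum_inner] at h
    have h3 : ∑ i, ⟪(P i - Q i) • ⟪u i, u j⟫ • u i, u j⟫ = ∑ i, (P i - Q i) * ⟪u i, u j⟫ ^ 2 := by
      refine Finset.sum_congr rfl fun i _ => ?_
      rw [real_inner_smul_left, real_inner_smul_left, sq]
    rw [h3, sum_sq hu (fun i => P i - Q i) j, Finset.sum_sub_distrib, hP, hQ] at h
    have h4 := hX j
    rw [abs_le] at h h4 ⊢
    constructor <;> linarith
  have A3 : ∀ j, |P j - Pm u w j| ≤ 21 * e + 15 * (μ * ‖X‖) ∧ |Q j - Qm u w j| ≤ 21 * e + 15 * (μ * ‖X‖) := by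
    intro j
    have h3 := A1 j
    have h4 := A2 j
    have h5 : 0 ≤ μ * ‖X‖ := mul_nonneg hμ0 hn0
    rw [abs_le] at h3 h4
    unfold Pm Qm
    constructor
    · rw [abs_le]
      constructor <;> linarith
    · rw [abs_le]
      constructor <;> linarith
  have B1 : ∀ j, |⟪w.1, u j⟫| ≤ ‖w‖ := fun j => inner_bd hu _ _ hw1 j
  have B2 : ∀ j, |⟪w.2 (u j), u j⟫| ≤ ‖w‖ := fun j => op_bd hu _ _ hw2 j
  have B3 : μ ≤ ‖w‖ + 21 * e + 15 * (μ * ‖X‖) := by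
    have h : ∀ j, |P j - 1 / 5| ≤ ‖w‖ + 21 * e + 15 * (μ * ‖X‖) ∧
        |Q j - 1 / 5| ≤ ‖w‖ + 21 * e + 15 * (μ * ‖X‖) := by
      intro j
      have h3 := (A3 j).1
      have h4 := (A3 j).2
      have h5 := B1 j
      have h6 := B2 j
      unfold Pm at h3
      unfold Qm at h4
      rw [abs_le] at h3 h4 h5 h6
      constructor
      · rw [abs_le]
        constructor <;> linarith
      · rw [abs_le]
        constructor <;> linarith
    obtain ⟨i, hi | hi⟩ := hμa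
    · rw [hi] at h ⊢
      exact (h i).1
    · rw [hi] at h ⊢
      exact (h i).2
  have B4 : ‖Sm u w - X‖ ≤ 198 * e + 140 * (μ * ‖X‖) := by
    have h3 : Sm u w - X = (w.2 - ∑ i, (P i - Q i) • tp (u i) - X) +
        ∑ i, (P i - Q i - 16 / 15 * ⟪w.2 (u i), u i⟫) • tp (u i) := by
      have e1 : ∑ i, (P i - Q i - 16 / 15 * ⟪w.2 (u i), u i⟫) • tp (u i) =
          ∑ i, (P i - Q i) • tp (u i) - ∑ i, (16 / 15 * ⟪w.2 (u i), u i⟫) • tp (u i) := by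
        rw [← Finset.sum_sub_distrib]
        refine Finset.sum_congr rfl fun i _ => ?_
        refine ContinuousLinearMap.ext fun z => ?_
        simp only [ContinuousLinearMap.sub_apply, ContinuousLinearMap.smul_apply]
        exact sub_smul _ _ _
      rw [e1]
      unfold Sm
      simp only [Finset.smul_sum, smul_smul]
      abel
    have h4 : ∀ i, |P i - Q i - 16 / 15 * ⟪w.2 (u i), u i⟫| ≤ 16 / 15 * (29 * e + 20 * μ * ‖X‖) := by
      intro i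
      have h5 := A2 i
      rw [abs_le] at h5 ⊢
      constructor <;> linarith
    have h5 := norm_sum_tp hu _ _ h4
    have h6 : 0 ≤ μ * ‖X‖ := mul_nonneg hμ0 hn0
    rw [h3]
    refine (norm_add_le _ _).trans ?_
    linarith
  have B5 : ‖Sm u w‖ ≤ 7 * ‖w‖ := by
    have h3 : Sm u w = w.2 - ∑ i, (16 / 15 * ⟪w.2 (u i), u i⟫) • tp (u i) := by
      unfold Sm
      simp only [Finset.smul_sum, smul_smul]
    have h4 : ∀ i, |16 / 15 * ⟪w.2 (u i), u i⟫| ≤ 16 / 15 * ‖w‖ := by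
      intro i
      have h5 := B2 i
      rw [abs_le] at h5 ⊢
      constructor <;> linarith
    have h5 := norm_sum_tp hu _ _ h4
    rw [h3]
    refine (norm_sub_le _ _).trans ?_
    linarith
  have B6 : ‖X‖ ≤ 7 * ‖w‖ + ‖Sm u w - X‖ := by
    have h3 : X = Sm u w - (Sm u w - X) := by abel
    calc ‖X‖ = ‖Sm u w - (Sm u w - X)‖ := by rw [← h3]
      _ ≤ ‖Sm u w‖ + ‖Sm u w - X‖ := norm_sub_le _ _
      _ ≤ _ := by linarith
  obtain ⟨C1, C2⟩ := num hε0 hε1 hρ0 hρ1 he hω0 hw hμ0 hn0 hρX hXρ B3 B4 B6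
  exact ⟨C1, fun i => ⟨(A3 i).1.trans C2, (A3 i).2.trans C2⟩⟩

end Pool.Agent.MPaafd8a
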