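import Pool.Agent.Lib.MP_aafd8a_gt_D.SpecB

/-!
# MP_aafd8a_gt, block (A-i): the space of pairs of weights on a finite set
-/

set_option autoImplicit false

open Topology RealInnerProductSpace

namespace Pool.Agent.MPaafd8a

namespace YTmAux

theorem pw_ext0 {T : Finset (Sph 3)} {p : T → ℝ} (hp : p ∈ stdSimplex ℝ T) : Pw (ext0 p) := by
  refine ⟨fun v => ?_, ?_⟩
  · by_cases h : v ∈ T
    · rw [ext0_mem p h]
      exact hp.1 _
    · rw [ext0_notMem p h]
  · rw [ext0_sum]
    exact hp.2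

theorem cont_ext0 {X : Type} [TopologicalSpace X] {T : Finset (Sph 3)} {f : X → T → ℝ}
    (hf : Continuous f) (v : Sph 3) : Continuous fun x => ext0 (f x) v := by
  by_cases h : v ∈ T
  · simp only [ext0_mem _ h]
    exact (continuous_apply _).comp hf
  · simp only [ext0_notMem _ h]
    exact continuous_const

theorem cont_sum {X E : Type} [TopologicalSpace X] [NormedAddCommGroup E] [NormedSpace ℝ E]
    {T : Finset (Sph 3)} {f : X → Sph 3 →₀ ℝ} (hs : ∀ x, (f x).support ⊆ T)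
    (hf : ∀ v, Continuous fun x => f x v) (F : Sph 3 → E) :
    Continuous fun x => (f x).sum fun v a => a • F v := by
  have h : (fun x => (f x).sum fun v a => a • F v) = fun x => ∑ v ∈ T, f x v • F v := by
    funext x
    exact Finsupp.sum_of_support_subset _ (hs x) _ (fun v _ => zero_smul _ _)
  rw [h]
  exact continuous_finset_sum _ fun v _ => (hf v).smul continuous_const

theorem pos_of_mem {p : Sph 3 →₀ ℝ} (hp : Pw p) {v : Sph 3} (hv : v ∈ p.support) : 0 < p v :=
  lt_of_le_of_ne (hp.1 v) (Finsupp.mem_support_iff.1 hv).symm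

theorem exists_pos {p : Sph 3 →₀ ℝ} (hp : Pw p) : ∃ v, 0 < p v := by
  obtain ⟨v, hv⟩ := support_nonempty_of_sum hp.2
  exact ⟨v, pos_of_mem hp hv⟩

theorem face {c : ℝ} {p q : Sph 3 →₀ ℝ} (hp : Pw p) (hq : Pw q) (h : Cpt2 c p q) :
    CapFace 3 c p.support := by
  obtain ⟨w, hw⟩ := exists_pos hq
  exact ⟨support_nonempty_of_sum hp.2, w, fun v hv => h v w (pos_of_mem hp hv) hw⟩

theorem cpt_symm {c : ℝ} {p q : Sph 3 →₀ ℝ} (h : Cpt2 c p q) : Cpt2 c q p := by
  intro v w hv hw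
  rw [real_inner_comm]
  exact h w v hw hv

theorem geo (hCon : SCon) {c : ℝ} (hc : -1 < c) {X : Type} [TopologicalSpace X]
    {T : Finset (Sph 3)} (p q : X → Sph 3 →₀ ℝ) (hp : ∀ x, Pw (p x)) (hq : ∀ x, Pw (q x))
    (h : ∀ x, Cpt2 c (p x) (q x)) (hs : ∀ x, (p x).support ⊆ T)
    (hf : ∀ v, Continuous fun x => p x v) :
    ∃ g : C(X, Geo (capK 3 c hc)), ∀ x, (g x).1 = p x := by
  let g : X → Geo (capK 3 c hc) :=
    fun x => ⟨p x, (hp x).1, (hp x).2, face (hp x) (hq x) (h x)⟩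
  have hg : Continuous g := hCon (Sph 3) (capK 3 c hc) X T g hs hf
  exact ⟨⟨g, hg⟩, fun x => rfl⟩

theorem mem_of_pos {T : Finset (Sph 3)} {p : T → ℝ} {v : Sph 3} (hv : 0 < ext0 p v) : v ∈ T := by
  by_contra h
  rw [ext0_notMem p h] at hv
  exact lt_irrefl _ hv

theorem cpt {c : ℝ} {T : Finset (Sph 3)} (z : YT c T) : Cpt2 c (yp z) (yq z) := by
  intro v w hv hw
  by_contra hcon
  push Not at hcon
  have h1 : v ∈ T := mem_of_pos hv
  have h2 : w ∈ T := mem_of_pos hw
  have h3 := z.2.2.2 ⟨v, h1⟩ ⟨w, h2⟩ hcon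
  have h4 := mul_pos hv hw
  unfold yp yq at h4
  rw [ext0_mem _ h1, ext0_mem _ h2, h3] at h4
  exact lt_irrefl _ h4

theorem cont_val {c : ℝ} {T : Finset (Sph 3)} :
    Continuous (fun z : YT c T => (z.1 : (T → ℝ) × (T → ℝ))) :=
  continuous_subtype_val

theorem mem_simplex {T : Finset (Sph 3)} {p : Sph 3 →₀ ℝ} (hp : Pw p) (hs : p.support ⊆ T) :
    (fun v : T => p v) ∈ stdSimplex ℝ T := by
  refine ⟨fun v => hp.1 v, ?_⟩
  have h1 := hp.2
  rw [Finsupp.sum_of_support_subset _ hs _ (fun _ _ => rfl), ← Finset.sum_coe_sort T] at h1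
  exact h1

theorem ext0_restrict {T : Finset (Sph 3)} {p : Sph 3 →₀ ℝ} (hs : p.support ⊆ T) :
    ext0 (fun v : T => p v) = p := by
  ext v
  by_cases h : v ∈ T
  · rw [ext0_mem _ h]
  · rw [ext0_notMem _ h]
    by_contra hcon
    exact h (hs (Finsupp.mem_support_iff.2 (Ne.symm hcon)))

theorem ext0_inj {T : Finset (Sph 3)} {p q : T → ℝ} (h : ext0 p = ext0 q) : p = q := by
  funext v
  have h1 := DFunLike.congr_fun h (v : Sph 3)
  rw [ext0_mem _ v.2, ext0_mem _ v.2] at h1
  exact h1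

end YTmAux

open YTmAux in
/-- The space of pairs. -/
theorem pYT (_hCrd : SCrd) (hCon : SCon) : SYT := by
  intro c T
  have hp : ∀ z : YT c T, Pw (yp z) := fun z => pw_ext0 z.2.1
  have hq : ∀ z : YT c T, Pw (yq z) := fun z => pw_ext0 z.2.2.1
  have hsp : ∀ z : YT c T, (yp z).support ⊆ T := fun z => ext0_support _
  have hsq : ∀ z : YT c T, (yq z).support ⊆ T := fun z => ext0_support _
  have hcp : ∀ v : Sph 3, Continuous (fun z : YT c T => yp z v) := fun v =>
    cont_ext0 (continuous_fst.comp cont_val) v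
  have hcq : ∀ v : Sph 3, Continuous (fun z : YT c T => yq z v) := fun v =>
    cont_ext0 (continuous_snd.comp cont_val) v
  refine ⟨fun z => ⟨hp z, hq z, cpt z, hsp z, hsq z⟩, fun x => ⟨hcp x, hcq x⟩, ?_, ?_, ?_, ?_⟩
  · have h1 : Continuous (fun z : YT c T => bar (yp z)) := cont_sum hsp hcp _
    have h2 : Continuous (fun z : YT c T => bar (yq z)) := cont_sum hsq hcq _
    have h3 : Continuous (fun z : YT c T => mo (yp z)) := cont_sum hsp hcp _
    have h4 : Continuous (fun z : YT c T => mo (yq z)) := cont_sum hsq hcq _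
    exact (h1.sub h2).prodMk ((h3.sub h4).const_smul (1 : ℝ))
  · intro hc
    exact ⟨geo hCon hc _ _ hp hq cpt hsp hcp,
      geo hCon hc _ _ hq hp (fun z => cpt_symm (cpt z)) hsq hcq⟩
  · intro X _ p q h h1 h2
    refine ⟨⟨fun x => ⟨(fun v => p x v, fun v => q x v), mem_simplex (h x).1 (h x).2.2.2.1,
      mem_simplex (h x).2.1 (h x).2.2.2.2, ?_⟩, ?_⟩, ?_⟩
    · intro v w hvw
      by_contra hcon
      have h3 : p x v ≠ 0 := fun h0 => hcon (by
        change p x v * q x w = 0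
        rw [h0, zero_mul])
      have h4 : q x w ≠ 0 := fun h0 => hcon (by
        change p x v * q x w = 0
        rw [h0, mul_zero])
      have h5 := (h x).2.2.1 v w (lt_of_le_of_ne ((h x).1.1 v) h3.symm)
        (lt_of_le_of_ne ((h x).2.1.1 w) h4.symm)
      exact absurd h5 (not_lt.2 hvw)
    · refine Continuous.subtype_mk ?_ _
      exact (continuous_pi fun v : T => h1 v).prodMk (continuous_pi fun v : T => h2 v)
    · intro x
      exact ⟨ext0_restrict (h x).2.2.2.1, ext0_restrict (h x).2.2.2.2⟩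
  · intro z z' h1 h2
    apply Subtype.ext
    exact Prod.ext (ext0_inj h1) (ext0_inj h2)

end Pool.Agent.MPaafd8a
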