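import Pool.Agent.Lib.MP_aafd8a_gt.Crd
import Pool.Agent.Lib.MP_aafd8a_gt.Cont
import Pool.Agent.Lib.MP_aafd8a_gt.Cpt
import Pool.Agent.Lib.MP_aafd8a_gt.Hom
import Pool.Agent.Lib.MP_aafd8a_gt.Mk
import Pool.Agent.Lib.MP_aafd8a_gt.Net
import Pool.Agent.Lib.MP_aafd8a_gt.Cut
import Pool.Agent.Lib.MP_aafd8a_gt.Sub
import Pool.Agent.Lib.MP_aafd8a_gt.Welch
import Pool.Agent.Lib.MP_aafd8a_gt.Mom
import Pool.Agent.Lib.MP_aafd8a_gt.Mo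
import Pool.Agent.Lib.MP_aafd8a_gt.Dim
import Pool.Agent.Lib.MP_aafd8a_gt.Pt
import Pool.Agent.Lib.MP_aafd8a_gt.StepD
import Pool.Agent.Lib.MP_aafd8a_gt.Down
import Pool.Agent.Lib.MP_aafd8a_gt.Lag
import Pool.Agent.Lib.MP_aafd8a_gt.Eig
import Pool.Agent.Lib.MP_aafd8a_gt.Near
import Pool.Agent.Lib.MP_aafd8a_gt.Lim
import Pool.Agent.Lib.MP_aafd8a_gt.Fin
import Pool.Agent.Lib.MP_aafd8a_gt_D.Alg
import Pool.Agent.Lib.MP_aafd8a_gt_D.Ex5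
import Pool.Agent.Lib.MP_aafd8a_gt_D.Ip
import Pool.Agent.Lib.MP_aafd8a_gt_D.Eng
import Pool.Agent.Lib.MP_aafd8a_gt_D.Mass
import Pool.Agent.Lib.MP_aafd8a_gt_D.Five
import Pool.Agent.Lib.MP_aafd8a_gt_D.Frm
import Pool.Agent.Lib.MP_aafd8a_gt_D.Clu
import Pool.Agent.Lib.MP_aafd8a_gt_D.N1
import Pool.Agent.Lib.MP_aafd8a_gt_D.MaxB
import Pool.Agent.Lib.MP_aafd8a_gt_D.PolQ
import Pool.Agent.Lib.MP_aafd8a_gt_D.GauE
import Pool.Agent.Lib.MP_aafd8a_gt_D.GauU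
import Pool.Agent.Lib.MP_aafd8a_gt_D.TL1
import Pool.Agent.Lib.MP_aafd8a_gt_D.TL2
import Pool.Agent.Lib.MP_aafd8a_gt_D.TL3
import Pool.Agent.Lib.MP_aafd8a_gt_D.TL4
import Pool.Agent.Lib.MP_aafd8a_gt_D.TL
import Pool.Agent.Lib.MP_aafd8a_gt_D.Mdl
import Pool.Agent.Lib.MP_aafd8a_gt_D.MdD
import Pool.Agent.Lib.MP_aafd8a_gt_D.Loc
import Pool.Agent.Lib.MP_aafd8a_gt_D.YTm
import Pool.Agent.Lib.MP_aafd8a_gt_D.NetV
import Pool.Agent.Lib.MP_aafd8a_gt_D.Ml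
import Pool.Agent.Lib.MP_aafd8a_gt_D.SmP
import Pool.Agent.Lib.MP_aafd8a_gt_D.SmC
import Pool.Agent.Lib.MP_aafd8a_gt_D.Quo
import Pool.Agent.Lib.MP_aafd8a_gt_D.Quo2
import Pool.Agent.Lib.MP_aafd8a_gt_D.RelC
import Pool.Agent.Lib.MP_aafd8a_gt_D.Eqv
import Pool.Agent.Lib.MP_aafd8a_gt_D.Path
import Pool.Agent.Lib.MP_aafd8a_gt_D.Gm
import Pool.Agent.Lib.MP_aafd8a_gt_D.B1
import Pool.Agent.Lib.MP_aafd8a_gt_D.B2
import Pool.Agent.Lib.MP_aafd8a_gt_D.B3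
import Pool.Agent.Lib.MP_aafd8a_gt_D.B4
import Pool.Agent.Lib.MP_aafd8a_gt_D.Dst
import Pool.Agent.Lib.MP_aafd8a_gt_D.HB
import Pool.Agent.Lib.MP_aafd8a_gt_D.Dc
import Pool.Agent.Lib.MP_aafd8a_gt_D.M0
import Pool.Agent.Lib.MP_aafd8a_gt_D.DCl
import Pool.Agent.Lib.MP_aafd8a_gt_D.DM
import Pool.Agent.Lib.MP_aafd8a_gt_D.PStep
import Pool.Agent.Lib.MP_aafd8a_gt_D.HA
import Pool.Agent.Lib.MP_aafd8a_gt_D.Far
import Pool.Agent.Lib.MP_aafd8a_gt_D.Phi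
import Pool.Agent.Lib.MP_aafd8a_gt_D.NF

/-!
# MP_aafd8a_gt, disproof for `n = 3`, block (A-i): the normal form `SA1`
-/

set_option autoImplicit false

namespace Pool.Agent.MPaafd8a

/-- The normal form just above `1 / 4`. -/
theorem allA1 : SA1 := by
  have hHom := pHom pCrd pCon pCpt
  have hMk := pMk pCon
  have hCut := pCut pCrd pCpt hMk
  have hSub := pSub pCrd pCon pCpt
  have hMom := pMom pWelch
  have hMo := pMo
  have hStepD := pStepD pCrd pCpt hHom hMk pNet hCut hSub hMom hMo pPt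
  have hDown := pDown hSub hStepD
  have hNear := pNear (pEig pLag)
  have hFin := pFin hMo (pLim pLag)
  have hN1 : SN1 := pN1 pIp (pEng pIp pWelch hMo) pMass pFive pFrame pClu
  have hGauE : SGauE := pGauE hN1 pClu pMaxB
  have hGauU : SGauU := pGauU pClu (pPolQ pAlg)
  have hTL : STL := pTL pClu hMo (pTL1 pAlg) (pTL2 pAlg) (pTL3 pAlg) (pTL4 pAlg)
  have hMdl : SMdl := pMdl pAlg
  have hLoc : SLoc := pLoc pIp hMo hGauE hTL hMdl (pMdD pAlg hMdl)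
  have hYT : SYT := pYT pCrd pCon
  have hSmP : SSmP := pSmP pMl
  have hSmC : SSmC := pSmC hYT hSmP
  have hRelC : SRelC := pRelC hYT
  have hGm : SGm := pGm hYT pQuo pQuo2 hRelC hGauU
  have hB1 : SB1 := pB1 hYT hSmP
  have hB2 : SB2 := pB2 hYT hMo hSmC pQuo hRelC hGauU pClu pEqv pPath
  have hB3 : SB3 := pB3 hYT hSmC pQuo hRelC hGauU pClu pEqv hMo
  have hB4 : SB4 := pB4 hYT hSmC pQuo2 pEqv hSmP
  have hDst : SDst := pDst hYT pMl hSmP pClu hMo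
  have hHB : SHB := pHB hYT (pNetV pNet) hGm hB1 hB2 hB3 hB4 hDst pClu
  have hDc : SDc := pDc pCrd pCpt hMo hMom
  have hDM : SDM := pDM hSub hHom hCut hDown hDc (pM0 hHom hMk pNet hNear hFin) (pDCl hCut hDc hMom hMo)
  have hPStep : SPStep := pPStep pCrd pCpt hHom hMk pNet hSub hMo pPt pIp
  have hHA : SHA := pHA pIp hDc hDM hPStep
  have hFar : SFar := pFar hLoc hHB hYT hDc hHA pEx5
  exact pNF pCrd pCpt hHom hCut pDim hMo hYT hLoc hHB hFar (pPhi hYT)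

end Pool.Agent.MPaafd8a
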