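import Pool.Agent.Lib.MP_aafd8a_gt_D.SpecB

/-!
# MP_aafd8a_gt, disproof for `n = 3`, block (A-i): stage 3 (linear change of the masses)
-/

set_option autoImplicit false

open Topology RealInnerProductSpace

namespace Pool.Agent.MPaafd8a

namespace B3Aux

/-- Reindexing of the smoothed weight. -/
private theorem sm_comp {A B : Type} [Fintype A] [Fintype B] (u : B → Sph 3) (φ : B → Eu 3 → ℝ)
    (α α' : A → ℝ) (P P' : A → Eu 3) (s : Equiv.Perm A) (hα : ∀ i, α' i = α (s⁻¹ i))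
    (hP : ∀ i, P' i = P (s⁻¹ i)) : sm u φ α' P' = sm u φ α P := by
  unfold sm
  simp only [hα, hP]
  exact Equiv.sum_comp (s⁻¹) (fun a => ∑ b, Finsupp.single (u b) (α a * φ b (P a)))

private theorem cm_comp (hE : ∀ (s : Equiv.Perm (Fin 5)) (v : RS) (x : Sph 3) (i : Fin 5),
      cl (fv (s • v)) x i = cl (fv v) x (s⁻¹ i) ∧
      cl (fun j => -fv (s • v) j) x i = cl (fun j => -fv v j) x (s⁻¹ i))
    (s : Equiv.Perm (Fin 5)) (v : RS) (p : Sph 3 →₀ ℝ) (i : Fin 5) :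
    cm (fv (s • v)) p i = cm (fv v) p (s⁻¹ i) ∧
      cm (fun j => -fv (s • v) j) p i = cm (fun j => -fv v j) p (s⁻¹ i) := by
  exact ⟨congrArg (ex p) (funext fun x => (hE s v x i).1),
    congrArg (ex p) (funext fun x => (hE s v x i).2)⟩

private theorem mix_nonneg {t a b : ℝ} (h0 : 0 ≤ t) (h1 : t ≤ 1) (ha : 0 ≤ a) (hb : 0 ≤ b) :
    0 ≤ (1 - t) * a + t * b :=
  add_nonneg (mul_nonneg (sub_nonneg.2 h1) ha) (mul_nonneg h0 hb)

private theorem mix_sum {t : ℝ} {a b : Fin 5 → ℝ} (ha : ∑ i, a i = 1) (hb : ∑ i, b i = 1) :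
    ∑ i, ((1 - t) * a i + t * b i) = 1 := by
  rw [Finset.sum_add_distrib, ← Finset.mul_sum, ← Finset.mul_sum, ha, hb]
  ring

end B3Aux

open B3Aux in
theorem pB3 : SYT → SSmC → SQuo → SRelC → SGauU → SClu → SEqv → SMo → SB3 := by
  intro hYT hSmC hQuo hRelC hGauU hClu hEqv hMo κ κ' ε ρ m T T' B _ u φ hL hρ hN hm hm4 huT
  obtain ⟨hε0, -, -, -, hL1, -, hL3⟩ := hL
  obtain ⟨hY1, -, hYD, -, -, -⟩ := hYT (1 / 4 + ε) T
  obtain ⟨-, -, -, -, -, hYinj⟩ := hYT (1 / 4 + ε) T'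
  obtain ⟨hE1, hE2, hE3, -⟩ := hEqv
  obtain ⟨hRc, hRm⟩ := hRelC (1 / 4 + ε) T
  have : CompactSpace (YS (1 / 4 + ε) T (κ * √ε)) := by
    have h1 : IsClosed {z : YT (1 / 4 + ε) T | ‖Dz z‖ ≤ κ * √ε} :=
      isClosed_le (continuous_norm.comp hYD) continuous_const
    exact isCompact_iff_compactSpace.1 h1.isCompact
  -- facts about the members of the relation
  have hW : ∀ z : YS (1 / 4 + ε) T (κ * √ε), Dz z.1 ∈ W0 3 := fun z =>
    (hMo 3 (yp z.1) (yq z.1) (hY1 z.1).1 (hY1 z.1).2.1).1 1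
  have hfac : ∀ (z : YS (1 / 4 + ε) T (κ * √ε)) (v : RS),
      (∀ i, 1 ≤ ‖av (fv v) (Dz z.1) i‖ ∧ 1 ≤ ‖bv (fv v) (Dz z.1) i‖ ∧
        1 / 10 ≤ Pm (fv v) (Dz z.1) i ∧ 1 / 10 ≤ Qm (fv v) (Dz z.1) i) ∧
      ∑ i, Pm (fv v) (Dz z.1) i = 1 ∧ ∑ i, Qm (fv v) (Dz z.1) i = 1 ∧
      ∀ i j, ⟪av (fv v) (Dz z.1) i, bv (fv v) (Dz z.1) j⟫ ≤ 1 / 4 + ε / 2 := fun z v => by
    obtain ⟨k1, k2, k3, k4, -, -⟩ := hL3 v (Dz z.1) (hW z) z.2
    exact ⟨k1, k2, k3, k4⟩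
  have hc1 : ∀ (z : YS (1 / 4 + ε) T (κ * √ε)) (v : RS), Rel z.1 v →
      ∑ i, cm (fv v) (yp z.1) i = 1 ∧ (∀ i, 0 ≤ cm (fv v) (yp z.1) i) ∧
      ∑ i, cm (fun j => -fv v j) (yq z.1) i = 1 ∧ ∀ i, 0 ≤ cm (fun j => -fv v j) (yq z.1) i := by
    intro z v h
    have het : et ≤ 1 / 4 := by
      unfold et
      norm_num
    obtain ⟨-, a1, a2, -⟩ := hClu (fv v) et (yp z.1) (isS_fv v) het (hY1 z.1).1 h.1.1
    obtain ⟨-, b1, b2, -⟩ := hClu (fun j => -fv v j) et (yq z.1) (isS_neg (isS_fv v)) het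
      (hY1 z.1).2.1 h.1.2.1
    exact ⟨a1, a2, b1, b2⟩
  -- the relation
  obtain ⟨R, hR⟩ : ∃ R : Set ((unitInterval × YS (1 / 4 + ε) T (κ * √ε)) × RS),
      R = {s | Rel s.1.2.1 s.2} := ⟨_, rfl⟩
  have hmR : ∀ s : (unitInterval × YS (1 / 4 + ε) T (κ * √ε)) × RS, s ∈ R ↔ Rel s.1.2.1 s.2 :=
    fun s => by rw [hR]; rfl
  have cz : Continuous fun s : R => (s.1.1.2.1 : YT (1 / 4 + ε) T) :=
    continuous_subtype_val.comp (continuous_snd.comp (continuous_fst.comp continuous_subtype_val))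
  have cv' : Continuous fun s : R => s.1.2 := continuous_snd.comp continuous_subtype_val
  have ct : Continuous fun s : R => ((s.1.1.1 : unitInterval) : ℝ) :=
    continuous_subtype_val.comp (continuous_fst.comp (continuous_fst.comp continuous_subtype_val))
  have czv : Continuous fun s : R => ((s.1.1.2.1 : YT (1 / 4 + ε) T), s.1.2) := cz.prodMk cv'
  have cvD : Continuous fun s : R => (s.1.2, Dz s.1.1.2.1) := cv'.prodMk (hYD.comp cz)
  have hRcl : IsClosed R := by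
    rw [hR]
    have h1 : Continuous fun s : (unitInterval × YS (1 / 4 + ε) T (κ * √ε)) × RS =>
        ((s.1.2.1 : YT (1 / 4 + ε) T), s.2) :=
      (continuous_subtype_val.comp (continuous_snd.comp continuous_fst)).prodMk continuous_snd
    exact hRc.preimage h1
  have c1 : ∀ i, Continuous fun s : R => cm (fv s.1.2) (yp s.1.1.2.1) i :=
    fun i => by
      have h := (hRm i).1.comp czv
      exact h
  have c2' : ∀ i, Continuous fun s : R => cm (fun j => -fv s.1.2 j) (yq s.1.1.2.1) i :=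
    fun i => by
      have h := (hRm i).2.comp czv
      exact h
  have c3 : ∀ i, Continuous fun s : R => Pm (fv s.1.2) (Dz s.1.1.2.1) i :=
    fun i => by
      have h := (hE3 i).1.comp cvD
      exact h
  have c4 : ∀ i, Continuous fun s : R => Qm (fv s.1.2) (Dz s.1.1.2.1) i :=
    fun i => by
      have h := (hE3 i).2.1.comp cvD
      exact h
  have c5 : ∀ i, Continuous fun s : R => av (fv s.1.2) (Dz s.1.1.2.1) i :=
    fun i => by
      have h := (hE3 i).2.2.1.comp cvD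
      exact h
  have c6 : ∀ i, Continuous fun s : R => bv (fv s.1.2) (Dz s.1.1.2.1) i :=
    fun i => by
      have h := (hE3 i).2.2.2.comp cvD
      exact h
  obtain ⟨α, hα⟩ : ∃ α : Fin 5 → R → ℝ, ∀ i s, α i s =
      (1 - ((s.1.1.1 : unitInterval) : ℝ)) * cm (fv s.1.2) (yp s.1.1.2.1) i +
        ((s.1.1.1 : unitInterval) : ℝ) * Pm (fv s.1.2) (Dz s.1.1.2.1) i := ⟨_, fun _ _ => rfl⟩
  obtain ⟨β, hβ⟩ : ∃ β : Fin 5 → R → ℝ, ∀ i s, β i s =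
      (1 - ((s.1.1.1 : unitInterval) : ℝ)) * cm (fun j => -fv s.1.2 j) (yq s.1.1.2.1) i +
        ((s.1.1.1 : unitInterval) : ℝ) * Qm (fv s.1.2) (Dz s.1.1.2.1) i := ⟨_, fun _ _ => rfl⟩
  obtain ⟨P, hP⟩ : ∃ P : Fin 5 → R → Eu 3, ∀ i s, P i s = av (fv s.1.2) (Dz s.1.1.2.1) i :=
    ⟨_, fun _ _ => rfl⟩
  obtain ⟨Q, hQ⟩ : ∃ Q : Fin 5 → R → Eu 3, ∀ i s, Q i s = bv (fv s.1.2) (Dz s.1.1.2.1) i :=
    ⟨_, fun _ _ => rfl⟩
  have dα : ∀ i, Continuous (α i) := fun i => by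
    rw [show α i = fun s : R => (1 - ((s.1.1.1 : unitInterval) : ℝ)) *
      cm (fv s.1.2) (yp s.1.1.2.1) i + ((s.1.1.1 : unitInterval) : ℝ) *
      Pm (fv s.1.2) (Dz s.1.1.2.1) i from funext fun s => hα i s]
    exact ((continuous_const.sub ct).mul (c1 i)).add (ct.mul (c3 i))
  have dβ : ∀ i, Continuous (β i) := fun i => by
    rw [show β i = fun s : R => (1 - ((s.1.1.1 : unitInterval) : ℝ)) *
      cm (fun j => -fv s.1.2 j) (yq s.1.1.2.1) i + ((s.1.1.1 : unitInterval) : ℝ) *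
      Qm (fv s.1.2) (Dz s.1.1.2.1) i from funext fun s => hβ i s]
    exact ((continuous_const.sub ct).mul (c2' i)).add (ct.mul (c4 i))
  have dP : ∀ i, Continuous (P i) := fun i => by
    rw [show P i = fun s : R => av (fv s.1.2) (Dz s.1.1.2.1) i from funext fun s => hP i s]
    exact c5 i
  have dQ : ∀ i, Continuous (Q i) := fun i => by
    rw [show Q i = fun s : R => bv (fv s.1.2) (Dz s.1.1.2.1) i from funext fun s => hQ i s]
    exact c6 i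
  have ht : ∀ s : R, 0 ≤ ((s.1.1.1 : unitInterval) : ℝ) ∧ ((s.1.1.1 : unitInterval) : ℝ) ≤ 1 :=
    fun s => s.1.1.1.2
  have hcs : ∀ s : R, ∑ i, cm (fv s.1.2) (yp s.1.1.2.1) i = 1 ∧
      (∀ i, 0 ≤ cm (fv s.1.2) (yp s.1.1.2.1) i) ∧
      ∑ i, cm (fun j => -fv s.1.2 j) (yq s.1.1.2.1) i = 1 ∧
      ∀ i, 0 ≤ cm (fun j => -fv s.1.2 j) (yq s.1.1.2.1) i :=
    fun s => hc1 s.1.1.2 s.1.2 ((hmR s.1).1 s.2)
  have nα : ∀ i s, 0 ≤ α i s := fun i s => by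
    rw [hα]
    exact mix_nonneg (ht s).1 (ht s).2 ((hcs s).2.1 i)
      (by linarith [((hfac s.1.1.2 s.1.2).1 i).2.2.1])
  have nβ : ∀ i s, 0 ≤ β i s := fun i s => by
    rw [hβ]
    exact mix_nonneg (ht s).1 (ht s).2 ((hcs s).2.2.2 i)
      (by linarith [((hfac s.1.1.2 s.1.2).1 i).2.2.2])
  have sα : ∀ s, ∑ i, α i s = 1 := fun s => by
    simp only [hα]
    exact mix_sum (hcs s).1 (hfac s.1.1.2 s.1.2).2.1
  have sβ : ∀ s, ∑ i, β i s = 1 := fun s => by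
    simp only [hβ]
    exact mix_sum (hcs s).2.2.1 (hfac s.1.1.2 s.1.2).2.2.1
  have nP : ∀ i s, 1 ≤ ‖P i s‖ := fun i s => by
    rw [hP]
    exact ((hfac s.1.1.2 s.1.2).1 i).1
  have nQ : ∀ i s, 1 ≤ ‖Q i s‖ := fun i s => by
    rw [hQ]
    exact ((hfac s.1.1.2 s.1.2).1 i).2.1
  have hPQ : ∀ i j s, ⟪P i s, Q j s⟫ ≤ (1 / 4 + ε - m) * (‖P i s‖ * ‖Q j s‖) := fun i j s => by
    have h3 : ⟪P i s, Q j s⟫ ≤ 1 / 4 + ε / 2 := by
      rw [hP, hQ]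
      exact (hfac s.1.1.2 s.1.2).2.2.2 i j
    have h4 : 1 ≤ ‖P i s‖ * ‖Q j s‖ := one_le_mul_of_one_le_of_one_le (nP i s) (nQ j s)
    have h5 : 0 ≤ 1 / 4 + ε - m := by linarith
    have h6 : (1 / 4 + ε - m) * 1 ≤ (1 / 4 + ε - m) * (‖P i s‖ * ‖Q j s‖) :=
      mul_le_mul_of_nonneg_left h4 h5
    linarith
  obtain ⟨k0, hk0⟩ := hSmC (1 / 4 + ε) ρ m R (Fin 5) (Fin 5) B u φ α P β Q T' hρ hN hm huT
    dα dP dβ dQ nα sα nβ sβ (fun i s _ => by linarith [nP i s]) (fun i s _ => by linarith [nQ i s])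
    (fun i j s _ _ => hPQ i j s)
  obtain ⟨ψ, hψ⟩ := hQuo (unitInterval × YS (1 / 4 + ε) T (κ * √ε)) RS (YT (1 / 4 + ε) T') R hRcl
    (fun x => by
      obtain ⟨v, hv⟩ := hL1 (yp x.2.1) (yq x.2.1) (hY1 x.2.1).1 (hY1 x.2.1).2.1 (hY1 x.2.1).2.2.1
        x.2.2
      exact ⟨v, (hmR (x, v)).2 hv⟩)
    k0
    (fun x v v' h h' => by
      have r1 : Rel x.2.1 v := (hmR (x, v)).1 h
      have r2 : Rel x.2.1 v' := (hmR (x, v')).1 h'
      obtain ⟨s, hs⟩ := hGauU (yp x.2.1) (yq x.2.1) v v' (hY1 x.2.1).1 r1.1 r2.1 r1.2 r2.2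
      subst hs
      apply hYinj
      · rw [(hk0 ⟨(x, v), h⟩).1, (hk0 ⟨(x, s • v), h'⟩).1]
        refine (sm_comp u φ _ _ _ _ s (fun i => ?_) (fun i => ?_)).symm
        · rw [hα, hα]
          show (1 - ((x.1 : unitInterval) : ℝ)) * cm (fv (s • v)) (yp x.2.1) i +
            ((x.1 : unitInterval) : ℝ) * Pm (fv (s • v)) (Dz x.2.1) i = _
          rw [(cm_comp hE2 s v (yp x.2.1) i).1, (hE1 s v (Dz x.2.1) i).1]
        · rw [hP, hP]
          exact (hE1 s v (Dz x.2.1) i).2.2.1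
      · rw [(hk0 ⟨(x, v), h⟩).2, (hk0 ⟨(x, s • v), h'⟩).2]
        refine (sm_comp u φ _ _ _ _ s (fun i => ?_) (fun i => ?_)).symm
        · rw [hβ, hβ]
          show (1 - ((x.1 : unitInterval) : ℝ)) * cm (fun j => -fv (s • v) j) (yq x.2.1) i +
            ((x.1 : unitInterval) : ℝ) * Qm (fv (s • v)) (Dz x.2.1) i = _
          rw [(cm_comp hE2 s v (yq x.2.1) i).2, (hE1 s v (Dz x.2.1) i).2.1]
        · rw [hQ, hQ]
          exact (hE1 s v (Dz x.2.1) i).2.2.2)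
  refine ⟨ψ, fun t z v h => ?_⟩
  have h1 := hψ (t, z) v ((hmR ((t, z), v)).2 h)
  have h2 := hk0 ⟨((t, z), v), (hmR ((t, z), v)).2 h⟩
  simp only [hα, hβ, hP, hQ] at h2
  rw [h1]
  exact h2

end Pool.Agent.MPaafd8a
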