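import Pool.Agent.Lib.MP_aafd8a_gt_D.Frame

/-!
# MP_aafd8a_gt, disproof for `n = 3`, block (A-i): definitions

* `WV`: pairs `(a, N)` of a vector and an operator of `ℝ^4`; `ipw` their inner product.
* `IsS u`: `u` is a regular simplex inscribed in the unit sphere; `fv v` the vectors of `v : RS`.
* `cl, cm, cv, vb`: clusters of a weight near the vertices of `u`: cut off function, mass, unnormalised and normalised mean.
* `Gd u p q`: the supports of `p`, `q` are near the vertices of `u` and `-u`; `Bal u t`: the operator `∑ ⟪u i, ·⟫ t i` is symmetric.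
* `Sm, Pm, Qm, av, bv`: the model pair of a simplex and a small pair `w`.
* `YT c T`: the compact space of pairs of compatible weights on the finite set `T`; `yp, yq` the two weights, `Dz` the moments.
* `sm`: smoothing of a weighted family of vectors by a net.
-/

set_option autoImplicit false

open Topology RealInnerProductSpace

namespace Pool.Agent.MPaafd8a

/-! ## Pairs -/

/-- Pairs of a vector and an operator. -/
abbrev WV : Type := Eu 3 × (Eu 3 →L[ℝ] Eu 3)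

/-- The inner product of pairs. -/
noncomputable def ipw (w w' : WV) : ℝ :=
  3 / 4 * ⟪w.1, w'.1⟫ + ∑ k : Fin (3 + 1), ⟪w.2 (EuclideanSpace.single k 1), w'.2 (EuclideanSpace.single k 1)⟫

/-- The operator `z ↦ ⟪x, z⟫ y`. -/
noncomputable def ro (x y : Eu 3) : Eu 3 →L[ℝ] Eu 3 := (innerSL ℝ x).smulRight y

/-- The operator `z ↦ ⟪x, z⟫ x`. -/
noncomputable def tp (x : Eu 3) : Eu 3 →L[ℝ] Eu 3 := ro x x

theorem ro_apply (x y z : Eu 3) : ro x y z = ⟪x, z⟫ • y := rfl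

theorem tp_apply (x z : Eu 3) : tp x z = ⟪x, z⟫ • x := rfl

/-- The normalised vector. -/
noncomputable def nmz (z : Eu 3) : Eu 3 := ‖z‖⁻¹ • z

/-- The nonzero pairs in `W0 3`. -/
abbrev W1 : Type := {w : WV // w ∈ W0 3 ∧ w ≠ 0}

/-- A ball in `W0 3`. -/
abbrev BW (r : ℝ) : Type := {w : WV // w ∈ W0 3 ∧ ‖w‖ ≤ r}

/-! ## Regular simplices -/

/-- `u` is a regular simplex inscribed in the unit sphere. -/
def IsS (u : Fin 5 → Eu 3) : Prop := (∀ i, ‖u i‖ = 1) ∧ ∀ i j, i ≠ j → ⟪u i, u j⟫ = -(1 / 4 : ℝ)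

/-- The vectors of an ordered regular simplex. -/
def fv (v : RS) (i : Fin 5) : Eu 3 := (v.1 i : Eu 3)

theorem isS_fv (v : RS) : IsS (fv v) := ⟨fun i => mem_sphere_zero_iff_norm.1 (v.1 i).2, v.2⟩

theorem isS_neg {u : Fin 5 → Eu 3} (h : IsS u) : IsS (fun i => -u i) :=
  ⟨fun i => by rw [norm_neg]; exact h.1 i, fun i j hij => by rw [inner_neg_neg]; exact h.2 i j hij⟩

theorem fv_smul (s : Equiv.Perm (Fin 5)) (v : RS) (i : Fin 5) : fv (s • v) i = fv v (s⁻¹ i) := rfl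

theorem exists_fv {u : Fin 5 → Eu 3} (h : IsS u) : ∃ v : RS, fv v = u :=
  ⟨⟨fun i => ⟨u i, mem_sphere_zero_iff_norm.2 (h.1 i)⟩, h.2⟩, rfl⟩

theorem fv_injective {v v' : RS} (h : fv v = fv v') : v = v' := by
  apply Subtype.ext
  funext i
  exact Subtype.ext (congrFun h i)

theorem continuous_fv (i : Fin 5) : Continuous (fun v : RS => fv v i) :=
  continuous_subtype_val.comp ((continuous_apply i).comp continuous_subtype_val)

instance : CompactSpace RS := by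
  have h : IsClosed {v : Fin 5 → Sph 3 | ∀ i j, i ≠ j → ⟪(v i : Eu 3), (v j : Eu 3)⟫ = -(1 / 4 : ℝ)} := by
    have h0 : {v : Fin 5 → Sph 3 | ∀ i j, i ≠ j → ⟪(v i : Eu 3), (v j : Eu 3)⟫ = -(1 / 4 : ℝ)} =
        ⋂ i, ⋂ j, ⋂ _ : i ≠ j, {v : Fin 5 → Sph 3 | ⟪(v i : Eu 3), (v j : Eu 3)⟫ = -(1 / 4 : ℝ)} := by
      ext v
      simp
    rw [h0]
    refine isClosed_iInter fun i => isClosed_iInter fun j => isClosed_iInter fun _ => ?_
    exact isClosed_eq ((continuous_subtype_val.comp (continuous_apply i)).inner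
      (continuous_subtype_val.comp (continuous_apply j))) continuous_const
  exact isCompact_iff_compactSpace.1 h.isCompact

instance : T2Space RS := inferInstanceAs (T2Space {v : Fin 5 → Sph 3 // ∀ i j, i ≠ j → ⟪(v i : Eu 3), (v j : Eu 3)⟫ = -(1 / 4 : ℝ)})

/-! ## Clusters -/

/-- `1` if `x` is at distance `≤ 1 / 2` from `u i`, `0` if the distance is `≥ 1`. -/
noncomputable def cl (u : Fin 5 → Eu 3) (x : Sph 3) (i : Fin 5) : ℝ := max 0 (min 1 (2 - 2 * ‖(x : Eu 3) - u i‖))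

/-- The mass of the weight near `u i`. -/
noncomputable def cm (u : Fin 5 → Eu 3) (p : Sph 3 →₀ ℝ) (i : Fin 5) : ℝ := ex p (fun x => cl u x i)

/-- The first moment of the part of the weight near `u i`. -/
noncomputable def cv (u : Fin 5 → Eu 3) (p : Sph 3 →₀ ℝ) (i : Fin 5) : Eu 3 :=
  p.sum fun x a => (a * cl u x i) • (x : Eu 3)

/-- The mean of the part of the weight near `u i` (if its mass is at least `1 / 10`). -/
noncomputable def vb (u : Fin 5 → Eu 3) (p : Sph 3 →₀ ℝ) (i : Fin 5) : Eu 3 := (max (1 / 10) (cm u p i))⁻¹ • cv u p i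

/-- The support of `p` is in the `η`-neighbourhood of the points `u i`. -/
def Nr (η : ℝ) (u : Fin 5 → Eu 3) (p : Sph 3 →₀ ℝ) : Prop := ∀ x : Sph 3, 0 < p x → ∃ i, ‖(x : Eu 3) - u i‖ ≤ η

/-- The radius of the clusters. -/
noncomputable def et : ℝ := 1 / 20000

/-- The supports of `p` and `q` are near `u` and `-u`. -/
def Gd (u : Fin 5 → Eu 3) (p q : Sph 3 →₀ ℝ) : Prop :=
  Nr et u p ∧ Nr et (fun i => -u i) q ∧ (∀ i, 1 / 10 ≤ cm u p i) ∧ ∀ i, 1 / 10 ≤ cm (fun i => -u i) q i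

/-- The operator `z ↦ ∑ ⟪u i, z⟫ t i` is symmetric. -/
def Bal (u t : Fin 5 → Eu 3) : Prop := ∀ x y : Eu 3, ∑ i, (⟪t i, x⟫ * ⟪u i, y⟫ - ⟪t i, y⟫ * ⟪u i, x⟫) = 0

/-- The mass of a set. -/
noncomputable def ms (q : Sph 3 →₀ ℝ) (s : Set (Sph 3)) : ℝ := ex q (s.indicator fun _ => 1)

/-- Masses of the caps defined by `x`. -/
def MsP (θ : ℝ) (q : Sph 3 →₀ ℝ) (x : Sph 3) : Prop :=
  1 / 5 - 3 * θ ≤ ms q {y | ⟪(x : Eu 3), (y : Eu 3)⟫ ≤ -1 + θ} ∧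
  (∀ θ' : ℝ, θ ≤ θ' → θ' ≤ 1 / 20 → ms q {y | ⟪(x : Eu 3), (y : Eu 3)⟫ ≤ -1 + θ'} ≤ 1 / 5 + 2 * θ') ∧
  ms q {y | -1 + θ < ⟪(x : Eu 3), (y : Eu 3)⟫ ∧ ⟪(x : Eu 3), (y : Eu 3)⟫ < 1 / 4 - θ} ≤ 2 * θ

/-! ## Labelled families -/

/-- The total weight of the elements with label `i`. -/
def lw {A : Type} [Fintype A] (l : A → Fin 5) (α : A → ℝ) (i : Fin 5) : ℝ := ∑ a, if l a = i then α a else 0

/-- The mean of the vectors with label `i`. -/
noncomputable def lm {A : Type} [Fintype A] (l : A → Fin 5) (α : A → ℝ) (x : A → Eu 3) (i : Fin 5) : Eu 3 :=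
  (lw l α i)⁻¹ • ∑ a, if l a = i then α a • x a else 0

/-- The operator with `u i ↦ t i - u i` up to the mean. -/
noncomputable def Xi (u t : Fin 5 → Eu 3) : Eu 3 →L[ℝ] Eu 3 := (4 / 5 : ℝ) • ∑ i, ro (u i) (t i - u i)

/-! ## The model -/

/-- The operator of the model. -/
noncomputable def Sm (u : Fin 5 → Eu 3) (w : WV) : Eu 3 →L[ℝ] Eu 3 :=
  w.2 - (16 / 15 : ℝ) • ∑ i, ⟪w.2 (u i), u i⟫ • tp (u i)

/-- The masses of the first weight of the model. -/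
noncomputable def Pm (u : Fin 5 → Eu 3) (w : WV) (i : Fin 5) : ℝ :=
  1 / 5 + 2 / 5 * ⟪w.1, u i⟫ + 8 / 15 * ⟪w.2 (u i), u i⟫

/-- The masses of the second weight of the model. -/
noncomputable def Qm (u : Fin 5 → Eu 3) (w : WV) (i : Fin 5) : ℝ :=
  1 / 5 + 2 / 5 * ⟪w.1, u i⟫ - 8 / 15 * ⟪w.2 (u i), u i⟫

/-- The vectors of the first weight of the model. -/
noncomputable def av (u : Fin 5 → Eu 3) (w : WV) (i : Fin 5) : Eu 3 := u i + Sm u w (u i)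

/-- The vectors of the second weight of the model. -/
noncomputable def bv (u : Fin 5 → Eu 3) (w : WV) (i : Fin 5) : Eu 3 :=
  -(u i - Sm u w (u i) + Sm u w (Sm u w (u i)))

/-! ## Pairs of weights on a finite set -/

/-- The pairs of compatible weights on `T`. -/
def YT (c : ℝ) (T : Finset (Sph 3)) : Type :=
  {z : (T → ℝ) × (T → ℝ) // z.1 ∈ stdSimplex ℝ T ∧ z.2 ∈ stdSimplex ℝ T ∧
    ∀ v w : T, c ≤ ⟪((v : Sph 3) : Eu 3), ((w : Sph 3) : Eu 3)⟫ → z.1 v * z.2 w = 0}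

noncomputable instance (c : ℝ) (T : Finset (Sph 3)) : MetricSpace (YT c T) :=
  inferInstanceAs (MetricSpace {z : (T → ℝ) × (T → ℝ) // z.1 ∈ stdSimplex ℝ T ∧ z.2 ∈ stdSimplex ℝ T ∧
    ∀ v w : T, c ≤ ⟪((v : Sph 3) : Eu 3), ((w : Sph 3) : Eu 3)⟫ → z.1 v * z.2 w = 0})

instance (c : ℝ) (T : Finset (Sph 3)) : CompactSpace (YT c T) := by
  have h1 : IsClosed {z : (T → ℝ) × (T → ℝ) |
      ∀ v w : T, c ≤ ⟪((v : Sph 3) : Eu 3), ((w : Sph 3) : Eu 3)⟫ → z.1 v * z.2 w = 0} := by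
    have h0 : {z : (T → ℝ) × (T → ℝ) |
        ∀ v w : T, c ≤ ⟪((v : Sph 3) : Eu 3), ((w : Sph 3) : Eu 3)⟫ → z.1 v * z.2 w = 0} =
        ⋂ v : T, ⋂ w : T, ⋂ _ : c ≤ ⟪((v : Sph 3) : Eu 3), ((w : Sph 3) : Eu 3)⟫,
          {z : (T → ℝ) × (T → ℝ) | z.1 v * z.2 w = 0} := by
      ext z
      simp only [Set.mem_iInter]
      rfl
    rw [h0]
    refine isClosed_iInter fun v => isClosed_iInter fun w => isClosed_iInter fun _ => ?_
    exact isClosed_eq (((continuous_apply v).comp continuous_fst).mul ((continuous_apply w).comp continuous_snd))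
      continuous_const
  have h2 : IsCompact {z : (T → ℝ) × (T → ℝ) | z.1 ∈ stdSimplex ℝ T ∧ z.2 ∈ stdSimplex ℝ T ∧
      ∀ v w : T, c ≤ ⟪((v : Sph 3) : Eu 3), ((w : Sph 3) : Eu 3)⟫ → z.1 v * z.2 w = 0} := by
    refine IsCompact.of_isClosed_subset ((isCompact_stdSimplex ℝ T).prod (isCompact_stdSimplex ℝ T)) ?_
      fun z hz => ⟨hz.1, hz.2.1⟩
    exact ((isClosed_stdSimplex ℝ T).preimage continuous_fst).inter
      (((isClosed_stdSimplex ℝ T).preimage continuous_snd).inter h1)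
  exact isCompact_iff_compactSpace.1 h2

/-- The first weight. -/
noncomputable def yp {c : ℝ} {T : Finset (Sph 3)} (z : YT c T) : Sph 3 →₀ ℝ := ext0 z.1.1

/-- The second weight. -/
noncomputable def yq {c : ℝ} {T : Finset (Sph 3)} (z : YT c T) : Sph 3 →₀ ℝ := ext0 z.1.2

/-- The difference of the moments. -/
noncomputable def Dz {c : ℝ} {T : Finset (Sph 3)} (z : YT c T) : WV := Dm 1 (yp z) (yq z)

/-- The pairs with small difference of the moments. -/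
abbrev YS (c : ℝ) (T : Finset (Sph 3)) (r : ℝ) : Type := {z : YT c T // ‖Dz z‖ ≤ r}

/-- `v` is a simplex adapted to the pair `z`. -/
def Rel {c : ℝ} {T : Finset (Sph 3)} (z : YT c T) (v : RS) : Prop :=
  Gd (fv v) (yp z) (yq z) ∧ Bal (fv v) (vb (fv v) (yp z))

/-! ## Smoothing -/

/-- A net of mesh `ρ` with a partition of unity which is also defined for vectors of norm `≥ 1 / 2`. -/
def NetV (ρ : ℝ) {B : Type} [Fintype B] (u : B → Sph 3) (φ : B → Eu 3 → ℝ) : Prop :=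
  (∀ b, Continuous (φ b)) ∧ (∀ b z, 0 ≤ φ b z) ∧ (∀ z, 1 / 2 ≤ ‖z‖ → ∑ b, φ b z = 1) ∧
    ∀ b z, 1 / 2 ≤ ‖z‖ → 0 < φ b z → ‖(u b : Eu 3) - nmz z‖ < ρ

/-- The smoothing of the family of vectors `P a` with the weights `α a`. -/
noncomputable def sm {A B : Type} [Fintype A] [Fintype B] (u : B → Sph 3) (φ : B → Eu 3 → ℝ) (α : A → ℝ)
    (P : A → Eu 3) : Sph 3 →₀ ℝ := ∑ a, ∑ b, Finsupp.single (u b) (α a * φ b (P a))

/-- `k₀` is a null homotopy target for all pairs of level `c` with moments at distance at least `a`. -/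
def Far (c : ℝ) (hc : -1 < c) (a : ℝ) (k₀ : Geo (capK 3 c hc)) : Prop :=
  ∀ (X : Type) [MetricSpace X] [CompactSpace X] (p q : C(X, Geo (capK 3 c hc))),
    (∀ x, Comp c (p x) (q x)) → (∀ x, a ≤ ‖Dm 1 (p x).1 (q x).1‖) → p.Homotopic (ContinuousMap.const X k₀)

/-- The local facts for the parameter `ε`. -/
def Loc (κ κ' ε : ℝ) : Prop :=
  0 < ε ∧ ε ≤ 1 / 100 ∧ 1 ≤ κ' ∧ 12 * (κ' * ε) ^ 2 ≤ ε ∧
  (∀ p q : Sph 3 →₀ ℝ, Pw p → Pw q → Cpt2 (1 / 4 + ε) p q → ‖Dm 1 p q‖ ≤ κ * √ε →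
    ∃ v : RS, Gd (fv v) p q ∧ Bal (fv v) (vb (fv v) p)) ∧
  (∀ (p q : Sph 3 →₀ ℝ) (v : RS), Pw p → Pw q → Cpt2 (1 / 4 + ε) p q → ‖Dm 1 p q‖ ≤ κ * √ε → Gd (fv v) p q →
    Bal (fv v) (vb (fv v) p) →
    (∀ (x : Sph 3) (i : Fin 5), 0 < p x → ‖(x : Eu 3) - fv v i‖ ≤ et → ‖(x : Eu 3) - av (fv v) (Dm 1 p q) i‖ ≤ κ' * ε) ∧
    (∀ (y : Sph 3) (i : Fin 5), 0 < q y → ‖(y : Eu 3) + fv v i‖ ≤ et → ‖(y : Eu 3) - bv (fv v) (Dm 1 p q) i‖ ≤ κ' * ε) ∧
    ∀ i, |cm (fv v) p i - Pm (fv v) (Dm 1 p q) i| ≤ κ' * ε ∧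
      |cm (fun i => -fv v i) q i - Qm (fv v) (Dm 1 p q) i| ≤ κ' * ε) ∧
  ∀ (v : RS) (w : WV), w ∈ W0 3 → ‖w‖ ≤ κ * √ε →
    (∀ i, 1 ≤ ‖av (fv v) w i‖ ∧ 1 ≤ ‖bv (fv v) w i‖ ∧ 1 / 10 ≤ Pm (fv v) w i ∧ 1 / 10 ≤ Qm (fv v) w i) ∧
    ∑ i, Pm (fv v) w i = 1 ∧ ∑ i, Qm (fv v) w i = 1 ∧ (∀ i j, ⟪av (fv v) w i, bv (fv v) w j⟫ ≤ 1 / 4 + ε / 2) ∧
    ‖∑ i, Pm (fv v) w i • nmz (av (fv v) w i) - ∑ i, Qm (fv v) w i • nmz (bv (fv v) w i) - w.1‖ ≤ κ' * ε ∧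
    ‖∑ i, Pm (fv v) w i • tp (nmz (av (fv v) w i)) - ∑ i, Qm (fv v) w i • tp (nmz (bv (fv v) w i)) - w.2‖ ≤ κ' * ε

end Pool.Agent.MPaafd8a
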