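import Pool.Agent.Lib.MP_aafd8a_gt_D.SpecA

/-!
# MP_aafd8a_gt, disproof for `n = 3`, block (A-i), module Ex5: a regular simplex in `S^3`
-/

set_option autoImplicit false

open Topology RealInnerProductSpace

namespace Pool.Agent.MPaafd8a

namespace Ex5Aux

noncomputable def al : ℝ := √5 / 2
noncomputable def be : ℝ := (1 - √5) / 8

noncomputable def mt : Fin 5 → Fin 4 → ℝ :=
  ![![al + be, be, be, be], ![be, al + be, be, be], ![be, be, al + be, be], ![be, be, be, al + be],
    ![-(1 / 2), -(1 / 2), -(1 / 2), -(1 / 2)]]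

noncomputable def uu (i : Fin 5) : Eu 3 := WithLp.toLp 2 (mt i)

theorem inn (i j : Fin 5) : ⟪uu i, uu j⟫ = ∑ k, mt i k * mt j k := by
  rw [PiLp.inner_apply]
  refine Finset.sum_congr rfl fun k _ => ?_
  show mt j k * mt i k = mt i k * mt j k
  ring

theorem tab (i j : Fin 5) : ∑ k, mt i k * mt j k = if i = j then (1 : ℝ) else -(1 / 4) := by
  have h5 : √5 * √5 = 5 := Real.mul_self_sqrt (by norm_num)
  have ha : al * al = 5 / 4 := by
    unfold al
    linarith
  have hab : al * be = (√5 - 5) / 16 := by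
    unfold al be
    linarith
  have hb : be * be = (3 - √5) / 32 := by
    unfold be
    linarith
  have hl : al + 4 * be = 1 / 2 := by
    unfold al be
    ring
  rw [Fin.sum_univ_four]
  fin_cases i <;> fin_cases j <;> simp [mt] <;> linarith

end Ex5Aux

open Ex5Aux in
theorem pEx5 : SEx5 := by
  have h : IsS uu := by
    refine ⟨fun i => ?_, fun i j hij => ?_⟩
    · have h1 : ⟪uu i, uu i⟫ = 1 := by
        rw [inn, tab, if_pos rfl]
      rw [real_inner_self_eq_norm_sq] at h1
      nlinarith [norm_nonneg (uu i)]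
    · rw [inn, tab, if_neg hij]
  obtain ⟨v, -⟩ := exists_fv h
  exact ⟨v⟩

end Pool.Agent.MPaafd8a
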