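import Pool.Agent.Lib.MP_aafd8a_gt_D.SpecA

/-!
# MP_aafd8a_gt, disproof for `n = 3`, block (A-i): uniqueness of the adapted simplex
-/

set_option autoImplicit false

open Topology RealInnerProductSpace

namespace Pool.Agent.MPaafd8a

namespace GauUAux

/-- Every cluster contains a point of the support. -/
theorem pt (hC : SClu) (u : Fin 5 → Eu 3) (p : Sph 3 →₀ ℝ) (hu : IsS u) (hp : Pw p) (hN : Nr et u p)
    (hm : ∀ i, 1 / 10 ≤ cm u p i) (i : Fin 5) : ∃ x : Sph 3, 0 < p x ∧ ‖(x : Eu 3) - u i‖ ≤ et := by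
  have het : et ≤ 1 / 4 := by
    unfold et
    norm_num
  obtain ⟨h1, -⟩ := hC u et p hu het hp hN
  have h2 : cm u p i ≠ 0 := by
    have := hm i
    intro h
    rw [h] at this
    norm_num at this
  have h3 : ∃ x ∈ p.support, p x * cl u x i ≠ 0 := by
    by_contra hcon
    push Not at hcon
    apply h2
    unfold cm ex Finsupp.sum
    exact Finset.sum_eq_zero hcon
  obtain ⟨x, hx, hx'⟩ := h3
  have hpx : 0 < p x := lt_of_le_of_ne (hp.1 x) (Ne.symm (Finsupp.mem_support_iff.1 hx))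
  obtain ⟨j, hj⟩ := hN x hpx
  refine ⟨x, hpx, ?_⟩
  by_cases h : i = j
  · rw [h]
    exact hj
  · exfalso
    have h4 := ((h1 x j (hj.trans het)).2 i h).1
    rw [h4, mul_zero] at hx'
    exact hx' rfl

/-- The mean of a cluster is near the vertex. -/
theorem near (hC : SClu) (u : Fin 5 → Eu 3) (p : Sph 3 →₀ ℝ) (hu : IsS u) (hp : Pw p) (hN : Nr et u p)
    (hm : ∀ i, 1 / 10 ≤ cm u p i) (i : Fin 5) : ‖vb u p i - u i‖ ≤ 1 / 20 := by
  have het : et ≤ 1 / 4 := by
    unfold et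
    norm_num
  obtain ⟨-, -, -, h1, -⟩ := hC u et p hu het hp hN
  have h2 : max (1 / 10) (cm u p i) = cm u p i := max_eq_right (hm i)
  have h3 : 0 < cm u p i := lt_of_lt_of_le (by norm_num) (hm i)
  have h4 : vb u p i - u i = (cm u p i)⁻¹ • (cv u p i - cm u p i • u i) := by
    unfold vb
    rw [h2, smul_sub, smul_smul, inv_mul_cancel₀ h3.ne', one_smul]
  rw [h4, norm_smul, norm_inv, Real.norm_eq_abs, abs_of_pos h3]
  have h5 : (cm u p i)⁻¹ * ‖cv u p i - cm u p i • u i‖ ≤ (cm u p i)⁻¹ * (et * cm u p i) :=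
    mul_le_mul_of_nonneg_left (h1 i) (inv_nonneg.2 h3.le)
  have h6 : (cm u p i)⁻¹ * (et * cm u p i) = et := by
    field_simp
  rw [h6] at h5
  refine h5.trans ?_
  unfold et
  norm_num

theorem dist_ne (u : Fin 5 → Eu 3) (hu : IsS u) (i j : Fin 5) (h : i ≠ j) : 1 < ‖u i - u j‖ := by
  have h1 : ‖u i - u j‖ ^ 2 = 5 / 2 := by
    rw [norm_sub_sq_real, hu.1, hu.1, hu.2 i j h]
    norm_num
  by_contra h2
  push Not at h2
  have h3 : ‖u i - u j‖ ^ 2 ≤ 1 ^ 2 := pow_le_pow_left₀ (norm_nonneg _) h2 2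
  rw [h1] at h3
  norm_num at h3

end GauUAux

theorem pGauU : SClu → SPolQ → SGauU := by
  intro hC hQ p q v v' hp hG hG' hB hB'
  have het : et ≤ 1 / 4 := by
    unfold et
    norm_num
  have hu := isS_fv v
  have hu' := isS_fv v'
  have hex : ∀ i, ∃ j, ‖fv v i - fv v' j‖ ≤ 2 * et := by
    intro i
    obtain ⟨x, hx, hxi⟩ := GauUAux.pt hC (fv v) p hu hp hG.1 hG.2.2.1 i
    obtain ⟨j, hj⟩ := hG'.1 x hx
    refine ⟨j, ?_⟩
    have h1 : fv v i - fv v' j = ((x : Eu 3) - fv v' j) - ((x : Eu 3) - fv v i) := by abel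
    rw [h1]
    have h2 := norm_sub_le ((x : Eu 3) - fv v' j) ((x : Eu 3) - fv v i)
    linarith
  choose π hπ using hex
  have hinj : Function.Injective π := by
    intro i i' hii
    by_contra hne
    have h1 := GauUAux.dist_ne (fv v) hu i i' hne
    have h2 := hπ i
    have h3 := hπ i'
    rw [← hii] at h3
    have h4 : fv v i - fv v i' = (fv v i - fv v' (π i)) - (fv v i' - fv v' (π i)) := by abel
    have h5 := norm_sub_le (fv v i - fv v' (π i)) (fv v i' - fv v' (π i))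
    rw [← h4] at h5
    have h6 : et = 1 / 20000 := rfl
    rw [h6] at h2 h3
    linarith
  set s : Equiv.Perm (Fin 5) := Equiv.ofBijective π (Finite.injective_iff_bijective.1 hinj) with hs
  have hsi : ∀ i, s i = π i := fun i => rfl
  set v2 : RS := s⁻¹ • v' with hv2
  have hv2i : ∀ i, fv v2 i = fv v' (π i) := by
    intro i
    rw [hv2, fv_smul, inv_inv, hsi]
  have hu2 := isS_fv v2
  have hcl : ∀ x i, cl (fv v2) x i = cl (fv v') x (π i) := by
    intro x i
    unfold cl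
    rw [hv2i]
  have hcm : ∀ i, cm (fv v2) p i = cm (fv v') p (π i) := by
    intro i
    unfold cm
    simp only [hcl]
  have hcv : ∀ i, cv (fv v2) p i = cv (fv v') p (π i) := by
    intro i
    unfold cv
    simp only [hcl]
  have hvb : ∀ i, vb (fv v2) p i = vb (fv v') p (π i) := by
    intro i
    unfold vb
    rw [hcm, hcv]
  -- the two simplices have the same means
  have hclose : ∀ i, ‖fv v i - fv v2 i‖ + et ≤ 1 / 4 := by
    intro i
    rw [hv2i]
    have h1 := hπ i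
    have h6 : et = 1 / 20000 := rfl
    rw [h6] at h1 ⊢
    linarith
  obtain ⟨-, -, -, -, hsame⟩ := hC (fv v) et p hu het hp hG.1
  have hsame2 := hsame (fv v2) hu2 hclose
  have ht : vb (fv v2) p = vb (fv v) p := by
    funext i
    unfold vb
    rw [(hsame2 i).1, (hsame2 i).2]
  have hN2 : Nr et (fv v2) p := by
    intro x hx
    obtain ⟨j, hj⟩ := hG'.1 x hx
    refine ⟨s.symm j, ?_⟩
    rw [hv2i, ← hsi, Equiv.apply_symm_apply]
    exact hj
  have hm2 : ∀ i, 1 / 10 ≤ cm (fv v2) p i := by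
    intro i
    rw [hcm]
    exact hG'.2.2.1 _
  have hB2 : Bal (fv v2) (vb (fv v) p) := by
    intro x y
    have h1 := hB' x y
    rw [← ht]
    have h2 := Equiv.sum_comp s (fun i => ⟪vb (fv v') p i, x⟫ * ⟪fv v' i, y⟫ - ⟪vb (fv v') p i, y⟫ * ⟪fv v' i, x⟫)
    rw [h1] at h2
    rw [← h2]
    refine Finset.sum_congr rfl (fun i _ => ?_)
    rw [hvb, hv2i, hsi]
  have hn1 : ∀ i, ‖vb (fv v) p i - fv v i‖ ≤ 1 / 20 := GauUAux.near hC (fv v) p hu hp hG.1 hG.2.2.1
  have hn2 : ∀ i, ‖vb (fv v) p i - fv v2 i‖ ≤ 1 / 20 := by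
    intro i
    rw [← ht]
    exact GauUAux.near hC (fv v2) p hu2 hp hN2 hm2 i
  have h1 := hQ (fv v) (fv v2) (vb (fv v) p) hu hu2 hn1 hB
  have h2 := hQ (fv v2) (fv v) (vb (fv v) p) hu2 hu hn2 hB2
  have h3 : ∑ i, ⟪vb (fv v) p i, fv v i - fv v2 i⟫ + ∑ i, ⟪vb (fv v) p i, fv v2 i - fv v i⟫ = 0 := by
    rw [← Finset.sum_add_distrib]
    refine Finset.sum_eq_zero (fun i _ => ?_)
    rw [← inner_add_right]
    have : fv v i - fv v2 i + (fv v2 i - fv v i) = 0 := by abel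
    rw [this, inner_zero_right]
  have h4 : ∑ i, ‖fv v2 i - fv v i‖ ^ 2 = ∑ i, ‖fv v i - fv v2 i‖ ^ 2 :=
    Finset.sum_congr rfl (fun i _ => by rw [norm_sub_rev])
  rw [h4] at h2
  have h5 : ∑ i, ‖fv v i - fv v2 i‖ ^ 2 = 0 :=
    le_antisymm (by linarith) (Finset.sum_nonneg fun i _ => by positivity)
  have h6 : fv v = fv v2 := by
    funext i
    have h7 := (Finset.sum_eq_zero_iff_of_nonneg (fun i _ => by positivity)).1 h5 i (Finset.mem_univ i)
    have h8 : ‖fv v i - fv v2 i‖ = 0 := by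
      rcases pow_eq_zero_iff (two_ne_zero) |>.1 h7 with h
      exact h
    exact sub_eq_zero.1 (norm_eq_zero.1 h8)
  have h7 : v = v2 := fv_injective h6
  refine ⟨s, ?_⟩
  rw [h7, hv2, smul_smul, mul_inv_cancel, one_smul]

end Pool.Agent.MPaafd8a
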