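import Pool.Agent.Lib.MP_aafd8a_gt_D.SpecB

/-!
# Lipschitz estimates for moments
-/

set_option autoImplicit false

open Topology RealInnerProductSpace

namespace Pool.Agent.MPaafd8a

namespace MlAux

theorem lip {A E : Type} [Fintype A] [NormedAddCommGroup E] [NormedSpace ℝ E] {α : A → ℝ} {F F' : A → E}
    {D : ℝ} (h0 : ∀ a, 0 ≤ α a) (h1 : ∑ a, α a = 1) (h : ∀ a, 0 < α a → ‖F a - F' a‖ ≤ D) :
    ‖∑ a, α a • F a - ∑ a, α a • F' a‖ ≤ D := by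
  rw [← Finset.sum_sub_distrib]
  calc ‖∑ a, (α a • F a - α a • F' a)‖ ≤ ∑ a, ‖α a • F a - α a • F' a‖ := norm_sum_le _ _
    _ ≤ ∑ a, α a * D := by
        refine Finset.sum_le_sum fun a _ => ?_
        rw [← smul_sub, norm_smul, Real.norm_eq_abs, abs_of_nonneg (h0 a)]
        rcases (h0 a).eq_or_lt with h2 | h2
        · rw [← h2, zero_mul, zero_mul]
        · exact mul_le_mul_of_nonneg_left (h a h2) h2.le
    _ = D := by rw [← Finset.sum_mul, h1, one_mul]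

theorem lip2 {A E : Type} [Fintype A] [NormedAddCommGroup E] [NormedSpace ℝ E] {α α' : A → ℝ} {F : A → E}
    (h : ∀ a, ‖F a‖ ≤ 1) : ‖∑ a, α a • F a - ∑ a, α' a • F a‖ ≤ ∑ a, |α a - α' a| := by
  rw [← Finset.sum_sub_distrib]
  refine (norm_sum_le _ _).trans (Finset.sum_le_sum fun a _ => ?_)
  rw [← sub_smul, norm_smul, Real.norm_eq_abs]
  exact mul_le_of_le_one_right (abs_nonneg _) (h a)

theorem tp_norm {x : Eu 3} (hx : ‖x‖ ≤ 1) : ‖tp x‖ ≤ 1 := by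
  refine ContinuousLinearMap.opNorm_le_bound _ zero_le_one fun z => ?_
  rw [tp_apply, norm_smul, Real.norm_eq_abs]
  have h1 := abs_real_inner_le_norm x z
  have h2 := norm_nonneg x
  have h3 := norm_nonneg z
  calc |⟪x, z⟫| * ‖x‖ ≤ (‖x‖ * ‖z‖) * ‖x‖ := by gcongr
    _ ≤ (1 * ‖z‖) * 1 := by gcongr
    _ = 1 * ‖z‖ := by ring

theorem tp_sub {x x' : Eu 3} {δ : ℝ} (hx : ‖x‖ ≤ 1) (hx' : ‖x'‖ ≤ 1) (h0 : 0 ≤ δ) (h : ‖x - x'‖ ≤ δ) :
    ‖tp x - tp x'‖ ≤ 2 * δ := by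
  refine ContinuousLinearMap.opNorm_le_bound _ (by positivity) fun z => ?_
  have e : (tp x - tp x') z = ⟪x - x', z⟫ • x + ⟪x', z⟫ • (x - x') := by
    rw [sub_apply, tp_apply, tp_apply, inner_sub_left]
    module
  rw [e]
  refine (norm_add_le _ _).trans ?_
  rw [norm_smul, norm_smul, Real.norm_eq_abs, Real.norm_eq_abs]
  have h1 := abs_real_inner_le_norm (x - x') z
  have h2 := abs_real_inner_le_norm x' z
  have h3 := norm_nonneg z
  calc |⟪x - x', z⟫| * ‖x‖ + |⟪x', z⟫| * ‖x - x'‖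
      ≤ (‖x - x'‖ * ‖z‖) * ‖x‖ + (‖x'‖ * ‖z‖) * ‖x - x'‖ := by gcongr
    _ ≤ (δ * ‖z‖) * 1 + (1 * ‖z‖) * δ := by gcongr
    _ = 2 * δ * ‖z‖ := by ring

end MlAux

open MlAux in
theorem pMl : SMl := by
  refine ⟨?_, ?_⟩
  · intro A _ α α' x x' δ h0 h1 hδ hx hd
    refine ⟨lip h0 h1 hd, lip h0 h1 fun a ha => ?_, lip2 fun a => (hx a).1,
      lip2 fun a => tp_norm (hx a).1⟩
    exact tp_sub (hx a).1 (hx a).2 hδ (hd a ha)
  · intro x P hx hP
    have hP0 : 0 < ‖P‖ := by linarith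
    refine ⟨?_, ?_⟩
    · unfold nmz
      rw [norm_smul, norm_inv, norm_norm, inv_mul_cancel₀ hP0.ne']
    · have e : nmz P - P = (‖P‖⁻¹ - 1) • P := by
        unfold nmz
        rw [sub_smul, one_smul]
      have h1 : ‖nmz P - P‖ ≤ ‖P - x‖ := by
        rw [e, norm_smul, Real.norm_eq_abs]
        have h2 : |‖P‖⁻¹ - 1| * ‖P‖ = |1 - ‖P‖| := by
          have h3 : |‖P‖⁻¹ - 1| * |‖P‖| = |1 - ‖P‖| := by
            rw [← abs_mul, sub_mul, inv_mul_cancel₀ hP0.ne', one_mul]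
          rwa [abs_of_pos hP0] at h3
        rw [h2, ← hx, norm_sub_rev P x]
        exact abs_norm_sub_norm_le x P
      calc ‖nmz P - x‖ = ‖(nmz P - P) + (P - x)‖ := by rw [sub_add_sub_cancel]
        _ ≤ ‖nmz P - P‖ + ‖P - x‖ := norm_add_le _ _
        _ ≤ 2 * ‖P - x‖ := by linarith

end Pool.Agent.MPaafd8a
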