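import Pool.Agent.Lib.MP_aafd8a_gt_D.Frame

/-!
# MP_aafd8a_gt, disproof for `n = 3`: from the blocks to the theorem
-/

set_option autoImplicit false

open Topology RealInnerProductSpace

namespace Pool.Agent.MPaafd8a

namespace NegAux

lemma connAtLeast_mono {k l : ℤ} {Y : Type} [TopologicalSpace Y] (h : ConnAtLeast k Y)
    (hlk : l ≤ k) : ConnAtLeast l Y :=
  ⟨h.1, fun i hi y => h.2 i (hi.trans hlk) y⟩

lemma le_conn {k : ℤ} {Y : Type} [TopologicalSpace Y] (h : ConnAtLeast k Y) :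
    ((k : ℝ) : EReal) ≤ conn Y :=
  le_sSup ⟨k, h, rfl⟩

lemma of_le_conn {k : ℤ} {Y : Type} [TopologicalSpace Y] (h : ((k : ℝ) : EReal) ≤ conn Y) :
    ConnAtLeast k Y := by
  by_contra hcon
  have h1 : conn Y ≤ (((k : ℝ) - 1 : ℝ) : EReal) := by
    unfold conn
    refine sSup_le ?_
    rintro a ⟨j, hj, rfl⟩
    rw [EReal.coe_le_coe_iff]
    have h2 : j ≤ k - 1 := by
      by_contra h3
      push Not at h3
      exact hcon (connAtLeast_mono hj (by omega))
    have h3 : (j : ℝ) ≤ ((k - 1 : ℤ) : ℝ) := by exact_mod_cast h2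
    push_cast at h3
    exact h3
  have h2 := h.trans h1
  rw [EReal.coe_le_coe_iff] at h2
  linarith

lemma cech_eq (hFace : SFace) (c : ℝ) (hc : -1 < c) (hc1 : c < 1) :
    ∃ (h0 : 0 < Real.arccos (-c)), Real.arccos (-c) < Real.pi ∧
      cech 3 (Real.arccos (-c)) h0 = capK 3 c hc := by
  have h0 : 0 < Real.arccos (-c) := Real.arccos_pos.2 (by linarith)
  have hpi : Real.arccos (-c) < Real.pi := by
    rw [Real.arccos_neg]
    have := Real.arccos_pos.2 hc1
    linarith
  refine ⟨h0, hpi, ?_⟩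
  have hcos : -Real.cos (Real.arccos (-c)) = c := by
    rw [Real.cos_arccos (by linarith) (by linarith), neg_neg]
  apply SetLike.ext
  intro σ
  have h1 := (hFace 3 (Real.arccos (-c)) h0 hpi).1 σ
  rw [hcos] at h1
  exact h1

end NegAux

open NegAux in
theorem pNeg : SA → SB → SFace → SNeg := by
  rintro ⟨ε₀, hε, hA⟩ hB hFace hmono
  have hs : (4 / 3 : ℝ) < Real.sqrt 2 := Real.lt_sqrt_of_sq_lt (by norm_num)
  have hs0 : 0 < Real.sqrt 2 := by positivity
  have hcst : 1 / 4 < cst := by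
    unfold cst
    have : 1 / Real.sqrt 2 < 3 / 4 := by
      rw [div_lt_iff₀ hs0]
      linarith
    linarith
  have hcst1 : cst < 1 := by
    unfold cst
    have : 0 < 1 / Real.sqrt 2 := by positivity
    linarith
  obtain ⟨cA, a1, a2, a3⟩ : ∃ cA : ℝ, 1 / 4 < cA ∧ cA < 1 / 4 + ε₀ ∧ cA < cst := by
    refine ⟨min (1 / 4 + ε₀ / 2) ((1 / 4 + cst) / 2), ?_, ?_, ?_⟩
    · exact lt_min (by linarith) (by linarith)
    · exact (min_le_left _ _).trans_lt (by linarith)
    · exact (min_le_right _ _).trans_lt (by linarith)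
  have hA1 : -1 < cA := by linarith
  have hconA := hA cA hA1 a1 a2
  have key : ∀ (c : ℝ) (hc : -1 < c), cA < c → c < 1 → ConnAtLeast 15 (Geo (capK 3 c hc)) := by
    intro c hc hAc hc1
    obtain ⟨h0, -, e0⟩ := cech_eq hFace cA hA1 (by linarith)
    obtain ⟨h0', hpi', e0'⟩ := cech_eq hFace c hc hc1
    have h1 := hmono 3 (by norm_num) _ _ h0 h0'
      (Real.arccos_lt_arccos (by linarith) (by linarith) (by linarith)) hpi'
    rw [e0, e0'] at h1
    exact of_le_conn ((le_conn hconA).trans h1)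
  obtain ⟨cm, cp, hm, hp, h1, h2, h3, h4, h5⟩ := hB cA a3
  exact h5 ⟨connAtLeast_mono (key cm hm h1 (by linarith)) (by norm_num),
    key cp hp (by linarith) h4⟩

end Pool.Agent.MPaafd8a
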