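import Pool.Agent.Lib.MP_aafd8a_gt_D.SpecC

/-! # MP_aafd8a_gt, block (A-i): the universal map (`pPhi`) -/

set_option autoImplicit false

open Topology RealInnerProductSpace Filter

namespace Pool.Agent.MPaafd8a

namespace PhiAux

/-- Gluing along two closed sets. -/
theorem glue {Z K : Type} [TopologicalSpace Z] [TopologicalSpace K] (F : Z → K) (A B : Set Z) (hA : IsClosed A)
    (hB : IsClosed B) (hAB : A ∪ B = Set.univ) (h1 : ContinuousOn F A) (h2 : ContinuousOn F B) : Continuous F := by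
  rw [← continuousOn_univ, ← hAB]
  exact h1.union_of_isClosed h2 hA hB

/-- The abstract form of the universal map. -/
theorem glueMap {Y K : Type} [TopologicalSpace Y] [TopologicalSpace K] (N : Y → ℝ) (hN : Continuous N) (a s : ℝ)
    (hs : 0 < s) (k₀ : K) (gp : C(Y, K)) (L : unitInterval × {z : Y // a ≤ N z} → K) (hL : Continuous L)
    (hL0 : ∀ z, L (0, z) = gp z.1) (hL1 : ∀ z, L (1, z) = k₀) :
    ∃ Φ : C({ζ : ℝ × Y // ζ.1 ≤ s / 2 ∨ a ≤ N ζ.2}, K),
      (∀ ζ, ζ.1.1 ≤ s / 2 → Φ ζ = gp ζ.1.2) ∧ ∀ ζ, s ≤ ζ.1.1 → Φ ζ = k₀ := by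
  classical
  obtain ⟨τ, hτ⟩ : ∃ τ : ℝ → unitInterval, τ = fun x => Set.projIcc (0 : ℝ) 1 zero_le_one ((x - s / 2) / (s / 2)) := ⟨_, rfl⟩
  have hτc : Continuous τ := by
    rw [hτ]
    exact continuous_projIcc.comp ((continuous_id.sub continuous_const).div_const _)
  have hτ0 : ∀ x, x ≤ s / 2 → τ x = 0 := by
    intro x hx
    rw [hτ]
    exact Set.projIcc_of_le_left _ (div_nonpos_of_nonpos_of_nonneg (by linarith) (by linarith))
  have hτ1 : ∀ x, s ≤ x → τ x = 1 := by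
    intro x hx
    rw [hτ]
    refine Set.projIcc_of_right_le _ ?_
    rw [le_div_iff₀ (by linarith)]
    linarith
  obtain ⟨F, hF⟩ : ∃ F : {ζ : ℝ × Y // ζ.1 ≤ s / 2 ∨ a ≤ N ζ.2} → K,
      F = fun ζ => if h : a ≤ N ζ.1.2 then L (τ ζ.1.1, ⟨ζ.1.2, h⟩) else gp ζ.1.2 := ⟨_, rfl⟩
  have hFB : ∀ ζ (h : a ≤ N ζ.1.2), F ζ = L (τ ζ.1.1, ⟨ζ.1.2, h⟩) := by
    intro ζ h
    rw [hF]
    exact dif_pos h
  have hFA : ∀ ζ, ζ.1.1 ≤ s / 2 → F ζ = gp ζ.1.2 := by
    intro ζ h
    by_cases h' : a ≤ N ζ.1.2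
    · rw [hFB ζ h', hτ0 _ h]
      exact hL0 _
    · rw [hF]
      exact dif_neg h'
  have hcont : Continuous F := by
    refine glue F {ζ | ζ.1.1 ≤ s / 2} {ζ | a ≤ N ζ.1.2} ?_ ?_ ?_ ?_ ?_
    · exact isClosed_le (continuous_fst.comp continuous_subtype_val) continuous_const
    · exact isClosed_le continuous_const (hN.comp (continuous_snd.comp continuous_subtype_val))
    · exact Set.eq_univ_of_forall fun ζ => ζ.2
    · refine ContinuousOn.congr (f := fun ζ => gp ζ.1.2)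
        (gp.continuous.comp (continuous_snd.comp continuous_subtype_val)).continuousOn ?_
      intro ζ h
      exact hFA ζ h
    · rw [continuousOn_iff_continuous_domRestrict]
      have e1 : Set.domRestrict {ζ : {ζ : ℝ × Y // ζ.1 ≤ s / 2 ∨ a ≤ N ζ.2} | a ≤ N ζ.1.2} F =
          fun ζ => L (τ ζ.1.1.1, ⟨ζ.1.1.2, ζ.2⟩) := by
        funext ζ
        exact hFB ζ.1 ζ.2
      rw [e1]
      refine hL.comp (Continuous.prodMk ?_ (Continuous.subtype_mk ?_ _))
      · exact hτc.comp (continuous_fst.comp (continuous_subtype_val.comp continuous_subtype_val))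
      · exact continuous_snd.comp (continuous_subtype_val.comp continuous_subtype_val)
  refine ⟨⟨F, hcont⟩, fun ζ h => ?_, fun ζ h => ?_⟩
  · change F ζ = _
    rw [hFA ζ h]
  · change F ζ = _
    have h' : a ≤ N ζ.1.2 := ζ.2.resolve_left (by linarith)
    rw [hFB ζ h', hτ1 _ h]
    exact hL1 _

end PhiAux

open PhiAux

theorem pPhi : SYT → SPhi := by
  intro hYT c hc a s k₀ hs hFar T
  obtain ⟨h1, -, hDz, hgeo, -, -⟩ := hYT c T
  obtain ⟨⟨gp, hgp⟩, gq, hgq⟩ := hgeo hc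
  have hcl : IsClosed {z : YT c T | a ≤ ‖Dz z‖} := isClosed_le continuous_const hDz.norm
  have hcs : CompactSpace {z : YT c T // a ≤ ‖Dz z‖} := isCompact_iff_compactSpace.1 hcl.isCompact
  obtain ⟨L⟩ := hFar {z : YT c T // a ≤ ‖Dz z‖} (gp.comp ⟨Subtype.val, continuous_subtype_val⟩)
    (gq.comp ⟨Subtype.val, continuous_subtype_val⟩)
    (fun z => by
      have h2 := (h1 z.1).2.2.1
      intro v w hv hw
      have hv' : 0 < yp z.1 v := by
        rw [← hgp z.1]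
        exact hv
      have hw' : 0 < yq z.1 w := by
        rw [← hgq z.1]
        exact hw
      exact h2 v w hv' hw')
    (fun z => by
      change a ≤ ‖Dm 1 (gp z.1).1 (gq z.1).1‖
      rw [hgp, hgq]
      exact z.2)
  obtain ⟨Φ, hΦ1, hΦ2⟩ := glueMap (fun z : YT c T => ‖Dz z‖) hDz.norm a s hs k₀ gp (fun x => L x) L.continuous
    (fun z => L.apply_zero z) (fun z => L.apply_one z)
  exact ⟨Φ, fun ζ h => by rw [hΦ1 ζ h, hgp], hΦ2⟩

end Pool.Agent.MPaafd8a
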