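import Pool.Agent.Lib.MP_aafd8a_gt_D.DefsA

/-!
# MP_aafd8a_gt, disproof for `n = 3`, block (A-i): statements, first part (geometry)

GOAL of the block: `SA1` of `Frame.lean`. IDEA. `c = 1 / 4 + ε`. A pair `(p, q)` of compatible weights has the moments `w = Dm 1 p q ∈ W0 3` (dimension `13`). If `‖w‖ ≥ 80 √ε` the pair can be pushed to the level `1 / 4 - ε`, where everything is governed by `w` (`SFar`, third part). If `‖w‖ ≤ κ √ε` then (`SLoc`, this part) the supports of `p`, `q` are very near the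
vertices of regular simplices `v`, `-v`, the simplex `v` is unique if a symmetry condition (`Bal`) is imposed, and all points and masses are determined by `(v, w)` up to `O(ε)`: `x ≈ av v w i`, `y ≈ bv v w i`; so the pair can be moved to a model pair which only depends on `(v, w)` (`SHB`, second part).

Conventions as in `MP_aafd8a_gt/Spec.lean`: `SName` is a statement, the module `Name.lean` (in this directory) proves `pName : SName` or, (from `SA`, `SB`), `SA → SB → SName`. Statements of `MP_aafd8a_gt/Spec*.lean` may be hypotheses as well.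
NOTATION in the proofs: `ξ, ζ` displacements, `t` inner products, `a = w.1`, `N = w.2`, `S = Sm u w`.
-/

set_option autoImplicit false

open Topology RealInnerProductSpace

namespace Pool.Agent.MPaafd8a

/-! ## Algebra -/

/-- **Regular simplices** (120 lines). PROOF. `‖∑ u i‖^2 = 5 - 20 / 4 = 0`. `T x = ∑ ⟪x, u i⟫ u i` satisfies `T (u j) = u j - (1 / 4) ∑_(i ≠ j) u i = (5 / 4) u j - (1 / 4) ∑ u i = (5 / 4) u j`. The vectors `u 0, .., u 3` are linearly independent: if `∑_(j < 4) c_j u j = 0`, the inner product with `u k` gives `(5 / 4) c_k = (1 / 4) ∑ c_j`, so all `c_k` are equal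
and `c (1 - 3 / 4) = 0`; so they span the space of dimension `4` and `T = 5 / 4` (third formula: inner product with `y`). Fourth: `‖x‖^2 = (4 / 5) ∑ ⟪x, u i⟫^2 ≤ 4 C^2`. Trace (`LinearMap.trace_eq_sum_inner` for the standard basis `b`): `∑_i ⟪N u_i, u_i⟫ = ∑_i ∑_k ⟪u_i, b_k⟫ ⟪N b_k, u_i⟫ = (5 / 4) ∑_k ⟪N b_k, b_k⟫`. -/
def SAlg : Prop :=
  ∀ u : Fin 5 → Eu 3, IsS u →
    ∑ i, u i = 0 ∧ (∀ x, ∑ i, ⟪x, u i⟫ • u i = (5 / 4 : ℝ) • x) ∧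
    (∀ x y, ∑ i, ⟪x, u i⟫ * ⟪y, u i⟫ = 5 / 4 * ⟪x, y⟫) ∧
    (∀ (x : Eu 3) (C : ℝ), 0 ≤ C → (∀ i, |⟪x, u i⟫| ≤ C) → ‖x‖ ≤ 2 * C) ∧
    ∀ N : Eu 3 →L[ℝ] Eu 3, ∑ i, ⟪N (u i), u i⟫ = 5 / 4 * LinearMap.trace ℝ (Eu 3) (N : Eu 3 →ₗ[ℝ] Eu 3)

/-- **Existence of a regular simplex** (50 lines). PROOF. `v_i = (√5 / 2) e_i + ((1 - √5) / 8) (1, 1, 1, 1)` for `i < 4`, `v_4 = - (1 / 2) (1, 1, 1, 1)`. With `α = √5 / 2`, `β = (1 - √5) / 8`: `α + 4 β = 1 / 2`, `2 α β + 4 β^2 = -1 / 4`, `α^2 = 5 / 4`. -/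
def SEx5 : Prop := Nonempty RS

/-- **The inner product of pairs** (120 lines). PROOF. First: `ex p' (gq p q) = ∑ p'_v (⟪S v, v⟫ + (3 / 4) ⟪a, v⟫)` with `S = mo p - mo q`, `a = bar p - bar q` (`1 - c2 3 = 3 / 4`), and `⟪S v, v⟫ = ∑_k ⟪v, b_k⟫ ⟪S b_k, v⟫ = ∑_k ⟪S b_k, ⟪v, b_k⟫ v⟫`, so `∑ p'_v ⟪S v, v⟫ = ∑_k ⟪S b_k, mo p' b_k⟫` (`v = ∑ ⟪v, b_k⟫ b_k` in the standard basis). Fourth: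
`‖N z‖ = ‖∑ z_k N b_k‖ ≤ ‖z‖ √(∑ ‖N b_k‖^2)` (Cauchy-Schwarz), so `‖N‖^2 ≤ ∑ ‖N b_k‖^2`; `‖w‖` is the maximum of `‖w.1‖`, `‖w.2‖`. Last: `∑_k ‖N b_k‖^2 ≤ 4 ‖N‖^2`. -/
def SIp : Prop :=
  (∀ p q p' q' : Sph 3 →₀ ℝ, ex p' (gq p q) - ex q' (gq p q) = ipw (Dm 1 p' q') (Dm 1 p q)) ∧
  (∀ w w' : WV, ipw w w' = ipw w' w) ∧
  (∀ (w w' w'' : WV) (r : ℝ), ipw (w + r • w') w'' = ipw w w'' + r * ipw w' w'') ∧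
  (∀ w : WV, 3 / 4 * ‖w‖ ^ 2 ≤ ipw w w) ∧ ∀ w : WV, ipw w w ≤ 5 * ‖w‖ ^ 2

/-! ## Pairs with small moments are near a simplex -/

/-- **Energy** (from `SIp`, `SWelch`, `SMo`; 150 lines). PROOF. As in the proof of `SMom` (module `Mom.lean`): `ipw D D = (W_pp - 1 / 4) + (W_qq - 1 / 4) + (3 / 4) (‖bar p‖^2 + ‖bar q‖^2) + 2 ∑∑ p_v q_y (1 + t) (1 / 4 - t)`, `t = ⟪v, y⟫`, and `(1 + t) (1 / 4 - t) ≥ - (5 / 4 + ε) ε ≥ - 1.3 ε` for `-1 ≤ t < 1 / 4 + ε`. The first three terms are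
`≥ 0` (`SWelch`), so each of them is `≤ ipw D D + 2.6 ε ≤ τ`. So `‖bar q‖ ≤ √(4 τ / 3) ≤ 1.16 √τ`. `A = mo q - (1 / 4) id` has `∑_k ‖A b_k‖^2 = W_qq - (1 / 2) trace (mo q) + 4 / 16 = W_qq - 1 / 4 ≤ τ` (`W_qq = ∑_k ‖mo q b_k‖^2`, trace `1`), so `|⟪A x, x⟫| ≤ ‖A x‖ ≤ √τ` (`‖A x‖^2 ≤ ∑ ‖A b_k‖^2` for unit `x`). And
`ex q ((1 + t) (1 / 4 - t)) = 1 / 4 - (3 / 4) ⟪x, bar q⟫ - ⟪mo q x, x⟫ = - (3 / 4) ⟪x, bar q⟫ - ⟪A x, x⟫`, of absolute value `≤ (3 / 4) 1.16 √τ + √τ ≤ 2 √τ`. The statement for `p` follows by exchanging `p` and `q` (`Dm 1 q p = - Dm 1 p q`). -/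
def SEng : Prop :=
  ∀ (ε τ : ℝ) (p q : Sph 3 →₀ ℝ), 0 ≤ ε → ε ≤ 1 / 100 → Pw p → Pw q → Cpt2 (1 / 4 + ε) p q →
    ipw (Dm 1 p q) (Dm 1 p q) + 3 * ε ≤ τ → ∀ r : Sph 3 →₀ ℝ, (r = p ∨ r = q) →
    ∀ x : Sph 3, |⟪(x : Eu 3), bar r⟫| ≤ 2 * √τ ∧
      |ex r (fun y => (1 + ⟪(x : Eu 3), (y : Eu 3)⟫) * (1 / 4 - ⟪(x : Eu 3), (y : Eu 3)⟫))| ≤ 2 * √τ

/-- **Masses of caps** (120 lines). PROOF. `t = ⟪x, y⟫ ∈ [-1, 1 / 4 + ε)`, `f = (1 + t) (1 / 4 - t) ≥ - 1.3 ε ≥ - θ^2 / 1000`, so `∑ q_y max 0 f ≤ 2.001 θ^2`. Third part: for `-1 + θ < t < 1 / 4 - θ`, `f ≥ θ (5 / 4 - θ) ≥ 1.23 θ` (`f - θ (5 / 4 - θ) = (1 + t - θ) (1 / 4 - θ - t)`), so the mass is `≤ 1.64 θ`. `ex q (1 / 4 - t) = 1 / 4 - ⟪x, bar q⟫ ∈ [1 / 4 - 2 θ^2, 1 / 4 + 2 θ^2]`. Second part: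
`(5 / 4 - θ') mass - ε ≤ 1 / 4 + 2 θ^2` (`1 / 4 - t ≥ 5 / 4 - θ'` on the set, `≥ - ε` outside) and `(1 / 5 + 2 θ') (5 / 4 - θ') = 1 / 4 + 2.3 θ' - 2 θ'^2 ≥ 1 / 4 + 2 θ^2 + θ^4`. First part: `1 / 4 - 2 θ^2 ≤ (5 / 4) mass + (5 / 4) 1.64 θ + θ` (`1 / 4 - t ≤ θ` if `t ≥ 1 / 4 - θ`), so `mass ≥ 1 / 5 - 2.6 θ`. -/
def SMass : Prop :=
  ∀ (ε θ : ℝ) (q : Sph 3 →₀ ℝ) (x : Sph 3), 0 ≤ ε → 0 < θ → θ ≤ 1 / 50 → ε ≤ θ ^ 4 → Pw q →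
    (∀ y : Sph 3, 0 < q y → ⟪(x : Eu 3), (y : Eu 3)⟫ < 1 / 4 + ε) → |⟪(x : Eu 3), bar q⟫| ≤ 2 * θ ^ 2 →
    |ex q (fun y => (1 + ⟪(x : Eu 3), (y : Eu 3)⟫) * (1 / 4 - ⟪(x : Eu 3), (y : Eu 3)⟫))| ≤ 2 * θ ^ 2 → MsP θ q x

/-- **Five clusters** (250 lines). PROOF. (1) DICHOTOMY: for `x, x'` with `0 < p x, p x'`: `‖x - x'‖ ≤ 3 √θ` or `|⟪x, x'⟫ + 1 / 4| ≤ 2 √θ`. The cap `L = {⟪x, y⟫ ≤ -1 + θ}` has mass `≥ 1 / 5 - 3 θ > 2 θ`, so some `y ∈ L`, `0 < q y`, is not in the middle region of `x'`; `t' = ⟪x', y⟫`, `‖x + y‖^2 = 2 + 2 ⟪x, y⟫ ≤ 2 θ`. If `t' ≤ -1 + θ` then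
`‖x' + y‖^2 ≤ 2 θ` and `‖x - x'‖ ≤ 2 √(2 θ) ≤ 3 √θ`. Otherwise `1 / 4 - θ ≤ t' < 1 / 4 + θ`, `⟪x, x'⟫ = ⟪x', x + y⟫ - t'`, `|⟪x, x'⟫ + 1 / 4| ≤ √(2 θ) + θ ≤ 2 √θ`. (2) `S`: a maximal subset of the support of `p` with pairwise distances `> 3 √θ`. For `s ∈ S` let `C_s = {z | ‖z - s‖ ≤ 3 √θ}`. By maximality every `z` with `0 < p z` is in some `C_s`; the `C_s` are
disjoint: for `s ≠ s'` the dichotomy gives `‖s - s'‖^2 = 2 - 2 ⟪s, s'⟫ ≥ 5 / 2 - 4 √θ > 1`, but a common point gives `‖s - s'‖ ≤ 6 √θ < 1`. (3) MASSES: some `y_s` with `0 < q y_s` has `⟪s, y_s⟫ ≤ -1 + θ`. If `⟪x, y_s⟫ ≤ -1 + θ` then `‖x - s‖ ≤ ‖x + y_s‖ + ‖s + y_s‖ ≤ 2 √(2 θ)`, so `mass C_s ≥ 1 / 5 - 3 θ` (`MsP θ p y_s`); for `x ∈ C_s`, `‖x + y_s‖ ≤ 4.42 √θ`,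
`⟪x, y_s⟫ = -1 + ‖x + y_s‖^2 / 2 ≤ -1 + 13 θ`, so `mass C_s ≤ 1 / 5 + 26 θ` (`θ' = 13 θ`). The sum over `s ∈ S` of the masses is `1`: `S.card ≤ 5` as `6 (1 / 5 - 3 θ) > 1`, and `S.card ≥ 5` as `4 (1 / 5 + 26 θ) < 1`. Enumerate `S` by `Fin 5`. (4) `0 < q y`: some `x` with `0 < p x` has `⟪y, x⟫ ≤ -1 + θ` (`MsP θ p y`), `x ∈ C_s`, `‖y + s‖ ≤ √(2 θ) + 3 √θ ≤ 5 √θ`.
(5) `{y | ‖y + s‖ ≤ 5 √θ}` contains `{⟪s, y⟫ ≤ -1 + θ}` and is contained in `{⟪s, y⟫ ≤ -1 + 13 θ}` (`⟪s, y⟫ = -1 + ‖s + y‖^2 / 2`): the mass for `q` is in `[1 / 5 - 3 θ, 1 / 5 + 26 θ]` (`MsP θ q s`). -/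
def SFive : Prop :=
  ∀ (θ : ℝ) (p q : Sph 3 →₀ ℝ), 0 < θ → θ ≤ 1 / 1000 → Pw p → Pw q → Cpt2 (1 / 4 + θ) p q →
    (∀ x, 0 < p x → MsP θ q x) → (∀ y, 0 < q y → MsP θ p y) →
    ∃ x : Fin 5 → Sph 3, (∀ i j, i ≠ j → |⟪(x i : Eu 3), (x j : Eu 3)⟫ + 1 / 4| ≤ 2 * √θ) ∧
      (∀ z : Sph 3, 0 < p z → ∃ i, ‖(z : Eu 3) - x i‖ ≤ 3 * √θ) ∧
      (∀ y : Sph 3, 0 < q y → ∃ i, ‖(y : Eu 3) + x i‖ ≤ 5 * √θ) ∧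
      (∀ i, |ms p {z : Sph 3 | ‖(z : Eu 3) - x i‖ ≤ 3 * √θ} - 1 / 5| ≤ 26 * θ) ∧
      ∀ i, |ms q {y : Sph 3 | ‖(y : Eu 3) + x i‖ ≤ 5 * √θ} - 1 / 5| ≤ 26 * θ

/-- **Almost regular simplices** (60 lines). PROOF. Otherwise for every `n : ℕ` there is `x_n : Fin 5 → Sph 3` with inner products within `1 / (n + 1)` of `-1 / 4` and no `v : RS` at distance `≤ η`. `Fin 5 → Sph 3` is compact: a subsequence converges to some `x`; by continuity all inner products of `x` are `-1 / 4`, so `x` is an element of `RS` with `‖x_n i - x i‖ ≤ η` for large `n` of the subsequence. -/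
def SFrame : Prop :=
  ∀ η : ℝ, 0 < η → ∃ δ : ℝ, 0 < δ ∧ ∀ x : Fin 5 → Sph 3,
    (∀ i j, i ≠ j → |⟪(x i : Eu 3), (x j : Eu 3)⟫ + 1 / 4| ≤ δ) → ∃ v : RS, ∀ i, ‖(x i : Eu 3) - fv v i‖ ≤ η

/-- **Clusters** (120 lines). PROOF. `‖u i - u j‖^2 = 5 / 2` for `i ≠ j`. If `‖x - u i‖ ≤ 1 / 4` then `2 - 2 ‖x - u i‖ ≥ 1` and `cl = 1`; `‖x - u j‖ ≥ √(5 / 2) - 1 / 4 ≥ 1`, so `2 - 2 ‖x - u j‖ ≤ 0` and `cl = 0`. So for every `x` with `0 < p x` the numbers `cl u x i` are `1` for exactly one `i` (with `‖x - u i‖ ≤ η`) and `0` for the others; `∑_i cm u p i = ∑_x p_x ∑_i cl u x i = 1`;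
`cv u p i - cm u p i • u i = ∑_x p_x cl u x i (x - u i)`. Last part: if `‖x - u i‖ ≤ η` then `‖x - u' i‖ ≤ 1 / 4`, so `cl u' x j = cl u x j` for all `j` and all `x` with `0 < p x`. -/
def SClu : Prop :=
  ∀ (u : Fin 5 → Eu 3) (η : ℝ) (p : Sph 3 →₀ ℝ), IsS u → η ≤ 1 / 4 → Pw p → Nr η u p →
    (∀ (x : Sph 3) (i : Fin 5), ‖(x : Eu 3) - u i‖ ≤ 1 / 4 →
      cl u x i = 1 ∧ ∀ j, j ≠ i → cl u x j = 0 ∧ 1 ≤ ‖(x : Eu 3) - u j‖) ∧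
    ∑ i, cm u p i = 1 ∧ (∀ i, 0 ≤ cm u p i) ∧ (∀ i, ‖cv u p i - cm u p i • u i‖ ≤ η * cm u p i) ∧
    ∀ u' : Fin 5 → Eu 3, IsS u' → (∀ i, ‖u i - u' i‖ + η ≤ 1 / 4) → ∀ i, cm u' p i = cm u p i ∧ cv u' p i = cv u p i

/-- **Near a simplex** (from `SIp`, `SEng`, `SMass`, `SFive`, `SFrame`, `SClu`; 150 lines). PROOF. WLOG `η ≤ 1 / 8`. `δ` from `SFrame` for `η / 2`; `θ > 0` with `θ ≤ 1 / 1000`, `26 θ ≤ η`, `5 √θ ≤ η / 2`, `2 √θ ≤ δ`; `τ₀ = θ^4`. As `ipw D D ≥ 0`, `3 ε ≤ θ^4`; `√(θ^4) = θ^2`. `SEng` (`τ = θ^4`) and `SMass` give `MsP θ q x` for all `x` with `0 < p x` (`Cpt2`) and `MsP θ p y` for all `y` with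
`0 < q y`. `x : Fin 5 → Sph 3` from `SFive` (`Cpt2` is monotone in `c`), `v` from `SFrame`, `‖x i - v i‖ ≤ η / 2`. Supports: `5 √θ + η / 2 ≤ η`. MASSES: for `0 < p z`, `cl (fv v) z i` is the indicator function of `{‖z - x i‖ ≤ 3 √θ}` (`z` is in this set for some `i'`, then `‖z - v i'‖ ≤ 1 / 4` and `SClu` gives `cl = 1` for `i'`, `0` for the others, and `z` is not in the other sets because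
`‖z - v j‖ ≥ 1`), so `cm (fv v) p i = ms p {..}`; the same for `q` and `-v`. -/
def SN1 : Prop :=
  ∀ η : ℝ, 0 < η → ∃ τ₀ : ℝ, 0 < τ₀ ∧ ∀ (ε : ℝ) (p q : Sph 3 →₀ ℝ), 0 ≤ ε → Pw p → Pw q →
    Cpt2 (1 / 4 + ε) p q → ipw (Dm 1 p q) (Dm 1 p q) + 3 * ε ≤ τ₀ →
    ∃ v : RS, Nr η (fv v) p ∧ Nr η (fun i => -fv v i) q ∧
      ∀ i, |cm (fv v) p i - 1 / 5| ≤ η ∧ |cm (fun i => -fv v i) q i - 1 / 5| ≤ η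

/-! ## The adapted simplex -/

/-- **First order condition at a maximum** (120 lines). PROOF. `β x y = ∑ (⟪t i, x⟫ ⟪v i, y⟫ - ⟪t i, y⟫ ⟪v i, x⟫)` is bilinear and antisymmetric. For orthonormal `e, f` let `R_θ z = z + (cos θ - 1) (⟪z, e⟫ e + ⟪z, f⟫ f) + sin θ (⟪z, e⟫ f - ⟪z, f⟫ e)`; `⟪R_θ z, R_θ z'⟫ = ⟪z, z'⟫` (expand, `cos^2 + sin^2 = 1`). So `R_θ v ∈ RS` and
`g θ = ∑ ⟪t i, R_θ v i⟫ = A + (cos θ - 1) B + sin θ β' ≤ g 0`, `β' = ∑ (⟪v i, e⟫ ⟪t i, f⟫ - ⟪v i, f⟫ ⟪t i, e⟫) = β f e`; the derivative at `0` is `β' = 0` (`IsLocalMax.hasDerivAt_eq_zero`). General `x, y`: if `x = 0` clear; `e = x / ‖x‖`, `y' = y - ⟪y, e⟫ e`; if `y' = 0` antisymmetry, otherwise `f = y' / ‖y'‖` and `β x y = ‖x‖ ‖y'‖ β e f = 0`. -/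
def SMaxB : Prop :=
  ∀ (t : Fin 5 → Eu 3) (v : RS), (∀ v' : RS, ∑ i, ⟪t i, fv v' i⟫ ≤ ∑ i, ⟪t i, fv v i⟫) → Bal (fv v) t

/-- **Strict maximum** (from `SAlg`; 100 lines). PROOF. `M x = ∑ ⟪u i, x⟫ t i` is symmetric (`Bal`), `⟪M x, x⟫ = ∑ ⟪u i, x⟫^2 + ∑ ⟪u i, x⟫ ⟪t i - u i, x⟫ ≥ (5 / 4) ‖x‖^2 - 5 (1 / 20) ‖x‖^2 = ‖x‖^2`. Let `d i = u i - u' i`, `∑ d i = 0`. `M (u j) = ∑_i ⟪u i, u j⟫ t i = (5 / 4) t j - (1 / 4) ∑ t i`, so `∑_j ⟪M (u j), d j⟫ = (5 / 4) ∑_j ⟪t j, d j⟫`. By `SAlg` (trace) for `u` and `u'`: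
`∑ ⟪M (u j), u j⟫ = ∑ ⟪M (u' j), u' j⟫`. So `∑ ⟪M (d j), d j⟫ = ∑ ⟪M u j, u j⟫ - 2 ∑ ⟪M u j, u' j⟫ + ∑ ⟪M u' j, u' j⟫ = 2 ∑ ⟪M u j, d j⟫ = (5 / 2) ∑ ⟪t j, d j⟫`, and `∑ ⟪t j, d j⟫ = (2 / 5) ∑ ⟪M d j, d j⟫ ≥ (2 / 5) ∑ ‖d j‖^2`. -/
def SPolQ : Prop :=
  ∀ u u' t : Fin 5 → Eu 3, IsS u → IsS u' → (∀ i, ‖t i - u i‖ ≤ 1 / 20) → Bal u t →
    1 / 4 * ∑ i, ‖u i - u' i‖ ^ 2 ≤ ∑ i, ⟪t i, u i - u' i⟫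

/-- **Existence of an adapted simplex** (from `SN1`, `SClu`, `SMaxB`; 120 lines). PROOF. `η = et^2 / 80`, `τ₀` from `SN1` for `η`; `v₀ : RS` from `SN1`. `t i = vb (fv v₀) p i`; as `cm ≥ 1 / 5 - η ≥ 1 / 10`, `t i = (cm)⁻¹ cv` and `‖t i - v₀ i‖ ≤ η` (`SClu`). `RS` is compact, nonempty, `v' ↦ ∑ ⟪t i, v' i⟫` is continuous (`continuous_fv`): let `v` be a maximum. `SMaxB`: `Bal (fv v) t`.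
`∑ ⟪v₀ i, v i⟫ ≥ ∑ ⟪t i, v i⟫ - 5 η ≥ ∑ ⟪t i, v₀ i⟫ - 5 η ≥ 5 - 10 η`, so `∑ ‖v i - v₀ i‖^2 = 10 - 2 ∑ ⟪v₀ i, v i⟫ ≤ 20 η` and `‖v i - v₀ i‖ ≤ et / 2`; `η ≤ et / 2`: the supports are within `et` of `v`, `-v`. `SClu` (last part, `u = fv v₀`, `u' = fv v`, and with signs for `q`): the masses `cm` and the vectors `cv`, hence `vb`, are the same for `v₀` and `v`. -/
def SGauE : Prop :=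
  ∃ τ₀ : ℝ, 0 < τ₀ ∧ ∀ (ε : ℝ) (p q : Sph 3 →₀ ℝ), 0 ≤ ε → Pw p → Pw q → Cpt2 (1 / 4 + ε) p q →
    ipw (Dm 1 p q) (Dm 1 p q) + 3 * ε ≤ τ₀ → ∃ v : RS, Gd (fv v) p q ∧ Bal (fv v) (vb (fv v) p)

/-- **Uniqueness of the adapted simplex** (from `SClu`, `SPolQ`; 150 lines). PROOF. For every `i`, `cm (fv v) p i ≥ 1 / 10 > 0`, so some `x` has `0 < p x` and `cl (fv v) x i ≠ 0`, and then `‖x - v i‖ ≤ et` (`SClu`); `‖x - v' j‖ ≤ et` for some `j =: π i`: `‖v i - v' (π i)‖ ≤ 2 et`. `π` is injective (`‖v i - v i'‖ ≤ 4 et < 1` is impossible for `i ≠ i'`), a permutation. `v'' = π⁻¹ • v'`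
has `v'' i = v' (π i)`, is at distance `≤ 2 et` from `v`. `SClu` (last part): `cm, cv, vb` are the same for `v` and `v''`: `t i = vb (fv v) p i = vb (fv v'') p i`, and `vb (fv v'') p i = vb (fv v') p (π i)`, so `Bal (fv v'') t` (reindex the sum by `π`). `‖t i - v i‖ ≤ et ≤ 1 / 20`, the same for `v''` (`SClu`). `SPolQ` twice:
`(1 / 4) ∑ ‖v i - v'' i‖^2 ≤ ∑ ⟪t i, v i - v'' i⟫` and the same with `v, v''` exchanged; the sum is `(1 / 2) ∑ ‖v i - v'' i‖^2 ≤ 0`. So `v = v''` (`fv_injective`) and `v' = π • v`. -/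
def SGauU : Prop :=
  ∀ (p q : Sph 3 →₀ ℝ) (v v' : RS), Pw p → Gd (fv v) p q → Gd (fv v') p q → Bal (fv v) (vb (fv v) p) →
    Bal (fv v') (vb (fv v') p) → ∃ s : Equiv.Perm (Fin 5), v' = s • v

/-! ## Contact estimates -/

/-- **All contacts are almost tight** (from `SAlg`; 100 lines). PROOF. `ξ = x a - u (l a)`, `ζ = y b + u (m b)`, `T a b = ⟪u (l a), ζ⟫ - ⟪ξ, u (m b)⟫`. If `l a ≠ m b`: `⟪x a, y b⟫ = ⟪u i + ξ, - u j + ζ⟫ = 1 / 4 + T + ⟪ξ, ζ⟫ ≤ 1 / 4 + ε`, so `T ≤ ε + ρ^2 =: δ`. If `l a = m b`: unit vectors give `⟪u i, ξ⟫ = - ‖ξ‖^2 / 2`, `⟪u j, ζ⟫ = ‖ζ‖^2 / 2`,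
so `T = (‖ξ‖^2 + ‖ζ‖^2) / 2 ≤ ρ^2 ≤ δ`. Choose representatives `a_i`, `b_j` of all labels, with `a_(l a) = a`, `b_(m b) = b` (surjectivity; `Function.update`). `∑_(i, j) T a_i b_j = ∑_j ⟪∑_i u i, ζ_j⟫ - ∑_i ⟪ξ_i, ∑_j u j⟫ = 0` (`SAlg`). All `25` terms are `≤ δ`, so each is `≥ - 24 δ`. -/
def STL1 : Prop :=
  ∀ (u : Fin 5 → Eu 3) (A B : Type) (x : A → Sph 3) (y : B → Sph 3) (l : A → Fin 5) (m : B → Fin 5) (ε ρ : ℝ),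
    IsS u → Function.Surjective l → Function.Surjective m → 0 ≤ ε → (∀ a, ‖(x a : Eu 3) - u (l a)‖ ≤ ρ) →
    (∀ b, ‖(y b : Eu 3) + u (m b)‖ ≤ ρ) → (∀ a b, ⟪(x a : Eu 3), (y b : Eu 3)⟫ ≤ 1 / 4 + ε) →
    ∀ a b, |⟪u (l a), (y b : Eu 3) + u (m b)⟫ - ⟪(x a : Eu 3) - u (l a), u (m b)⟫| ≤ 24 * (ε + ρ ^ 2)

/-- **The common operator** (from `SAlg`; 200 lines). PROOF. `ξ_a = x a - u (l a)`, `ζ_b = y b + u (m b)`, `ξ_i` the mean of the `ξ_a`, `l a = i`: `lm l α x i - u i = ξ_i` (the total weight is positive: `l` is surjective). `X = Xi u (lm ..)`: `X z = (4 / 5) ∑ ⟪u i, z⟫ ξ_i`. (1) `X` is symmetric by `Bal` (the parts with `u i` cancel). `‖X‖ ≤ (4 / 5) 5 ρ`. (2) `X (u j) = (4 / 5) ∑_i ⟪u i, u j⟫ ξ_i =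
ξ_j - (1 / 5) ∑_i ξ_i`. For every `k` choose `b` with `m b = k`: `⟪∑ ξ_i, u k⟫ = ∑_i (⟪ξ_i, u k⟫ - ⟪u i, ζ_b⟫)` (`∑ u i = 0`), each term is `≤ e` in absolute value (a mean of the hypothesis), so `‖∑ ξ_i‖ ≤ 10 e` (`SAlg`, fourth part) and `‖ξ_j - X (u j)‖ ≤ 2 e`. (3) If `l a = l a' = i`: `|⟪ξ_a - ξ_a', u k⟫| ≤ 2 e` for all `k`, so `‖ξ_a - ξ_a'‖ ≤ 4 e`, and
`‖ξ_a - ξ_i‖ ≤ 4 e`. With (2): `‖ξ_a - X (u i)‖ ≤ 6 e`. (4) `k = m b`: `⟪u i, ζ_b⟫` is within `e` of `⟪ξ_i, u k⟫`, within `3 e` of `⟪X (u i), u k⟫ = ⟪u i, X (u k)⟫`, for all `i`: `‖ζ_b - X (u k)‖ ≤ 6 e`. (5) `⟪ξ_a, u i⟫ = - ‖ξ_a‖^2 / 2 ∈ [- ρ^2 / 2, 0]`, so `|⟪ξ_i, u i⟫| ≤ ρ^2 / 2 ≤ e / 2` and `|⟪X (u i), u i⟫| ≤ 3 e`. -/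
def STL2 : Prop :=
  ∀ (u : Fin 5 → Eu 3) (A B : Type) [Fintype A] [Fintype B] (x : A → Sph 3) (y : B → Sph 3) (l : A → Fin 5)
    (m : B → Fin 5) (α : A → ℝ) (ρ e : ℝ), IsS u → Function.Surjective l → Function.Surjective m →
    (∀ a, 0 < α a) → (∀ a, ‖(x a : Eu 3) - u (l a)‖ ≤ ρ) → (∀ b, ‖(y b : Eu 3) + u (m b)‖ ≤ ρ) → ρ ^ 2 ≤ e →
    (∀ a b, |⟪u (l a), (y b : Eu 3) + u (m b)⟫ - ⟪(x a : Eu 3) - u (l a), u (m b)⟫| ≤ e) →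
    Bal u (lm l α fun a => (x a : Eu 3)) →
    (∀ z z', ⟪Xi u (lm l α fun a => (x a : Eu 3)) z, z'⟫ = ⟪z, Xi u (lm l α fun a => (x a : Eu 3)) z'⟫) ∧
    ‖Xi u (lm l α fun a => (x a : Eu 3))‖ ≤ 4 * ρ ∧
    (∀ a, ‖(x a : Eu 3) - u (l a) - Xi u (lm l α fun a => (x a : Eu 3)) (u (l a))‖ ≤ 6 * e) ∧
    (∀ b, ‖(y b : Eu 3) + u (m b) - Xi u (lm l α fun a => (x a : Eu 3)) (u (m b))‖ ≤ 6 * e) ∧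
    ∀ i, |⟪Xi u (lm l α fun a => (x a : Eu 3)) (u i), u i⟫| ≤ 3 * e

/-- **Moments of a perturbed simplex** (from `SAlg`; 200 lines). PROOF. `ξ_a = x a - u (l a)`, `ζ_b = y b + u (m b)`, `P i = lw l α i`, `Q i = lw m β i`, `∑ α a • u (l a) = ∑ P i • u i` etc. FIRST: `∑ α x - ∑ β y = ∑ (P i + Q i) u i + ∑ α ξ - ∑ β ζ`, and `∑ α ξ - ∑ β ζ = ∑ (P i - Q i) X (u i)` up to `12 e`; `‖∑ (P i - Q i) X (u i)‖ ≤ 5 (2 μ) ‖X‖`. SECOND: `tp (u + ξ) = tp u + (ro u ξ + ro ξ u) + tp ξ`,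
`tp (- u + ζ) = tp u - (ro u ζ + ro ζ u) + tp ζ`, `‖tp ξ‖ ≤ ρ^2 ≤ e`, `‖ro u (ξ - X u)‖ ≤ 6 e`: the difference is `∑ (P i - Q i) tp (u i) + ∑ (P i + Q i) (ro (u i) (X u i) + ro (X u i) (u i))` up to `24 e + 2 e`. `∑_i ro (u i) (X (u i)) = (5 / 4) X`, `∑_i ro (X (u i)) (u i) = (5 / 4) X` (`SAlg`, symmetry of `X`), so with `P i + Q i = 2 / 5 + r_i`, `|r_i| ≤ 2 μ`, the second sum is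
`X + ∑ r_i (..)`, error `≤ 5 (2 μ) 2 ‖X‖`. -/
def STL3 : Prop :=
  ∀ (u : Fin 5 → Eu 3) (A B : Type) [Fintype A] [Fintype B] (x : A → Sph 3) (y : B → Sph 3) (l : A → Fin 5)
    (m : B → Fin 5) (α : A → ℝ) (β : B → ℝ) (ρ e μ : ℝ) (X : Eu 3 →L[ℝ] Eu 3), IsS u →
    (∀ a, 0 ≤ α a) → ∑ a, α a = 1 → (∀ b, 0 ≤ β b) → ∑ b, β b = 1 →
    (∀ a, ‖(x a : Eu 3) - u (l a)‖ ≤ ρ) → (∀ b, ‖(y b : Eu 3) + u (m b)‖ ≤ ρ) → ρ ^ 2 ≤ e →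
    (∀ z z', ⟪X z, z'⟫ = ⟪z, X z'⟫) → (∀ a, ‖(x a : Eu 3) - u (l a) - X (u (l a))‖ ≤ 6 * e) →
    (∀ b, ‖(y b : Eu 3) + u (m b) - X (u (m b))‖ ≤ 6 * e) →
    (∀ i, |lw l α i - 1 / 5| ≤ μ ∧ |lw m β i - 1 / 5| ≤ μ) →
    ‖∑ a, α a • (x a : Eu 3) - ∑ b, β b • (y b : Eu 3) - ∑ i, (lw l α i + lw m β i) • u i‖ ≤ 12 * e + 10 * μ * ‖X‖ ∧
    ‖∑ a, α a • tp (x a : Eu 3) - ∑ b, β b • tp (y b : Eu 3) - ∑ i, (lw l α i - lw m β i) • tp (u i) - X‖ ≤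
      26 * e + 20 * μ * ‖X‖

/-- **Bootstrap** (from `SAlg`; 200 lines). PROOF. `n = ‖X‖`, `ω = ‖w‖`, `e2 = 26 e + 20 μ n`. (1) `⟪w.1, u j⟫` is within `12 e + 10 μ n` of `∑ (P i + Q i) ⟪u i, u j⟫ = (5 / 4) (P j + Q j) - 1 / 2`, so `|P j + Q j - 2 / 5 - (4 / 5) ⟪w.1, u j⟫| ≤ (4 / 5) (12 e + 10 μ n)`. (2) `⟪w.2 (u j), u j⟫` is within `e2 + 3 e` of
`∑_i (P i - Q i) ⟪u i, u j⟫^2 = (15 / 16) (P j - Q j)` (`∑ (P i - Q i) = 0`), so `|P j - Q j - (16 / 15) ⟪w.2 (u j), u j⟫| ≤ (16 / 15) (3 e + e2)`. (3) Hence `|P j - Pm j|, |Q j - Qm j| ≤ 21 e + 15 μ n`, `|Pm j - 1 / 5| ≤ ω`, and for the index where `μ` is attained `μ ≤ ω + 21 e + 15 μ n`; `n ≤ 4 ρ ≤ 1 / 5000`, so `μ ≤ 2 ω + 22 e`. (4) `Sm u w - X = (w.2 - ∑ (P i - Q i) tp (u i) - X)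
+ ∑ (P i - Q i - (16 / 15) ⟪w.2 (u i), u i⟫) tp (u i)`, norm `≤ e2 + (16 / 3) (3 e + e2) ≤ 198 e + 140 μ n`. `‖Sm u w‖ ≤ ω + (16 / 3) ω ≤ 7 ω`. So `n ≤ 7 ω + 198 e + 140 μ n ≤ 8 ω + 199 e` (`140 n ≤ 0.028`). (5) `ρ ≤ n + 6 e ≤ 8 ω + 205 e` and `e = 24 ε + 24 ρ^2 ≤ 24 ε + 0.0012 ρ`: `ρ ≤ 11 ω + 6600 ε`. (6) `e ≤ 24 ε + 48 (121 ω^2 + 6600^2 ε^2) ≤ 25 ε + 5808 ω^2 ≤ 6000 (ε + ω^2)`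
(`ε ≤ 10^(-10)`). (7) `μ n ≤ (2 ω + 22 e) (8 ω + 199 e) ≤ 16 ω^2 + e` (`ω ≤ 1 / 1000`, `e ≤ 10^(-7)`). (8) `‖Sm u w - X‖ + 6 e ≤ 204 e + 140 μ n ≤ 344 e + 2240 ω^2 ≤ 3 * 10^6 (ε + ω^2)`, `|P j - Pm j| ≤ 36 e + 240 ω^2`. -/
def STL4 : Prop :=
  ∀ (u : Fin 5 → Eu 3) (w : WV) (P Q : Fin 5 → ℝ) (X : Eu 3 →L[ℝ] Eu 3) (ε ρ e μ : ℝ), IsS u →
    0 ≤ ε → ε ≤ 1 / 10 ^ 10 → 0 ≤ ρ → ρ ≤ 1 / 20000 → e = 24 * (ε + ρ ^ 2) → ‖w‖ ≤ 1 / 1000 →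
    ∑ i, P i = 1 → ∑ i, Q i = 1 → (∀ i, |P i - 1 / 5| ≤ μ ∧ |Q i - 1 / 5| ≤ μ) →
    (∃ i, μ = |P i - 1 / 5| ∨ μ = |Q i - 1 / 5|) → ρ ≤ ‖X‖ + 6 * e → ‖X‖ ≤ 4 * ρ →
    (∀ i, |⟪X (u i), u i⟫| ≤ 3 * e) → ‖w.1 - ∑ i, (P i + Q i) • u i‖ ≤ 12 * e + 10 * μ * ‖X‖ →
    ‖w.2 - ∑ i, (P i - Q i) • tp (u i) - X‖ ≤ 26 * e + 20 * μ * ‖X‖ →
    ‖Sm u w - X‖ + 6 * e ≤ 3 * 10 ^ 6 * (ε + ‖w‖ ^ 2) ∧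
    ∀ i, |P i - Pm u w i| ≤ 3 * 10 ^ 6 * (ε + ‖w‖ ^ 2) ∧ |Q i - Qm u w i| ≤ 3 * 10 ^ 6 * (ε + ‖w‖ ^ 2)

/-- **Contact estimates for pairs of weights** (from `SClu`, `SMo`, `STL1`, `STL2`, `STL3`, `STL4`; 250 lines). PROOF. `A`, `B`: the subtypes of the supports of `p`, `q`; `α, β` the values; `x, y` the inclusions; labels `l, m`: `‖x a - u (l a)‖ ≤ et`, `‖y b + u (m b)‖ ≤ et` (`Gd`). Surjective, because `cm ≥ 1 / 10 > 0` (`SClu`: `cl u (x a) i` is `1` if `i = l a`, `0` otherwise).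
`lw l α = cm u p`, `lw m β = cm (-u) q`, `lm l α x = vb u p` (`cm ≥ 1 / 10`). `ρ` the largest of the numbers `‖x a - u (l a)‖`, `‖y b + u (m b)‖` (finite nonempty sets), `ρ ≤ et = 1 / 20000`; `e = 24 (ε + ρ^2)`. `STL1` (`Cpt2`), `STL2` (`X = Xi u (vb u p)`, `e ≥ ρ^2`); where `ρ` is attained: `ρ ≤ ‖X‖ + 6 e` (`‖u i‖ = 1`). `μ` the largest of `|P i - 1 / 5|`, `|Q i - 1 / 5|`. `STL3`, with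
`bar p = ∑ α a • x a`, `mo p = ∑ α a • tp (x a)`, `w = Dm 1 p q`. `STL4`. CONCLUSION: `‖x - av u w i‖ ≤ ‖ξ - X (u i)‖ + ‖X - Sm‖ ≤ 3 * 10^6 (ε + ω^2)` (if `‖x - u i‖ ≤ et` then `i` is the label of `x`); `bv u w i = - u i + S (u i) - S (S (u i))`, `‖S‖ ≤ 7 ω` (`‖tp (u i)‖ ≤ 1`), so for `y` there is the additional error `49 ω^2`. -/
def STL : Prop :=
  ∀ (u : Fin 5 → Eu 3) (ε : ℝ) (p q : Sph 3 →₀ ℝ), IsS u → 0 ≤ ε → ε ≤ 1 / 10 ^ 10 → Pw p → Pw q →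
    Cpt2 (1 / 4 + ε) p q → ‖Dm 1 p q‖ ≤ 1 / 1000 → Gd u p q → Bal u (vb u p) →
    (∀ (x : Sph 3) (i : Fin 5), 0 < p x → ‖(x : Eu 3) - u i‖ ≤ et →
      ‖(x : Eu 3) - av u (Dm 1 p q) i‖ ≤ 5 * 10 ^ 6 * (ε + ‖Dm 1 p q‖ ^ 2)) ∧
    (∀ (y : Sph 3) (i : Fin 5), 0 < q y → ‖(y : Eu 3) + u i‖ ≤ et →
      ‖(y : Eu 3) - bv u (Dm 1 p q) i‖ ≤ 5 * 10 ^ 6 * (ε + ‖Dm 1 p q‖ ^ 2)) ∧
    ∀ i, |cm u p i - Pm u (Dm 1 p q) i| ≤ 5 * 10 ^ 6 * (ε + ‖Dm 1 p q‖ ^ 2) ∧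
      |cm (fun i => -u i) q i - Qm u (Dm 1 p q) i| ≤ 5 * 10 ^ 6 * (ε + ‖Dm 1 p q‖ ^ 2)

/-! ## The model -/

/-- **The model pair: distances** (from `SAlg`; 150 lines). PROOF. `w ∈ W0 3`: `w.2` is symmetric of trace `0`. `S = Sm u w` is symmetric. `∑_i ⟪w.2 (u i), u i⟫ = 0` (`SAlg`, trace), so `⟪S (u j), u j⟫ = n_j - (16 / 15) (n_j + (1 / 16) ∑_(i ≠ j) n_i) = n_j - (16 / 15) (15 / 16) n_j = 0`, `n_i = ⟪w.2 (u i), u i⟫`. `‖S‖ ≤ ‖w‖ + (16 / 15) 5 ‖w‖ ≤ 7 ‖w‖`.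
`‖av‖^2 = 1 + 2 ⟪S u, u⟫ + ‖S u‖^2 = 1 + ‖S u‖^2`. `‖bv‖^2 = ‖u - S u + S S u‖^2 = 1 + ‖S u‖^2 + ‖S S u‖^2 - 2 ⟪S u, u⟫ + 2 ⟪S S u, u⟫ - 2 ⟪S u, S S u⟫ = 1 + 3 ‖S u‖^2 + ‖S S u‖^2 - 2 ⟪S u, S S u⟫ ≥ 1 + 2 ‖S u‖^2`. `⟪av i, bv j⟫ = - ⟪(1 + S) u i, (1 - S + S^2) u j⟫ = - ⟪u i, u j⟫ - ⟪u i, S^3 u j⟫ ≤ 1 / 4 + ‖S‖^3`. Masses:
`∑ ⟪w.1, u i⟫ = 0`, `∑ n_i = 0`; `|Pm - 1 / 5| ≤ (2 / 5 + 8 / 15) ‖w‖ ≤ ‖w‖`. -/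
def SMdl : Prop :=
  ∀ (u : Fin 5 → Eu 3) (w : WV), IsS u → w ∈ W0 3 →
    (∀ z z', ⟪Sm u w z, z'⟫ = ⟪z, Sm u w z'⟫) ∧ (∀ i, ⟪Sm u w (u i), u i⟫ = 0) ∧ ‖Sm u w‖ ≤ 7 * ‖w‖ ∧
    (∀ i, 1 ≤ ‖av u w i‖ ∧ 1 ≤ ‖bv u w i‖) ∧ (∀ i j, ⟪av u w i, bv u w j⟫ ≤ 1 / 4 + (7 * ‖w‖) ^ 3) ∧
    ∑ i, Pm u w i = 1 ∧ ∑ i, Qm u w i = 1 ∧ ∀ i, |Pm u w i - 1 / 5| ≤ ‖w‖ ∧ |Qm u w i - 1 / 5| ≤ ‖w‖

/-- **The model pair: moments** (from `SAlg`, `SMdl`; 250 lines). PROOF. `s = ‖S‖ ≤ 7 ‖w‖ ≤ 1 / 10`. `‖nmz z - z‖ = |‖z‖ - 1|`. `1 ≤ ‖av‖^2 ≤ 1 + s^2`, so `‖nmz av - av‖ ≤ s^2`; `1 ≤ ‖bv‖^2 ≤ 1 + 3 s^2 + s^4 + 2 s^3 ≤ 1 + 4 s^2`, so `‖nmz bv - bv‖ ≤ 2 s^2`, and `‖bv - (- u + S u)‖ ≤ s^2`. So `nmz av = u + S u + O(s^2)`, `nmz bv = - u + S u + O(3 s^2)`. FIRST: with `P = Pm, Q = Qm`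 (nonnegative, sum `1`):
`∑ P (u + S u) - ∑ Q (- u + S u) = ∑ (P + Q) u + ∑ (P - Q) S u`; `P i + Q i = 2 / 5 + (4 / 5) ⟪w.1, u i⟫`, so `∑ (P + Q) u = w.1` (`SAlg`); `P i - Q i = (16 / 15) n_i`, so the second sum is `≤ (16 / 3) ‖w‖ s ≤ 38 ‖w‖^2`. Total error `38 ‖w‖^2 + 4 s^2 ≤ 300 ‖w‖^2`. SECOND: `‖tp x - tp y‖ ≤ ‖x - y‖ (‖x‖ + ‖y‖)`, so the replacement of `nmz av`, `nmz bv` by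
`u + S u`, `- u + S u` costs `≤ 3 s^2 + 9 s^2`; `tp (± u + S u) = tp u ± (ro u (S u) + ro (S u) u) + tp (S u)`, the last terms cost `2 s^2`. `∑ (P - Q) tp u + ∑ (P + Q) (ro u (S u) + ro (S u) u)`: the second sum is `(2 / 5) (5 / 2) S + ∑ (4 / 5) ⟪w.1, u i⟫ (..)`, i.e. `S` up to `8 ‖w‖ s`; `∑ (16 / 15) n_i tp (u i) + S = w.2` by definition. Total `≤ 14 s^2 + 56 ‖w‖^2 ≤ 1000 ‖w‖^2`. -/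
def SMdD : Prop :=
  ∀ (u : Fin 5 → Eu 3) (w : WV), IsS u → w ∈ W0 3 → ‖w‖ ≤ 1 / 100 →
    ‖∑ i, Pm u w i • nmz (av u w i) - ∑ i, Qm u w i • nmz (bv u w i) - w.1‖ ≤ 1000 * ‖w‖ ^ 2 ∧
    ‖∑ i, Pm u w i • tp (nmz (av u w i)) - ∑ i, Qm u w i • tp (nmz (bv u w i)) - w.2‖ ≤ 1000 * ‖w‖ ^ 2

/-- **Local facts** (from `SIp`, `SMo`, `SGauE`, `STL`, `SMdl`, `SMdD`; 120 lines). PROOF. `τ₀` from `SGauE`. `κ' = 5 * 10^6 (1 + κ^2) + 1000 κ^2 + 1`. `ε₀ > 0` so small that for `0 < ε < ε₀`: `ε ≤ 10^(-10)`, `κ √ε ≤ 1 / 1000`, `(5 κ^2 + 3) ε ≤ τ₀`, `12 κ'^2 ε ≤ 1`, `343 κ^3 √ε ≤ 1 / 2` (so `(7 κ √ε)^3 ≤ ε / 2`). If `‖w‖ ≤ κ √ε` then `‖w‖^2 ≤ κ^2 ε` and `ipw w w + 3 ε ≤ τ₀` (`SIp`). (`κ ≤ 0` is harmless: `‖w‖ = 0`.) -/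
def SLoc : Prop := ∀ κ : ℝ, 0 < κ → ∃ κ' ε₀ : ℝ, 0 < ε₀ ∧ ∀ ε : ℝ, 0 < ε → ε < ε₀ → Loc κ κ' ε

end Pool.Agent.MPaafd8a
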