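import Pool.Agent.Lib.MP_aafd8a_gt_D.SpecA

/-!
# MP_aafd8a_gt, disproof for `n = 3`, block (A-i): statements, second part (the pair homotopy to the model)

`YT c T` is the compact space of all pairs of compatible weights on the finite set `T`; the pairs with `‖Dz z‖ ≤ κ √ε` are moved to the model pair `md (g z, Dz z)` (`SHB`), uniformly for the given `T`, in three stages: smoothing by a net (`SB1`), moving the points of the supports straight to the model points (`SB2`; possible because both displacements are `O(ε)`, so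
the product of the displacements is `O(ε^2)`, `SPath`), linear change of the masses (`SB3`). Conventions as in `SpecA.lean`.
-/

set_option autoImplicit false

open Topology RealInnerProductSpace

namespace Pool.Agent.MPaafd8a

/-- **The space of pairs** (from `SCrd`, `SCon`; 200 lines). PROOF. `yp z x = z.1.1 ⟨x, h⟩` for `x ∈ T` and `0` otherwise (`ext0_mem`, `ext0_notMem`, `ext0_support`, `ext0_sum`). `Dz z` is a finite sum over `T` of continuous terms (`Finsupp.sum_of_support_subset`). The support of `yp z` is a face: it is not empty, and a `w` with `0 < yq z w` is a witness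
(`Cpt2`); the same for `yq z` (witness `v` with `0 < yp z v`, `real_inner_comm`); continuity: `SCon`. Classification: `k x = ⟨(fun v => p x v, fun v => q x v), ..⟩` (`continuous_pi`, `Continuous.subtype_mk`); `Cpt2` gives the third condition. Last part: `Subtype.ext`, `ext0_mem`. -/
def SYT : Prop :=
  ∀ (c : ℝ) (T : Finset (Sph 3)),
    (∀ z : YT c T, Pw (yp z) ∧ Pw (yq z) ∧ Cpt2 c (yp z) (yq z) ∧ (yp z).support ⊆ T ∧ (yq z).support ⊆ T) ∧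
    (∀ x : Sph 3, Continuous (fun z : YT c T => yp z x) ∧ Continuous (fun z : YT c T => yq z x)) ∧
    Continuous (fun z : YT c T => Dz z) ∧
    (∀ hc : -1 < c, (∃ g : C(YT c T, Geo (capK 3 c hc)), ∀ z, (g z).1 = yp z) ∧
      ∃ g : C(YT c T, Geo (capK 3 c hc)), ∀ z, (g z).1 = yq z) ∧
    (∀ (X : Type) [TopologicalSpace X] (p q : X → Sph 3 →₀ ℝ),
      (∀ x, Pw (p x) ∧ Pw (q x) ∧ Cpt2 c (p x) (q x) ∧ (p x).support ⊆ T ∧ (q x).support ⊆ T) →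
      (∀ v, Continuous fun x => p x v) → (∀ v, Continuous fun x => q x v) →
      ∃ k : C(X, YT c T), ∀ x, yp (k x) = p x ∧ yq (k x) = q x) ∧
    ∀ z z' : YT c T, yp z = yp z' → yq z = yq z' → z = z'

/-- **Nets for vectors** (from `SNet`; 60 lines). PROOF. `B, u, χ` from `SNet 3 ρ`. For `z ≠ 0` let `z̄ = ‖z‖⁻¹ z ∈ Sph 3` and `φ b z = min 1 (2 ‖z‖) * χ b z̄`; `φ b 0 = 0`. Continuity at `z ≠ 0`: composition on the open set `{z ≠ 0}`; at `0`: `0 ≤ φ b z ≤ 2 ‖z‖` (`0 ≤ χ ≤ 1`). If `‖z‖ ≥ 1 / 2` the factor is `1`. (As in the module `Vp.lean`.) -/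
def SNetV : Prop := ∀ ρ : ℝ, 0 < ρ → ∃ (B : Type) (_ : Fintype B) (u : B → Sph 3) (φ : B → Eu 3 → ℝ), NetV ρ u φ

/-- **Lipschitz estimates for moments** (80 lines). PROOF. `‖∑ α a • (x a - x' a)‖ ≤ ∑ α a ‖x a - x' a‖ ≤ δ`; `‖tp x - tp x'‖ ≤ ‖x - x'‖ (‖x‖ + ‖x'‖) ≤ 2 δ` (`tp x z - tp x' z = ⟪x - x', z⟫ x + ⟪x', z⟫ (x - x')`); `‖tp x‖ ≤ 1`. Last part: `‖P‖ ≠ 0`, `‖nmz P - P‖ = |1 - ‖P‖| ≤ ‖P - x‖`. -/
def SMl : Prop :=
  (∀ (A : Type) [Fintype A] (α α' : A → ℝ) (x x' : A → Eu 3) (δ : ℝ), (∀ a, 0 ≤ α a) → ∑ a, α a = 1 → 0 ≤ δ →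
    (∀ a, ‖x a‖ ≤ 1 ∧ ‖x' a‖ ≤ 1) → (∀ a, 0 < α a → ‖x a - x' a‖ ≤ δ) →
    ‖∑ a, α a • x a - ∑ a, α a • x' a‖ ≤ δ ∧ ‖∑ a, α a • tp (x a) - ∑ a, α a • tp (x' a)‖ ≤ 2 * δ ∧
    ‖∑ a, α a • x a - ∑ a, α' a • x a‖ ≤ ∑ a, |α a - α' a| ∧
    ‖∑ a, α a • tp (x a) - ∑ a, α' a • tp (x a)‖ ≤ ∑ a, |α a - α' a|) ∧
  ∀ x P : Eu 3, ‖x‖ = 1 → 1 / 2 ≤ ‖P‖ → ‖nmz P‖ = 1 ∧ ‖nmz P - x‖ ≤ 2 * ‖P - x‖

/-- **Smoothed weights** (from `SMl`; 150 lines). PROOF. `sm u φ α P x = ∑_a ∑_b if u b = x then α a φ b (P a) else 0 ≥ 0`; a positive value has a term with `α a > 0`, `φ b (P a) > 0`; then `1 / 2 ≤ ‖P a‖`, `‖u b - nmz (P a)‖ < ρ`. Total mass `∑ α a ∑_b φ b (P a) = ∑ α a = 1` (terms with `α a = 0` vanish). For every function `F` to a vector space the sum `∑_x sm x • F x` is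
`∑_a ∑_b (α a φ b (P a)) • F (u b)` (`Finsupp.sum` of a sum of singles: `Finsupp.sum_finsetSum_index`-style or `Finsupp.lsum`/`map_sum`). `F x = x`, `tp x`: compare `F (u b)` with `F (nmz (P a))`: errors `ρ`, `2 ρ`. -/
def SSmP : Prop :=
  ∀ (ρ : ℝ) (A B : Type) [Fintype A] [Fintype B] (u : B → Sph 3) (φ : B → Eu 3 → ℝ) (α : A → ℝ) (P : A → Eu 3),
    0 < ρ → NetV ρ u φ → (∀ a, 0 ≤ α a) → ∑ a, α a = 1 → (∀ a, 0 < α a → 1 / 2 ≤ ‖P a‖) →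
    Pw (sm u φ α P) ∧
    (∀ x, 0 < sm u φ α P x → ∃ a b, 0 < α a ∧ 0 < φ b (P a) ∧ x = u b ∧ ‖(x : Eu 3) - nmz (P a)‖ < ρ) ∧
    ‖bar (sm u φ α P) - ∑ a, α a • nmz (P a)‖ ≤ ρ ∧ ‖mo (sm u φ α P) - ∑ a, α a • tp (nmz (P a))‖ ≤ 2 * ρ

/-- **Families of smoothed weights** (from `SYT`, `SSmP`; 100 lines). PROOF. `p x = sm u φ (fun a => α a x) (fun a => P a x)`, `q x` similarly. `SSmP`: `Pw`, supports in `T` (the points `u b`). `Cpt2 c`: if `0 < p x v`, `0 < q x v'` then `v` is at distance `< ρ` from `nmz (P a x)`, `v'` from `nmz (Q b x)`, `0 < α a x`, `0 < β b x`, so `⟪v, v'⟫ < ⟪nmz (P a x), nmz (Q b x)⟫ + 2 ρ ≤ c - m + 2 ρ ≤ c`.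
Continuity of `x ↦ p x v`: a finite sum of products of continuous functions. Classification part of `SYT`. -/
def SSmC : Prop :=
  ∀ (c ρ m : ℝ) (X A B C : Type) [TopologicalSpace X] [Fintype A] [Fintype B] [Fintype C] (u : C → Sph 3)
    (φ : C → Eu 3 → ℝ) (α : A → X → ℝ) (P : A → X → Eu 3) (β : B → X → ℝ) (Q : B → X → Eu 3) (T : Finset (Sph 3)),
    0 < ρ → NetV ρ u φ → 2 * ρ ≤ m → (∀ b, u b ∈ T) →
    (∀ a, Continuous (α a)) → (∀ a, Continuous (P a)) → (∀ b, Continuous (β b)) → (∀ b, Continuous (Q b)) →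
    (∀ a x, 0 ≤ α a x) → (∀ x, ∑ a, α a x = 1) → (∀ b x, 0 ≤ β b x) → (∀ x, ∑ b, β b x = 1) →
    (∀ a x, 0 < α a x → 1 / 2 ≤ ‖P a x‖) → (∀ b x, 0 < β b x → 1 / 2 ≤ ‖Q b x‖) →
    (∀ a b x, 0 < α a x → 0 < β b x → ⟪P a x, Q b x⟫ ≤ (c - m) * (‖P a x‖ * ‖Q b x‖)) →
    ∃ k : C(X, YT c T), ∀ x, yp (k x) = sm u φ (fun a => α a x) (fun a => P a x) ∧
      yq (k x) = sm u φ (fun b => β b x) (fun b => Q b x)

/-- **Descent along a closed relation** (50 lines). PROOF. `R` is compact; the projection `R → X` is continuous, surjective and closed (compact to Hausdorff), so a quotient map (`IsClosedMap.isQuotientMap`); `φ` is constant on its fibres: `IsQuotientMap.lift`. -/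
def SQuo : Prop :=
  ∀ (X Y Z : Type) [TopologicalSpace X] [TopologicalSpace Y] [TopologicalSpace Z] [T2Space X] [CompactSpace X]
    [CompactSpace Y] (R : Set (X × Y)), IsClosed R → (∀ x, ∃ y, (x, y) ∈ R) → ∀ φ : C(R, Z),
    (∀ (x : X) (y y' : Y) (h : (x, y) ∈ R) (h' : (x, y') ∈ R), φ ⟨(x, y), h⟩ = φ ⟨(x, y'), h'⟩) →
    ∃ ψ : C(X, Z), ∀ (x : X) (y : Y) (h : (x, y) ∈ R), ψ x = φ ⟨(x, y), h⟩

/-- **Descent to unordered simplices** (60 lines). PROOF. The permutations act on `RS` by homeomorphisms, so `mkR` is an open map (`isOpenMap_quotient_mk'_mul`, with an instance `ContinuousConstSMul`), continuous and surjective; the product with the identity of `Y` is open, continuous, surjective, so a quotient map (`IsOpenMap.prodMap`, `IsOpenMap.isQuotientMap`). The map `mkR` is continuous; if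
`mkR v = mkR v'` then `v' = s • v` for some `s` (`Quotient.exact`, `MulAction.orbitRel_apply`). -/
def SQuo2 : Prop :=
  Continuous mkR ∧ (∀ (s : Equiv.Perm (Fin 5)) (v : RS), mkR (s • v) = mkR v) ∧
  ∀ (Y Z : Type) [TopologicalSpace Y] [TopologicalSpace Z] (φ : C(RS × Y, Z)),
    (∀ (s : Equiv.Perm (Fin 5)) (v : RS) (y : Y), φ (s • v, y) = φ (v, y)) →
    ∃ ψ : C(RSq × Y, Z), ∀ v y, ψ (mkR v, y) = φ (v, y)

/-- **The relation is closed** (from `SYT`; 150 lines). PROOF. `cl (fv v) x i` is continuous in `v` (`continuous_fv`); `cm (fv v) (yp z) i = ∑_(x ∈ T) yp z x * cl (fv v) x i` (`Finsupp.sum_of_support_subset`), `cv` similarly, so `cm, cv` and `vb` (the denominator is `≥ 1 / 10`) are continuous in `(z, v)`. `Nr et (fv v) (yp z)`: for all `x ∈ T`, `yp z x = 0` (`≤ 0`) or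
`‖x - fv v i‖ ≤ et` for some `i`: a finite intersection of finite unions of closed sets. The masses: closed conditions. `Bal`: an intersection over all `x, y` of zero sets of continuous functions. -/
def SRelC : Prop :=
  ∀ (c : ℝ) (T : Finset (Sph 3)), IsClosed {s : YT c T × RS | Rel s.1 s.2} ∧
    ∀ i, Continuous (fun s : YT c T × RS => cm (fv s.2) (yp s.1) i) ∧
      Continuous (fun s : YT c T × RS => cm (fun j => -fv s.2 j) (yq s.1) i)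

/-- **Equivariance** (100 lines). PROOF. `fv (s • v) i = fv v (s⁻¹ i)` (`fv_smul`); reindex all sums over `i` (`Equiv.sum_comp`): `Sm (fv (s • v)) w = Sm (fv v) w`, `Pm (fv (s • v)) w i = Pm (fv v) w (s⁻¹ i)`, the same for `Qm, av, bv, cl, cm`. Last two parts: continuity of `(v, w) ↦ Sm (fv v) w` (finite sums, `ro` is continuous: `innerSL`, `ContinuousLinearMap.smulRight`), then of `av, bv, Pm, Qm`
(evaluation of operators is continuous: `Continuous.clm_apply`). -/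
def SEqv : Prop :=
  (∀ (s : Equiv.Perm (Fin 5)) (v : RS) (w : WV) (i : Fin 5), Pm (fv (s • v)) w i = Pm (fv v) w (s⁻¹ i) ∧
    Qm (fv (s • v)) w i = Qm (fv v) w (s⁻¹ i) ∧ av (fv (s • v)) w i = av (fv v) w (s⁻¹ i) ∧
    bv (fv (s • v)) w i = bv (fv v) w (s⁻¹ i)) ∧
  (∀ (s : Equiv.Perm (Fin 5)) (v : RS) (x : Sph 3) (i : Fin 5), cl (fv (s • v)) x i = cl (fv v) x (s⁻¹ i) ∧
    cl (fun j => -fv (s • v) j) x i = cl (fun j => -fv v j) x (s⁻¹ i)) ∧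
  (∀ i, Continuous (fun s : RS × WV => Pm (fv s.1) s.2 i) ∧ Continuous (fun s : RS × WV => Qm (fv s.1) s.2 i) ∧
    Continuous (fun s : RS × WV => av (fv s.1) s.2 i) ∧ Continuous (fun s : RS × WV => bv (fv s.1) s.2 i)) ∧
  ∀ (x : Sph 3) (i : Fin 5), Continuous (fun v : RS => cl (fv v) x i) ∧
    Continuous (fun v : RS => cl (fun j => -fv v j) x i)

/-- **Straight paths** (70 lines). PROOF. `P = (1 - t) x + t a`, `Q = (1 - t) y + t b`. `⟪P, Q⟫ = (1 - t) ⟪x, y⟫ + t ⟪a, b⟫ - t (1 - t) ⟪x - a, y - b⟫ ≤ (1 - t) (c - η) + t (c - ε / 2) + t Δ^2`. `‖P‖^2 = (1 - t) + t ‖a‖^2 - t (1 - t) ‖x - a‖^2 ≥ 1 - t Δ^2`, so `‖P‖ ≥ 1 - t Δ^2 ≥ 1 / 2` (`0 ≤ t Δ^2 ≤ 1 / 12`), the same for `Q`. `(c - m) ‖P‖ ‖Q‖ ≥ (c - m) (1 - 2 t Δ^2) ≥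
c - m - 2 t Δ^2`. It is enough that `m ≤ (1 - t) η + t ε / 2 - 3 t Δ^2`, and the right side is `≥ (1 - t) η + t ε / 4 ≥ m`. -/
def SPath : Prop :=
  ∀ (x y a b : Eu 3) (c ε η m Δ t : ℝ), ‖x‖ = 1 → ‖y‖ = 1 → 1 ≤ ‖a‖ → 1 ≤ ‖b‖ → ‖x - a‖ ≤ Δ → ‖y - b‖ ≤ Δ →
    12 * Δ ^ 2 ≤ ε → ε ≤ 1 → c ≤ 1 → 0 ≤ m → m ≤ c → m ≤ η → m ≤ ε / 4 → 0 ≤ t → t ≤ 1 → ⟪x, y⟫ ≤ c - η →
    ⟪a, b⟫ ≤ c - ε / 2 →
    1 / 2 ≤ ‖(1 - t) • x + t • a‖ ∧ 1 / 2 ≤ ‖(1 - t) • y + t • b‖ ∧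
    ⟪(1 - t) • x + t • a, (1 - t) • y + t • b⟫ ≤ (c - m) * (‖(1 - t) • x + t • a‖ * ‖(1 - t) • y + t • b‖)

/-- **The adapted simplex is continuous** (from `SYT`, `SQuo`, `SQuo2`, `SRelC`, `SGauU`; 60 lines). PROOF. `SQuo` for `X = YS ..` (compact: a closed subset, `Dz` is continuous), `Y = RS`, `R = {(z, v) | Rel z.1 v}` (closed: `SRelC`; every `z` has a `v`: `Loc`, `SYT`), `φ (z, v) = mkR v`; `φ` is constant on the fibres by `SGauU` (`v' = s • v`, `SQuo2`). -/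
def SGm : Prop :=
  ∀ κ κ' ε : ℝ, Loc κ κ' ε → ∀ T : Finset (Sph 3), ∃ g : C(YS (1 / 4 + ε) T (κ * √ε), RSq),
    ∀ (z : YS (1 / 4 + ε) T (κ * √ε)) (v : RS), Rel z.1 v → g z = mkR v

/-- **Stage 1** (from `SYT`, `SSmP`; 100 lines). PROOF. `p (t, z) = (1 - t) • yp z + t • sm ..`, `q (t, z)` similarly; classification part of `SYT`. A point `v` of the support of `p (t, z)` is in the support of `yp z` or (`SSmP`, `nmz x = x`) at distance `< ρ` from such a point; the same for `q`; so `⟪v, v'⟫ ≤ c - m + 2 ρ` with strict inequality if one of the points is moved, and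
`≤ c - m < c` otherwise (`m > 0`). Coordinates are continuous: `sm .. v = ∑_x ∑_b if u b = v then z.1.1 x * φ b x else 0`. The sum of the weights is `1`. -/
def SB1 : Prop :=
  ∀ (c ρ m : ℝ) (T T' : Finset (Sph 3)) (B : Type) [Fintype B] (u : B → Sph 3) (φ : B → Eu 3 → ℝ), 0 < ρ →
    NetV ρ u φ → 2 * ρ ≤ m →
    (∀ v ∈ T, ∀ w ∈ T, ⟪(v : Eu 3), (w : Eu 3)⟫ < c → ⟪(v : Eu 3), (w : Eu 3)⟫ ≤ c - m) → T ⊆ T' → (∀ b, u b ∈ T') →
    ∃ k : C(unitInterval × YT c T, YT c T'), ∀ (t : unitInterval) (z : YT c T),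
      yp (k (t, z)) = (1 - (t : ℝ)) • yp z + (t : ℝ) • sm u φ z.1.1 (fun x : T => ((x : Sph 3) : Eu 3)) ∧
      yq (k (t, z)) = (1 - (t : ℝ)) • yq z + (t : ℝ) • sm u φ z.1.2 (fun x : T => ((x : Sph 3) : Eu 3))

/-- **Stage 2** (from `SYT`, `SMo`, `SSmC`, `SQuo`, `SRelC`, `SGauU`, `SClu`, `SEqv`, `SPath`; 200 lines). PROOF. `R = {((t, z), v) | Rel z.1 v}`, a closed subset of `(unitInterval × YS) × RS`; every `(t, z)` has a `v` (`Loc`). `SSmC` on the space `R` with `A = B = T`: weights `z.1.1 x`, `z.1.2 y`, vectors `P x = (1 - t) x + t ∑ cl (fv v) x i • av (fv v) (Dz z) i`, `Q y` similarly with `- fv v` and `bv`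
(continuous: `SEqv`, `SYT`). If `0 < z.1.1 x` then (`Gd`, `SClu`) `∑ cl .. • av .. = av (fv v) (Dz z) i` for the `i` with `‖x - fv v i‖ ≤ et`, and `‖x - av i‖ ≤ κ' ε` (`Loc`); the same for `y`. `⟪x, y⟫ < c` (`SYT`), so `≤ c - m`. `SPath` with `Δ = κ' ε`, `η = m`, `a = av i`, `b = bv j` (`Loc`, `Dz z ∈ W0 3` by `SMo`) gives the hypotheses of `SSmC`. `k` on `R` is constant on the
fibres (`SGauU`: `v' = s • v`; `SEqv`, reindexing the sums, last part of `SYT`); `SQuo`. -/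
def SB2 : Prop :=
  ∀ (κ κ' ε ρ m : ℝ) (T T' : Finset (Sph 3)) (B : Type) [Fintype B] (u : B → Sph 3) (φ : B → Eu 3 → ℝ), Loc κ κ' ε →
    0 < ρ → NetV ρ u φ → 2 * ρ ≤ m → m ≤ ε / 4 →
    (∀ v ∈ T, ∀ w ∈ T, ⟪(v : Eu 3), (w : Eu 3)⟫ < 1 / 4 + ε → ⟪(v : Eu 3), (w : Eu 3)⟫ ≤ 1 / 4 + ε - m) →
    (∀ b, u b ∈ T') →
    ∃ k : C(unitInterval × YS (1 / 4 + ε) T (κ * √ε), YT (1 / 4 + ε) T'),
      ∀ (t : unitInterval) (z : YS (1 / 4 + ε) T (κ * √ε)) (v : RS), Rel z.1 v →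
        yp (k (t, z)) = sm u φ z.1.1.1 (fun x : T => (1 - (t : ℝ)) • ((x : Sph 3) : Eu 3) +
          (t : ℝ) • ∑ i, cl (fv v) x i • av (fv v) (Dz z.1) i) ∧
        yq (k (t, z)) = sm u φ z.1.1.2 (fun x : T => (1 - (t : ℝ)) • ((x : Sph 3) : Eu 3) +
          (t : ℝ) • ∑ i, cl (fun j => -fv v j) x i • bv (fv v) (Dz z.1) i)

/-- **Stage 3** (from `SYT`, `SSmC`, `SQuo`, `SRelC`, `SGauU`, `SClu`, `SEqv`, `SMo`; 150 lines). PROOF. As for `SB2`, with `A = B = Fin 5`: weights `(1 - t) cm (fv v) (yp z) i + t Pm (fv v) (Dz z) i` (nonnegative, sum `1`: `SClu`, `Loc`; continuous: `SRelC`, `SEqv`), vectors `av (fv v) (Dz z) i`, norms `≥ 1`, `⟪av i, bv j⟫ ≤ c - ε / 2 ≤ (c - m) ‖av i‖ ‖bv j‖`. -/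
def SB3 : Prop :=
  ∀ (κ κ' ε ρ m : ℝ) (T T' : Finset (Sph 3)) (B : Type) [Fintype B] (u : B → Sph 3) (φ : B → Eu 3 → ℝ), Loc κ κ' ε →
    0 < ρ → NetV ρ u φ → 2 * ρ ≤ m → m ≤ ε / 4 → (∀ b, u b ∈ T') →
    ∃ k : C(unitInterval × YS (1 / 4 + ε) T (κ * √ε), YT (1 / 4 + ε) T'),
      ∀ (t : unitInterval) (z : YS (1 / 4 + ε) T (κ * √ε)) (v : RS), Rel z.1 v →
        yp (k (t, z)) = sm u φ (fun i => (1 - (t : ℝ)) * cm (fv v) (yp z.1) i + (t : ℝ) * Pm (fv v) (Dz z.1) i)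
          (fun i => av (fv v) (Dz z.1) i) ∧
        yq (k (t, z)) = sm u φ (fun i => (1 - (t : ℝ)) * cm (fun j => -fv v j) (yq z.1) i +
          (t : ℝ) * Qm (fv v) (Dz z.1) i) (fun i => bv (fv v) (Dz z.1) i)

/-- **The model map** (from `SYT`, `SSmC`, `SQuo2`, `SEqv`, `SSmP`; 120 lines). PROOF. `SSmC` on the space `RS × BW r` with the weights `Pm (fv v) w i`, `Qm` and the vectors `av`, `bv` (`Loc`: third part), then `SQuo2` (`SEqv`; reindexing). Estimate: `SSmP` for both weights (errors `ρ`, `2 ρ`) and the last part of `Loc`: `κ' ε + 4 ρ ≤ 2 κ' ε` (`4 ρ ≤ 2 m ≤ ε`); every element of `RSq` is `mkR v`. -/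
def SB4 : Prop :=
  ∀ (κ κ' ε ρ m : ℝ) (T' : Finset (Sph 3)) (B : Type) [Fintype B] (u : B → Sph 3) (φ : B → Eu 3 → ℝ), Loc κ κ' ε →
    0 < ρ → NetV ρ u φ → 2 * ρ ≤ m → m ≤ ε / 4 → (∀ b, u b ∈ T') →
    ∃ md : C(RSq × BW (κ * √ε), YT (1 / 4 + ε) T'), (∀ (v : RS) (w : BW (κ * √ε)),
        yp (md (mkR v, w)) = sm u φ (fun i => Pm (fv v) w.1 i) (fun i => av (fv v) w.1 i) ∧
        yq (md (mkR v, w)) = sm u φ (fun i => Qm (fv v) w.1 i) (fun i => bv (fv v) w.1 i)) ∧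
      ∀ A w, ‖Dz (md (A, w)) - w.1‖ ≤ 2 * κ' * ε

/-- **The difference of the moments along the stages** (from `SYT`, `SMl`, `SSmP`, `SClu`, `SMo`; 200 lines). PROOF. `bar`, `mo` are linear. `bar (yp z) = ∑_(x : T) z.1.1 x • x`, `mo (yp z) = ∑ z.1.1 x • tp x` (`Finsupp.sum_of_support_subset`). (1) `SSmP` (`nmz x = x`): each of `bar`, `mo` of the smoothed weight differs by `≤ 2 ρ`; two weights: `≤ 4 ρ`, and the expression is affine in `t`. (2) `SSmP`, then `SMl`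
with `x' = nmz (P x)`, `‖nmz (P x) - x‖ ≤ 2 ‖P x - x‖ ≤ 2 t κ' ε` (`P x - x = t (av i - x)` for `0 < z.1.1 x`, as in `SB2`; `1 / 2 ≤ ‖P x‖`): each difference is `≤ 2 ρ + 4 κ' ε`, two weights. (3) `SSmP`: `bar` is `∑_i (..) nmz (av i)` up to `ρ`; `∑_i cm i • nmz (av i) = ∑_x z.1.1 x • nmz (av (i x))`, and `‖nmz (av (i x)) - x‖ ≤ 2 κ' ε`, so it is within `2 κ' ε` of `bar (yp z)`, for `mo`
within `4 κ' ε`; the change of the weights is `≤ t ∑ |cm i - Pm i| ≤ 5 κ' ε`. Total `≤ 2 (2 ρ + 9 κ' ε) ≤ 30 κ' ε` (`4 ρ ≤ ε ≤ κ' ε`). -/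
def SDst : Prop :=
  ∀ (κ κ' ε ρ : ℝ) (T : Finset (Sph 3)) (B : Type) [Fintype B] (u : B → Sph 3) (φ : B → Eu 3 → ℝ), Loc κ κ' ε →
    0 < ρ → NetV ρ u φ → 8 * ρ ≤ ε → ∀ (z : YS (1 / 4 + ε) T (κ * √ε)) (v : RS), Rel z.1 v →
    ∀ t : ℝ, 0 ≤ t → t ≤ 1 →
    ‖Dm 1 ((1 - t) • yp z.1 + t • sm u φ z.1.1.1 (fun x : T => ((x : Sph 3) : Eu 3)))
        ((1 - t) • yq z.1 + t • sm u φ z.1.1.2 (fun x : T => ((x : Sph 3) : Eu 3))) - Dz z.1‖ ≤ 30 * κ' * ε ∧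
    ‖Dm 1 (sm u φ z.1.1.1 (fun x : T => (1 - t) • ((x : Sph 3) : Eu 3) +
          t • ∑ i, cl (fv v) x i • av (fv v) (Dz z.1) i))
        (sm u φ z.1.1.2 (fun x : T => (1 - t) • ((x : Sph 3) : Eu 3) +
          t • ∑ i, cl (fun j => -fv v j) x i • bv (fv v) (Dz z.1) i)) - Dz z.1‖ ≤ 30 * κ' * ε ∧
    ‖Dm 1 (sm u φ (fun i => (1 - t) * cm (fv v) (yp z.1) i + t * Pm (fv v) (Dz z.1) i)
          (fun i => av (fv v) (Dz z.1) i))
        (sm u φ (fun i => (1 - t) * cm (fun j => -fv v j) (yq z.1) i + t * Qm (fv v) (Dz z.1) i)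
          (fun i => bv (fv v) (Dz z.1) i)) - Dz z.1‖ ≤ 30 * κ' * ε

/-- **THE PAIR HOMOTOPY** (from `SYT`, `SNetV`, `SGm`, `SB1`, `SB2`, `SB3`, `SB4`, `SDst`, `SClu`; 200 lines). PROOF. `c = 1 / 4 + ε`. `m > 0` with `m ≤ ε / 4` and `⟪v, w⟫ ≤ c - m` for all `v, w ∈ T` with `⟪v, w⟫ < c` (finitely many). `B, u, φ` from `SNetV` for `ρ = m / 2` (so `8 ρ ≤ ε`), `T' = T ∪ image u`. `g` from `SGm`, `k₁, k₂, k₃` from `SB1, SB2, SB3` (`k₁` restricted to `YS`), `md` from `SB4`.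
MATCHING (each `z` has a `v` with `Rel z.1 v`: `Loc`, `SYT`; last part of `SYT`): `k₁ (1, z) = k₂ (0, z)`; `k₂ (1, z) = k₃ (0, z)`: for `0 < z.1.1 x` the vector `∑ cl x i • av i` is `av (i x)` (`SClu`), `∑_x z.1.1 x φ b (av (i x)) = ∑_i cm i φ b (av i)` (compare the coefficients of `single (u b)`; terms with `z.1.1 x = 0` vanish); `k₃ (1, z) = md (g z, Dz z)` (`g z = mkR v`). The three maps are
homotopies `f₀ ~ f₁ ~ f₂ ~ f₃` of maps `YS → YT c T'` with the property `P f = ∀ z, ‖Dz (f z) - Dz z‖ ≤ 30 κ' ε` for all times (`SDst`): `ContinuousMap.HomotopyWith`, `HomotopyWith.trans` twice. -/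
def SHB : Prop :=
  ∀ κ κ' ε : ℝ, Loc κ κ' ε → ∀ T : Finset (Sph 3), ∃ (T' : Finset (Sph 3))
    (g : C(YS (1 / 4 + ε) T (κ * √ε), RSq)) (md : C(RSq × BW (κ * √ε), YT (1 / 4 + ε) T'))
    (k : C(unitInterval × YS (1 / 4 + ε) T (κ * √ε), YT (1 / 4 + ε) T')), T ⊆ T' ∧
    (∀ z, yp (k (0, z)) = yp z.1 ∧ yq (k (0, z)) = yq z.1) ∧
    (∀ (z : YS (1 / 4 + ε) T (κ * √ε)) (h : Dz z.1 ∈ W0 3), k (1, z) = md (g z, ⟨Dz z.1, h, z.2⟩)) ∧
    (∀ t z, ‖Dz (k (t, z)) - Dz z.1‖ ≤ 30 * κ' * ε) ∧ ∀ A w, ‖Dz (md (A, w)) - w.1‖ ≤ 2 * κ' * ε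

end Pool.Agent.MPaafd8a
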