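import Pool.Agent.Lib.MP_aafd8a_gt_D.SpecB

/-!
# MP_aafd8a_gt, disproof for `n = 3`, block (A-i): statements, third part (pairs far from the simplices, assembly)

`SFar`: pairs at level `1 / 4 + ε` with `‖Dm 1 p q‖ ≥ 80 √ε` have `p` null homotopic, with a fixed end point. PROOF IDEA. Such a pair can be moved to the level `1 / 4 - ε` (`SPStep`), then down to a small level (`SDown`), where `p` is homotopic to `M (Dm 1 p q)`, `M : W1 → K` a map into near maxima of quadratic functions (`SM0`); the class of `Dm 1 p q` in `W1` does not change (`SDCl`).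
So `p ≃ M ∘ D` (`SHA`). For the model pairs of `SHB` at one simplex this shows that `M` is null homotopic. Assembly: `SPhi`, `SA1`. Conventions as in `SpecA.lean`.
-/

set_option autoImplicit false

open Topology RealInnerProductSpace

namespace Pool.Agent.MPaafd8a

/-- **The moments of families** (from `SCrd`, `SCpt`, `SMo`, `SMom`; 80 lines). PROOF. All supports are contained in a finite set (`SCpt`, `isCompact_range`), so `bar`, `mo` are finite sums of coordinates (`SCrd`) times fixed vectors. `SMo`. If `Dm 1 p q = 0` then `gq p q = 0`, a contradiction to `SMom` (ii) (`c2 3 = 1 / 4`). -/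
def SDc : Prop :=
  ∀ (K : AbstractSimplicialComplex (Sph 3)) (X : Type) [TopologicalSpace X] [CompactSpace X] (p q : C(X, Geo K)),
    Continuous (fun x => Dm 1 (p x).1 (q x).1) ∧ (∀ x, Dm 1 (p x).1 (q x).1 ∈ W0 3) ∧
    ∀ x, Cpt2 (1 / 4) (p x).1 (q x).1 → Dm 1 (p x).1 (q x).1 ≠ 0

/-- **The map of near maxima** (from `SHom`, `SMk`, `SNet`, `SNear`, `SFin`; 200 lines). PROOF as in the second half of the proof of `SSect` (module `Sect.lean` on main, whose helper lemmas can be used by import). `η, ε, c₀'` from `SFin` for `n = 3` and `c`, `c₀ = min c₀' (min c (1 / 5))`, `ε₁` from `SNear` for `c`, `ε₃ = min ε₁ (ε / 4)`. For `w ∈ W1` let `w_η = (w.1, η • w.2) ∈ W0 3`, nonzero.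
Net `B, u, χ` of mesh `ε₃ / 6`, `m w = max_b qd w_η (u b)`, `r_b w = max 0 (qd w_η (u b) - m w + (ε₃ / 2) ‖w_η‖)`, continuous, with positive sum; `M` from `SMk` for the space `W1`, the weights `r_b w / ∑` and the vertices `u b`; `r_b w > 0` implies `qd w_η z' ≤ qd w_η (u b) + ε₃ ‖w_η‖` for all `z'`; faces: `SNear`. HOMOTOPY `p' ~ M ∘ d`: `SHom`; the elements are `v` with
`0 < p' x v` or `u b` with `r_b (d x) > 0`; `(d x)_η = Dm η (p x) (q x)`, of norm `≤ 4`, so `ε₃ ‖..‖ ≤ ε` and the `y` of `SFin` (`0 < q x y`) is a witness: `⟪v, y⟫ < c₀ ≤ c` and `⟪u b, y⟫ < c`. (`Cpt2 c₀` implies `Cpt2 c₀'`.) -/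
def SM0 : Prop :=
  ∀ (c : ℝ) (hc : -1 < c), 0 < c → ∃ (M : C(W1, Geo (capK 3 c hc))) (c₀ : ℝ) (h₀ : -1 < c₀), 0 < c₀ ∧ c₀ ≤ c ∧
    c₀ ≤ 1 / 5 ∧ ∀ (X : Type) [MetricSpace X] [CompactSpace X] (p q : C(X, Geo (capK 3 c₀ h₀)))
      (p' : C(X, Geo (capK 3 c hc))) (d : C(X, W1)), (∀ x, Comp c₀ (p x) (q x)) → (∀ x, (p' x).1 = (p x).1) →
      (∀ x, (d x).1 = Dm 1 (p x).1 (q x).1) → p'.Homotopic (M.comp d)

/-- **The class of the moments** (from `SCut`, `SDc`, `SMom`, `SMo`; 180 lines). PROOF. Let `P : C(unitInterval × X, Geo (capK 3 c' h'))` be the homotopy from `p` to `p₁`; `f, g` from `SCut` for `P` (`unitInterval × X` is compact metric): supports of `f (t, x)` in those of `P (t, x)`, `Comp c' (f ..) (g ..)`. `(t, x) ↦ Dm 1 (f (t, x)) (g (t, x))` is a map to `W1` (`SDc`, `Comp c'` implies `Cpt2 (1 / 4)`).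
Remain the homotopies at `t = 0` (and in the same way at `t = 1`): `(p, q)`, `(f₀, q)`, `(f₀, g₀)`: LEMMA: if `Pw p, Pw p', Pw q`, `Cpt2 (1 / 4) p q`, `Cpt2 (1 / 4) p' q` then `(1 - t) Dm 1 p q + t Dm 1 p' q = Dm 1 ((1 - t) • p + t • p') q ≠ 0` (`SMom` (ii) for the weight `(1 - t) • p + t • p'`, whose support is in the union of the supports), and the same in the second argument. So the
straight line homotopies between `Dm 1 p q`, `Dm 1 f₀ q`, `Dm 1 f₀ g₀` are homotopies in `W1` (`W0 3` is a subspace). -/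
def SDCl : Prop :=
  ∀ (c' : ℝ) (h' : -1 < c'), c' ≤ 1 / 4 → ∀ (X : Type) [MetricSpace X] [CompactSpace X]
    (p q p₁ q₁ : C(X, Geo (capK 3 c' h'))) (d d₁ : C(X, W1)), (∀ x, Comp c' (p x) (q x)) →
    (∀ x, Comp c' (p₁ x) (q₁ x)) → p.Homotopic p₁ → (∀ x, (d x).1 = Dm 1 (p x).1 (q x).1) →
    (∀ x, (d₁ x).1 = Dm 1 (p₁ x).1 (q₁ x).1) → d.Homotopic d₁

/-- **Levels below `1 / 4`** (from `SSub`, `SHom`, `SCut`, `SDown`, `SDc`, `SM0`, `SDCl`; 150 lines). PROOF. `M, c₀` from `SM0`. Given `c' < 1 / 4`, `p, q`. If `c' ≤ c₀`: `SSub` gives `p̂, q̂ : C(X, Geo (capK 3 c₀ h₀))` with the same coordinates (`capFace_mono`), `Comp c₀`: `SM0`. Otherwise `SDown` (`n = 3`, `c2 3 = 1 / 4`) from `c'` to `c₀`: `f₀ : C(X, Geo (capK 3 c₀ h₀))`, `f₁` with the same coordinates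
and `p ~ f₁` at level `c'`. `f', q'` from `SCut` for `f₀`; `f'` as a map `f'₁` to `Geo (capK 3 c' h')` (`SSub`): `f₁ ~ f'₁` (`SHom`: supports of `f' x` are in those of `f₀ x`), `q'₁` similarly, `Comp c'`. `d' : C(X, W1)` for `(f', q')` (`SDc`). `SDCl` at level `c'`: `d ~ d'`. `SM0` for `(f', q')`: `f'` seen in `K_c` is homotopic to `M ∘ d'`. The homotopies at level `c'` give homotopies in
`K_c` (`SSub` for the space `unitInterval × X`). Together `p' ~ f' ~ M ∘ d' ~ M ∘ d` in `K_c`. -/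
def SDM : Prop :=
  ∀ (c : ℝ) (hc : -1 < c), 1 / 4 < c → ∃ M : C(W1, Geo (capK 3 c hc)), ∀ (c' : ℝ) (h' : -1 < c'), c' < 1 / 4 →
    ∀ (X : Type) [MetricSpace X] [CompactSpace X] (p q : C(X, Geo (capK 3 c' h'))) (p' : C(X, Geo (capK 3 c hc)))
      (d : C(X, W1)), (∀ x, Comp c' (p x) (q x)) → (∀ x, (p' x).1 = (p x).1) →
      (∀ x, (d x).1 = Dm 1 (p x).1 (q x).1) → p'.Homotopic (M.comp d)

/-- **One step down for pairs** (from `SCrd`, `SCpt`, `SHom`, `SMk`, `SNet`, `SSub`, `SMo`, `SPt`, `SIp`; 300 lines; like `StepD.lean` on main). PROOF. `c = 1 / 4 + ε`. Write `p = (p x).1`, `q = (q x).1`, `w = Dm 1 p q`, `G = gq p q`, `E = ex p G - ex q G = ipw w w ≥ (3 / 4) ‖w‖^2` (`SIp`), `‖w‖ ≤ 2`. `T` a finite set containing all supports, `η₀ > 0` with `⟪v, y⟫ ≤ c - η₀` for all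
`v, y ∈ T` with `⟪v, y⟫ < c`. WEIGHTS `A v = p v * max 0 (G v - ex p G + E / 8)`, `B y = q y * max 0 (ex q G + E / 8 - G y)`, continuous in `x`, with positive sums (`SMo`: some `v`, `0 < p v`, `G v ≥ ex p G`; `E > 0`); `Â, B̂` normalised. If `A v > 0`, `B y > 0` then `G v - G y ≥ E - 2 E / 8 = (3 / 4) E ≥ (9 / 16) ‖w‖^2`. VECTORS `ξ z = (1 / c) • (mo p - mo q) z + ((3 / 4) / (1 + c)) • (bar p - bar q)`,
`‖ξ z‖ ≤ 4.6 ‖w‖ ≤ 5 ‖w‖ =: C`; for `ξ = ξ v`, `ζ = ξ y` the number `κ` of `SPt` is `G v - G y`. `s₀ = 1 / 200` (`s₀ C ≤ 1 / 2`). `P s v = nmz (v + s ξ v)`, `R s y = nmz (y - s ξ y)`, `s ∈ [0, s₀]`. `SPt`: `2 s^2 C^2 = 50 s^2 ‖w‖^2 ≤ s κ / 2` for `s ≤ s₀` (`50 s ≤ 1 / 4 ≤ 9 / 32`), so `⟪P s v, R s y⟫ ≤ c - (4 / 9) η₀`; for `s = s₀`: `s κ - 2 s^2 C^2 ≥ (0.0028 - 0.00125) ‖w‖^2 ≥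
‖w‖^2 / 800 ≥ 8 ε`, so `⟪P s₀ v, R s₀ y⟫ ≤ c - (32 / 9) ε ≤ 1 / 4 - (5 / 2) ε`. NET `χ` of mesh `ρ = min ((4 / 9) η₀) (ε / 2)`. `F : C(unitInterval × X, Geo (capK 3 c _))` from `SMk`: weights `∑_v Â v χ b (P (t s₀) v)`; witness `R (t s₀) y` for any `y` with `B y > 0`. `p''`: the same weights at `t = 1` with values in `Geo (capK 3 (1 / 4 - ε) _)` (`⟪u b, R s₀ y⟫ ≤ 1 / 4 - (5 / 2) ε + ρ`); `q''`:
weights `∑_y B̂ y χ b (R s₀ y)` (witness `P s₀ v`); `Comp`: `1 / 4 - (5 / 2) ε + 2 ρ < 1 / 4 - ε`. HOMOTOPIES: `p ~` (weights `Â`) `~ F (0, ·) ~ F (1, ·) = p₁` as in `StepD.lean` (`SHom`; witness a `y` with `B y > 0`). LAST: `ipw (Dm 1 p'' q'') w = ex p'' G - ex q'' G` (`SIp`); `ex p'' G = ∑_v Â v ∑_b χ b (P v) G (u b)`, `|G z - G z'| ≤ (2 ‖w.2‖ + (3 / 4) ‖w.1‖) ‖z - z'‖ ≤ 2.75 ‖w‖ ‖z - z'‖`,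
`‖u b - v‖ ≤ ρ + 2 s₀ C ≤ ρ + ‖w‖ / 20`, so `ex p'' G ≥ ex Â G - 0.14 ‖w‖^2` (`ρ ≤ ε ≤ ‖w‖^2 / 6400`), the same for `q''`, and `ex Â G - ex B̂ G ≥ (3 / 4) E ≥ (9 / 16) ‖w‖^2 > 0.28 ‖w‖^2`. (`SMk` only gives the supports: build the maps directly with the formula for the coordinates, or use `SMk` and the uniqueness; a version of `SMk` with the coordinates `(F x).1 v = ∑ a, if u a = v then p a x else 0` is in
the proof of `Mk.lean`.) -/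
def SPStep : Prop :=
  ∀ (ε : ℝ) (hc : -1 < 1 / 4 + ε) (h' : -1 < 1 / 4 - ε), 0 < ε → ε ≤ 1 / 1000 →
    ∀ (X : Type) [MetricSpace X] [CompactSpace X] (p q : C(X, Geo (capK 3 (1 / 4 + ε) hc))),
      (∀ x, Comp (1 / 4 + ε) (p x) (q x)) → (∀ x, 80 * √ε ≤ ‖Dm 1 (p x).1 (q x).1‖) →
      ∃ (p'' q'' : C(X, Geo (capK 3 (1 / 4 - ε) h'))) (p₁ : C(X, Geo (capK 3 (1 / 4 + ε) hc))),
        (∀ x, Comp (1 / 4 - ε) (p'' x) (q'' x)) ∧ (∀ x, (p₁ x).1 = (p'' x).1) ∧ p.Homotopic p₁ ∧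
        ∀ x, 0 < ipw (Dm 1 (p'' x).1 (q'' x).1) (Dm 1 (p x).1 (q x).1)

/-- **Far pairs** (from `SIp`, `SDc`, `SDM`, `SPStep`; 100 lines). PROOF. `M` from `SDM`. `p'', q'', p₁` from `SPStep`, `d''` for `(p'', q'')` (`SDc`, `Comp (1 / 4 - ε)`). `SDM`: `p₁ ~ M ∘ d''`. `d'' ~ d` by the straight line in `W0 3`: `ipw ((1 - t) d'' + t d) d = (1 - t) ipw d'' d + t ipw d d > 0` (`SIp`), so it is never `0`. -/
def SHA : Prop :=
  ∀ (ε : ℝ) (hc : -1 < 1 / 4 + ε), 0 < ε → ε ≤ 1 / 1000 → ∃ M : C(W1, Geo (capK 3 (1 / 4 + ε) hc)),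
    ∀ (X : Type) [MetricSpace X] [CompactSpace X] (p q : C(X, Geo (capK 3 (1 / 4 + ε) hc))) (d : C(X, W1)),
      (∀ x, Comp (1 / 4 + ε) (p x) (q x)) → (∀ x, 80 * √ε ≤ ‖Dm 1 (p x).1 (q x).1‖) →
      (∀ x, (d x).1 = Dm 1 (p x).1 (q x).1) → p.Homotopic (M.comp d)

/-- **Far pairs are null homotopic** (from `SLoc`, `SHB`, `SYT`, `SDc`, `SHA`, `SEx5`; 200 lines). PROOF. `κ = 82`, `κ', ε₁` from `SLoc`, `ε₀ = min (min ε₁ (1 / 1000)) (1 / (4 κ'^2))`, so `2 κ' ε ≤ √ε` (`κ' ≥ 1`). `R = 82 √ε`. `M` from `SHA`. `md` from `SHB` for `T = ∅`, `A₀ = mkR v₀` (`SEx5`), `Sp = {w : WV // w ∈ W0 3 ∧ ‖w‖ = R}` (compact metric: closed and bounded in a finite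
dimensional space). `p w`, `q w`: the maps to `Geo` of `md (A₀, w)` (`SYT`), `w ∈ BW R`. On `Sp`: `‖Dz (md (A₀, w)) - w‖ ≤ 2 κ' ε ≤ √ε`, so `80 √ε ≤ ‖Dz ..‖`. `SHA` on `Sp`: `p ~ M ∘ d`, `d w = Dz (md (A₀, w))` (in `W0 3`: `SDc` or `SMo`, nonzero by the norm). `d ~ ι` (the inclusion `Sp → W1`) by the straight line (`‖w‖ = R > √ε ≥ ‖d w - w‖`). `p ~ const` on `Sp`: `(t, w) ↦ p ((1 - t) w)`.
So `M ∘ ι ~ const k₀`. `r : C(W1, Sp)`, `r w = (R / ‖w‖) w`; `ι ∘ r ~ id` by the straight line (positive multiples), so `M ~ (M ∘ ι) ∘ r ~ const k₀`. For arbitrary `p, q` as in `Far`: `d` from `SDc` (nonzero: the norm is `≥ 80 √ε > 0`), `SHA`: `p ~ M ∘ d ~ const k₀`. -/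
def SFar : Prop :=
  ∃ ε₀ : ℝ, 0 < ε₀ ∧ ∀ (ε : ℝ) (hc : -1 < 1 / 4 + ε), 0 < ε → ε < ε₀ →
    ∃ k₀ : Geo (capK 3 (1 / 4 + ε) hc), Far (1 / 4 + ε) hc (80 * √ε) k₀

/-- **The universal map** (from `SYT`; 120 lines). PROOF. `C = {z : YT c T // a ≤ ‖Dz z‖}` is compact metric (`Dz` is continuous). The maps to `Geo` (`SYT`) restricted to `C` satisfy the hypotheses of `Far` (`Cpt2 c`): a homotopy `L : C(unitInterval × C, Geo ..)`, `L (0, z)` with coordinates `yp z`, `L (1, z) = k₀`. On the space `Z = {ζ : ℝ × YT c T // ..}` put `Φ ζ = L (τ, ζ.2)` if `a ≤ ‖Dz ζ.2‖`,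
`τ` = the projection of `(ζ.1 - s / 2) / (s / 2)` to `[0, 1]`, and `Φ ζ =` the map of `yp ζ.2` if `ζ.1 ≤ s / 2`: two closed sets which cover `Z`; on the intersection `τ = 0` and both agree. If `s ≤ ζ.1` then `a ≤ ‖Dz ζ.2‖` and `τ = 1`. (`Set.piecewise`-style gluing: `IsClosed` cover of two sets, `ContinuousOn.union_of_isClosed` or `LocallyFinite.continuous`.) -/
def SPhi : Prop :=
  ∀ (c : ℝ) (hc : -1 < c) (a s : ℝ) (k₀ : Geo (capK 3 c hc)), 0 < s → Far c hc a k₀ → ∀ T : Finset (Sph 3),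
    ∃ Φ : C({ζ : ℝ × YT c T // ζ.1 ≤ s / 2 ∨ a ≤ ‖Dz ζ.2‖}, Geo (capK 3 c hc)),
      (∀ ζ, ζ.1.1 ≤ s / 2 → (Φ ζ).1 = yp ζ.1.2) ∧ ∀ ζ, s ≤ ζ.1.1 → Φ ζ = k₀

/-- **NORMAL FORM** (from `SCrd`, `SCpt`, `SHom`, `SCut`, `SDim`, `SMo`, `SYT`, `SLoc`, `SHB`, `SFar`, `SPhi`; `SNF` is `SA1`; 300 lines). PROOF. `Λ : W0 3 ≃L[ℝ] (Fin 13 → ℝ)` (`SDim`, `dm 3 = 13`), `κ₁, κ₂ ≥ 1` with `‖Λ w‖ ≤ κ₁ ‖w‖`, `‖w‖ ≤ κ₂ ‖Λ w‖`. `κ = 164 κ₁ κ₂`; `κ', ε₁` from `SLoc`, `ε₂` from `SFar`, `ε₀ = min (min ε₁ ε₂) (1 / (900 κ'^2))`: `30 κ' ε ≤ √ε`. `c = 1 / 4 + ε`, `s = 164 κ₁ √ε`,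
`ν w = ‖Λ w‖`: `ν w ≤ s` implies `‖w‖ ≤ κ √ε`; `s / 2 < ν w` implies `‖w‖ > 82 √ε`. `k₀` from `SFar`. Given `F : C(X, K)`, `X = CSph (i + 1)`: `p, q` from `SCut`, `F ~ p` (`SHom`: supports inside those of `F x`), `T` a finite set containing all supports (`SCpt`), `j : C(X, YT c T)` with `yp (j x) = (p x).1`, `yq (j x) = (q x).1`, `w x = Dz (j x) ∈ W0 3`, `D x = s⁻¹ • Λ (w x)`.
`‖D x‖ ≤ 1` iff `ν (w x) ≤ s`. `T', g₀, md, k` from `SHB`; `ι : C(YT c T, YT c T')` with the same `yp, yq` (`SYT`, `T ⊆ T'`), so `k (0, z) = ι z`. `Φ` from `SPhi` for `T'`, `a = 80 √ε`, `s`. `g z = g₀ ⟨j z, ..⟩` on `{‖D z‖ ≤ 1}`. `J (A, d) = Φ (s ‖d‖, md (A, Λ⁻¹ (s d)))` if `‖d‖ ≤ 1`, `k₀` if `1 ≤ ‖d‖` (defined: if `s ‖d‖ > s / 2` then `‖Dz (md ..)‖ ≥ 82 √ε - 2 κ' ε ≥ 80 √ε`; at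
`‖d‖ = 1` the value is `k₀`; continuous by gluing two closed sets). HOMOTOPY 1: `(t, x) ↦ Φ (min (ν (w x)) (s / 2 + t s / 2), ι (j x))`, at `t = 0` it is `p x`, at `t = 1` it is `Φ (min (ν (w x)) s, ι (j x))`. HOMOTOPY 2: `(t, x) ↦ Φ (ν (w x), k (t, j x))` if `ν (w x) ≤ s`, `k₀` if `s ≤ ν (w x)` (`‖Dz (k ..) - w x‖ ≤ 30 κ' ε ≤ √ε`): at `t = 0` it is the end of homotopy 1, at `t = 1` it is
`f x = Φ (ν (w x), md (g₀ (j x), w x)) = J (g x, D x)` for `‖D x‖ ≤ 1` and `k₀` for `1 ≤ ‖D x‖`. -/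
def SNF : Prop := SA1

end Pool.Agent.MPaafd8a
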